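import Pool.Agent.Work.MP_88992e_co.KUp

/-!
# The easy direction of Menger's theorem: a cut bounds `kappa`
-/

namespace Pool.Agent.AvgConn

open Finset
open scoped Classical

universe u

/-- The number of internally disjoint `u`-`v` paths is at most the number of vertices outside `A`
that have a neighbour in `A`, where `A` contains `u`, not `v`, and `u` is the only vertex of `A`
that can be adjacent to `v`. -/
theorem kappa_le_cut {V : Type u} [Fintype V] {G : SimpleGraph V} {u v : V} (huv : u ≠ v)
    {A : Finset V} (hu : u ∈ A) (hv : v ∉ A) (h : ∀ a ∈ A, G.Adj a v → a = u) :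
    kappa G u v ≤ #(nb G A) := by
  refine kappa_le_of_forall fun F hF => ?_
  have hex : ∀ P : G.Path u v, ∃ i, i < (P : G.Walk u v).length ∧
      (P : G.Walk u v).getVert i ∈ A ∧ (P : G.Walk u v).getVert (i + 1) ∉ A := by
    intro P
    by_contra hcon
    push Not at hcon
    have hall : ∀ i, i ≤ (P : G.Walk u v).length → (P : G.Walk u v).getVert i ∈ A := by
      intro i
      induction i with
      | zero => intro _; rwa [SimpleGraph.Walk.getVert_zero]
      | succ i ih => intro hi; exact hcon i (by omega) (ih (by omega))
    have := hall _ le_rfl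
    rw [SimpleGraph.Walk.getVert_length] at this
    exact hv this
  choose f hf1 hf2 hf3 using hex
  refine Finset.card_le_card_of_injOn (fun P => (P : G.Walk u v).getVert (f P + 1)) ?_ ?_
  · intro P _
    exact mem_coe.2 (by
      unfold nb
      rw [mem_filter]
      exact ⟨mem_univ _, hf3 P, _, hf2 P, SimpleGraph.Walk.adj_getVert_succ _ (hf1 P)⟩)
  · intro P hP Q hQ hPQ
    by_contra hne
    have h1 := hF P hP Q hQ hne _ (SimpleGraph.Walk.getVert_mem_support _ (f P + 1))
      (by
        have h2 : (P : G.Walk u v).getVert (f P + 1) = (Q : G.Walk u v).getVert (f Q + 1) := hPQ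
        rw [h2]; exact SimpleGraph.Walk.getVert_mem_support _ _)
    have hlen : ∀ R : G.Path u v, (R : G.Walk u v).getVert (f R + 1) = v →
        (R : G.Walk u v).length = 1 := by
      intro R hR
      have h3 : G.Adj ((R : G.Walk u v).getVert (f R)) ((R : G.Walk u v).getVert (f R + 1)) :=
        SimpleGraph.Walk.adj_getVert_succ _ (hf1 R)
      rw [hR] at h3
      have h4 := h _ (hf2 R) h3
      have h5 : f R = 0 := by
        have h6 : (R : G.Walk u v).getVert 0 = u := SimpleGraph.Walk.getVert_zero _
        exact R.2.getVert_injOn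
          (show f R ∈ {i | i ≤ (R : G.Walk u v).length} from (hf1 R).le)
          (show 0 ∈ {i | i ≤ (R : G.Walk u v).length} from Nat.zero_le _) (h4.trans h6.symm)
      rw [h5] at hR
      exact length_of_snd_eq huv R hR
    rcases h1 with h1 | h1
    · exact hf3 P (by rw [h1]; exact hu)
    · have h2 : (P : G.Walk u v).getVert (f P + 1) = (Q : G.Walk u v).getVert (f Q + 1) := hPQ
      exact hne (path_eq_of_length_one P Q (hlen P h1) (hlen Q (h2.symm.trans h1)))

end Pool.Agent.AvgConn
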