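import Pool.Agent.Work.MP_88992e_co.Fin1
import Pool.Agent.Work.MP_88992e_co.Cut

/-!
# Sharpness: degree sequences without ones whose value is not reached
-/

namespace Pool.Agent.AvgConn

open Finset
open scoped Classical

section

variable {V : Type*} [Fintype V]

/-- the number of neighbours in `X` -/
noncomputable def nin (G : SimpleGraph V) (X : Finset V) (v : V) : ℕ := #{w ∈ X | G.Adj v w}

lemma nin_split (G : SimpleGraph V) (K : Finset V) (v : V) :
    deg G v = nin G K v + nin G Kᶜ v := by
  rw [deg_eq, nin, nin, ← card_union_of_disjoint]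
  · congr 1
    ext w
    simp only [mem_filter, mem_univ, true_and, mem_union, mem_compl]
    tauto
  · rw [Finset.disjoint_left]
    intro w h1 h2
    simp only [mem_filter, mem_compl] at h1 h2
    exact h2.1 h1.1

omit [Fintype V] in
lemma nin_double (G : SimpleGraph V) (X Y : Finset V) :
    ∑ v ∈ X, nin G Y v = ∑ v ∈ Y, nin G X v := by
  unfold nin
  simp only [card_filter]
  rw [sum_comm]
  refine sum_congr rfl fun y _ => sum_congr rfl fun x _ => ?_
  rw [G.adj_comm]

/-- the structure of the realisations -/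
lemma sh_struct {G : SimpleGraph V} {K : Finset V} {h q : ℕ} (hK : #K = h) (hKc : #Kᶜ = h * q)
    (h1 : ∀ v ∈ K, deg G v = h - 1 + 3 * q) (h2 : ∀ v ∈ Kᶜ, deg G v = 3) :
    ∀ w ∈ Kᶜ, nin G K w = 3 ∧ nin G Kᶜ w = 0 := by
  have e1 : ∑ v ∈ K, deg G v = h * (h - 1 + 3 * q) := by
    rw [sum_congr rfl h1, sum_const, hK, smul_eq_mul]
  have e2 : ∑ v ∈ K, deg G v = ∑ v ∈ K, nin G K v + ∑ v ∈ Kᶜ, nin G K v := by
    rw [sum_congr rfl fun v _ => nin_split G K v, sum_add_distrib, nin_double G K Kᶜ]
  have e3 : ∑ v ∈ K, nin G K v ≤ h * (h - 1) := by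
    have : ∀ v ∈ K, nin G K v ≤ h - 1 := by
      intro v hv
      rw [← hK, ← card_erase_of_mem hv]
      apply card_le_card
      intro w hw
      rw [mem_filter] at hw
      rw [mem_erase]
      exact ⟨(G.ne_of_adj hw.2).symm, hw.1⟩
    refine (sum_le_sum this).trans ?_
    rw [sum_const, hK, smul_eq_mul]
  have h3 : ∀ v ∈ Kᶜ, nin G K v ≤ 3 := by
    intro v hv
    have := nin_split G K v
    rw [h2 v hv] at this
    omega
  have e4 : ∑ v ∈ Kᶜ, nin G K v = ∑ v ∈ Kᶜ, 3 := by
    apply le_antisymm (sum_le_sum h3)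
    rw [sum_const, hKc, smul_eq_mul]
    have : h * (h - 1 + 3 * q) = h * (h - 1) + h * q * 3 := by ring
    omega
  have h5 := (sum_eq_sum_iff_of_le h3).1 e4
  intro w hw
  refine ⟨h5 w hw, ?_⟩
  have := nin_split G K w
  rw [h2 w hw, h5 w hw] at this
  omega

lemma sh_kappa_le_deg (G : SimpleGraph V) {u v : V} (huv : u ≠ v) : kappa G u v ≤ deg G u := by
  refine (kappa_le_cut huv (mem_singleton_self u) (by simpa using huv.symm) ?_).trans ?_
  · intro a ha _
    exact mem_singleton.1 ha
  · rw [deg_eq]
    apply card_le_card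
    intro y hy
    simp only [nb, mem_filter, mem_univ, true_and, mem_singleton, exists_eq_left] at hy ⊢
    exact hy.2

/-- the cut around `u` -/
lemma sh_kappa_le {G : SimpleGraph V} {K : Finset V} {u v : V} (huv : u ≠ v) (hu : u ∈ K)
    (hv : v ∈ K) (hB : ∀ w ∈ Kᶜ, nin G Kᶜ w = 0) :
    kappa G u v ≤ (#K - 1) + #{x ∈ Kᶜ | G.Adj x u ∧ G.Adj x v} := by
  have hB' : ∀ x ∉ K, ∀ y ∉ K, ¬ G.Adj x y := by
    intro x hx y hy hxy
    have h1 := hB x (mem_compl.2 hx)
    rw [nin, card_eq_zero] at h1
    have : y ∈ ({w ∈ Kᶜ | G.Adj x w} : Finset V) := mem_filter.2 ⟨mem_compl.2 hy, hxy⟩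
    rw [h1] at this
    exact absurd this (notMem_empty _)
  refine (kappa_le_cut (A := insert u {x ∈ Kᶜ | G.Adj x u ∧ ¬ G.Adj x v}) huv
    (mem_insert_self _ _) ?_ ?_).trans ?_
  · rw [mem_insert, mem_filter, mem_compl]
    rintro (h | h)
    · exact huv h.symm
    · exact h.1 hv
  · intro a ha hav
    rw [mem_insert, mem_filter] at ha
    rcases ha with h | h
    · exact h
    · exact absurd hav h.2.2
  · rw [← card_erase_of_mem hu, ← card_union_of_disjoint]
    · apply card_le_card
      intro y hy
      simp only [nb, mem_filter, mem_univ, true_and, mem_insert, mem_compl, not_or] at hy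
      obtain ⟨⟨hyu, hy2⟩, a, ha, hay⟩ := hy
      rw [mem_union, mem_erase, mem_filter, mem_compl]
      by_cases hyK : y ∈ K
      · exact Or.inl ⟨hyu, hyK⟩
      · right
        rcases ha with rfl | ha
        · refine ⟨hyK, hay.symm, ?_⟩
          by_contra hcon
          exact hy2 ⟨hyK, hay.symm, hcon⟩
        · exact absurd hay (hB' a ha.1 y hyK)
    · rw [Finset.disjoint_left]
      intro y h1 h2
      rw [mem_erase] at h1
      rw [mem_filter, mem_compl] at h2
      exact h2.1 h1.2

/-- double counting of the common neighbours -/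
lemma sh_common {G : SimpleGraph V} {K : Finset V} (h3 : ∀ w ∈ Kᶜ, nin G K w = 3) :
    ∑ p ∈ K.offDiag, #{x ∈ Kᶜ | G.Adj x p.1 ∧ G.Adj x p.2} = 6 * #Kᶜ := by
  have e : ∀ x ∈ Kᶜ, #{p ∈ K.offDiag | G.Adj x p.1 ∧ G.Adj x p.2} = 6 := by
    intro x hx
    have : ({p ∈ K.offDiag | G.Adj x p.1 ∧ G.Adj x p.2} : Finset (V × V))
        = ({w ∈ K | G.Adj x w} : Finset V).offDiag := by
      ext p
      simp only [mem_filter, mem_offDiag]
      tauto
    rw [this, offDiag_card]
    have h := h3 x hx
    rw [nin] at h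
    rw [h]
  simp only [card_filter] at e ⊢
  rw [sum_comm, sum_congr rfl e, sum_const, smul_eq_mul, mul_comm]

theorem sh_ksum {G : SimpleGraph V} {K : Finset V} {h q : ℕ} (hK : #K = h)
    (hcard : Fintype.card V = h * (q + 1)) (h1 : ∀ v ∈ K, deg G v = h - 1 + 3 * q)
    (h2 : ∀ v, v ∉ K → deg G v = 3) :
    ksum G + 3 * (h * (h - 1)) ≤ (h * (h - 1)) * (h - 1) + 6 * (h * q) +
      3 * (h * (q + 1) * (h * (q + 1) - 1)) := by
  have hKc : #Kᶜ = h * q := by
    have := card_compl_add_card K
    rw [hK, hcard, mul_add, mul_one] at this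
    omega
  have hst := sh_struct hK hKc h1 fun v hv => h2 v (mem_compl.1 hv)
  have hsub : K.offDiag ⊆ (univ : Finset V).offDiag := by
    intro p hp
    rw [mem_offDiag] at hp ⊢
    exact ⟨mem_univ _, mem_univ _, hp.2.2⟩
  have e0 : ksum G = ∑ p ∈ (univ : Finset V).offDiag, kappa G p.1 p.2 := by
    unfold ksum
    apply sum_congr _ fun _ _ => rfl
    ext p
    simp
  have cK : #K.offDiag = h * (h - 1) := by
    rw [offDiag_card, hK, Nat.mul_sub, mul_one]
  have cU : #(univ : Finset V).offDiag = h * (q + 1) * (h * (q + 1) - 1) := by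
    rw [offDiag_card, card_univ, hcard, Nat.mul_sub, mul_one]
  have s1 : ∑ p ∈ K.offDiag, kappa G p.1 p.2 ≤ (h * (h - 1)) * (h - 1) + 6 * (h * q) := by
    calc ∑ p ∈ K.offDiag, kappa G p.1 p.2
        ≤ ∑ p ∈ K.offDiag, ((h - 1) + #{x ∈ Kᶜ | G.Adj x p.1 ∧ G.Adj x p.2}) := by
          refine sum_le_sum fun p hp => ?_
          rw [mem_offDiag] at hp
          have := sh_kappa_le hp.2.2 hp.1 hp.2.1 fun w hw => (hst w hw).2
          rwa [hK] at this
      _ = (h * (h - 1)) * (h - 1) + 6 * (h * q) := by
          rw [sum_add_distrib, sum_const, smul_eq_mul, cK, sh_common fun w hw => (hst w hw).1,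
            hKc]
  have s2 : ∑ p ∈ (univ : Finset V).offDiag \ K.offDiag, kappa G p.1 p.2 ≤
      (h * (q + 1) * (h * (q + 1) - 1) - h * (h - 1)) * 3 := by
    have : ∀ p ∈ (univ : Finset V).offDiag \ K.offDiag, kappa G p.1 p.2 ≤ 3 := by
      intro p hp
      rw [mem_sdiff, mem_offDiag, mem_offDiag] at hp
      by_cases hp1 : p.1 ∈ K
      · have hp2 : p.2 ∉ K := fun h => hp.2 ⟨hp1, h, hp.1.2.2⟩
        rw [kappa_comm, ← h2 p.2 hp2]
        exact sh_kappa_le_deg G hp.1.2.2.symm
      · rw [← h2 p.1 hp1]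
        exact sh_kappa_le_deg G hp.1.2.2
    refine (sum_le_sum this).trans ?_
    rw [sum_const, smul_eq_mul, card_sdiff_of_subset hsub, cU, cK]
  have hle : h * (h - 1) ≤ h * (q + 1) * (h * (q + 1) - 1) := by
    rw [← cK, ← cU]
    exact card_le_card hsub
  rw [e0, ← sum_sdiff hsub]
  omega

end

/-- the realisation -/
lemma sh_exists (h q : ℕ) (hh : 4 ≤ h) :
    ∃ (K : Finset (Fin (h * (q + 1)))) (G : SimpleGraph (Fin (h * (q + 1)))),
      #K = h ∧ (∀ v ∈ K, deg G v = h - 1 + 3 * q) ∧ ∀ v, v ∉ K → deg G v = 3 := by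
  have : NeZero h := ⟨by omega⟩
  have hc : Fintype.card (Fin (h * (q + 1))) = Fintype.card (ZMod h ⊕ (ZMod h × Fin q)) := by
    rw [Fintype.card_fin, Fintype.card_sum, Fintype.card_prod, ZMod.card, Fintype.card_fin]
    ring
  obtain ⟨f⟩ := Fintype.card_eq.1 hc
  have n1 : (1 : ZMod h) ≠ 0 := by
    intro h1
    have : ((1 : ℕ) : ZMod h) = 0 := by exact_mod_cast h1
    rw [ZMod.natCast_eq_zero_iff] at this
    have := Nat.le_of_dvd one_pos this
    omega
  have n2 : (2 : ZMod h) ≠ 0 := by
    intro h1
    have : ((2 : ℕ) : ZMod h) = 0 := by exact_mod_cast h1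
    rw [ZMod.natCast_eq_zero_iff] at this
    have := Nat.le_of_dvd two_pos this
    omega
  set T : Finset (ZMod h) := {0, 1, 2} with hT
  have hT3 : #T = 3 := by
    rw [hT, card_eq_three]
    refine ⟨0, 1, 2, n1.symm, n2.symm, ?_, rfl⟩
    intro h1
    apply n1
    have h2 : (2 : ZMod h) = 1 + 1 := by norm_num
    rw [h2] at h1
    exact (left_eq_add.1 h1)
  let H : SimpleGraph (ZMod h ⊕ (ZMod h × Fin q)) :=
    { Adj := fun x y => match x, y with
        | Sum.inl a, Sum.inl b => a ≠ b
        | Sum.inl a, Sum.inr b => b.1 - a ∈ T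
        | Sum.inr b, Sum.inl a => b.1 - a ∈ T
        | Sum.inr _, Sum.inr _ => False
      symm := ⟨by
        rintro (a | a) (b | b) hab
        · exact Ne.symm hab
        · exact hab
        · exact hab
        · exact hab⟩
      loopless := ⟨by
        rintro (a | a) haa
        · exact haa rfl
        · exact haa⟩ }
  have dH : ∀ x : ZMod h ⊕ (ZMod h × Fin q),
      deg H x = if x.isLeft then h - 1 + 3 * q else 3 := by
    rintro (a | b)
    · rw [deg_eq]
      have e : (univ.filter fun w => H.Adj (Sum.inl a) w) =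
          (univ.erase a).image Sum.inl ∪
            ((T ×ˢ (univ : Finset (Fin q))).image
              (fun t => (Sum.inr (a + t.1, t.2) : ZMod h ⊕ (ZMod h × Fin q)))) := by
        ext w
        rcases w with w | w
        · simp only [mem_filter, mem_univ, true_and, mem_union, mem_image, mem_erase, and_true,
            Sum.inl.injEq, exists_eq_right, reduceCtorEq, and_false, exists_false, or_false]
          exact ne_comm
        · simp only [mem_filter, mem_univ, true_and, mem_union, mem_image, mem_erase, and_true,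
            Sum.inr.injEq, reduceCtorEq, and_false, exists_false, false_or, mem_product]
          constructor
          · intro h1
            exact ⟨(w.1 - a, w.2), h1, by ext <;> simp⟩
          · rintro ⟨t, ht, rfl⟩
            show a + t.1 - a ∈ T
            rwa [add_sub_cancel_left]
      rw [e, card_union_of_disjoint, card_image_of_injective _ Sum.inl_injective,
        card_image_of_injective, card_erase_of_mem (mem_univ _), card_univ, ZMod.card,
        card_product, hT3, card_univ, Fintype.card_fin]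
      · simp only [Sum.isLeft_inl, if_true]
      · intro t t' htt
        simp only [Sum.inr.injEq, Prod.mk.injEq, add_right_inj] at htt
        exact Prod.ext htt.1 htt.2
      · rw [Finset.disjoint_left]
        intro w h1 h2
        rw [mem_image] at h1 h2
        obtain ⟨_, _, rfl⟩ := h1
        obtain ⟨_, _, h3⟩ := h2
        exact absurd h3 (by simp)
    · rw [deg_eq]
      have e : (univ.filter fun w => H.Adj (Sum.inr b) w) =
          (T.image (fun t => (Sum.inl (b.1 - t) : ZMod h ⊕ (ZMod h × Fin q)))) := by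
        ext w
        rcases w with w | w
        · simp only [mem_filter, mem_univ, true_and, mem_image, Sum.inl.injEq]
          constructor
          · intro h1
            exact ⟨b.1 - w, h1, by ring⟩
          · rintro ⟨t, ht, rfl⟩
            show b.1 - (b.1 - t) ∈ T
            rwa [sub_sub_cancel]
        · simp only [mem_filter, mem_univ, true_and, mem_image, reduceCtorEq, and_false,
            exists_false, iff_false]
          exact fun h => h
      rw [e, card_image_of_injective, hT3]
      · simp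
      · intro t t' htt
        simpa using htt
  refine ⟨univ.filter fun v => (f v).isLeft, H.comap f, ?_, ?_, ?_⟩
  · have : (univ.filter fun v => ((f v).isLeft : Prop)) =
        (univ.image (fun a => f.symm (Sum.inl a))) := by
      ext v
      simp only [mem_filter, mem_univ, true_and, mem_image]
      constructor
      · intro h1
        obtain ⟨a, ha⟩ := Sum.isLeft_iff.1 h1
        exact ⟨a, by rw [← ha, Equiv.symm_apply_apply]⟩
      · rintro ⟨a, rfl⟩
        simp
    rw [this, card_image_of_injective, card_univ, ZMod.card]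
    intro a b hab
    simpa using hab
  all_goals
    intro v hv
    have e : deg (H.comap f) v = deg H (f v) := by
      rw [deg_eq, deg_eq]
      apply card_bij (fun w _ => f w)
      · intro w hw
        simpa using hw
      · intro w _ w' _ h1
        exact f.injective h1
      · intro y hy
        exact ⟨f.symm y, by simpa using hy, by simp⟩
    rw [e, dH]
  · rw [mem_filter] at hv
    rw [if_pos hv.2]
  · rw [mem_filter] at hv
    rw [if_neg fun h => hv ⟨mem_univ _, h⟩]

theorem sharp (h q : ℕ) (hh : 4 ≤ h) (hq : 1 ≤ q) : ∃ d : Fin (h * (q + 1)) → ℕ,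
    (∃ G : SimpleGraph (Fin (h * (q + 1))), ∀ v, deg G v = d v) ∧
    #{v | d v = h - 1 + 3 * q} = h ∧ #{v | d v = 3} = h * q ∧
    ∀ G : SimpleGraph (Fin (h * (q + 1))), (∀ v, deg G v = d v) →
      avgConn G < (((cnt d 1).choose 2 + (cnt d 2).choose 2 +
        ∑ k ∈ Icc 3 (h * (q + 1)), (tl d k - tl d (k + 1)).choose 2 : ℕ) : ℝ) /
          ((h * (q + 1)).choose 2 : ℝ) := by
  obtain ⟨K, G₀, hK, hG1, hG2⟩ := sh_exists h q hh
  set d : Fin (h * (q + 1)) → ℕ := fun v => if v ∈ K then h - 1 + 3 * q else 3 with hd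
  have d1 : ∀ v ∈ K, d v = h - 1 + 3 * q := fun v hv => if_pos hv
  have d2 : ∀ v, v ∉ K → d v = 3 := fun v hv => if_neg hv
  have hn : h - 1 + 3 * q ≤ h * (q + 1) := by
    obtain ⟨g, rfl⟩ : ∃ g, h = g + 4 := ⟨h - 4, by omega⟩
    have : g + 4 - 1 = g + 3 := rfl
    rw [this]
    nlinarith
  -- the values of `cnt`
  have c1 : ∀ k, k ≤ 3 → cnt d k = h * (q + 1) := by
    intro k hk
    unfold cnt
    rw [filter_true_of_mem, card_univ, Fintype.card_fin]
    intro v _
    by_cases hv : v ∈ K
    · rw [d1 v hv]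
      omega
    · rw [d2 v hv]
      omega
  have c2 : ∀ k, 4 ≤ k → k ≤ h - 1 + 3 * q → cnt d k = h := by
    intro k hk hk2
    unfold cnt
    have : (univ.filter fun v => k ≤ d v) = K := by
      ext v
      simp only [mem_filter, mem_univ, true_and]
      by_cases hv : v ∈ K
      · rw [d1 v hv]
        simp only [hv, iff_true]
        exact hk2
      · rw [d2 v hv]
        simp only [hv, iff_false]
        omega
    rw [this, hK]
  have c3 : ∀ k, h - 1 + 3 * q < k → cnt d k = 0 := by
    intro k hk
    unfold cnt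
    rw [card_eq_zero, filter_eq_empty_iff]
    intro v _
    by_cases hv : v ∈ K
    · rw [d1 v hv]
      omega
    · rw [d2 v hv]
      omega
  have htl : ∀ k, tl d k - tl d (k + 1) = cnt d k := by
    intro k
    unfold tl
    rw [c1 1 (by omega), c1 2 (by omega), Nat.sub_self, Nat.sub_zero, Nat.sub_zero]
    exact (cnt_eq_tail d k).symm
  refine ⟨d, ⟨G₀, fun v => ?_⟩, ?_, ?_, fun G hG => ?_⟩
  · by_cases hv : v ∈ K
    · rw [d1 v hv, hG1 v hv]
    · rw [d2 v hv, hG2 v hv]
  · have : (univ.filter fun v => d v = h - 1 + 3 * q) = K := by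
      ext v
      simp only [mem_filter, mem_univ, true_and]
      by_cases hv : v ∈ K
      · simp only [d1 v hv, hv]
      · simp only [d2 v hv, hv, iff_false]
        omega
    rw [this, hK]
  · have : (univ.filter fun v => d v = 3) = Kᶜ := by
      ext v
      simp only [mem_filter, mem_univ, true_and, mem_compl]
      by_cases hv : v ∈ K
      · simp only [d1 v hv, hv, not_true, iff_false]
        omega
      · simp only [d2 v hv, hv, not_false_iff]
    rw [this, card_compl, hK, Fintype.card_fin, mul_add, mul_one, Nat.add_sub_cancel]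
  · have hks := sh_ksum (G := G) hK (Fintype.card_fin _) (fun v hv => by rw [hG v, d1 v hv])
      (fun v hv => by rw [hG v, d2 v hv])
    have hval : ∑ k ∈ Icc 3 (h * (q + 1)), (tl d k - tl d (k + 1)).choose 2 =
        (h * (q + 1)).choose 2 + (h - 1 + 3 * q - 3) * h.choose 2 := by
      have e1 : Icc 3 (h * (q + 1)) = insert 3 (Icc 4 (h * (q + 1))) := by
        ext k
        rw [mem_insert, mem_Icc, mem_Icc]
        omega
      have e2 : Icc 4 (h - 1 + 3 * q) ⊆ Icc 4 (h * (q + 1)) := Icc_subset_Icc le_rfl hn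
      rw [e1, sum_insert (by simp), htl, c1 3 le_rfl]
      congr 1
      rw [← sum_subset e2]
      · rw [sum_congr rfl (fun k hk => ?_ : ∀ k ∈ Icc 4 (h - 1 + 3 * q),
          (tl d k - tl d (k + 1)).choose 2 = h.choose 2), sum_const, Nat.card_Icc, smul_eq_mul]
        · congr 1
        · rw [mem_Icc] at hk
          rw [htl, c2 k hk.1 hk.2]
      · intro k hk hk2
        rw [mem_Icc] at hk
        rw [mem_Icc, not_and] at hk2
        rw [htl, c3 k (by have := hk2 hk.1; omega)]
        rfl
    rw [two_mul_pairs] at hks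
    have hlt : ∑ p : Fin (h * (q + 1)) × Fin (h * (q + 1)) with p.1 < p.2, kappa G p.1 p.2 <
        (cnt d 1).choose 2 + (cnt d 2).choose 2 +
          ∑ k ∈ Icc 3 (h * (q + 1)), (tl d k - tl d (k + 1)).choose 2 := by
      rw [hval, c1 1 (by omega), c1 2 (by omega)]
      have t1 := two_choose (h * (q + 1))
      have t2 := two_choose h
      obtain ⟨g, rfl⟩ : ∃ g, h = g + 4 := ⟨h - 4, by omega⟩
      have t3 : g + 4 - 1 = g + 3 := rfl
      have t4 : g + 3 + 3 * q - 3 = g + 3 * q := by omega
      rw [t3] at t2 hks ⊢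
      rw [t4]
      rw [← t1] at hks
      have t5 : 2 * ((g + 3 * q) * (g + 4).choose 2) = (g + 3 * q) * ((g + 4) * (g + 3)) := by
        rw [← t2]
        ring
      generalize ((g + 4) * (q + 1)).choose 2 = A at *
      generalize (g + 4).choose 2 = B at *
      generalize ∑ p : Fin ((g + 4) * (q + 1)) × Fin ((g + 4) * (q + 1)) with p.1 < p.2,
        kappa G p.1 p.2 = S at *
      have t6 : (g + 4) * (g + 3) * (g + 3) + 6 * ((g + 4) * q) <
          (g + 3 * q) * ((g + 4) * (g + 3)) + 3 * ((g + 4) * (g + 3)) := by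
        nlinarith [Nat.mul_le_mul_left (g * g) hq]
      omega
    have hpos : (0 : ℝ) < ((h * (q + 1)).choose 2 : ℝ) := by
      have : 2 ≤ h * (q + 1) := by nlinarith
      exact_mod_cast Nat.choose_pos this
    have key : avgConn G = ((∑ p : Fin (h * (q + 1)) × Fin (h * (q + 1)) with p.1 < p.2,
        kappa G p.1 p.2 : ℕ) : ℝ) / ((h * (q + 1)).choose 2 : ℝ) := by
      unfold avgConn
      push_cast
      rfl
    rw [key]
    apply div_lt_div_of_pos_right _ hpos
    exact_mod_cast hlt

end Pool.Agent.AvgConn
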