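import Pool.Agent.Work.MP_88992e_co.SqDefs

/-!
# Disjoint linked sets between two vertices
-/

namespace Pool.Agent.AvgConn

open Finset
open scoped Classical

universe u

/-- each Z i contains a vertex of nb G A. -/
theorem perf_of_arcs {V : Type u} [Fintype V] {G : SimpleGraph V} {a b : V} {k : ℕ}
    (Z : Fin k → Finset V) (hd : ∀ i j, i ≠ j → Disjoint (Z i) (Z j)) (hlk : ∀ i, Lk G (Z i))
    (ha : ∀ i, a ∉ Z i) (h1 : ∀ i, ∃ y ∈ Z i, G.Adj a y) (h2 : ∀ i, ∃ y ∈ Z i, G.Adj y b) :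
    Perf G a b k := by
  intro A haA hbA hcond
  have key : ∀ i, ∃ y ∈ Z i, y ∈ nb G A := by
    intro i
    by_contra hno
    push Not at hno
    obtain ⟨y, hyZ, hay⟩ := h1 i
    have hyA : y ∈ A := by
      by_contra hyA
      exact hno y hyZ (mem_nb.2 ⟨hyA, a, haA, hay⟩)
    have hZA : Z i ⊆ A := hlk i A ⟨y, hyZ, hyA⟩ hno
    obtain ⟨y', hyZ', hyb⟩ := h2 i
    exact ha i (hcond y' (hZA hyZ') hyb ▸ hyZ')
  choose f hfZ hfN using key
  have hinj : Function.Injective f := by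
    intro i j hij
    by_contra hne
    exact (Finset.disjoint_left.1 (hd i j hne)) (hfZ i) (hij ▸ hfZ j)
  calc k = #(univ : Finset (Fin k)) := by simp
    _ ≤ #(nb G A) := card_le_card_of_injOn f (fun i _ => hfN i) (hinj.injOn)

end Pool.Agent.AvgConn
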