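import Pool.Agent.Work.MP_88992e_co.HIns

/-!
# Perfect graphs with degrees two and three
-/

namespace Pool.Agent.AvgConn

open Finset
open scoped Classical

variable {V : Type*} [Fintype V]

/-! ### Adding an edge -/

/-- add the edge `ab` -/
def addE (G : SimpleGraph V) (a b : V) : SimpleGraph V := G ⊔ SimpleGraph.fromEdgeSet {s(a, b)}

omit [Fintype V] in
lemma addE_adj {G : SimpleGraph V} {a b p q : V} :
    (addE G a b).Adj p q ↔ G.Adj p q ∨ (s(p, q) = s(a, b) ∧ p ≠ q) := by
  unfold addE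
  rw [SimpleGraph.sup_adj, SimpleGraph.fromEdgeSet_adj]
  rfl

omit [Fintype V] in
lemma le_addE (G : SimpleGraph V) (a b : V) : G ≤ addE G a b := le_sup_left

omit [Fintype V] in
lemma addE_comm (G : SimpleGraph V) (a b : V) : addE G a b = addE G b a := by
  ext p q
  rw [addE_adj, addE_adj, Sym2.eq_swap (a := a)]

lemma deg_addE_left {G : SimpleGraph V} {a b : V} (hab : a ≠ b) (h : ¬ G.Adj a b) :
    deg (addE G a b) a = deg G a + 1 := by
  rw [deg_eq, deg_eq]
  have : (univ.filter fun w => (addE G a b).Adj a w)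
      = insert b (univ.filter fun w => G.Adj a w) := by
    ext w
    simp only [mem_filter, mem_univ, true_and, mem_insert]
    rw [addE_adj]
    constructor
    · rintro (h1 | ⟨h1, h2⟩)
      · exact Or.inr h1
      · rw [Sym2.eq_iff] at h1
        rcases h1 with ⟨_, h1⟩ | ⟨h1, _⟩
        · exact Or.inl h1
        · exact absurd h1 hab
    · rintro (h1 | h1)
      · subst h1
        exact Or.inr ⟨rfl, hab⟩
      · exact Or.inl h1
  rw [this, card_insert_of_notMem (by simpa using h)]

lemma deg_addE_right {G : SimpleGraph V} {a b : V} (hab : a ≠ b) (h : ¬ G.Adj a b) :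
    deg (addE G a b) b = deg G b + 1 := by
  rw [addE_comm]
  exact deg_addE_left hab.symm fun h1 => h h1.symm

lemma deg_addE_other {G : SimpleGraph V} {a b v : V} (ha : v ≠ a) (hb : v ≠ b) :
    deg (addE G a b) v = deg G v := by
  rw [deg_eq, deg_eq]
  congr 1
  ext w
  simp only [mem_filter, mem_univ, true_and]
  rw [addE_adj]
  refine ⟨?_, Or.inl⟩
  rintro (h1 | ⟨h1, _⟩)
  · exact h1
  · rw [Sym2.eq_iff] at h1
    rcases h1 with ⟨h1, _⟩ | ⟨h1, _⟩
    · exact absurd h1 ha
    · exact absurd h1 hb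

/-! ### Complete graphs -/

/-- the complete graph on `S` -/
def cliqueOn (S : Finset V) : SimpleGraph V where
  Adj a b := a ≠ b ∧ a ∈ S ∧ b ∈ S
  symm := ⟨fun _ _ h => ⟨h.1.symm, h.2.2, h.2.1⟩⟩
  loopless := ⟨fun _ h => h.1 rfl⟩

omit [Fintype V] in
lemma cliqueOn_adj {S : Finset V} {a b : V} :
    (cliqueOn S).Adj a b ↔ a ≠ b ∧ a ∈ S ∧ b ∈ S := Iff.rfl

lemma deg_clique_mem {S : Finset V} {v : V} (hv : v ∈ S) : deg (cliqueOn S) v = #S - 1 := by
  rw [deg_eq, ← card_erase_of_mem hv]
  congr 1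
  ext w
  simp only [mem_filter, mem_univ, true_and, mem_erase, cliqueOn_adj]
  exact ⟨fun h => ⟨h.1.symm, h.2.2⟩, fun h => ⟨h.1.symm, hv, h.2⟩⟩

lemma deg_clique_notMem {S : Finset V} {v : V} (hv : v ∉ S) : deg (cliqueOn S) v = 0 := by
  by_contra h0
  obtain ⟨w, hw⟩ := (deg_pos_iff _ v).1 h0
  exact hv hw.2.1

lemma good_clique (S : Finset V) : Good (cliqueOn S) (deg (cliqueOn S)) := by
  intro u v huv
  by_cases hu : u ∈ S
  · by_cases hv : v ∈ S
    · rw [deg_clique_mem hu, deg_clique_mem hv, min_self]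
      intro A huA hvA hcond
      rw [← card_erase_of_mem hu]
      apply card_le_card
      intro y hy
      obtain ⟨hyu, hyS⟩ := mem_erase.1 hy
      refine mem_nb.2 ⟨fun hyA => ?_, u, huA, hyu.symm, hu, hyS⟩
      have hyv : y ≠ v := by
        rintro rfl
        exact hvA hyA
      exact hyu (hcond y hyA ⟨hyv, hyS, hv⟩)
    · rw [deg_clique_notMem hv, Nat.min_zero]
      exact perf_zero _ _ _
  · rw [deg_clique_notMem hu, Nat.zero_min]
    exact perf_zero _ _ _

/-! ### The graph `K₄` minus an edge -/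

/-- `K₄` minus the edge `xz` -/
lemma exists_diamond {a b x z : V} (hab : a ≠ b) (hax : a ≠ x) (haz : a ≠ z) (hbx : b ≠ x)
    (hbz : b ≠ z) (hxz : x ≠ z) : ∃ G : SimpleGraph V, deg G a = 3 ∧ deg G b = 3 ∧
      deg G x = 2 ∧ deg G z = 2 ∧ (∀ v, v ≠ a → v ≠ b → v ≠ x → v ≠ z → deg G v = 0) ∧
      Good G (deg G) := by
  set S : Finset V := {a, b, z} with hS
  have hSc : #S = 3 := card_eq_three.2 ⟨a, b, z, hab, haz, hbz, rfl⟩
  have haS : a ∈ S := by simp [hS]
  have hbS : b ∈ S := by simp [hS]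
  have hzS : z ∈ S := by simp [hS]
  have hxS : x ∉ S := by
    simp only [hS, mem_insert, mem_singleton, not_or]
    exact ⟨hax.symm, hbx.symm, hxz⟩
  set T := cliqueOn S with hT
  have hTab : T.Adj a b := ⟨hab, haS, hbS⟩
  have hTx : ∀ w, ¬ T.Adj x w := fun w h => hxS h.2.1
  set P := pinch T x a b with hP
  have hgood : Good P (deg P) := by
    refine good_subdiv (good_clique S) ?_ (deg_clique_notMem hxS) hTab
    intro v hv
    by_cases hvS : v ∈ S
    · rw [deg_clique_mem hvS, hSc]
    · exact absurd (deg_clique_notMem hvS) hv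
  have hPab : ¬ P.Adj a b := by
    rw [hP, pinch_adj_old hax hbx]
    exact fun h => h.2 rfl
  have dPx : deg P x = 2 := by
    rw [hP, deg_pinch_new hTab hax.symm hbx.symm (hTx _) (hTx _), deg_clique_notMem hxS]
  have dPS : ∀ v ∈ S, deg P v = 2 := by
    intro v hv
    rw [hP, deg_pinch_old hTab hax.symm hbx.symm (hTx _) (hTx _)
      (fun h => hxS (h ▸ hv)), deg_clique_mem hv, hSc]
  have dP0 : ∀ v, v ∉ S → v ≠ x → deg P v = 0 := by
    intro v hv hvx
    rw [hP, deg_pinch_old hTab hax.symm hbx.symm (hTx _) (hTx _) hvx, deg_clique_notMem hv]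
  set G := addE P a b with hG
  have hda : deg G a = 3 := by rw [hG, deg_addE_left hab hPab, dPS a haS]
  have hdb : deg G b = 3 := by rw [hG, deg_addE_right hab hPab, dPS b hbS]
  have hdx : deg G x = 2 := by rw [hG, deg_addE_other hax.symm hbx.symm, dPx]
  have hdz : deg G z = 2 := by rw [hG, deg_addE_other haz.symm hbz.symm, dPS z hzS]
  have hd0 : ∀ v, v ≠ a → v ≠ b → v ≠ x → v ≠ z → deg G v = 0 := by
    intro v h1 h2 h3 h4
    rw [hG, deg_addE_other h1 h2]
    apply dP0 v _ h3
    simp only [hS, mem_insert, mem_singleton, not_or]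
    exact ⟨h1, h2, h4⟩
  refine ⟨G, hda, hdb, hdx, hdz, hd0, ?_⟩
  -- adjacencies
  have adjP : ∀ p q, P.Adj p q → G.Adj p q := fun p q h => le_addE P a b h
  have hxa : G.Adj x a := adjP _ _ (pinch_adj_left hax.symm)
  have hxb : G.Adj x b := adjP _ _ (pinch_adj_right hbx.symm)
  have hza : G.Adj z a := by
    apply adjP
    rw [hP, pinch_adj_old hxz.symm hax]
    refine ⟨⟨haz.symm, hzS, haS⟩, fun h => ?_⟩
    rw [Sym2.eq_iff] at h
    rcases h with ⟨h, _⟩ | ⟨h, _⟩
    · exact haz h.symm
    · exact hbz h.symm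
  have hzb : G.Adj z b := by
    apply adjP
    rw [hP, pinch_adj_old hxz.symm hbx]
    refine ⟨⟨hbz.symm, hzS, hbS⟩, fun h => ?_⟩
    rw [Sym2.eq_iff] at h
    rcases h with ⟨h, _⟩ | ⟨h, _⟩
    · exact haz h.symm
    · exact hbz h.symm
  have hGab : G.Adj a b := addE_adj.2 (Or.inr ⟨rfl, hab⟩)
  have key : ∀ a b : V, a ≠ b → a ≠ x → a ≠ z → b ≠ x → b ≠ z → G.Adj a b → G.Adj x a →
      G.Adj x b → G.Adj z a → G.Adj z b → Perf G a b 3 := by
    intro a b hab hax haz hbx hbz hGab hxa hxb hza hzb A haA hbA hcond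
    have hxA : x ∉ A := fun h => hax (hcond x h hxb).symm
    have hzA : z ∉ A := fun h => haz (hcond z h hzb).symm
    have : #({b, x, z} : Finset V) ≤ #(nb G A) := by
      apply card_le_card
      intro y hy
      simp only [mem_insert, mem_singleton] at hy
      rcases hy with rfl | rfl | rfl
      · exact mem_nb.2 ⟨hbA, a, haA, hGab⟩
      · exact mem_nb.2 ⟨hxA, a, haA, hxa.symm⟩
      · exact mem_nb.2 ⟨hzA, a, haA, hza.symm⟩
    rw [card_eq_three.2 ⟨b, x, z, hbx, hbz, hxz, rfl⟩] at this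
    exact this
  have hdP : ∀ v, v ≠ a → v ≠ b → deg G v = deg P v := fun v h1 h2 => deg_addE_other h1 h2
  have hle2 : ∀ v, v ≠ a → v ≠ b → deg P v ≤ 2 := by
    intro v h1 h2
    by_cases h3 : v ∈ S
    · rw [dPS v h3]
    · by_cases h4 : v = x
      · rw [h4, dPx]
      · rw [dP0 v h3 h4]
        omega
  -- pairs not both in `{a, b}`
  have hother : ∀ u v, u ≠ v → v ≠ a → v ≠ b → Perf G u v (min (deg G u) (deg G v)) := by
    intro u v huv hva hvb
    refine ((hgood u v huv).mono_graph (le_addE P a b)).mono ?_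
    rw [hdP v hva hvb]
    refine le_min ?_ (min_le_right _ _)
    have h2 := hle2 v hva hvb
    by_cases hu : u = a ∨ u = b
    · have : deg P u = 2 := by
        rcases hu with rfl | rfl
        · exact dPS _ haS
        · exact dPS _ hbS
      rw [this]
      exact (min_le_right _ _).trans h2
    · push Not at hu
      rw [hdP u hu.1 hu.2]
      exact min_le_left _ _
  intro u v huv
  by_cases hva : v = a
  · subst hva
    by_cases hub : u = b
    · subst hub
      rw [hda, hdb, min_self]
      exact key u v huv hbx hbz hax haz hGab.symm hxb hxa hzb hza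
    · have := (hother v u huv.symm huv hub).symm huv.symm
      rwa [min_comm] at this
  · by_cases hvb : v = b
    · subst hvb
      by_cases hua : u = a
      · subst hua
        rw [hda, hdb, min_self]
        exact key u v huv hax haz hbx hbz hGab hxa hxb hza hzb
      · have := (hother v u huv.symm hua huv).symm huv.symm
        rwa [min_comm] at this
    · exact hother u v huv hva hvb

/-! ### Adding vertices -/

/-- add vertices of degree two -/
theorem add_twos {G : SimpleGraph V} (hG : Good G (deg G)) (h2 : ∀ v, deg G v ≠ 0 → 2 ≤ deg G v)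
    (he : ∃ a b, G.Adj a b) (R : Finset V) (hR : ∀ v ∈ R, deg G v = 0) :
    ∃ H : SimpleGraph V, (∀ v, deg H v = if v ∈ R then 2 else deg G v) ∧ Good H (deg H) := by
  suffices h : ∃ H : SimpleGraph V, (∀ v, deg H v = if v ∈ R then 2 else deg G v) ∧
      Good H (deg H) ∧ ∃ a b, H.Adj a b by
    obtain ⟨H, h3, h4, _⟩ := h
    exact ⟨H, h3, h4⟩
  induction R using Finset.induction_on with
  | empty => exact ⟨G, by simp, hG, he⟩
  | insert x R hx ih =>
    obtain ⟨H, h3, h4, a, b, hab⟩ := ih fun v hv => hR v (mem_insert_of_mem hv)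
    have hx0 : deg H x = 0 := by
      rw [h3, if_neg hx]
      exact hR x (mem_insert_self _ _)
    have hx' := not_adj_of_deg hx0
    have hxa : x ≠ a := by
      rintro rfl
      exact hx' _ hab
    have hxb : x ≠ b := by
      rintro rfl
      exact hx' _ hab.symm
    refine ⟨pinch H x a b, ?_, good_subdiv h4 ?_ hx0 hab, x, a, pinch_adj_left hxa⟩
    · intro v
      by_cases hv : v = x
      · subst hv
        rw [deg_pinch_new hab hxa hxb (hx' _) (hx' _), hx0, if_pos (mem_insert_self _ _)]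
      · rw [deg_pinch_old hab hxa hxb (hx' _) (hx' _) hv, h3]
        simp [hv]
    · intro v hv
      rw [h3] at hv ⊢
      by_cases hvR : v ∈ R
      · simp [hvR]
      · rw [if_neg hvR] at hv ⊢
        exact h2 v hv

/-- add an even number of vertices of degree three -/
theorem add_threes {G : SimpleGraph V} (hG : Good G (deg G))
    (h3 : ∀ v, deg G v ≠ 0 → 3 ≤ deg G v) (he : ∃ v, deg G v ≠ 0) (n : ℕ) (R : Finset V)
    (hn : #R = 2 * n) (hR : ∀ v ∈ R, deg G v = 0) :
    ∃ H : SimpleGraph V, (∀ v, deg H v = if v ∈ R then 3 else deg G v) ∧ Good H (deg H) := by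
  induction n generalizing R with
  | zero =>
    rw [card_eq_zero.1 hn]
    exact ⟨G, by simp, hG⟩
  | succ n ih =>
    -- two vertices
    obtain ⟨x, hx⟩ := card_pos.1 (by omega : 0 < #R)
    have hc1 := card_erase_of_mem hx
    obtain ⟨y, hy⟩ := card_pos.1 (by omega : 0 < #(R.erase x))
    have hc2 := card_erase_of_mem hy
    obtain ⟨H, h4, h5⟩ := ih ((R.erase x).erase y) (by omega)
      (fun v hv => hR v (mem_of_mem_erase (mem_of_mem_erase hv)))
    have hyx : y ≠ x := (mem_erase.1 hy).1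
    have hyR := mem_of_mem_erase hy
    have hx0 : deg H x = 0 := by
      rw [h4, if_neg (by simp)]
      exact hR x hx
    have hy0 : deg H y = 0 := by
      rw [h4, if_neg (by simp)]
      exact hR y hyR
    have h6 : ∀ v, deg H v ≠ 0 → 3 ≤ deg H v := by
      intro v hv
      rw [h4] at hv ⊢
      by_cases hv' : v ∈ (R.erase x).erase y
      · rw [if_pos hv']
      · rw [if_neg hv'] at hv ⊢
        exact h3 v hv
    -- two edges
    obtain ⟨v₀, hv₀⟩ := he
    have hv₀' : 3 ≤ deg H v₀ := by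
      apply h6
      rw [h4]
      split_ifs
      · omega
      · exact hv₀
    rw [deg_eq] at hv₀'
    obtain ⟨a, ha, c, hc, hac⟩ := one_lt_card.1 (by omega : 1 < #(univ.filter fun w => H.Adj v₀ w))
    have ha' : H.Adj v₀ a := by simpa using ha
    have hc' : H.Adj v₀ c := by simpa using hc
    have hd : HD H x v₀ a y v₀ c := by
      refine ⟨not_adj_of_deg hx0, not_adj_of_deg hy0, hyx.symm, ha', hc', ?_⟩
      intro h
      rw [Sym2.eq_iff] at h
      rcases h with ⟨_, h⟩ | ⟨h, _⟩
      · exact hac h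
      · exact hc'.ne h
    refine ⟨hins H x v₀ a y v₀ c, ?_, good_hins hd h5 h6⟩
    intro v
    by_cases hv : v = x
    · subst hv
      rw [deg_hins_x hd, if_pos hx]
    · by_cases hv' : v = y
      · subst hv'
        rw [deg_hins_y hd, if_pos hyR]
      · rw [deg_hins_old hd hv hv', h4]
        simp [hv, hv']

/-- perfect graphs with degrees two and three -/
theorem exists_core3 (I I3 : Finset V) (hsub : I3 ⊆ I) (hev : Even #I3) (hI : 3 ≤ #I)
    (hI4 : I3.Nonempty → 4 ≤ #I) :
    ∃ G : SimpleGraph V, (∀ v, deg G v = if v ∈ I3 then 3 else if v ∈ I then 2 else 0) ∧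
      Good G (deg G) := by
  obtain ⟨k, hk⟩ := hev
  -- it suffices to find the branch graph
  suffices h : ∃ (G : SimpleGraph V) (S : Finset V), Good G (deg G) ∧ I3 ⊆ S ∧ S ⊆ I ∧
      (∃ a b, G.Adj a b) ∧ ∀ v, deg G v = if v ∈ I3 then 3 else if v ∈ S then 2 else 0 by
    obtain ⟨G, S, h1, h2, h3, h4, h5⟩ := h
    obtain ⟨H, h6, h7⟩ := add_twos h1 (by
      intro v hv
      rw [h5] at hv ⊢
      split_ifs at hv ⊢ <;> omega) h4 (I \ S) (by
      intro v hv
      obtain ⟨hv1, hv2⟩ := mem_sdiff.1 hv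
      rw [h5, if_neg fun h => hv2 (h2 h), if_neg hv2])
    refine ⟨H, ?_, h7⟩
    intro v
    rw [h6, h5]
    by_cases hv3 : v ∈ I3
    · have : v ∉ I \ S := fun h => (mem_sdiff.1 h).2 (h2 hv3)
      rw [if_neg this, if_pos hv3, if_pos hv3]
    · by_cases hvS : v ∈ S
      · have : v ∉ I \ S := fun h => (mem_sdiff.1 h).2 hvS
        rw [if_neg this, if_neg hv3, if_pos hvS, if_neg hv3, if_pos (h3 hvS)]
      · by_cases hvI : v ∈ I
        · rw [if_pos (mem_sdiff.2 ⟨hvI, hvS⟩), if_neg hv3, if_pos hvI]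
        · rw [if_neg fun h => hvI (mem_sdiff.1 h).1, if_neg hv3, if_neg hvS, if_neg hv3,
            if_neg hvI]
  rcases Nat.lt_or_ge k 2 with hk2 | hk2
  · rcases Nat.eq_zero_or_pos k with hk0 | hk0
    · -- a triangle
      have hI3 : I3 = ∅ := card_eq_zero.1 (by omega)
      obtain ⟨S, hS, hSc⟩ := exists_subset_card_eq hI
      obtain ⟨a, b, c, hab, hac, hbc, hSe⟩ := card_eq_three.1 hSc
      refine ⟨cliqueOn S, S, good_clique S, by simp [hI3], hS, ⟨a, b, hab, ?_, ?_⟩, ?_⟩
      · simp [hSe]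
      · simp [hSe]
      · intro v
        rw [hI3, if_neg (notMem_empty _)]
        by_cases hv : v ∈ S
        · rw [deg_clique_mem hv, hSc, if_pos hv]
        · rw [deg_clique_notMem hv, if_neg hv]
    · -- a diamond
      have hc2 : #I3 = 2 := by omega
      obtain ⟨a, b, hab, hI3⟩ := card_eq_two.1 hc2
      have hI4' := hI4 (card_pos.1 (by omega))
      have hd : 1 < #(I \ I3) := by
        rw [card_sdiff_of_subset hsub]
        omega
      obtain ⟨x, hx, z, hz, hxz⟩ := one_lt_card.1 hd
      obtain ⟨hxI, hx3⟩ := mem_sdiff.1 hx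
      obtain ⟨hzI, hz3⟩ := mem_sdiff.1 hz
      rw [hI3] at hx3 hz3
      simp only [mem_insert, mem_singleton, not_or] at hx3 hz3
      obtain ⟨G, h1, h2, h3, h4, h5, h6⟩ := exists_diamond hab (Ne.symm hx3.1) (Ne.symm hz3.1)
        (Ne.symm hx3.2) (Ne.symm hz3.2) hxz
      refine ⟨G, {a, b, x, z}, h6, ?_, ?_, ?_, ?_⟩
      · rw [hI3]
        intro v hv
        simp only [mem_insert, mem_singleton] at hv ⊢
        tauto
      · intro v hv
        simp only [mem_insert, mem_singleton] at hv
        rcases hv with rfl | rfl | rfl | rfl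
        · exact hsub (by simp [hI3])
        · exact hsub (by simp [hI3])
        · exact hxI
        · exact hzI
      · obtain ⟨w, hw⟩ := (deg_pos_iff G a).1 (by omega)
        exact ⟨a, w, hw⟩
      · intro v
        rw [hI3]
        by_cases hva : v = a
        · subst hva
          rw [h1, if_pos (by simp)]
        · by_cases hvb : v = b
          · subst hvb
            rw [h2, if_pos (by simp)]
          · rw [if_neg (by simp [hva, hvb])]
            by_cases hvx : v = x
            · subst hvx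
              rw [h3, if_pos (by simp)]
            · by_cases hvz : v = z
              · subst hvz
                rw [h4, if_pos (by simp)]
              · rw [h5 v hva hvb hvx hvz, if_neg (by simp [hva, hvb, hvx, hvz])]
  · -- `K₄` and pairs of cubic vertices
    obtain ⟨S, hS, hSc⟩ := exists_subset_card_eq (by omega : 4 ≤ #I3)
    have hdS : ∀ v ∈ S, deg (cliqueOn S) v = 3 := by
      intro v hv
      rw [deg_clique_mem hv, hSc]
    obtain ⟨v₀, hv₀⟩ := card_pos.1 (by omega : 0 < #S)
    obtain ⟨H, h1, h2⟩ := add_threes (good_clique S) (by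
      intro v hv
      by_cases hvS : v ∈ S
      · rw [hdS v hvS]
      · exact absurd (deg_clique_notMem hvS) hv) ⟨v₀, by rw [hdS v₀ hv₀]; omega⟩ (k - 2)
      (I3 \ S) (by rw [card_sdiff_of_subset hS]; omega) (by
      intro v hv
      exact deg_clique_notMem (mem_sdiff.1 hv).2)
    have h3 : ∀ v, deg H v = if v ∈ I3 then 3 else 0 := by
      intro v
      rw [h1]
      by_cases hvS : v ∈ S
      · rw [if_neg fun h => (mem_sdiff.1 h).2 hvS, hdS v hvS, if_pos (hS hvS)]
      · by_cases hv3 : v ∈ I3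
        · rw [if_pos (mem_sdiff.2 ⟨hv3, hvS⟩), if_pos hv3]
        · rw [if_neg fun h => hv3 (mem_sdiff.1 h).1, deg_clique_notMem hvS, if_neg hv3]
    refine ⟨H, I3, h2, subset_rfl, hsub, ?_, ?_⟩
    · obtain ⟨w, hw⟩ := (deg_pos_iff H v₀).1 (by rw [h3, if_pos (hS hv₀)]; omega)
      exact ⟨v₀, w, hw⟩
    · intro v
      rw [h3]
      by_cases hv : v ∈ I3
      · rw [if_pos hv, if_pos hv]
      · rw [if_neg hv, if_neg hv, if_neg hv]

end Pool.Agent.AvgConn
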