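import Pool.Agent.Work.MP_88992e_co.Defs

/-!
# Menger's theorem (module MENGER)

Directed set version by Göring's argument, with lists as walks; then the version for internally
disjoint paths between two vertices.
-/

namespace Pool.Agent.AvgConn

open Finset
open scoped Classical

namespace Men

/-- a list which is a walk for `R` from `A` to `B` -/
structure Cn {V : Type*} (R : V → V → Prop) (A B : Finset V) (l : List V) : Prop where
  ch : l.IsChain R
  hd : ∃ a ∈ A, l.head? = some a
  la : ∃ b ∈ B, l.getLast? = some b

theorem exists_first {V : Type*} (p : V → Prop) (l : List V) (h : ∃ z ∈ l, p z) :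
    ∃ l1 z l2, l = l1 ++ z :: l2 ∧ p z ∧ ∀ w ∈ l1, ¬ p w := by
  induction l with
  | nil => simp at h
  | cons a t ih =>
    by_cases ha : p a
    · exact ⟨[], a, t, rfl, ha, by simp⟩
    · obtain ⟨z, hz, hpz⟩ := h
      have hz' : z ∈ t := by
        rcases List.mem_cons.1 hz with rfl | hz
        · exact absurd hpz ha
        · exact hz
      obtain ⟨l1, w, l2, h1, h2, h3⟩ := ih ⟨z, hz', hpz⟩
      refine ⟨a :: l1, w, l2, by rw [h1]; rfl, h2, fun v hv => ?_⟩
      rcases List.mem_cons.1 hv with rfl | hv
      · exact ha
      · exact h3 v hv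

theorem exists_last {V : Type*} (p : V → Prop) (l : List V) (h : ∃ z ∈ l, p z) :
    ∃ l1 z l2, l = l1 ++ z :: l2 ∧ p z ∧ ∀ w ∈ l2, ¬ p w := by
  obtain ⟨l1, z, l2, h1, h2, h3⟩ := exists_first p l.reverse (by
    obtain ⟨z, hz, hpz⟩ := h
    exact ⟨z, List.mem_reverse.2 hz, hpz⟩)
  refine ⟨l2.reverse, z, l1.reverse, ?_, h2, fun w hw => h3 w (List.mem_reverse.1 hw)⟩
  have := congrArg List.reverse h1
  rw [List.reverse_reverse] at this
  rw [this]
  simp

variable {V : Type*} [Fintype V]

theorem main (k n : ℕ) (R : V → V → Prop) (A B : Finset V)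
    (hn : #{p : V × V | R p.1 p.2} = n)
    (hk : ∀ S : Finset V, (∀ l, Cn R A B l → ∃ z ∈ l, z ∈ S) → k ≤ #S) :
    ∃ F : Fin k → List V, (∀ i, Cn R A B (F i)) ∧ (∀ i, (F i).Nodup) ∧
      ∀ i j, ∀ z ∈ F i, z ∈ F j → i = j := by
  induction n generalizing R A B with
  | zero =>
    have hR : ∀ a b, ¬ R a b := by
      intro a b hab
      have := Finset.card_eq_zero.1 hn
      have h2 : (a, b) ∈ (∅ : Finset (V × V)) := by
        rw [← this]
        simp [hab]
      simp at h2
    have h := hk (A ∩ B) (by
      intro l hl
      obtain ⟨a, ha, ha'⟩ := hl.hd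
      obtain ⟨b, hb, hb'⟩ := hl.la
      obtain ⟨t, rfl⟩ := List.head?_eq_some_iff.1 ha'
      cases t with
      | nil =>
        simp only [List.getLast?_singleton, Option.some.injEq] at hb'
        subst hb'
        exact ⟨a, by simp, by simp [ha, hb]⟩
      | cons c t =>
        have := hl.ch
        rw [List.isChain_cons_cons] at this
        exact absurd this.1 (hR _ _))
    obtain ⟨T, hT, hTc⟩ := Finset.exists_subset_card_eq h
    let e : Fin k ≃ T := (Finset.equivFinOfCardEq hTc).symm
    refine ⟨fun i => [(e i : V)], fun i => ⟨by simp, ⟨e i, ?_, rfl⟩, ⟨e i, ?_, rfl⟩⟩, fun i => by simp,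
      fun i j z hi hj => ?_⟩
    · exact (Finset.mem_inter.1 (hT (e i).2)).1
    · exact (Finset.mem_inter.1 (hT (e i).2)).2
    · rw [List.mem_singleton] at hi hj
      exact e.injective (Subtype.ext (hi.symm.trans hj))
  | succ n ih =>
    obtain ⟨⟨x, y⟩, hxy⟩ := Finset.card_pos.1 (by omega : 0 < #{p : V × V | R p.1 p.2})
    have hxy' : R x y := by simpa using hxy
    set R' : V → V → Prop := fun a b => R a b ∧ ¬ (a = x ∧ b = y) with hR'
    have hn' : #{p : V × V | R' p.1 p.2} = n := by
      have h1 : ({p : V × V | R' p.1 p.2} : Finset (V × V)) =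
          ({p : V × V | R p.1 p.2} : Finset (V × V)).erase (x, y) := by
        ext ⟨a, b⟩
        simp only [hR', Finset.mem_filter, Finset.mem_univ, true_and, Finset.mem_erase, ne_eq,
          Prod.mk.injEq]
        tauto
      rw [h1, Finset.card_erase_of_mem hxy, hn]
      rfl
    by_cases hc : ∀ S : Finset V, (∀ l, Cn R' A B l → ∃ z ∈ l, z ∈ S) → k ≤ #S
    · obtain ⟨F, h1, h2, h3⟩ := ih R' A B (by convert hn') hc
      exact ⟨F, fun i => ⟨(h1 i).ch.imp fun _ _ h => h.1, (h1 i).hd, (h1 i).la⟩, h2, h3⟩
    push Not at hc
    obtain ⟨S, hS, hSk⟩ := hc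
    have F1 : ∀ l, Cn R A B l → (∃ z ∈ l, z ∈ S) ∨ (x ∈ l ∧ y ∈ l) := by
      intro l hl
      by_cases h : l.IsChain R'
      · exact Or.inl (hS l ⟨h, hl.hd, hl.la⟩)
      · right
        rw [List.isChain_iff_forall_rel_of_append_cons_cons] at h
        push Not at h
        obtain ⟨a, b, l1, l2, he, hab⟩ := h
        have h2 : R a b := (List.isChain_iff_forall_rel_of_append_cons_cons.1 hl.ch) he
        have h3 : a = x ∧ b = y := by
          by_contra hcon
          exact hab ⟨h2, hcon⟩
        obtain ⟨rfl, rfl⟩ := h3
        rw [he]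
        exact ⟨by simp, by simp⟩
    have hP : k ≤ #(insert x S) := hk _ (fun l hl => by
      rcases F1 l hl with ⟨z, hz, hzS⟩ | ⟨h1, h2⟩
      · exact ⟨z, hz, Finset.mem_insert_of_mem hzS⟩
      · exact ⟨x, h1, Finset.mem_insert_self _ _⟩)
    have hQ : k ≤ #(insert y S) := hk _ (fun l hl => by
      rcases F1 l hl with ⟨z, hz, hzS⟩ | ⟨h1, h2⟩
      · exact ⟨z, hz, Finset.mem_insert_of_mem hzS⟩
      · exact ⟨y, h2, Finset.mem_insert_self _ _⟩)
    have hxS : x ∉ S := by
      intro h
      rw [Finset.insert_eq_of_mem h] at hP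
      omega
    have hyS : y ∉ S := by
      intro h
      rw [Finset.insert_eq_of_mem h] at hQ
      omega
    have hPc : #(insert x S) = k := by
      rw [Finset.card_insert_of_notMem hxS] at hP ⊢
      omega
    have hQc : #(insert y S) = k := by
      rw [Finset.card_insert_of_notMem hyS] at hQ ⊢
      omega
    obtain ⟨F, hF1, hF2, hF3⟩ := ih R' A (insert x S) (by convert hn') (by
      intro T hT
      refine hk T fun l hl => ?_
      obtain ⟨l1, z, l2, he, hz, hl1⟩ := exists_first (fun w => w ∈ insert x S) l (by
        rcases F1 l hl with ⟨z, hz, hzS⟩ | ⟨h1, h2⟩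
        · exact ⟨z, hz, Finset.mem_insert_of_mem hzS⟩
        · exact ⟨x, h1, Finset.mem_insert_self _ _⟩)
      have hch := hl.ch
      rw [he, List.isChain_split] at hch
      have hcn : Cn R' A (insert x S) (l1 ++ [z]) := by
        refine ⟨?_, ?_, ⟨z, hz, by simp⟩⟩
        · rw [List.isChain_iff_forall_rel_of_append_cons_cons]
          intro a b m1 m2 hm
          refine ⟨(List.isChain_iff_forall_rel_of_append_cons_cons.1 hch.1) hm, ?_⟩
          rintro ⟨rfl, -⟩
          have h4 := congrArg List.dropLast hm
          rw [List.dropLast_concat, List.dropLast_append_cons, List.dropLast_cons_cons] at h4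
          refine hl1 a ?_ (Finset.mem_insert_self _ _)
          rw [h4]
          simp
        · obtain ⟨a, ha, ha'⟩ := hl.hd
          refine ⟨a, ha, ?_⟩
          rw [he] at ha'
          cases l1 with
          | nil => simpa using ha'
          | cons w t => simpa using ha'
      obtain ⟨w, hw, hwT⟩ := hT _ hcn
      refine ⟨w, ?_, hwT⟩
      rw [he]
      rcases List.mem_append.1 hw with hw | hw
      · exact List.mem_append_left _ hw
      · rw [List.mem_singleton] at hw
        subst hw
        simp)
    obtain ⟨G, hG1, hG2, hG3⟩ := ih R' (insert y S) B (by convert hn') (by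
      intro T hT
      refine hk T fun l hl => ?_
      obtain ⟨l1, z, l2, he, hz, hl2⟩ := exists_last (fun w => w ∈ insert y S) l (by
        rcases F1 l hl with ⟨z, hz, hzS⟩ | ⟨h1, h2⟩
        · exact ⟨z, hz, Finset.mem_insert_of_mem hzS⟩
        · exact ⟨y, h2, Finset.mem_insert_self _ _⟩)
      have hch := hl.ch
      rw [he, List.isChain_split] at hch
      have hcn : Cn R' (insert y S) B (z :: l2) := by
        refine ⟨?_, ⟨z, hz, rfl⟩, ?_⟩
        · rw [List.isChain_iff_forall_rel_of_append_cons_cons]
          intro a b m1 m2 hm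
          refine ⟨(List.isChain_iff_forall_rel_of_append_cons_cons.1 hch.2) hm, ?_⟩
          rintro ⟨-, rfl⟩
          refine hl2 b ?_ (Finset.mem_insert_self _ _)
          cases m1 with
          | nil =>
            rw [List.nil_append, List.cons.injEq] at hm
            rw [hm.2]
            simp
          | cons c m1 =>
            rw [List.cons_append, List.cons.injEq] at hm
            rw [hm.2]
            simp
        · obtain ⟨b, hb, hb'⟩ := hl.la
          refine ⟨b, hb, ?_⟩
          rw [he, List.getLast?_append] at hb'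
          rw [← hb']
          cases h5 : (z :: l2).getLast? with
          | none => simp at h5
          | some c => simp
      obtain ⟨w, hw, hwT⟩ := hT _ hcn
      refine ⟨w, ?_, hwT⟩
      rw [he]
      exact List.mem_append_right _ hw)
    -- the ends
    have hp0 : ∀ i, ∃ p ∈ insert x S, ∃ f, F i = f ++ [p] := by
      intro i
      obtain ⟨p, hp, hp'⟩ := (hF1 i).la
      exact ⟨p, hp, List.getLast?_eq_some_iff.1 hp'⟩
    have hq0 : ∀ j, ∃ q ∈ insert y S, ∃ g, G j = q :: g := by
      intro j
      obtain ⟨q, hq, hq'⟩ := (hG1 j).hd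
      exact ⟨q, hq, List.head?_eq_some_iff.1 hq'⟩
    choose p hpP f hf using hp0
    choose q hqQ g hg using hq0
    have hpF : ∀ i, p i ∈ F i := fun i => by rw [hf i]; simp
    have hqG : ∀ j, q j ∈ G j := fun j => by rw [hg j]; simp
    have hpinj : Function.Injective p := fun i i' h => hF3 i i' (p i) (hpF i) (h ▸ hpF i')
    have hqinj : Function.Injective q := fun i i' h => hG3 i i' (q i) (hqG i) (h ▸ hqG i')
    have hpsurj : ∀ w ∈ insert x S, ∃ i, p i = w := by
      have h1 : Finset.univ.image p = insert x S := by
        refine Finset.eq_of_subset_of_card_le ?_ ?_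
        · intro w hw
          obtain ⟨i, -, rfl⟩ := Finset.mem_image.1 hw
          exact hpP i
        · rw [Finset.card_image_of_injective _ hpinj, hPc]
          simp
      intro w hw
      rw [← h1] at hw
      obtain ⟨i, -, hi⟩ := Finset.mem_image.1 hw
      exact ⟨i, hi⟩
    have hqsurj : ∀ w ∈ insert y S, ∃ j, q j = w := by
      have h1 : Finset.univ.image q = insert y S := by
        refine Finset.eq_of_subset_of_card_le ?_ ?_
        · intro w hw
          obtain ⟨i, -, rfl⟩ := Finset.mem_image.1 hw
          exact hqQ i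
        · rw [Finset.card_image_of_injective _ hqinj, hQc]
          simp
      intro w hw
      rw [← h1] at hw
      obtain ⟨i, -, hi⟩ := Finset.mem_image.1 hw
      exact ⟨i, hi⟩
    have F5 : ∀ i, ∀ w ∈ F i, w ∈ insert x S → w = p i := by
      intro i w hw hwP
      obtain ⟨i', rfl⟩ := hpsurj w hwP
      rw [hF3 i i' _ hw (hpF i')]
    have G5 : ∀ j, ∀ w ∈ G j, w ∈ insert y S → w = q j := by
      intro j w hw hwP
      obtain ⟨i', rfl⟩ := hqsurj w hwP
      rw [hG3 j i' _ hw (hqG i')]
    have F6 : ∀ i j z, z ∈ F i → z ∈ G j → z ∈ S ∧ z = p i ∧ z = q j := by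
      intro i j z hzF hzG
      have hzS : z ∈ S := by
        by_contra hzS
        obtain ⟨l1, l2, h1⟩ := List.append_of_mem hzF
        obtain ⟨l3, l4, h2⟩ := List.append_of_mem hzG
        have c1 := (hF1 i).ch
        rw [h1, List.isChain_split] at c1
        have c2 := (hG1 j).ch
        rw [h2, List.isChain_split] at c2
        have hcn : Cn R' A B (l1 ++ z :: l4) := by
          refine ⟨List.isChain_split.2 ⟨c1.1, c2.2⟩, ?_, ?_⟩
          · obtain ⟨a, ha, ha'⟩ := (hF1 i).hd
            refine ⟨a, ha, ?_⟩
            rw [h1] at ha'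
            cases l1 with
            | nil => simpa using ha'
            | cons w t => simpa using ha'
          · obtain ⟨b, hb, hb'⟩ := (hG1 j).la
            refine ⟨b, hb, ?_⟩
            rw [h2, List.getLast?_append] at hb'
            rw [List.getLast?_append]
            cases h5 : (z :: l4).getLast? with
            | none => simp at h5
            | some c =>
              rw [h5] at hb'
              simpa using hb'
        obtain ⟨w, hw, hwS⟩ := hS _ hcn
        have n1 := hF2 i
        rw [h1, List.nodup_append] at n1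
        have n2 := hG2 j
        rw [h2, List.nodup_append] at n2
        rcases List.mem_append.1 hw with hw | hw
        · have h3 : w = p i := F5 i w (by rw [h1]; exact List.mem_append_left _ hw)
            (Finset.mem_insert_of_mem hwS)
          have h4 : p i ∈ z :: l2 := by
            have h5 := hf i
            rw [h1] at h5
            have h6 := congrArg List.getLast? h5
            rw [List.getLast?_concat, List.getLast?_append] at h6
            have h7 : (z :: l2).getLast? = some (p i) := by
              cases h8 : (z :: l2).getLast? with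
              | none => simp at h8
              | some c =>
                rw [h8] at h6
                simpa using h6
            exact List.mem_of_getLast? h7
          exact n1.2.2 w hw (p i) h4 h3
        · rcases List.mem_cons.1 hw with rfl | hw
          · exact hzS hwS
          · have h3 : w = q j := G5 j w (by
              rw [h2]
              exact List.mem_append_right _ (List.mem_cons_of_mem _ hw))
              (Finset.mem_insert_of_mem hwS)
            have h5 := hg j
            rw [h2] at h5
            cases l3 with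
            | nil =>
              rw [List.nil_append, List.cons.injEq] at h5
              exact hzS (h5.1 ▸ h3 ▸ hwS)
            | cons c l3 =>
              rw [List.cons_append, List.cons.injEq] at h5
              exact n2.2.2 c (by simp) w (List.mem_cons_of_mem _ hw) (h5.1.trans h3.symm)
      exact ⟨hzS, F5 i z hzF (Finset.mem_insert_of_mem hzS),
        G5 j z hzG (Finset.mem_insert_of_mem hzS)⟩
    -- the gluing
    have hj0 : ∀ i, ∃ j, q j = if p i = x then y else p i := by
      intro i
      refine hqsurj _ ?_
      split_ifs with h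
      · exact Finset.mem_insert_self _ _
      · exact Finset.mem_insert_of_mem (Finset.mem_of_mem_insert_of_ne (hpP i) h)
    choose jj hjj using hj0
    have hpS : ∀ i, p i ≠ x → p i ∈ S := fun i h => Finset.mem_of_mem_insert_of_ne (hpP i) h
    have hjinj : ∀ i i', jj i = jj i' → i = i' := by
      intro i i' h
      have h1 : q (jj i) = q (jj i') := by rw [h]
      rw [hjj, hjj] at h1
      split_ifs at h1 with h2 h3 h3
      · exact hpinj (h2.trans h3.symm)
      · exact absurd (h1 ▸ hpS i' h3) hyS
      · exact absurd (h1 ▸ hpS i h2) hyS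
      · exact hpinj h1
    have hmem : ∀ i z, z ∈ (if p i = x then F i ++ G (jj i) else F i ++ g (jj i)) →
        z ∈ F i ∨ z ∈ G (jj i) := by
      intro i z hz
      split_ifs at hz
      · exact List.mem_append.1 hz
      · refine (List.mem_append.1 hz).imp id fun h => ?_
        rw [hg]
        exact List.mem_cons_of_mem _ h
    have hcross : ∀ i i' z, z ∈ F i → z ∈ G (jj i') → i = i' := by
      intro i i' z h1 h2
      obtain ⟨h3, h4, h5⟩ := F6 i (jj i') z h1 h2
      rw [hjj] at h5
      split_ifs at h5 with h6
      · exact absurd (h5 ▸ h3) hyS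
      · exact hpinj (h4.symm.trans h5)
    refine ⟨fun i => if p i = x then F i ++ G (jj i) else F i ++ g (jj i), fun i => ?_,
      fun i => ?_, fun i i' z hi hi' => ?_⟩
    · by_cases hpx : p i = x
      · simp only [if_pos hpx]
        have hq : q (jj i) = y := by rw [hjj, if_pos hpx]
        refine ⟨?_, ?_, ?_⟩
        · have c1 := (hF1 i).ch
          have c2 := (hG1 (jj i)).ch
          rw [hf i, hpx] at c1 ⊢
          rw [hg (jj i), hq] at c2 ⊢
          rw [List.append_assoc, List.singleton_append, List.isChain_append_cons_cons]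
          exact ⟨c1.imp fun _ _ h => h.1, hxy', c2.imp fun _ _ h => h.1⟩
        · obtain ⟨a, ha, ha'⟩ := (hF1 i).hd
          refine ⟨a, ha, ?_⟩
          rw [List.head?_append, ha']
          rfl
        · obtain ⟨b, hb, hb'⟩ := (hG1 (jj i)).la
          refine ⟨b, hb, ?_⟩
          rw [List.getLast?_append, hb']
          rfl
      · simp only [if_neg hpx]
        have hq : q (jj i) = p i := by rw [hjj, if_neg hpx]
        have he : F i ++ g (jj i) = f i ++ p i :: g (jj i) := by
          rw [hf i, List.append_assoc, List.singleton_append]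
        have c1 := (hF1 i).ch
        have c2 := (hG1 (jj i)).ch
        rw [hf i] at c1
        rw [hg (jj i), hq] at c2
        refine ⟨?_, ?_, ?_⟩
        · rw [he, List.isChain_split]
          exact ⟨c1.imp fun _ _ h => h.1, c2.imp fun _ _ h => h.1⟩
        · obtain ⟨a, ha, ha'⟩ := (hF1 i).hd
          refine ⟨a, ha, ?_⟩
          rw [List.head?_append, ha']
          rfl
        · obtain ⟨b, hb, hb'⟩ := (hG1 (jj i)).la
          refine ⟨b, hb, ?_⟩
          rw [hg (jj i), hq] at hb'
          rw [he, List.getLast?_append, hb']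
          rfl
    · by_cases hpx : p i = x
      · simp only [if_pos hpx]
        have hq : q (jj i) = y := by rw [hjj, if_pos hpx]
        rw [List.nodup_append]
        refine ⟨hF2 i, hG2 _, fun a ha b hb hab => ?_⟩
        subst hab
        obtain ⟨h3, h4, h5⟩ := F6 i (jj i) a ha hb
        rw [hq] at h5
        exact hyS (h5 ▸ h3)
      · simp only [if_neg hpx]
        have hnd := hG2 (jj i)
        rw [hg, List.nodup_cons] at hnd
        rw [List.nodup_append]
        refine ⟨hF2 i, hnd.2, fun a ha b hb hab => ?_⟩
        subst hab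
        obtain ⟨h3, h4, h5⟩ := F6 i (jj i) a ha (by rw [hg]; exact List.mem_cons_of_mem _ hb)
        exact hnd.1 (h5 ▸ hb)
    · rcases hmem i z hi with h1 | h1 <;> rcases hmem i' z hi' with h2 | h2
      · exact hF3 i i' z h1 h2
      · exact hcross i i' z h1 h2
      · exact (hcross i' i z h2 h1).symm
      · exact hjinj i i' (hG3 _ _ z h1 h2)

omit [Fintype V] in
/-- from a chain to a walk -/
theorem exists_walk {G : SimpleGraph V} (l : List V) (a b : V) (hch : (a :: l).IsChain G.Adj)
    (hlast : (a :: l).getLast? = some b) : ∃ w : G.Walk a b, w.support = a :: l := by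
  induction l generalizing a with
  | nil =>
    simp only [List.getLast?_singleton, Option.some.injEq] at hlast
    subst hlast
    exact ⟨SimpleGraph.Walk.nil, rfl⟩
  | cons c t ih =>
    rw [List.isChain_cons_cons] at hch
    rw [List.getLast?_cons_cons] at hlast
    obtain ⟨w, hw⟩ := ih c hch.2 hlast
    exact ⟨SimpleGraph.Walk.cons hch.1 w, by rw [SimpleGraph.Walk.support_cons, hw]⟩

omit [Fintype V] in
theorem chain_tail {R : V → V → Prop} {p : V → Prop} (h : ∀ a b, R a b → p b) (a : V)
    (t : List V) (hc : (a :: t).IsChain R) : ∀ w ∈ t, p w := by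
  induction t generalizing a with
  | nil => simp
  | cons c t ih =>
    rw [List.isChain_cons_cons] at hc
    intro w hw
    rcases List.mem_cons.1 hw with rfl | hw
    · exact h _ _ hc.1
    · exact ih c hc.2 w hw

end Men

open Men

variable {V : Type*} [Fintype V]

theorem exists_family (G : SimpleGraph V) {u v : V} (huv : u ≠ v) {k : ℕ} (h : Perf G u v k) :
    ∃ F : Finset (G.Path u v), k ≤ #F ∧ IntDisj F := by
  set R : V → V → Prop := fun a b => G.Adj a b ∧ b ≠ u ∧ b ≠ v with hR
  set A : Finset V := {a | G.Adj u a ∧ a ≠ v} with hA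
  set B : Finset V := {b | G.Adj b v} with hB
  set c : ℕ := if G.Adj u v then 1 else 0 with hc
  have hkey : ∀ S : Finset V, (∀ l, Cn R A B l → ∃ z ∈ l, z ∈ S) → k - c ≤ #S := by
    intro S hS
    set Q : Finset V := {z | ∃ l : List V, l.IsChain R ∧ (∃ a ∈ A, l.head? = some a) ∧
      l.getLast? = some z ∧ ∀ w ∈ l, w ∉ S ∧ w ≠ u ∧ w ≠ v} with hQ
    have hQm : ∀ z, z ∈ Q ↔ ∃ l : List V, l.IsChain R ∧ (∃ a ∈ A, l.head? = some a) ∧
      l.getLast? = some z ∧ ∀ w ∈ l, w ∉ S ∧ w ≠ u ∧ w ≠ v := by
      intro z
      simp [hQ]
    have hne : ∀ z ∈ Q, z ≠ u ∧ z ≠ v := by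
      intro z hz
      obtain ⟨l, -, -, h3, h4⟩ := (hQm z).1 hz
      exact (h4 z (List.mem_of_getLast? h3)).2
    have hadj : ∀ z ∈ Q, ¬ G.Adj z v := by
      intro z hz hzv
      obtain ⟨l, h1, h2, h3, h4⟩ := (hQm z).1 hz
      obtain ⟨w, hw, hwS⟩ := hS l ⟨h1, h2, z, by simp [hB, hzv], h3⟩
      exact (h4 w hw).1 hwS
    have h1 := h (insert u Q) (Finset.mem_insert_self _ _) (by
      intro hv
      rcases Finset.mem_insert.1 hv with hv | hv
      · exact huv hv.symm
      · exact (hne v hv).2 rfl) (by
      intro a ha hav
      rcases Finset.mem_insert.1 ha with ha | ha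
      · exact ha
      · exact absurd hav (hadj a ha))
    have h2 : nb G (insert u Q) ⊆ S ∪ (if G.Adj u v then {v} else ∅) := by
      intro y hy
      have hy' : y ∉ insert u Q ∧ ∃ a ∈ insert u Q, G.Adj a y := by simpa [nb] using hy
      obtain ⟨hy1, a, ha, hay⟩ := hy'
      have hyu : y ≠ u := fun e => hy1 (e ▸ Finset.mem_insert_self _ _)
      by_cases hyv : y = v
      · subst hyv
        have hau : a = u := by
          rcases Finset.mem_insert.1 ha with ha | ha
          · exact ha
          · exact absurd hay (hadj a ha)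
        subst hau
        rw [if_pos hay]
        simp
      · refine Finset.mem_union_left _ ?_
        by_contra hyS
        refine hy1 (Finset.mem_insert_of_mem ((hQm y).2 ?_))
        rcases Finset.mem_insert.1 ha with rfl | ha
        · exact ⟨[y], by simp, ⟨y, by simp [hA, hay, hyv], rfl⟩, rfl, by simp [hyS, hyu, hyv]⟩
        · obtain ⟨l, k1, ⟨b, hb, hb'⟩, k3, k4⟩ := (hQm a).1 ha
          refine ⟨l ++ [y], ?_, ⟨b, hb, ?_⟩, by simp, ?_⟩
          · rw [List.isChain_append]
            refine ⟨k1, by simp, ?_⟩
            intro x hx z hz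
            rw [k3] at hx
            simp only [Option.mem_def, Option.some.injEq, List.head?_cons] at hx hz
            subst hx hz
            exact ⟨hay, hyu, hyv⟩
          · rw [List.head?_append, hb']
            rfl
          · intro w hw
            rcases List.mem_append.1 hw with hw | hw
            · exact k4 w hw
            · rw [List.mem_singleton] at hw
              subst hw
              exact ⟨hyS, hyu, hyv⟩
    have h3 := (Finset.card_le_card h2).trans (Finset.card_union_le _ _)
    have h4 : #(if G.Adj u v then ({v} : Finset V) else ∅) = c := by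
      rw [hc]
      split_ifs <;> simp
    rw [h4] at h3
    omega
  obtain ⟨F, hF1, hF2, hF3⟩ := Men.main (k - c) _ R A B rfl hkey
  have hav : ∀ i, ∀ w ∈ F i, w ≠ u ∧ w ≠ v := by
    intro i w hw
    obtain ⟨a, ha, ha'⟩ := (hF1 i).hd
    obtain ⟨t, ht⟩ := List.head?_eq_some_iff.1 ha'
    have hch := (hF1 i).ch
    rw [ht] at hw hch
    rcases List.mem_cons.1 hw with rfl | hw
    · have : G.Adj u w ∧ w ≠ v := by simpa [hA] using ha
      exact ⟨this.1.ne', this.2⟩
    · exact chain_tail (p := fun w => w ≠ u ∧ w ≠ v) (fun _ _ h => h.2) a t hch w hw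
  have hwalk : ∀ i, ∃ P : G.Path u v, (P : G.Walk u v).support = u :: (F i ++ [v]) := by
    intro i
    obtain ⟨a, ha, ha'⟩ := (hF1 i).hd
    obtain ⟨b, hb, hb'⟩ := (hF1 i).la
    have hua : G.Adj u a := by
      have : G.Adj u a ∧ a ≠ v := by simpa [hA] using ha
      exact this.1
    have hbv : G.Adj b v := by simpa [hB] using hb
    obtain ⟨w, hw⟩ := exists_walk (G := G) (F i ++ [v]) u v (by
      rw [List.isChain_cons]
      refine ⟨?_, ?_⟩
      · intro y hy
        rw [List.head?_append, ha'] at hy
        simp only [Option.some_or, Option.mem_def, Option.some.injEq] at hy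
        subst hy
        exact hua
      · rw [List.isChain_append]
        refine ⟨(hF1 i).ch.imp fun _ _ h => h.1, by simp, ?_⟩
        intro x hx z hz
        rw [hb'] at hx
        simp only [Option.mem_def, Option.some.injEq, List.head?_cons] at hx hz
        subst hx hz
        exact hbv) (by
      rw [← List.cons_append]
      exact List.getLast?_concat)
    refine ⟨⟨w, ?_⟩, hw⟩
    rw [SimpleGraph.Walk.isPath_def, hw, List.nodup_cons, List.nodup_append]
    refine ⟨?_, hF2 i, by simp, ?_⟩
    · intro h
      rcases List.mem_append.1 h with h | h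
      · exact (hav i u h).1 rfl
      · exact huv (List.mem_singleton.1 h)
    · intro x hx y hy hxy
      rw [List.mem_singleton] at hy
      exact (hav i x hx).2 (hxy.trans hy)
  choose P hP using hwalk
  have hPinj : Function.Injective P := by
    intro i j hij
    have h1 := hP i
    rw [hij, hP j] at h1
    rw [List.cons.injEq] at h1
    have h2 := List.append_cancel_right h1.2
    obtain ⟨a, ha, ha'⟩ := (hF1 i).hd
    have ha2 : a ∈ F i := List.mem_of_head? ha'
    exact hF3 i j a ha2 (h2 ▸ ha2)
  have hdis : ∀ i j, P i ≠ P j → ∀ x, x ∈ (P i : G.Walk u v).support →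
      x ∈ (P j : G.Walk u v).support → x = u ∨ x = v := by
    intro i j hij x hx hy
    rw [hP] at hx hy
    rcases List.mem_cons.1 hx with hx | hx
    · exact Or.inl hx
    rcases List.mem_cons.1 hy with hy | hy
    · exact Or.inl hy
    rcases List.mem_append.1 hx with hx | hx
    · rcases List.mem_append.1 hy with hy | hy
      · exact absurd (congrArg P (hF3 i j x hx hy)) hij
      · exact Or.inr (List.mem_singleton.1 hy)
    · exact Or.inr (List.mem_singleton.1 hx)
  have hcard : #(Finset.univ.image P) = k - c := by
    rw [Finset.card_image_of_injective _ hPinj]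
    simp
  by_cases huva : G.Adj u v
  · have hc1 : c = 1 := by rw [hc, if_pos huva]
    let E : G.Path u v := ⟨huva.toWalk, huva.isPath_toWalk⟩
    have hE : (E : G.Walk u v).support = [u, v] := rfl
    have hEn : E ∉ Finset.univ.image P := by
      intro hmem
      obtain ⟨i, -, hi⟩ := Finset.mem_image.1 hmem
      have h1 := hP i
      rw [hi, hE, List.cons.injEq] at h1
      obtain ⟨a, ha, ha'⟩ := (hF1 i).hd
      obtain ⟨t, ht⟩ := List.head?_eq_some_iff.1 ha'
      rw [ht] at h1
      have := congrArg List.length h1.2
      simp at this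
    refine ⟨insert E (Finset.univ.image P), ?_, ?_⟩
    · rw [Finset.card_insert_of_notMem hEn, hcard]
      omega
    · intro X hX Y hY hXY x hx hy
      have hEx : ∀ x, x ∈ (E : G.Walk u v).support → x = u ∨ x = v := by
        intro x hx
        rw [hE] at hx
        simpa using hx
      rcases Finset.mem_insert.1 hX with rfl | hX
      · exact hEx x hx
      rcases Finset.mem_insert.1 hY with rfl | hY
      · exact hEx x hy
      obtain ⟨i, -, rfl⟩ := Finset.mem_image.1 hX
      obtain ⟨j, -, rfl⟩ := Finset.mem_image.1 hY
      exact hdis i j hXY x hx hy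
  · have hc1 : c = 0 := by rw [hc, if_neg huva]
    refine ⟨Finset.univ.image P, by omega, ?_⟩
    intro X hX Y hY hXY x hx hy
    obtain ⟨i, -, rfl⟩ := Finset.mem_image.1 hX
    obtain ⟨j, -, rfl⟩ := Finset.mem_image.1 hY
    exact hdis i j hXY x hx hy

theorem menger (G : SimpleGraph V) {u v : V} (huv : u ≠ v) {k : ℕ} (h : Perf G u v k) :
    ∃ F : Finset (G.Path u v), #F = k ∧ IntDisj F := by
  obtain ⟨F, hF, hF'⟩ := exists_family G huv h
  obtain ⟨F', h1, h2⟩ := Finset.exists_subset_card_eq hF
  exact ⟨F', h2, fun X hX Y hY => hF' X (h1 hX) Y (h1 hY)⟩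

theorem bddAbove_kappa (G : SimpleGraph V) (u v : V) :
    BddAbove {k | ∃ F : Finset (G.Path u v), F.card = k ∧ IntDisj F} := by
  refine ⟨Fintype.card (G.Path u v), ?_⟩
  rintro k ⟨F, rfl, -⟩
  exact Finset.card_le_univ F

theorem Perf.le_kappa {G : SimpleGraph V} {u v : V} (huv : u ≠ v) {k : ℕ} (h : Perf G u v k) :
    k ≤ kappa G u v :=
  le_csSup (bddAbove_kappa G u v) (menger G huv h)

end Pool.Agent.AvgConn
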