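import Pool.Agent.Work.MP_88992e_co.Leaf
import Pool.Agent.Work.MP_88992e_co.Menger

/-!
# Fewer edges than non-isolated vertices: realisations
-/

namespace Pool.Agent.AvgConn

open Finset
open scoped Classical

variable {V : Type*} [Fintype V]

lemma perf_one_of_adj {G : SimpleGraph V} {u v : V} (h : G.Adj u v) : Perf G u v 1 := by
  intro A huA hvA _
  exact card_pos.2 ⟨v, mem_nb.2 ⟨hvA, u, huA, h⟩⟩

/-- lower bound for the sum -/
theorem sum_kappa_ge (H : SimpleGraph V) (T M : Finset V) (hTM : Disjoint T M)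
    (k : V × V → ℕ) (hk : ∀ p ∈ T.offDiag, k p ≤ kappa H p.1 p.2)
    (hM : ∀ v ∈ M, deg H v = 1) :
    ∑ p ∈ T.offDiag, k p + #M ≤ ∑ p : V × V with p.1 ≠ p.2, kappa H p.1 p.2 := by
  set B : Finset (V × V) := {p ∈ M ×ˢ univ | H.Adj p.1 p.2} with hB
  have hBc : #B = #M := by
    rw [hB, card_filter, sum_product]
    have h1 : ∀ v ∈ M, ∑ w : V, (if H.Adj v w then 1 else 0) = 1 := by
      intro v hv
      rw [← card_filter, ← deg_eq]
      exact hM v hv
    rw [sum_congr rfl h1, sum_const, smul_eq_mul, mul_one]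
  have hdis : Disjoint T.offDiag B := by
    rw [disjoint_left]
    intro p hp hpB
    exact (disjoint_left.1 hTM) (mem_offDiag.1 hp).1 (mem_product.1 (mem_filter.1 hpB).1).1
  have hsub : T.offDiag ∪ B ⊆ ({p : V × V | p.1 ≠ p.2} : Finset (V × V)) := by
    intro p hp
    refine mem_filter.2 ⟨mem_univ _, ?_⟩
    rcases mem_union.1 hp with h | h
    · exact (mem_offDiag.1 h).2.2
    · exact (mem_filter.1 h).2.ne
  calc ∑ p ∈ T.offDiag, k p + #M ≤ ∑ p ∈ T.offDiag, kappa H p.1 p.2 +
        ∑ p ∈ B, kappa H p.1 p.2 := by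
        refine Nat.add_le_add (sum_le_sum hk) ?_
        rw [← hBc, card_eq_sum_ones]
        refine sum_le_sum fun p hp => ?_
        exact (perf_one_of_adj (mem_filter.1 hp).2).le_kappa (mem_filter.1 hp).2.ne
    _ = ∑ p ∈ T.offDiag ∪ B, kappa H p.1 p.2 := (sum_union hdis).symm
    _ ≤ _ := sum_le_sum_of_subset hsub

/-- complete a graph on `{d ≥ 2}` by leaves and single edges -/
theorem exists_extend (d : V → ℕ) (H₀ : SimpleGraph V) (e : V → ℕ) (hG : Good H₀ e)
    (h0 : ∀ v, ¬ 2 ≤ d v → deg H₀ v = 0) (hle : ∀ v, 2 ≤ d v → deg H₀ v ≤ d v)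
    (he : ∀ v, 2 ≤ d v → 1 ≤ e v) {r : ℕ}
    (hr : ∑ v with 2 ≤ d v, (d v - deg H₀ v) = r) (hrc : r ≤ #{v | d v = 1})
    (hev : Even (#{v | d v = 1} - r)) :
    ∃ H : SimpleGraph V, (∀ v, deg H v = d v) ∧
      (cnt d 2 + r) * (cnt d 2 + r - 1) +
        ∑ p ∈ ({v | 2 ≤ d v} : Finset V).offDiag, (min (e p.1) (e p.2) - 1) +
        (#{v | d v = 1} - r) ≤ ∑ p : V × V with p.1 ≠ p.2, kappa H p.1 p.2 := by
  set I : Finset V := {v | 2 ≤ d v} with hI
  set O : Finset V := {v | d v = 1} with hO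
  obtain ⟨L, hLO, hLc⟩ := exists_subset_card_eq hrc
  have hL1 : ∀ l ∈ L, d l = 1 := fun l hl => (mem_filter.1 (hLO hl)).2
  have hI2 : ∀ v ∈ I, 2 ≤ d v := fun v hv => (mem_filter.1 hv).2
  obtain ⟨p, hp1, hp2⟩ := exists_parents (I := I) (L := L) (f := fun v => d v - deg H₀ v)
    (by rw [hLc]; exact hr)
  have hpL : ∀ l ∈ L, p l ∉ L := by
    intro l hl h
    have := hL1 _ h
    have := hI2 _ (hp1 l hl)
    omega
  have hisoL : ∀ l ∈ L, ∀ w, ¬ H₀.Adj l w := fun l hl w =>
    not_adj_of_deg (h0 l (by have := hL1 l hl; omega)) w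
  set H₁ := addLeaves H₀ L p with hH₁
  have hG₁ := good_addLeaves hG hisoL hpL (fun l hl => he _ (hI2 _ (hp1 l hl)))
  -- the remaining ones
  set M := O \ L with hM
  have hMc : #M = #O - r := by rw [hM, card_sdiff_of_subset hLO, hLc]
  have hM1 : ∀ v ∈ M, d v = 1 := fun v hv => (mem_filter.1 (mem_sdiff.1 hv).1).2
  obtain ⟨g, hg⟩ := hev
  obtain ⟨M₁, hM₁, hM₁c⟩ := exists_subset_card_eq (s := M) (n := g) (by omega)
  have hM₂c : #(M \ M₁) = g := by rw [card_sdiff_of_subset hM₁]; omega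
  obtain ⟨p', hp1', hp2'⟩ := exists_parents (I := M \ M₁) (L := M₁) (f := fun _ => 1)
    (by rw [sum_const, smul_eq_mul, mul_one, hM₂c, hM₁c])
  have hpM : ∀ l ∈ M₁, p' l ∉ M₁ := fun l hl h => (mem_sdiff.1 (hp1' l hl)).2 h
  have hdeg₁ : ∀ v, v ∉ L → v ∉ I → deg H₁ v = 0 := by
    intro v hvL hvI
    rw [hH₁, deg_addLeaves_old hisoL hpL hvL, h0 v (fun h => hvI (mem_filter.2 ⟨mem_univ _, h⟩)),
      zero_add, card_eq_zero, filter_eq_empty_iff]
    intro l hl h
    exact hvI (h ▸ hp1 l hl)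
  have hMI : ∀ v ∈ M, v ∉ I := by
    intro v hv h
    have := hM1 v hv
    have := hI2 v h
    omega
  have hisoM : ∀ v ∈ M, ∀ w, ¬ H₁.Adj v w := fun v hv w =>
    not_adj_of_deg (hdeg₁ v (mem_sdiff.1 hv).2 (hMI v hv)) w
  have hisoM₁ : ∀ v ∈ M₁, ∀ w, ¬ H₁.Adj v w := fun v hv => hisoM v (hM₁ hv)
  set H := addLeaves H₁ M₁ p' with hH
  have hle₁ : H₁ ≤ H := by
    intro a b h
    exact addLeaves_adj.2 (Or.inl h)
  have hdeg : ∀ v, deg H v = d v := by
    intro v
    by_cases hv1 : v ∈ M₁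
    · rw [hH, deg_addLeaves_leaf hisoM₁ hpM hv1, hM1 v (hM₁ hv1)]
    · rw [hH, deg_addLeaves_old hisoM₁ hpM hv1]
      by_cases hvM : v ∈ M
      · rw [hdeg₁ v (mem_sdiff.1 hvM).2 (hMI v hvM), hp2' v (mem_sdiff.2 ⟨hvM, hv1⟩), hM1 v hvM]
      · have h1 : #{l ∈ M₁ | p' l = v} = 0 := by
          rw [card_eq_zero, filter_eq_empty_iff]
          intro l hl h
          exact hvM (h ▸ (mem_sdiff.1 (hp1' l hl)).1)
        rw [h1, add_zero]
        by_cases hvL : v ∈ L
        · rw [hH₁, deg_addLeaves_leaf hisoL hpL hvL, hL1 v hvL]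
        · by_cases hvI : v ∈ I
          · rw [hH₁, deg_addLeaves_old hisoL hpL hvL, hp2 v hvI]
            have := hle v (hI2 v hvI)
            omega
          · rw [hdeg₁ v hvL hvI]
            have h2 : ¬ 2 ≤ d v := fun h => hvI (mem_filter.2 ⟨mem_univ _, h⟩)
            have h3 : d v ≠ 1 := fun h => hvM (mem_sdiff.2 ⟨mem_filter.2 ⟨mem_univ _, h⟩, hvL⟩)
            omega
  refine ⟨H, hdeg, ?_⟩
  have hIL : Disjoint I L := by
    rw [disjoint_left]
    intro v h1 h2
    have := hI2 v h1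
    have := hL1 v h2
    omega
  have hTc : #(I ∪ L) = cnt d 2 + r := by
    rw [card_union_of_disjoint hIL, hLc]
    rfl
  have hTM : Disjoint (I ∪ L) M := by
    rw [disjoint_left]
    intro v h1 h2
    rcases mem_union.1 h1 with h | h
    · exact hMI v h2 h
    · exact (mem_sdiff.1 h2).2 h
  have key := sum_kappa_ge H (I ∪ L) M hTM
    (fun q => 1 + if q ∈ I.offDiag then min (e q.1) (e q.2) - 1 else 0) (by
      intro q hq
      obtain ⟨hq1, hq2, hq3⟩ := mem_offDiag.1 hq
      have h1 : Perf H q.1 q.2 (min ((fun v => if v ∈ L then 1 else e v) q.1)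
          ((fun v => if v ∈ L then 1 else e v) q.2)) := (hG₁ q.1 q.2 hq3).mono_graph hle₁
      have h2 := h1.le_kappa hq3
      refine le_trans ?_ h2
      have hpos : ∀ v ∈ I ∪ L, 1 ≤ (if v ∈ L then 1 else e v) := by
        intro v hv
        split_ifs with h
        · exact le_rfl
        · rcases mem_union.1 hv with h' | h'
          · exact he v (hI2 v h')
          · exact absurd h' h
      have e1 := hpos _ hq1
      have e2 := hpos _ hq2
      by_cases hqI : q ∈ I.offDiag
      · rw [if_pos hqI]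
        obtain ⟨hq4, hq5, _⟩ := mem_offDiag.1 hqI
        have e3 := disjoint_left.1 hIL hq4
        have e4 := disjoint_left.1 hIL hq5
        simp only [if_neg e3, if_neg e4] at e1 e2 ⊢
        omega
      · rw [if_neg hqI, add_zero]
        exact le_min e1 e2)
    (fun v hv => by rw [hdeg v, hM1 v hv])
  refine le_trans (le_of_eq ?_) key
  rw [sum_add_distrib, sum_const, smul_eq_mul, mul_one, offDiag_card, hTc, hMc, ← sum_filter]
  have h1 : filter (fun q => q ∈ I.offDiag) (I ∪ L).offDiag = I.offDiag := by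
    ext q
    simp only [mem_filter, mem_offDiag, mem_union]
    tauto
  rw [h1, Nat.mul_sub, mul_one]

/-- a path through all vertices of `I` -/
theorem exists_path (I : Finset V) (hI : I.Nonempty) : ∃ H : SimpleGraph V,
    Good H (fun v => if v ∈ I then 1 else 0) ∧ (∀ v ∈ I, deg H v ≤ 2) ∧
    (∀ v, v ∉ I → deg H v = 0) ∧ (∃ v ∈ I, deg H v ≤ 1) ∧ ∑ v ∈ I, deg H v + 2 = 2 * #I := by
  induction I using Finset.induction_on with
  | empty => exact absurd hI not_nonempty_empty
  | insert a I ha ih =>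
    rcases I.eq_empty_or_nonempty with hI' | hI'
    · subst hI'
      have hdb : ∀ v : V, deg (⊥ : SimpleGraph V) v = 0 := by
        intro v
        rw [deg_eq]
        simp
      refine ⟨⊥, ?_, fun v _ => by rw [hdb]; omega, fun v _ => hdb v,
        ⟨a, mem_insert_self _ _, by rw [hdb]; omega⟩, ?_⟩
      · intro u v huv
        have h1 : min (if u ∈ insert a (∅ : Finset V) then 1 else 0)
            (if v ∈ insert a (∅ : Finset V) then 1 else 0) = 0 := by
          by_cases h : u = a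
          · have h2 : v ≠ a := fun h3 => huv (h.trans h3.symm)
            simp [h2]
          · simp [h]
        rw [h1]
        exact perf_zero _ _ _
      · simp [hdb]
    · obtain ⟨H, h1, h2, h3, ⟨b, hb, hb1⟩, h4⟩ := ih hI'
      have hiso : ∀ w, ¬ H.Adj a w := not_adj_of_deg (h3 a ha)
      have hisoL : ∀ l ∈ ({a} : Finset V), ∀ w, ¬ H.Adj l w := by
        intro l hl
        rw [mem_singleton.1 hl]
        exact hiso
      have hba : b ≠ a := fun h => ha (h ▸ hb)
      have hpL : ∀ l ∈ ({a} : Finset V), (fun _ => b) l ∉ ({a} : Finset V) := fun l _ h =>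
        hba (mem_singleton.1 h)
      have hg := good_addLeaves h1 hisoL hpL (fun l _ => by simp [hb])
      have ea : deg (addLeaves H {a} (fun _ => b)) a = 1 :=
        deg_addLeaves_leaf hisoL hpL (mem_singleton_self a)
      have ev : ∀ v, v ≠ a → deg (addLeaves H {a} (fun _ => b)) v =
          deg H v + if b = v then 1 else 0 := by
        intro v hv
        rw [deg_addLeaves_old hisoL hpL (fun h => hv (mem_singleton.1 h))]
        congr 1
        split_ifs with hbv
        · simp [hbv]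
        · simp [hbv]
      refine ⟨addLeaves H {a} (fun _ => b), ?_, ?_, ?_, ⟨a, mem_insert_self _ _, ea.le⟩, ?_⟩
      · have : (fun v => if v ∈ insert a I then 1 else 0) =
            (fun v => if v ∈ ({a} : Finset V) then 1 else if v ∈ I then 1 else 0) := by
          funext v
          simp only [mem_insert, mem_singleton]
          by_cases h5 : v = a
          · simp [h5]
          · simp [h5]
        rw [this]
        exact hg
      · intro v hv
        rcases mem_insert.1 hv with h | h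
        · rw [h, ea]; omega
        · have hva : v ≠ a := fun h5 => ha (h5 ▸ h)
          rw [ev v hva]
          split_ifs with hbv
          · rw [← hbv]; omega
          · rw [add_zero]; exact h2 v h
      · intro v hv
        have hva : v ≠ a := fun h5 => hv (h5 ▸ mem_insert_self _ _)
        have hvI : v ∉ I := fun h5 => hv (mem_insert_of_mem h5)
        rw [ev v hva, h3 v hvI, if_neg]
        rintro rfl
        exact hvI hb
      · rw [sum_insert ha, ea, card_insert_of_notMem ha]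
        have h5 : ∑ v ∈ I, deg (addLeaves H {a} (fun _ => b)) v = ∑ v ∈ I, deg H v + 1 := by
          rw [sum_congr rfl (fun v hv => ev v (fun h5 => ha (h5 ▸ hv))), sum_add_distrib,
            sum_ite_eq, if_pos hb]
        rw [h5]
        omega

/-- a cycle through all vertices of `I` -/
theorem exists_cycle (n : ℕ) : ∀ I : Finset V, #I = n + 3 → ∃ H : SimpleGraph V,
    Good H (deg H) ∧ (∀ v ∈ I, deg H v = 2) ∧ (∀ v, v ∉ I → deg H v = 0) := by
  induction n with
  | zero =>
    intro I hI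
    rw [zero_add] at hI
    obtain ⟨H, hadj⟩ : ∃ H : SimpleGraph V, ∀ a b, H.Adj a b ↔ a ≠ b ∧ a ∈ I ∧ b ∈ I := by
      refine ⟨SimpleGraph.fromRel (fun a b => a ∈ I ∧ b ∈ I), fun a b => ?_⟩
      rw [SimpleGraph.fromRel_adj]
      tauto
    have hd2 : ∀ v ∈ I, deg H v = 2 := by
      intro v hv
      have h1 : ({w | H.Adj v w} : Finset V) = I.erase v := by
        ext w
        rw [mem_filter, mem_erase, hadj]
        constructor
        · rintro ⟨_, h1, _, h2⟩
          exact ⟨h1.symm, h2⟩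
        · rintro ⟨h1, h2⟩
          exact ⟨mem_univ _, h1.symm, hv, h2⟩
      rw [deg_eq, h1, card_erase_of_mem hv, hI]
    have hd0 : ∀ v, v ∉ I → deg H v = 0 := by
      intro v hv
      rw [deg_eq, card_eq_zero, filter_eq_empty_iff]
      intro w _ h
      exact hv ((hadj v w).1 h).2.1
    refine ⟨H, ?_, hd2, hd0⟩
    intro u v huv
    by_cases hu : u ∈ I
    · by_cases hv : v ∈ I
      · rw [hd2 u hu, hd2 v hv, min_self]
        intro A huA hvA hcond
        obtain ⟨w, hw⟩ := card_pos.1 (show 0 < #((I.erase u).erase v) by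
          rw [card_erase_of_mem (mem_erase.2 ⟨huv.symm, hv⟩), card_erase_of_mem hu, hI]
          norm_num)
        obtain ⟨hwv, hw'⟩ := mem_erase.1 hw
        obtain ⟨hwu, hwI⟩ := mem_erase.1 hw'
        have hwA : w ∉ A := fun h => hwu (hcond w h ((hadj _ _).2 ⟨hwv, hwI, hv⟩))
        exact one_lt_card.2 ⟨v, mem_nb.2 ⟨hvA, u, huA, (hadj _ _).2 ⟨huv, hu, hv⟩⟩, w,
          mem_nb.2 ⟨hwA, u, huA, (hadj _ _).2 ⟨hwu.symm, hu, hwI⟩⟩, hwv.symm⟩
      · rw [hd0 v hv, Nat.min_zero]
        exact perf_zero _ _ _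
    · rw [hd0 u hu, Nat.zero_min]
      exact perf_zero _ _ _
  | succ n ih =>
    intro I hI
    obtain ⟨x, hx⟩ := card_pos.1 (show 0 < #I by omega)
    obtain ⟨G, h1, h2, h3⟩ := ih (I.erase x) (by rw [card_erase_of_mem hx]; omega)
    obtain ⟨a, ha⟩ := card_pos.1 (show 0 < #(I.erase x) by rw [card_erase_of_mem hx]; omega)
    obtain ⟨b, hab⟩ := (deg_pos_iff G a).1 (by rw [h2 a ha]; omega)
    have hx0 : deg G x = 0 := h3 x (fun h => (mem_erase.1 h).1 rfl)
    have hx' := not_adj_of_deg hx0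
    have hxa : x ≠ a := fun h => (mem_erase.1 (h ▸ ha)).1 rfl
    have hxb : x ≠ b := by
      rintro rfl
      exact hx' a hab.symm
    refine ⟨pinch G x a b, good_subdiv h1 ?_ hx0 hab, ?_, ?_⟩
    · intro v hv
      by_cases hvI : v ∈ I.erase x
      · exact (h2 v hvI).ge
      · exact absurd (h3 v hvI) hv
    · intro v hv
      by_cases hvx : v = x
      · rw [hvx, deg_pinch_new hab hxa hxb (hx' _) (hx' _), hx0]
      · rw [deg_pinch_old hab hxa hxb (hx' _) (hx' _) hvx]
        exact h2 v (mem_erase.2 ⟨hvx, hv⟩)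
    · intro v hv
      have hvx : v ≠ x := fun h => hv (h ▸ hx)
      rw [deg_pinch_old hab hxa hxb (hx' _) (hx' _) hvx]
      exact h3 v (fun h => hv (mem_of_mem_erase h))

/-- the numbers -/
theorem small_numbers (d : V → ℕ) : ∃ q : ℕ,
    ∑ v with 2 ≤ d v, d v = 2 * cnt d 2 + q ∧ ∑ v, d v = 2 * cnt d 2 + q + #{v | d v = 1} ∧
    cnt d 1 = cnt d 2 + #{v | d v = 1} := by
  have h1 : 2 * cnt d 2 ≤ ∑ v with 2 ≤ d v, d v := by
    unfold cnt
    rw [mul_comm, ← smul_eq_mul, ← sum_const]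
    exact sum_le_sum fun v hv => (mem_filter.1 hv).2
  obtain ⟨q, hq⟩ := Nat.exists_eq_add_of_le h1
  refine ⟨q, hq, ?_, ?_⟩
  · rw [← hq, card_eq_sum_ones, sum_filter, sum_filter, ← sum_add_distrib]
    refine sum_congr rfl fun v _ => ?_
    by_cases h2 : 2 ≤ d v
    · rw [if_pos h2, if_neg (by omega), add_zero]
    · rw [if_neg h2, zero_add]
      split_ifs with h3
      · exact h3
      · omega
  · unfold cnt
    rw [← card_union_of_disjoint]
    · congr 1
      ext v
      simp only [mem_filter, mem_univ, true_and, mem_union]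
      omega
    · rw [disjoint_left]
      intro v h2 h3
      rw [mem_filter] at h2 h3
      omega

/-- one unicyclic component (cycle through all vertices of degree at least 2) and `g` single
edges -/
theorem exists_unicyclic (d : V → ℕ) (he : Even (∑ v, d v)) (hm : ∑ v, d v < 2 * cnt d 1)
    (h3 : 3 ≤ cnt d 2) :
    ∃ H : SimpleGraph V, (∀ v, deg H v = d v) ∧
      (2 * cnt d 1 - ∑ v, d v) +
        ((∑ v, d v - cnt d 1) * ((∑ v, d v - cnt d 1) - 1) + cnt d 2 * (cnt d 2 - 1))
        ≤ ∑ p : V × V with p.1 ≠ p.2, kappa H p.1 p.2 := by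
  obtain ⟨q, hq1, hq2, hq3⟩ := small_numbers d
  set c := #{v | d v = 1} with hc
  obtain ⟨H₀, hG, hd2, hd0⟩ := exists_cycle (cnt d 2 - 3) ({v | 2 ≤ d v} : Finset V) (by
    show cnt d 2 = _
    omega)
  have hdI : ∀ v, 2 ≤ d v → deg H₀ v = 2 := fun v hv => hd2 v (mem_filter.2 ⟨mem_univ _, hv⟩)
  have hr : ∑ v with 2 ≤ d v, (d v - deg H₀ v) = q := by
    have h1 : ∑ v with 2 ≤ d v, (d v - deg H₀ v) + 2 * cnt d 2 = ∑ v with 2 ≤ d v, d v := by
      have h2 : 2 * cnt d 2 = ∑ v with 2 ≤ d v, 2 := by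
        rw [sum_const, smul_eq_mul, mul_comm]
        rfl
      rw [h2, ← sum_add_distrib]
      refine sum_congr rfl fun v hv => ?_
      have h4 := (mem_filter.1 hv).2
      rw [hdI v h4]
      omega
    omega
  obtain ⟨w, hw⟩ := he
  obtain ⟨H, hH, hle⟩ := exists_extend d H₀ (deg H₀) hG
    (fun v hv => hd0 v (fun h => hv (mem_filter.1 h).2)) (fun v hv => by rw [hdI v hv]; exact hv)
    (fun v hv => by rw [hdI v hv]; omega) hr (by omega) (by
      rw [Nat.even_iff]
      omega)
  refine ⟨H, hH, le_trans (le_of_eq ?_) hle⟩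
  have h1 : ∑ p ∈ ({v | 2 ≤ d v} : Finset V).offDiag, (min (deg H₀ p.1) (deg H₀ p.2) - 1) =
      cnt d 2 * (cnt d 2 - 1) := by
    have h2 : ∀ p ∈ ({v | 2 ≤ d v} : Finset V).offDiag,
        min (deg H₀ p.1) (deg H₀ p.2) - 1 = 1 := by
      intro p hp
      obtain ⟨h4, h5, _⟩ := mem_offDiag.1 hp
      rw [hdI _ (mem_filter.1 h4).2, hdI _ (mem_filter.1 h5).2]
      rfl
    rw [sum_congr rfl h2, sum_const, smul_eq_mul, mul_one, offDiag_card, Nat.mul_sub, mul_one]
    rfl
  rw [h1]
  have e1 : 2 * cnt d 1 - ∑ v, d v = c - q := by omega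
  have e2 : ∑ v, d v - cnt d 1 = cnt d 2 + q := by omega
  rw [e1, e2]
  ring

/-- a forest: one tree and `g - 1` single edges -/
theorem exists_forest (d : V → ℕ) (he : Even (∑ v, d v)) (hm : ∑ v, d v < 2 * cnt d 1) :
    ∃ H : SimpleGraph V, (∀ v, deg H v = d v) ∧
      (2 * cnt d 1 - ∑ v, d v) + (((∑ v, d v - cnt d 1) + 2) * ((∑ v, d v - cnt d 1) + 1) - 2)
        ≤ ∑ p : V × V with p.1 ≠ p.2, kappa H p.1 p.2 := by
  obtain ⟨q, hq1, hq2, hq3⟩ := small_numbers d
  set c := #{v | d v = 1} with hc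
  obtain ⟨w, hw⟩ := he
  rcases ({v | 2 ≤ d v} : Finset V).eq_empty_or_nonempty with hI | hI
  · have hn : ∀ v, ¬ 2 ≤ d v := fun v hv => by
      have : v ∈ ({v | 2 ≤ d v} : Finset V) := mem_filter.2 ⟨mem_univ _, hv⟩
      rw [hI] at this
      exact absurd this (notMem_empty v)
    have hc0 : cnt d 2 = 0 := by
      unfold cnt
      rw [hI]
      rfl
    have hdb : ∀ v : V, deg (⊥ : SimpleGraph V) v = 0 := by
      intro v
      rw [deg_eq]
      simp
    have hq0 : q = 0 := by
      rw [hI, sum_empty] at hq1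
      omega
    obtain ⟨H, hH, hle⟩ := exists_extend d ⊥ (fun _ => 0)
      (fun u v _ => by rw [Nat.min_zero]; exact perf_zero _ _ _) (fun v _ => hdb v)
      (fun v hv => absurd hv (hn v)) (fun v hv => absurd hv (hn v)) (r := 0)
      (by rw [hI, sum_empty]) (Nat.zero_le _) (by
        rw [Nat.even_iff]
        omega)
    refine ⟨H, hH, le_trans (le_of_eq ?_) hle⟩
    have e1 : 2 * cnt d 1 - ∑ v, d v = c := by omega
    have e2 : ∑ v, d v - cnt d 1 = 0 := by omega
    rw [e1, e2, hI, hc0]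
    simp only [offDiag_empty, sum_empty]
    omega
  · obtain ⟨H₀, hG, hd2, hd0, -, hsum⟩ := exists_path _ hI
    have hr : ∑ v with 2 ≤ d v, (d v - deg H₀ v) = q + 2 := by
      have h1 : ∑ v with 2 ≤ d v, (d v - deg H₀ v) + ∑ v with 2 ≤ d v, deg H₀ v =
          ∑ v with 2 ≤ d v, d v := by
        rw [← sum_add_distrib]
        refine sum_congr rfl fun v hv => ?_
        have h4 := (mem_filter.1 hv).2
        have h5 := hd2 v hv
        omega
      have h6 : ∑ v with 2 ≤ d v, deg H₀ v + 2 = 2 * cnt d 2 := hsum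
      omega
    obtain ⟨H, hH, hle⟩ := exists_extend d H₀ _ hG
      (fun v hv => hd0 v (fun h => hv (mem_filter.1 h).2))
      (fun v hv => (hd2 v (mem_filter.2 ⟨mem_univ _, hv⟩)).trans hv)
      (fun v hv => by
        have h1 : v ∈ ({v | 2 ≤ d v} : Finset V) := mem_filter.2 ⟨mem_univ _, hv⟩
        rw [if_pos h1]) hr (by omega) (by
        rw [Nat.even_iff]
        omega)
    refine ⟨H, hH, le_trans ?_ hle⟩
    have e1 : 2 * cnt d 1 - ∑ v, d v = c - q := by omega
    have e2 : ∑ v, d v - cnt d 1 = cnt d 2 + q := by omega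
    have e3 : cnt d 2 + (q + 2) - 1 = cnt d 2 + q + 1 := by omega
    have e4 : 2 ≤ c - q := by omega
    have e5 : 2 ≤ (cnt d 2 + q + 2) * (cnt d 2 + q + 1) := by nlinarith
    rw [e1, e2, e3, ← add_assoc (cnt d 2) q 2]
    omega

end Pool.Agent.AvgConn
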