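import Pool.Agent.Work.MP_88992e_co.Defs

/-!
# Truncating a sequence from the top
-/

namespace Pool.Agent.AvgConn

open Finset
open scoped Classical

variable {V : Type*} [Fintype V]

/-- `s_k = max(0, ∑_i max(0, d_i - k + 1) - (number of ones))` -/
noncomputable def tl (d : V → ℕ) (k : ℕ) : ℕ := ∑ i, (d i + 1 - k) - (cnt d 1 - cnt d 2)

lemma tail_succ (e : V → ℕ) (k : ℕ) :
    ∑ i, (e i + 1 - k) = cnt e k + ∑ i, (e i + 1 - (k + 1)) := by
  unfold cnt
  rw [card_filter, ← sum_add_distrib]
  refine sum_congr rfl fun i _ => ?_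
  by_cases h : k ≤ e i
  · rw [if_pos h]
    omega
  · rw [if_neg h]
    omega

lemma cnt_eq_tail (e : V → ℕ) (k : ℕ) :
    cnt e k = ∑ i, (e i + 1 - k) - ∑ i, (e i + 1 - (k + 1)) := by
  rw [tail_succ e k]
  omega

/-- remove `c` units from the top levels, keeping two units everywhere -/
theorem exists_trunc (d : V → ℕ) (c : ℕ) (hc : c ≤ ∑ i, (d i - 2)) :
    ∃ e : V → ℕ, (∀ i, e i ≤ d i) ∧ (∀ i, min (d i) 2 ≤ e i) ∧ ∑ i, (d i - e i) = c ∧
      ∀ k, 3 ≤ k → ∑ i, (e i + 1 - k) = ∑ i, (d i + 1 - k) - c := by
  induction c with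
  | zero => exact ⟨d, fun _ => le_rfl, fun _ => min_le_left _ _, by simp, by simp⟩
  | succ c ih =>
    obtain ⟨e, h1, h2, h3, h4⟩ := ih (by omega)
    -- the largest value
    have hsum : ∑ i, (d i - 2) = ∑ i, (e i - 2) + ∑ i, (d i - e i) := by
      rw [← sum_add_distrib]
      refine sum_congr rfl fun i _ => ?_
      have := h1 i
      have := h2 i
      omega
    have hpos : 0 < ∑ i, (e i - 2) := by omega
    obtain ⟨i₀, _, hi₀⟩ := exists_ne_zero_of_sum_ne_zero (by omega : ∑ i, (e i - 2) ≠ 0)
    obtain ⟨j, _, hj⟩ := exists_max_image univ e ⟨i₀, mem_univ _⟩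
    have hj3 : 3 ≤ e j := by
      have := hj i₀ (mem_univ _)
      omega
    refine ⟨Function.update e j (e j - 1), ?_, ?_, ?_, ?_⟩
    · intro i
      by_cases hij : i = j
      · subst hij
        rw [Function.update_self]
        have := h1 i
        omega
      · rw [Function.update_of_ne hij]
        exact h1 i
    · intro i
      by_cases hij : i = j
      · subst hij
        rw [Function.update_self]
        have := h2 i
        omega
      · rw [Function.update_of_ne hij]
        exact h2 i
    · rw [← add_sum_erase _ _ (mem_univ j)] at h3 ⊢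
      rw [Function.update_self]
      have hr : ∑ x ∈ univ.erase j, (d x - Function.update e j (e j - 1) x)
          = ∑ x ∈ univ.erase j, (d x - e x) := by
        refine sum_congr rfl fun i hi => ?_
        rw [Function.update_of_ne (mem_erase.1 hi).1]
      rw [hr]
      have := h1 j
      omega
    · intro k hk
      have h5 := h4 k hk
      have hr : ∑ x ∈ univ.erase j, (Function.update e j (e j - 1) x + 1 - k)
          = ∑ x ∈ univ.erase j, (e x + 1 - k) := by
        refine sum_congr rfl fun i hi => ?_
        rw [Function.update_of_ne (mem_erase.1 hi).1]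
      rw [← add_sum_erase _ _ (mem_univ j), Function.update_self, hr]
      rw [← add_sum_erase _ _ (mem_univ j)] at h5
      by_cases hkj : k ≤ e j
      · omega
      · -- all values are below `k`
        have h0 : ∑ x ∈ univ.erase j, (e x + 1 - k) = 0 := by
          refine sum_eq_zero fun i _ => ?_
          have := hj i (mem_univ _)
          omega
        rw [h0] at h5 ⊢
        omega

end Pool.Agent.AvgConn
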