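import Pool.Agent.Work.MP_88992e_co.Count
import Pool.Agent.Work.MP_88992e_co.SmallEx
import Pool.Agent.Work.MP_88992e_co.Base3
import Pool.Agent.Work.MP_88992e_co.Trunc

/-!
# Assembly: realisations attaining the upper bound
-/

namespace Pool.Agent.AvgConn

open Finset
open scoped Classical

variable {V : Type*} [Fintype V]

lemma cnt_ones (d : V → ℕ) : cnt d 1 = cnt d 2 + #{v | d v = 1} := by
  unfold cnt
  rw [← card_union_of_disjoint]
  · congr 1
    ext v
    simp only [mem_filter, mem_univ, true_and, mem_union]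
    omega
  · rw [Finset.disjoint_left]
    intro v hv hv'
    simp only [mem_filter, mem_univ, true_and] at hv hv'
    omega

lemma sum_sub_two (d : V → ℕ) : ∑ v, d v = ∑ v, (d v - 2) + 2 * cnt d 2 + #{v | d v = 1} := by
  unfold cnt
  rw [card_filter, card_filter, mul_sum, ← sum_add_distrib, ← sum_add_distrib]
  refine sum_congr rfl fun v _ => ?_
  split_ifs <;> omega

/-- the sum over the core pairs -/
lemma sum_core_pairs (d e : V → ℕ) (D : ℕ) (hD : ∀ v, d v ≤ D) (h1 : ∀ v, e v ≤ d v)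
    (h2 : ∀ v, min (d v) 2 ≤ e v) :
    ∑ p ∈ ({v | 2 ≤ d v} : Finset V).offDiag, (min (e p.1) (e p.2) - 1) =
      cnt d 2 * (cnt d 2 - 1) + ∑ k ∈ Icc 3 D, cnt e k * (cnt e k - 1) := by
  have h3 : ∀ p ∈ ({v | 2 ≤ d v} : Finset V).offDiag, min (e p.1) (e p.2) - 1
      = 1 + ∑ k ∈ Icc 3 D, if k ≤ e p.1 ∧ k ≤ e p.2 then 1 else 0 := by
    intro p hp
    obtain ⟨h4, h5, _⟩ := mem_offDiag.1 hp
    simp only [mem_filter, mem_univ, true_and] at h4 h5
    have a1 := h2 p.1
    have a2 := h2 p.2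
    have a3 := h1 p.1
    have a4 := hD p.1
    rw [sum_boole, Nat.cast_id]
    have : {k ∈ Icc 3 D | k ≤ e p.1 ∧ k ≤ e p.2} = Icc 3 (min (e p.1) (e p.2)) := by
      ext k
      simp only [mem_filter, mem_Icc]
      omega
    rw [this, Nat.card_Icc]
    omega
  rw [sum_congr rfl h3, sum_add_distrib, sum_comm]
  congr 1
  · rw [sum_const, smul_eq_mul, mul_one, offDiag_card, Nat.mul_sub, mul_one]
    rfl
  · refine sum_congr rfl fun k hk => ?_
    rw [mem_Icc] at hk
    rw [sum_boole, Nat.cast_id]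
    have : ({p ∈ ({v | 2 ≤ d v} : Finset V).offDiag | k ≤ e p.1 ∧ k ≤ e p.2})
        = ({v | k ≤ e v} : Finset V).offDiag := by
      ext p
      simp only [mem_filter, mem_offDiag, mem_univ, true_and]
      have a3 := h1 p.1
      have a4 := h1 p.2
      constructor
      · rintro ⟨⟨_, _, h6⟩, h7, h8⟩
        exact ⟨h7, h8, h6⟩
      · rintro ⟨h7, h8, h6⟩
        exact ⟨⟨by omega, by omega, h6⟩, h7, h8⟩
    rw [this, offDiag_card, Nat.mul_sub, mul_one]
    rfl

/-- attaching the leaves to a perfect core -/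
theorem asm (d : V → ℕ) (e : V → ℕ) (h1 : ∀ v, e v ≤ d v) (h2 : ∀ v, min (d v) 2 ≤ e v)
    (h3 : ∑ v, (d v - e v) = cnt d 1 - cnt d 2)
    (h4 : ∀ k, 3 ≤ k → ∑ v, (e v + 1 - k) = ∑ v, (d v + 1 - k) - (cnt d 1 - cnt d 2))
    (H₀ : SimpleGraph V) (hH₀ : ∀ v, deg H₀ v = if 2 ≤ d v then e v else 0)
    (hG : Good H₀ (deg H₀)) (D : ℕ) (hD : ∀ v, d v ≤ D) :
    ∃ H : SimpleGraph V, (∀ v, deg H v = d v) ∧
      cnt d 1 * (cnt d 1 - 1) + cnt d 2 * (cnt d 2 - 1) +
        ∑ k ∈ Icc 3 D, (tl d k - tl d (k + 1)) * (tl d k - tl d (k + 1) - 1)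
        ≤ ∑ p : V × V with p.1 ≠ p.2, kappa H p.1 p.2 := by
  have hones := cnt_ones d
  have hr : ∑ v with 2 ≤ d v, (d v - deg H₀ v) = #{v | d v = 1} := by
    have h5 : ∑ v with 2 ≤ d v, (d v - deg H₀ v) = ∑ v, (d v - e v) := by
      rw [sum_filter]
      refine sum_congr rfl fun v _ => ?_
      by_cases hv : 2 ≤ d v
      · rw [if_pos hv, hH₀, if_pos hv]
      · rw [if_neg hv]
        have := h1 v
        have := h2 v
        omega
    rw [h5, h3]
    omega
  obtain ⟨H, hH, hle⟩ := exists_extend d H₀ (deg H₀) hG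
    (fun v hv => by rw [hH₀, if_neg hv]) (fun v hv => by rw [hH₀, if_pos hv]; exact h1 v)
    (fun v hv => by
      rw [hH₀, if_pos hv]
      have := h2 v
      omega) hr le_rfl (by simp)
  refine ⟨H, hH, le_trans (le_of_eq ?_) hle⟩
  have h6 : ∑ p ∈ ({v | 2 ≤ d v} : Finset V).offDiag, (min (deg H₀ p.1) (deg H₀ p.2) - 1)
      = ∑ p ∈ ({v | 2 ≤ d v} : Finset V).offDiag, (min (e p.1) (e p.2) - 1) := by
    refine sum_congr rfl fun p hp => ?_
    obtain ⟨h7, h8, _⟩ := mem_offDiag.1 hp
    rw [hH₀, hH₀, if_pos (mem_filter.1 h7).2, if_pos (mem_filter.1 h8).2]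
  have h7 : ∀ k ∈ Icc 3 D, (tl d k - tl d (k + 1)) * (tl d k - tl d (k + 1) - 1)
      = cnt e k * (cnt e k - 1) := by
    intro k hk
    rw [mem_Icc] at hk
    rw [cnt_eq_tail e k, h4 k hk.1, h4 (k + 1) (by omega)]
    rfl
  rw [h6, sum_core_pairs d e D hD h1 h2, sum_congr rfl h7, ← hones]
  omega

/-- the number of edges, in terms of the vertices of degree at least two -/
lemma sum_deg_le (G : SimpleGraph V) (d : V → ℕ) (hd : ∀ v, deg G v = d v) :
    ∑ v, d v ≤ cnt d 2 * (cnt d 2 - 1) + 2 * #{v | d v = 1} := by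
  have h1 : ∑ v, d v = #{p : V × V | G.Adj p.1 p.2} := by
    rw [← cnt_sum_deg]
    exact sum_congr rfl fun v _ => (hd v).symm
  set I : Finset V := {v | 2 ≤ d v} with hI
  set O : Finset V := {v | d v = 1} with hO
  have h2 : ({p : V × V | G.Adj p.1 p.2} : Finset (V × V)) ⊆
      I.offDiag ∪ (({p ∈ O ×ˢ univ | G.Adj p.1 p.2} : Finset (V × V)) ∪
        ({p ∈ univ ×ˢ O | G.Adj p.1 p.2} : Finset (V × V))) := by
    intro p hp
    simp only [mem_filter, mem_univ, true_and] at hp
    have h3 : d p.1 ≠ 0 := by rw [← hd]; exact (deg_pos_iff G _).2 ⟨_, hp⟩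
    have h4 : d p.2 ≠ 0 := by rw [← hd]; exact (deg_pos_iff G _).2 ⟨_, hp.symm⟩
    simp only [mem_union, mem_offDiag, mem_filter, mem_product, mem_univ, true_and, and_true,
      hI, hO]
    by_cases h5 : d p.1 = 1
    · exact Or.inr (Or.inl ⟨h5, hp⟩)
    · by_cases h6 : d p.2 = 1
      · exact Or.inr (Or.inr ⟨h6, hp⟩)
      · exact Or.inl ⟨by omega, by omega, hp.ne⟩
  have h5 : #({p ∈ O ×ˢ univ | G.Adj p.1 p.2} : Finset (V × V)) = #O := by
    rw [card_filter, sum_product]
    have : ∀ v ∈ O, ∑ w : V, (if G.Adj v w then 1 else 0) = 1 := by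
      intro v hv
      rw [← card_filter, ← deg_eq, hd]
      exact (mem_filter.1 hv).2
    rw [sum_congr rfl this]
    simp
  have h6 : #({p ∈ univ ×ˢ O | G.Adj p.1 p.2} : Finset (V × V)) = #O := by
    rw [card_filter, sum_product_right]
    have : ∀ v ∈ O, ∑ w : V, (if G.Adj w v then 1 else 0) = 1 := by
      intro v hv
      have h7 : ∀ w : V, (if G.Adj w v then 1 else 0) = if G.Adj v w then 1 else 0 := by
        intro w
        simp only [G.adj_comm]
      rw [sum_congr rfl fun w _ => h7 w, ← card_filter, ← deg_eq, hd]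
      exact (mem_filter.1 hv).2
    rw [sum_congr rfl this]
    simp
  have h7 := card_le_card h2
  have h8 := card_union_le I.offDiag (({p ∈ O ×ˢ univ | G.Adj p.1 p.2} : Finset (V × V)) ∪
        ({p ∈ univ ×ˢ O | G.Adj p.1 p.2} : Finset (V × V)))
  have h9 := card_union_le ({p ∈ O ×ˢ univ | G.Adj p.1 p.2} : Finset (V × V))
        ({p ∈ univ ×ˢ O | G.Adj p.1 p.2} : Finset (V × V))
  have h10 : #I.offDiag = cnt d 2 * (cnt d 2 - 1) := by
    rw [offDiag_card, Nat.mul_sub, mul_one]
    rfl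
  omega

/-- sequences whose effective degrees are at most three -/
theorem exists_sparse (G : SimpleGraph V) (d : V → ℕ) (hd : ∀ v, deg G v = d v)
    (hm : 2 * cnt d 1 ≤ ∑ v, d v) (h3 : ∑ v, (d v - 3) ≤ #{v | d v = 1}) (D : ℕ)
    (hD : ∀ v, d v ≤ D) :
    ∃ H : SimpleGraph V, (∀ v, deg H v = d v) ∧
      cnt d 1 * (cnt d 1 - 1) + cnt d 2 * (cnt d 2 - 1) +
        ∑ k ∈ Icc 3 D, (tl d k - tl d (k + 1)) * (tl d k - tl d (k + 1) - 1)
        ≤ ∑ p : V × V with p.1 ≠ p.2, kappa H p.1 p.2 := by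
  have hones := cnt_ones d
  have hsum := sum_sub_two d
  have hle := sum_deg_le G d hd
  have hev : Even (∑ v, d v) := by
    have h5 : ∑ v, d v = ∑ v, G.degree v := by
      refine sum_congr rfl fun v _ => ?_
      rw [← hd, deg_eq, ← SimpleGraph.card_neighborFinset_eq_degree]
      congr 1
      ext w
      simp
    rw [h5, SimpleGraph.sum_degrees_eq_twice_card_edges]
    exact even_two_mul _
  obtain ⟨e, e1, e2, e3, e4⟩ := exists_trunc d (cnt d 1 - cnt d 2) (by omega)
  -- the values are at most three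
  have he3 : ∀ v, e v ≤ 3 := by
    have h5 := e4 4 (by norm_num)
    have h6 : ∑ v, (d v + 1 - 4) = ∑ v, (d v - 3) := by
      refine sum_congr rfl fun v _ => ?_
      omega
    rw [h6] at h5
    have h7 : ∑ v, (e v + 1 - 4) = 0 := by omega
    intro v
    have := (sum_eq_zero_iff_of_nonneg (fun v _ => Nat.zero_le (e v + 1 - 4))).1 h7 v
      (mem_univ v)
    omega
  set I : Finset V := {v | 2 ≤ d v} with hI
  set I3 : Finset V := {v | 3 ≤ e v} with hI3
  have hIc : #I = cnt d 2 := rfl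
  have hI3c : #I3 = ∑ v, d v - 2 * cnt d 1 := by
    have h5 : #I3 = cnt e 3 := rfl
    have h6 := e4 3 le_rfl
    have h7 := e4 4 (by norm_num)
    have h8 : ∑ v, (d v + 1 - 4) = ∑ v, (d v - 3) := by
      refine sum_congr rfl fun v _ => ?_
      omega
    have h9 : ∑ v, (d v + 1 - 3) = ∑ v, (d v - 2) := by
      refine sum_congr rfl fun v _ => ?_
      omega
    rw [h5, cnt_eq_tail e 3, h6, h7, h8, h9]
    omega
  have hI3I : I3 ⊆ I := by
    intro v hv
    simp only [hI, hI3, mem_filter, mem_univ, true_and] at hv ⊢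
    have := e1 v
    omega
  by_cases hI0 : cnt d 2 = 0
  · -- no edges
    refine ⟨G, hd, ?_⟩
    have hle1 : ∀ v, d v ≤ 1 := by
      intro v
      by_contra h0
      have : v ∈ ({v | 2 ≤ d v} : Finset V) := by
        simp only [mem_filter, mem_univ, true_and]
        omega
      rw [card_eq_zero.1 hI0] at this
      exact notMem_empty _ this
    have hz : ∑ v, (d v - 2) = 0 := by
      refine sum_eq_zero fun v _ => ?_
      have := hle1 v
      omega
    have hc0 : cnt d 1 = 0 := by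
      rw [hI0] at hsum hones
      omega
    have h5 : ∀ k ∈ Icc 3 D, (tl d k - tl d (k + 1)) * (tl d k - tl d (k + 1) - 1) = 0 := by
      intro k hk
      have hd0 : ∀ v, d v = 0 := by
        intro v
        by_contra h0
        have : v ∈ ({v | 1 ≤ d v} : Finset V) := by
          simp only [mem_filter, mem_univ, true_and]
          omega
        rw [card_eq_zero.1 hc0] at this
        exact notMem_empty _ this
      have hk' := (mem_Icc.1 hk).1
      have h6 : tl d k = 0 := by
        unfold tl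
        have : ∑ i, (d i + 1 - k) = 0 := by
          refine sum_eq_zero fun i _ => ?_
          rw [hd0 i]
          omega
        rw [this, Nat.zero_sub]
      rw [h6]
      simp
    rw [sum_eq_zero h5, hc0, hI0]
    simp
  · have hI3' : 3 ≤ cnt d 2 := by
      by_contra hlt
      have : cnt d 2 = 1 ∨ cnt d 2 = 2 := by omega
      rcases this with h5 | h5 <;> rw [h5] at hle <;> omega
    obtain ⟨H₀, hH1, hH2⟩ := exists_core3 I I3 hI3I (by
      rw [hI3c]
      obtain ⟨r, hr⟩ := hev
      exact ⟨r - cnt d 1, by omega⟩) hI3' (by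
      intro hne
      have hpos := card_pos.2 hne
      by_contra hlt
      have h6 : cnt d 2 = 3 := by
        rw [hIc] at hlt
        omega
      rw [h6] at hle
      omega)
    refine asm d e e1 e2 e3 e4 H₀ ?_ hH2 D hD
    intro v
    rw [hH1]
    by_cases hv3 : v ∈ I3
    · have hvI := hI3I hv3
      simp only [hI, hI3, mem_filter, mem_univ, true_and] at hv3 hvI
      rw [if_pos (by simp [hI3, hv3]), if_pos hvI]
      have := he3 v
      omega
    · by_cases hvI : v ∈ I
      · rw [if_neg hv3, if_pos hvI]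
        simp only [hI, hI3, mem_filter, mem_univ, true_and] at hv3 hvI
        rw [if_pos hvI]
        have := e2 v
        omega
      · rw [if_neg hv3, if_neg hvI]
        simp only [hI, mem_filter, mem_univ, true_and] at hvI
        rw [if_neg hvI]

end Pool.Agent.AvgConn
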