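import Pool.Agent.Work.MP_88992e_co.SqDefs

/-!
# The weight of the vertices that cannot be joined to `x`
-/

namespace Pool.Agent.AvgConn

open Finset
open scoped Classical

universe u

variable {V : Type u} [Fintype V] {L : ℕ} [NeZero L]

omit [Fintype V] in
private lemma badw_biUnion (S : Finset V) (T : V → Finset V) (g : V → ℕ) :
    ∑ a ∈ S.biUnion T, g a ≤ ∑ v ∈ S, ∑ a ∈ T v, g a := by
  induction S using Finset.induction_on with
  | empty => simp
  | insert x S hx ih =>
    rw [biUnion_insert, sum_insert hx]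
    have e1 : ∑ a ∈ T x ∪ S.biUnion T, g a ≤ ∑ a ∈ T x, g a + ∑ a ∈ S.biUnion T, g a := by
      rw [← sum_union_inter]
      exact Nat.le_add_right _ _
    omega

/-- Three parts: segments not far from `seg x` (3 segments);
   segments of the neighbours of x (at most deg x <= g x - 1 <= s - 1 of them); neighbours of the
   vertices of the segment of x (at most sum of deg over that segment <= w vertices, each of
   weight at most s): 3 w + (s - 1) w + s w. -/
theorem bad_weight {seg : V → ZMod L} {H : SimpleGraph V} {g : V → ℕ} {s w : ℕ}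
    (hg : ∀ v, g v ≤ s) (hw : ∀ i, segW seg g i ≤ w) (hd : ∀ v, deg H v ≤ g v) {x : V}
    (hx : deg H x < g x) : ∑ a ∈ bad seg H x, g a ≤ (2 * s + 2) * w := by
  set N : V → Finset V := fun v => univ.filter fun y => H.Adj v y with hN
  have hdN : ∀ v, #(N v) = deg H v := fun v => (deg_eq H v).symm
  set P1 : Finset V := sg seg (seg x) ∪ sg seg (seg x + 1) ∪ sg seg (seg x - 1) with hP1
  set P2 : Finset V := (N x).biUnion fun y => sg seg (seg y) with hP2
  set P3 : Finset V := (sg seg (seg x)).biUnion N with hP3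
  have hsub : bad seg H x ⊆ P1 ∪ P2 ∪ P3 := by
    intro a ha
    simp only [bad, mem_filter, mem_univ, true_and] at ha
    rw [mem_union, mem_union]
    rcases ha with ha | ⟨y, hy, hya⟩ | ⟨y, hy, hyx⟩
    · left; left
      simp only [hP1, mem_union, sg, mem_filter, mem_univ, true_and]
      unfold far at ha
      by_cases h1 : seg a = seg x
      · exact Or.inl (Or.inl h1)
      · by_cases h2 : seg a = seg x + 1
        · exact Or.inl (Or.inr h2)
        · right
          by_contra h3
          refine ha ⟨h1, h2, fun h4 => h3 ?_⟩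
          rw [h4]
          ring
    · left; right
      rw [hP2, mem_biUnion]
      refine ⟨y, by simpa [hN] using hy, ?_⟩
      simp only [sg, mem_filter, mem_univ, true_and]
      exact hya.symm
    · right
      rw [hP3, mem_biUnion]
      refine ⟨y, ?_, ?_⟩
      · simp only [sg, mem_filter, mem_univ, true_and]
        exact hyx
      · simpa [hN] using hy.symm
  have hseg : ∀ i, ∑ a ∈ sg seg i, g a ≤ w := hw
  have h1 : ∑ a ∈ P1, g a ≤ 3 * w := by
    have e1 : ∑ a ∈ P1, g a ≤ ∑ a ∈ sg seg (seg x) ∪ sg seg (seg x + 1), g a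
        + ∑ a ∈ sg seg (seg x - 1), g a := by
      rw [← sum_union_inter]
      exact Nat.le_add_right _ _
    have e2 : ∑ a ∈ sg seg (seg x) ∪ sg seg (seg x + 1), g a ≤
        ∑ a ∈ sg seg (seg x), g a + ∑ a ∈ sg seg (seg x + 1), g a := by
      rw [← sum_union_inter]
      exact Nat.le_add_right _ _
    have := hseg (seg x)
    have := hseg (seg x + 1)
    have := hseg (seg x - 1)
    omega
  have h2 : ∑ a ∈ P2, g a ≤ deg H x * w := by
    refine (badw_biUnion _ _ _).trans ?_
    refine (sum_le_card_nsmul _ _ w fun v _ => hseg _).trans ?_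
    rw [smul_eq_mul, hdN]
  have h3 : ∑ a ∈ P3, g a ≤ w * s := by
    have e1 : #P3 ≤ w := by
      refine card_biUnion_le.trans ?_
      refine le_trans (sum_le_sum fun v _ => ?_) (hseg (seg x))
      rw [hdN]
      exact hd v
    refine (sum_le_card_nsmul P3 g s fun v _ => hg v).trans ?_
    rw [smul_eq_mul]
    exact Nat.mul_le_mul_right s e1
  have h4 : ∑ a ∈ bad seg H x, g a ≤ ∑ a ∈ P1, g a + ∑ a ∈ P2, g a + ∑ a ∈ P3, g a := by
    refine (sum_le_sum_of_subset hsub).trans ?_
    have e1 : ∑ a ∈ P1 ∪ P2 ∪ P3, g a ≤ ∑ a ∈ P1 ∪ P2, g a + ∑ a ∈ P3, g a := by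
      rw [← sum_union_inter]
      exact Nat.le_add_right _ _
    have e2 : ∑ a ∈ P1 ∪ P2, g a ≤ ∑ a ∈ P1, g a + ∑ a ∈ P2, g a := by
      rw [← sum_union_inter]
      exact Nat.le_add_right _ _
    omega
  have h5 : deg H x + 1 ≤ s := le_trans hx (hg x)
  obtain ⟨e, rfl⟩ := Nat.exists_eq_add_of_le h5
  nlinarith [Nat.zero_le (e * w)]

end Pool.Agent.AvgConn
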