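import Pool.Agent.Work.MP_88992e_co.SqDefs

/-!
# Balanced dealing of weighted vertices to segments
-/

namespace Pool.Agent.AvgConn

open Finset
open scoped Classical

universe u

private lemma bal_split (b : ℕ → ℕ) (L T : ℕ) :
    ∑ k ∈ range (L * T), b k = ∑ t ∈ range T, ∑ r ∈ range L, b (L * t + r) := by
  induction T with
  | zero => simp
  | succ T ih => rw [Nat.mul_succ, Finset.sum_range_add, ih, Finset.sum_range_succ]

/-- the numerical part -/
private lemma bal_num (a : ℕ → ℕ) (ha : Antitone a) (L T s r : ℕ) (hr : r < L)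
    (hs : ∀ k, a k ≤ s) :
    L * (∑ t ∈ range T, a (L * t + r)) ≤ L * s + ∑ t ∈ range T, ∑ r' ∈ range L, a (L * t + r') ∧
    ∑ t ∈ range T, ∑ r' ∈ range L, a (L * t + r') ≤
      L * ((∑ t ∈ range T, a (L * t + r)) + s) := by
  induction T with
  | zero => simp
  | succ T ih =>
    -- use the shifted comparison
    have key1 : ∀ T, L * (∑ t ∈ range T, a (L * (t + 1) + r)) ≤
        ∑ t ∈ range T, ∑ r' ∈ range L, a (L * t + r') := by
      intro T
      rw [Finset.mul_sum]
      refine Finset.sum_le_sum fun t _ => ?_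
      calc L * a (L * (t + 1) + r) = ∑ r' ∈ range L, a (L * (t + 1) + r) := by
            rw [Finset.sum_const, card_range, smul_eq_mul]
        _ ≤ _ := by
            refine Finset.sum_le_sum fun r' hr' => ha ?_
            have := mem_range.1 hr'
            have h1 : L * (t + 1) = L * t + L := Nat.mul_succ _ _
            omega
    have key2 : ∀ T, ∑ t ∈ range T, ∑ r' ∈ range L, a (L * (t + 1) + r') ≤
        L * (∑ t ∈ range T, a (L * t + r)) := by
      intro T
      rw [Finset.mul_sum]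
      refine Finset.sum_le_sum fun t _ => ?_
      calc ∑ r' ∈ range L, a (L * (t + 1) + r') ≤ ∑ r' ∈ range L, a (L * t + r) := by
            refine Finset.sum_le_sum fun r' hr' => ha ?_
            have h1 : L * (t + 1) = L * t + L := Nat.mul_succ _ _
            omega
        _ = _ := by rw [Finset.sum_const, card_range, smul_eq_mul]
    constructor
    · rw [Finset.sum_range_succ' (fun t => a (L * t + r)), Nat.mul_add]
      have h1 := key1 T
      have h2 : L * a (L * 0 + r) ≤ L * s := Nat.mul_le_mul_left _ (hs _)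
      have h3 : ∑ t ∈ range T, ∑ r' ∈ range L, a (L * t + r') ≤
          ∑ t ∈ range (T + 1), ∑ r' ∈ range L, a (L * t + r') :=
        Finset.sum_le_sum_of_subset (range_mono (Nat.le_succ T))
      omega
    · rw [Finset.sum_range_succ' (fun t => ∑ r' ∈ range L, a (L * t + r')), Nat.mul_add]
      have h1 := key2 T
      have h2 : ∑ r' ∈ range L, a (L * 0 + r') ≤ L * s := by
        calc ∑ r' ∈ range L, a (L * 0 + r') ≤ ∑ _r' ∈ range L, s :=
              Finset.sum_le_sum fun r' _ => hs _
          _ = _ := by rw [Finset.sum_const, card_range, smul_eq_mul]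
      have h3 : L * (∑ t ∈ range T, a (L * t + r)) ≤ L * (∑ t ∈ range (T + 1), a (L * t + r)) :=
        Nat.mul_le_mul_left _ (Finset.sum_le_sum_of_subset (range_mono (Nat.le_succ T)))
      omega

variable {V : Type u} [Fintype V] {L : ℕ} [NeZero L]

theorem balance (g : V → ℕ) (s : ℕ) (hc : L ≤ Fintype.card V) (hg : ∀ v, g v ≤ s) :
    ∃ (seg : V → ZMod L) (pos : V → ℕ), Coord seg pos ∧
      ∀ i, L * segW seg g i ≤ L * s + ∑ v, g v ∧ ∑ v, g v ≤ L * (segW seg g i + s) := by
  classical
  have hL : 0 < L := Nat.pos_of_ne_zero (NeZero.ne L)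
  set N := Fintype.card V with hN
  obtain ⟨φ, hφ⟩ : ∃ φ : V ≃ Fin N, Antitone (g ∘ φ.symm) := by
    let e : V ≃ Fin N := Fintype.equivFin V
    let h : Fin N → ℕᵒᵈ := fun i => OrderDual.toDual (g (e.symm i))
    refine ⟨e.trans (Tuple.sort h).symm, ?_⟩
    have hm := Tuple.monotone_sort h
    intro i j hij
    exact hm hij
  let a : ℕ → ℕ := fun k => if h : k < N then g (φ.symm ⟨k, h⟩) else 0
  have haf : ∀ k : Fin N, a k = g (φ.symm k) := by
    intro k
    show (if h : (k : ℕ) < N then g (φ.symm ⟨k, h⟩) else 0) = _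
    rw [dif_pos k.2]
  have hanti : Antitone a := by
    intro k l hkl
    show (if h : l < N then g (φ.symm ⟨l, h⟩) else 0) ≤ (if h : k < N then g (φ.symm ⟨k, h⟩) else 0)
    split_ifs with h1 h2 h2
    · exact hφ (show (⟨k, h2⟩ : Fin N) ≤ ⟨l, h1⟩ from hkl)
    · omega
    · exact Nat.zero_le _
    · exact le_rfl
  have has : ∀ k, a k ≤ s := by
    intro k
    show (if h : k < N then g (φ.symm ⟨k, h⟩) else 0) ≤ s
    split_ifs
    · exact hg _
    · exact Nat.zero_le _
  have ha0 : ∀ k, N ≤ k → a k = 0 := by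
    intro k hk
    show (if h : k < N then g (φ.symm ⟨k, h⟩) else 0) = 0
    rw [dif_neg (by omega)]
  have hNL : N ≤ L * N := Nat.le_mul_of_pos_left _ hL
  -- sums over vertices as sums over naturals
  have hsum : ∀ (P : ℕ → Prop) [DecidablePred P], (∑ v ∈ univ.filter (fun v => P (φ v)), g v) =
      ∑ k ∈ range (L * N), if P k then a k else 0 := by
    intro P _
    rw [Finset.sum_filter]
    have h1 : ∑ v, (if P (φ v) then g v else 0) = ∑ k : Fin N, if P k then a k else 0 := by
      rw [← Equiv.sum_comp φ (fun k : Fin N => if P k then a k else 0)]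
      refine Finset.sum_congr rfl fun v _ => ?_
      rw [haf, Equiv.symm_apply_apply]
    rw [h1, Fin.sum_univ_eq_sum_range (fun k => if P k then a k else 0) N]
    refine Finset.sum_subset (range_mono hNL) fun k _ hk => ?_
    rw [mem_range, not_lt] at hk
    rw [ha0 k hk, ite_self]
  have htot : ∑ v, g v = ∑ t ∈ range N, ∑ r' ∈ range L, a (L * t + r') := by
    have := hsum (fun _ => True)
    simp only [if_true, Finset.filter_true] at this
    rw [this, bal_split]
  let seg : V → ZMod L := fun v => ((φ v : ℕ) : ZMod L)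
  let pos : V → ℕ := fun v => (φ v : ℕ) / L
  have hW : ∀ i, segW seg g i = ∑ t ∈ range N, a (L * t + i.val) := by
    intro i
    have h1 : segW seg g i = ∑ k ∈ range (L * N), if ((k : ZMod L) = i) then a k else 0 :=
      hsum (fun k => ((k : ZMod L) = i))
    rw [h1, bal_split]
    refine Finset.sum_congr rfl fun t _ => ?_
    rw [Finset.sum_eq_single_of_mem i.val (mem_range.2 (ZMod.val_lt i))]
    · rw [if_pos]
      rw [Nat.cast_add, Nat.cast_mul, ZMod.natCast_self, zero_mul, zero_add, ZMod.natCast_zmod_val]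
    · intro r' hr' hne
      rw [if_neg]
      rw [Nat.cast_add, Nat.cast_mul, ZMod.natCast_self, zero_mul, zero_add]
      intro h
      apply hne
      rw [← h, ZMod.val_natCast, Nat.mod_eq_of_lt (mem_range.1 hr')]
  refine ⟨seg, pos, ⟨?_, ?_, ?_⟩, ?_⟩
  · intro u v h1 h2
    have h3 : (φ u : ℕ) % L = (φ v : ℕ) % L := (ZMod.natCast_eq_natCast_iff' _ _ _).1 h1
    have h4 : (φ u : ℕ) / L = (φ v : ℕ) / L := h2
    have h5 : (φ u : ℕ) = φ v := by
      rw [← Nat.div_add_mod (φ u : ℕ) L, ← Nat.div_add_mod (φ v : ℕ) L, h3, h4]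
    exact φ.injective (Fin.ext h5)
  · intro v p hp
    have h1 : (φ v : ℕ) / L = p + 1 := hp
    have h2 : L ≤ (φ v : ℕ) := by
      by_contra h
      rw [Nat.div_eq_of_lt (not_le.1 h)] at h1
      omega
    have h3 : (φ v : ℕ) - L < N := by have := (φ v).2; omega
    refine ⟨φ.symm ⟨(φ v : ℕ) - L, h3⟩, ?_, ?_⟩
    · show (((φ (φ.symm ⟨(φ v : ℕ) - L, h3⟩) : Fin N) : ℕ) : ZMod L) = ((φ v : ℕ) : ZMod L)
      rw [Equiv.apply_symm_apply]
      show (((φ v : ℕ) - L : ℕ) : ZMod L) = _
      rw [Nat.cast_sub h2, ZMod.natCast_self, sub_zero]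
    · show ((φ (φ.symm ⟨(φ v : ℕ) - L, h3⟩) : Fin N) : ℕ) / L = p
      rw [Equiv.apply_symm_apply]
      show ((φ v : ℕ) - L) / L = p
      have h4 := Nat.sub_mul_div (φ v : ℕ) L 1
      rw [Nat.mul_one] at h4
      omega
  · intro i
    have h1 : i.val < N := lt_of_lt_of_le (ZMod.val_lt i) hc
    refine ⟨φ.symm ⟨i.val, h1⟩, ?_, ?_⟩
    · show (((φ (φ.symm ⟨i.val, h1⟩) : Fin N) : ℕ) : ZMod L) = i
      rw [Equiv.apply_symm_apply]
      exact ZMod.natCast_zmod_val i
    · show ((φ (φ.symm ⟨i.val, h1⟩) : Fin N) : ℕ) / L = 0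
      rw [Equiv.apply_symm_apply]
      exact Nat.div_eq_of_lt (ZMod.val_lt i)
  · intro i
    rw [hW i, htot]
    exact bal_num a hanti L N s i.val (ZMod.val_lt i) has

end Pool.Agent.AvgConn
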