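import Pool.Agent.Work.MP_88992e_co.Defs

/-!
# The cut condition, pinching an edge
-/

namespace Pool.Agent.AvgConn

open Finset
open scoped Classical

variable {V : Type*} [Fintype V]

lemma deg_eq (G : SimpleGraph V) (v : V) : deg G v = #{w | G.Adj v w} := by
  unfold deg
  rw [Set.ncard_eq_toFinset_card']
  congr 1
  ext w
  simp

lemma deg_pos_iff (G : SimpleGraph V) (v : V) : deg G v ≠ 0 ↔ ∃ w, G.Adj v w := by
  rw [deg_eq, Finset.card_ne_zero]
  constructor
  · rintro ⟨w, hw⟩
    exact ⟨w, by simpa using hw⟩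
  · rintro ⟨w, hw⟩
    exact ⟨w, by simpa using hw⟩

lemma not_adj_of_deg {G : SimpleGraph V} {v : V} (h : deg G v = 0) (w : V) : ¬ G.Adj v w := by
  intro hw
  exact (deg_pos_iff G v).2 ⟨w, hw⟩ h

lemma mem_nb {G : SimpleGraph V} {A : Finset V} {y : V} :
    y ∈ nb G A ↔ y ∉ A ∧ ∃ a ∈ A, G.Adj a y := by
  simp [nb]

lemma nb_mono {G H : SimpleGraph V} (h : G ≤ H) (A : Finset V) : nb G A ⊆ nb H A := by
  intro y hy
  rw [mem_nb] at hy ⊢
  obtain ⟨h1, a, ha, h2⟩ := hy
  exact ⟨h1, a, ha, h h2⟩

lemma Perf.mono {G : SimpleGraph V} {u v : V} {k l : ℕ} (h : Perf G u v k) (hl : l ≤ k) :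
    Perf G u v l := fun A h1 h2 h3 => hl.trans (h A h1 h2 h3)

lemma Perf.mono_graph {G H : SimpleGraph V} (hGH : G ≤ H) {u v : V} {k : ℕ}
    (h : Perf G u v k) : Perf H u v k := fun A h1 h2 h3 =>
  (h A h1 h2 fun a ha hav => h3 a ha (hGH hav)).trans (card_le_card (nb_mono hGH A))

lemma perf_zero (G : SimpleGraph V) (u v : V) : Perf G u v 0 := fun _ _ _ _ => Nat.zero_le _

lemma Perf.symm {G : SimpleGraph V} {u v : V} (huv : u ≠ v) {k : ℕ} (h : Perf G u v k) :
    Perf G v u k := by
  intro A hv hu hcond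
  -- the other side of the cut, together with `u`
  set B : Finset V := {y | (y ∉ A ∧ y ∉ nb G A) ∨ y = u} with hB
  have huB : u ∈ B := by simp [hB]
  have hvB : v ∉ B := by
    simp only [hB, mem_filter, mem_univ, true_and, not_or, not_and, not_not]
    exact ⟨fun h => absurd hv h, huv.symm⟩
  have hc : ∀ a ∈ B, G.Adj a v → a = u := by
    intro a ha hav
    simp only [hB, mem_filter, mem_univ, true_and] at ha
    rcases ha with ⟨h1, h2⟩ | h1
    · exact absurd (mem_nb.2 ⟨h1, v, hv, hav.symm⟩) h2
    · exact h1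
  refine (h B huB hvB hc).trans ?_
  by_cases hadj : G.Adj u v
  · have huN : u ∈ nb G A := mem_nb.2 ⟨hu, v, hv, hadj.symm⟩
    have hsub : nb G B ⊆ insert v ((nb G A).erase u) := by
      intro y hy
      obtain ⟨h1, a, ha, h2⟩ := mem_nb.1 hy
      simp only [hB, mem_filter, mem_univ, true_and, not_or, not_and, not_not] at h1
      obtain ⟨h3, h4⟩ := h1
      by_cases hyA : y ∈ A
      · -- `a` is outside `A` and adjacent to `y`
        simp only [hB, mem_filter, mem_univ, true_and] at ha
        rcases ha with ⟨h5, h6⟩ | h5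
        · exact absurd (mem_nb.2 ⟨h5, y, hyA, h2.symm⟩) h6
        · subst h5
          rw [hcond y hyA h2.symm]
          exact mem_insert_self _ _
      · exact mem_insert_of_mem (mem_erase.2 ⟨h4, h3 hyA⟩)
    refine (card_le_card hsub).trans ((card_insert_le _ _).trans ?_)
    rw [card_erase_of_mem huN]
    have : 0 < #(nb G A) := card_pos.2 ⟨u, huN⟩
    omega
  · apply card_le_card
    intro y hy
    obtain ⟨h1, a, ha, h2⟩ := mem_nb.1 hy
    simp only [hB, mem_filter, mem_univ, true_and, not_or, not_and, not_not] at h1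
    obtain ⟨h3, h4⟩ := h1
    by_cases hyA : y ∈ A
    · simp only [hB, mem_filter, mem_univ, true_and] at ha
      rcases ha with ⟨h5, h6⟩ | h5
      · exact absurd (mem_nb.2 ⟨h5, y, hyA, h2.symm⟩) h6
      · subst h5
        rw [hcond y hyA h2.symm] at h2
        exact absurd h2 hadj
    · exact h3 hyA

/-! ### Pinching -/

omit [Fintype V] in
lemma pinch_adj {G : SimpleGraph V} {x a b p q : V} :
    (pinch G x a b).Adj p q ↔ (G.Adj p q ∧ s(p, q) ≠ s(a, b)) ∨
      ((s(p, q) = s(x, a) ∨ s(p, q) = s(x, b)) ∧ p ≠ q) := by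
  unfold pinch
  rw [SimpleGraph.sup_adj, SimpleGraph.deleteEdges_adj, SimpleGraph.fromEdgeSet_adj]
  simp

omit [Fintype V] in
lemma pinch_comm (G : SimpleGraph V) (x a b : V) : pinch G x a b = pinch G x b a := by
  ext p q
  rw [pinch_adj, pinch_adj, Sym2.eq_swap (a := a) (b := b)]
  tauto

omit [Fintype V] in
/-- old edges other than `ab` survive -/
lemma pinch_adj_of {G : SimpleGraph V} {x a b p q : V} (h : G.Adj p q)
    (hne : s(p, q) ≠ s(a, b)) : (pinch G x a b).Adj p q := pinch_adj.2 (Or.inl ⟨h, hne⟩)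

omit [Fintype V] in
lemma pinch_adj_left {G : SimpleGraph V} {x a b : V} (hxa : x ≠ a) : (pinch G x a b).Adj x a :=
  pinch_adj.2 (Or.inr ⟨Or.inl rfl, hxa⟩)

omit [Fintype V] in
lemma pinch_adj_right {G : SimpleGraph V} {x a b : V} (hxb : x ≠ b) : (pinch G x a b).Adj x b :=
  pinch_adj.2 (Or.inr ⟨Or.inr rfl, hxb⟩)

omit [Fintype V] in
/-- adjacency of two vertices other than `x` -/
lemma pinch_adj_old {G : SimpleGraph V} {x a b p q : V} (hp : p ≠ x) (hq : q ≠ x) :
    (pinch G x a b).Adj p q ↔ G.Adj p q ∧ s(p, q) ≠ s(a, b) := by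
  rw [pinch_adj]
  constructor
  · rintro (h | ⟨h | h, _⟩)
    · exact h
    · rw [Sym2.eq_iff] at h
      rcases h with ⟨h, _⟩ | ⟨_, h⟩
      · exact absurd h hp
      · exact absurd h hq
    · rw [Sym2.eq_iff] at h
      rcases h with ⟨h, _⟩ | ⟨_, h⟩
      · exact absurd h hp
      · exact absurd h hq
  · exact fun h => Or.inl h

omit [Fintype V] in
/-- adjacency to `x` -/
lemma pinch_adj_new {G : SimpleGraph V} {x a b q : V} (hxa : x ≠ a) (hxb : x ≠ b) :
    (pinch G x a b).Adj x q ↔ G.Adj x q ∨ q = a ∨ q = b := by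
  rw [pinch_adj]
  constructor
  · rintro (⟨h, _⟩ | ⟨h | h, _⟩)
    · exact Or.inl h
    · rw [Sym2.eq_iff] at h
      rcases h with ⟨_, h⟩ | ⟨h, _⟩
      · exact Or.inr (Or.inl h)
      · exact absurd h hxa
    · rw [Sym2.eq_iff] at h
      rcases h with ⟨_, h⟩ | ⟨h, _⟩
      · exact Or.inr (Or.inr h)
      · exact absurd h hxb
  · rintro (h | h | h)
    · refine Or.inl ⟨h, ?_⟩
      intro h2
      rw [Sym2.eq_iff] at h2
      rcases h2 with ⟨h3, _⟩ | ⟨h3, _⟩
      · exact hxa h3
      · exact hxb h3
    · subst h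
      exact Or.inr ⟨Or.inl rfl, hxa⟩
    · subst h
      exact Or.inr ⟨Or.inr rfl, hxb⟩

lemma deg_pinch_new {G : SimpleGraph V} {x a b : V} (hab : G.Adj a b) (hxa : x ≠ a)
    (hxb : x ≠ b) (h1 : ¬ G.Adj x a) (h2 : ¬ G.Adj x b) :
    deg (pinch G x a b) x = deg G x + 2 := by
  rw [deg_eq, deg_eq]
  have : (univ.filter fun w => (pinch G x a b).Adj x w)
      = insert a (insert b (univ.filter fun w => G.Adj x w)) := by
    ext w
    simp only [mem_filter, mem_univ, true_and, mem_insert]
    rw [pinch_adj_new hxa hxb]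
    tauto
  rw [this, card_insert_of_notMem, card_insert_of_notMem]
  · simpa using h2
  · simp only [mem_insert, mem_filter, mem_univ, true_and, not_or]
    exact ⟨hab.ne, h1⟩

lemma deg_pinch_old {G : SimpleGraph V} {x a b : V} (hab : G.Adj a b) (hxa : x ≠ a)
    (hxb : x ≠ b) (h1 : ¬ G.Adj x a) (h2 : ¬ G.Adj x b) {v : V} (hv : v ≠ x) :
    deg (pinch G x a b) v = deg G v := by
  rw [deg_eq, deg_eq]
  -- the case `v = a`
  have key : ∀ a b : V, G.Adj a b → x ≠ a → x ≠ b → ¬ G.Adj x a → ¬ G.Adj x b →
      #{w | (pinch G x a b).Adj a w} = #{w | G.Adj a w} := by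
    intro a b hab hxa hxb h1 h2
    have : ({w | (pinch G x a b).Adj a w} : Finset V)
        = insert x (({w | G.Adj a w} : Finset V).erase b) := by
      ext w
      simp only [mem_filter, mem_univ, true_and, mem_insert, mem_erase]
      by_cases hw : w = x
      · subst hw
        simp only [true_or, iff_true]
        exact (pinch_adj_left hxa).symm
      · rw [pinch_adj_old hxa.symm hw]
        simp only [hw, false_or]
        constructor
        · rintro ⟨h3, h4⟩
          exact ⟨fun h5 => h4 (by rw [h5]), h3⟩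
        · rintro ⟨h3, h4⟩
          refine ⟨h4, fun h5 => ?_⟩
          rw [Sym2.eq_iff] at h5
          rcases h5 with ⟨_, h5⟩ | ⟨h5, _⟩
          · exact h3 h5
          · exact hab.ne h5
    rw [this, card_insert_of_notMem, card_erase_of_mem (by simpa using hab)]
    · have : 0 < #({w | G.Adj a w} : Finset V) := card_pos.2 ⟨b, by simpa using hab⟩
      omega
    · simp only [mem_erase, mem_filter, mem_univ, true_and, not_and]
      exact fun _ h3 => h1 h3.symm
  by_cases hva : v = a
  · subst hva
    exact key v b hab hxa hxb h1 h2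
  · by_cases hvb : v = b
    · subst hvb
      rw [pinch_comm]
      exact key v a hab.symm hxb hxa h2 h1
    · congr 1
      ext w
      simp only [mem_filter, mem_univ, true_and]
      have hne : ∀ w, s(v, w) ≠ s(a, b) := by
        intro w h5
        rw [Sym2.eq_iff] at h5
        rcases h5 with ⟨h5, _⟩ | ⟨h5, _⟩
        · exact hva h5
        · exact hvb h5
      by_cases hw : w = x
      · subst hw
        rw [SimpleGraph.adj_comm, pinch_adj_new hxa hxb, SimpleGraph.adj_comm]
        simp [hva, hvb]
      · rw [pinch_adj_old hv hw]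
        exact ⟨fun h => h.1, fun h => ⟨h, hne w⟩⟩

/-! ### Subdivision -/

section Subdiv

variable {G : SimpleGraph V} {x a b : V}

/-- the old pairs after a subdivision -/
lemma perf_subdiv_old (hx : ∀ w, ¬ G.Adj x w) (hab : G.Adj a b) {u v : V} (hu : u ≠ x)
    (hv : v ≠ x) {k : ℕ} (h : Perf G u v k) : Perf (pinch G x a b) u v k := by
  have hxa : x ≠ a := by
    rintro rfl
    exact hx _ hab
  have hxb : x ≠ b := by
    rintro rfl
    exact hx _ hab.symm
  intro A huA hvA hcond
  by_cases hxA : x ∈ A
  · -- `v` is not an end of the edge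
    have hva : v ≠ a := by
      rintro rfl
      exact hu (hcond x hxA (pinch_adj_left hxa)).symm
    have hvb : v ≠ b := by
      rintro rfl
      exact hu (hcond x hxA (pinch_adj_right hxb)).symm
    refine (h (A.erase x) (mem_erase.2 ⟨hu, huA⟩) (fun h2 => hvA (mem_of_mem_erase h2))
      ?_).trans (card_le_card ?_)
    · intro a' ha' hav
      refine hcond a' (mem_of_mem_erase ha') (pinch_adj_of hav ?_)
      intro h5
      rw [Sym2.eq_iff] at h5
      rcases h5 with ⟨_, h5⟩ | ⟨_, h5⟩
      · exact hvb h5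
      · exact hva h5
    · intro y hy
      obtain ⟨h1, a', ha', h2⟩ := mem_nb.1 hy
      have hyx : y ≠ x := by
        rintro rfl
        exact hx _ h2.symm
      have hyA : y ∉ A := fun h3 => h1 (mem_erase.2 ⟨hyx, h3⟩)
      rw [mem_nb]
      refine ⟨hyA, ?_⟩
      by_cases he : s(a', y) = s(a, b)
      · refine ⟨x, hxA, ?_⟩
        rw [Sym2.eq_iff] at he
        rcases he with ⟨_, he⟩ | ⟨_, he⟩
        · rw [he]
          exact pinch_adj_right hxb
        · rw [he]
          exact pinch_adj_left hxa
      · exact ⟨a', mem_of_mem_erase ha', pinch_adj_of h2 he⟩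
  · -- `x` is outside
    by_cases hcr : (a ∈ A ↔ b ∈ A)
    · have hne : ∀ p ∈ A, ∀ q, q ∉ A → s(p, q) ≠ s(a, b) := by
        intro p hp q hq h5
        rw [Sym2.eq_iff] at h5
        rcases h5 with ⟨h5, h6⟩ | ⟨h5, h6⟩
        · rw [h5] at hp
          rw [h6] at hq
          exact hq (hcr.1 hp)
        · rw [h5] at hp
          rw [h6] at hq
          exact hq (hcr.2 hp)
      refine (h A huA hvA ?_).trans (card_le_card ?_)
      · intro a' ha' hav
        exact hcond a' ha' (pinch_adj_of hav (hne a' ha' v hvA))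
      · intro y hy
        obtain ⟨h1, a', ha', h2⟩ := mem_nb.1 hy
        exact mem_nb.2 ⟨h1, a', ha', pinch_adj_of h2 (hne a' ha' y h1)⟩
    · -- the edge crosses
      have key : ∀ a b : V, G.Adj a b → x ≠ a → x ≠ b → a ∈ A → b ∉ A →
          (∀ a' ∈ A, (pinch G x a b).Adj a' v → a' = u) → k ≤ #(nb (pinch G x a b) A) := by
        intro a b hab hxa hxb haA hbA hcond
        have hxN : x ∈ nb (pinch G x a b) A :=
          mem_nb.2 ⟨hxA, a, haA, (pinch_adj_left hxa).symm⟩
        have hpos : 0 < #(nb (pinch G x a b) A) := card_pos.2 ⟨x, hxN⟩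
        by_cases hbv : b = v ∧ a ≠ u
        · obtain ⟨hbv, hau⟩ := hbv
          subst hbv
          have hsub : nb G (A.erase a) ⊆ insert a ((nb (pinch G x a b) A).erase x) := by
            intro y hy
            obtain ⟨h1, a', ha', h2⟩ := mem_nb.1 hy
            by_cases hya : y = a
            · rw [hya]
              exact mem_insert_self _ _
            · refine mem_insert_of_mem (mem_erase.2 ⟨?_, mem_nb.2 ⟨fun h3 =>
                h1 (mem_erase.2 ⟨hya, h3⟩), a', mem_of_mem_erase ha', pinch_adj_of h2 ?_⟩⟩)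
              · rintro rfl
                exact hx _ h2.symm
              · intro h5
                rw [Sym2.eq_iff] at h5
                rcases h5 with ⟨h5, _⟩ | ⟨h5, _⟩
                · exact (mem_erase.1 ha').1 h5
                · exact hbA (h5 ▸ mem_of_mem_erase ha')
          refine (h (A.erase a) (mem_erase.2 ⟨fun h3 => hau h3.symm, huA⟩)
            (fun h3 => hvA (mem_of_mem_erase h3)) ?_).trans
            ((card_le_card hsub).trans ((card_insert_le _ _).trans ?_))
          · intro a' ha' hav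
            refine hcond a' (mem_of_mem_erase ha') (pinch_adj_of hav ?_)
            intro h5
            rw [Sym2.eq_iff] at h5
            rcases h5 with ⟨h5, _⟩ | ⟨h5, _⟩
            · exact (mem_erase.1 ha').1 h5
            · exact hbA (h5 ▸ mem_of_mem_erase ha')
          · rw [card_erase_of_mem hxN]
            omega
        · have hsub : nb G A ⊆ insert b ((nb (pinch G x a b) A).erase x) := by
            intro y hy
            obtain ⟨h1, a', ha', h2⟩ := mem_nb.1 hy
            by_cases hyb : y = b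
            · rw [hyb]
              exact mem_insert_self _ _
            · refine mem_insert_of_mem (mem_erase.2 ⟨?_, mem_nb.2 ⟨h1, a', ha',
                pinch_adj_of h2 ?_⟩⟩)
              · rintro rfl
                exact hx _ h2.symm
              · intro h5
                rw [Sym2.eq_iff] at h5
                rcases h5 with ⟨_, h5⟩ | ⟨_, h5⟩
                · exact hyb h5
                · exact h1 (h5 ▸ haA)
          refine (h A huA hvA ?_).trans
            ((card_le_card hsub).trans ((card_insert_le _ _).trans ?_))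
          · intro a' ha' hav
            by_cases he : s(a', v) = s(a, b)
            · rw [Sym2.eq_iff] at he
              rcases he with ⟨h5, h6⟩ | ⟨h5, _⟩
              · rw [h5]
                by_contra h7
                exact hbv ⟨h6.symm, h7⟩
              · exact absurd (h5 ▸ ha') hbA
            · exact hcond a' ha' (pinch_adj_of hav he)
          · rw [card_erase_of_mem hxN]
            omega
      by_cases haA : a ∈ A
      · exact key a b hab hxa hxb haA (fun h3 => hcr ⟨fun _ => h3, fun _ => haA⟩) hcond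
      · have hbA : b ∈ A := by
          by_contra h3
          exact hcr ⟨fun h4 => absurd h4 haA, fun h4 => absurd h4 h3⟩
        rw [pinch_comm]
        exact key b a hab.symm hxb hxa hbA haA (by rw [pinch_comm G x b a]; exact hcond)

/-- the new pairs after a subdivision -/
lemma perf_subdiv_new (hx : ∀ w, ¬ G.Adj x w) (hab : G.Adj a b) {w : V} (hw : w ≠ x)
    (ha : w ≠ a → Perf G a w 2) (hb : w ≠ b → Perf G b w 2) :
    Perf (pinch G x a b) x w 2 := by
  have hxa : x ≠ a := by
    rintro rfl
    exact hx _ hab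
  have hxb : x ≠ b := by
    rintro rfl
    exact hx _ hab.symm
  intro A hxA hwA hcond
  have key : ∀ a b : V, G.Adj a b → x ≠ a → x ≠ b → (w ≠ a → Perf G a w 2) → a ∈ A →
      (∀ a' ∈ A, (pinch G x a b).Adj a' w → a' = x) → 2 ≤ #(nb (pinch G x a b) A) := by
    intro a b hab hxa hxb ha haA hcond
    have hwa : w ≠ a := by
      rintro rfl
      exact hwA haA
    refine (ha hwa (A.erase x) (mem_erase.2 ⟨hxa.symm, haA⟩)
      (fun h2 => hwA (mem_of_mem_erase h2)) ?_).trans (card_le_card ?_)
    · intro a' ha' hav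
      by_cases he : s(a', w) = s(a, b)
      · rw [Sym2.eq_iff] at he
        rcases he with ⟨h5, _⟩ | ⟨_, h5⟩
        · exact h5
        · exact absurd h5 hwa
      · exact absurd (hcond a' (mem_of_mem_erase ha') (pinch_adj_of hav he))
          (mem_erase.1 ha').1
    · intro y hy
      obtain ⟨h1, a', ha', h2⟩ := mem_nb.1 hy
      have hyx : y ≠ x := by
        rintro rfl
        exact hx _ h2.symm
      refine mem_nb.2 ⟨fun h3 => h1 (mem_erase.2 ⟨hyx, h3⟩), ?_⟩
      by_cases he : s(a', y) = s(a, b)
      · refine ⟨x, hxA, ?_⟩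
        rw [Sym2.eq_iff] at he
        rcases he with ⟨_, he⟩ | ⟨_, he⟩
        · rw [he]
          exact pinch_adj_right hxb
        · rw [he]
          exact pinch_adj_left hxa
      · exact ⟨a', mem_of_mem_erase ha', pinch_adj_of h2 he⟩
  by_cases haA : a ∈ A
  · exact key a b hab hxa hxb ha haA hcond
  · by_cases hbA : b ∈ A
    · rw [pinch_comm]
      exact key b a hab.symm hxb hxa hb hbA (by rw [pinch_comm G x b a]; exact hcond)
    · have h1 : a ∈ nb (pinch G x a b) A := mem_nb.2 ⟨haA, x, hxA, pinch_adj_left hxa⟩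
      have h2 : b ∈ nb (pinch G x a b) A := mem_nb.2 ⟨hbA, x, hxA, pinch_adj_right hxb⟩
      exact Finset.one_lt_card.2 ⟨a, h1, b, h2, hab.ne⟩

/-- subdividing an edge keeps a graph perfect -/
theorem good_subdiv (hG : Good G (deg G)) (h2 : ∀ v, deg G v ≠ 0 → 2 ≤ deg G v)
    (hx : deg G x = 0) (hab : G.Adj a b) :
    Good (pinch G x a b) (deg (pinch G x a b)) := by
  have hx' : ∀ w, ¬ G.Adj x w := not_adj_of_deg hx
  have hxa : x ≠ a := by
    rintro rfl
    exact hx' _ hab
  have hxb : x ≠ b := by
    rintro rfl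
    exact hx' _ hab.symm
  have hold : ∀ v, v ≠ x → deg (pinch G x a b) v = deg G v := fun v hv =>
    deg_pinch_old hab hxa hxb (hx' _) (hx' _) hv
  have hnew : deg (pinch G x a b) x = 2 := by
    rw [deg_pinch_new hab hxa hxb (hx' _) (hx' _), hx]
  have hnp : ∀ w, w ≠ x → Perf (pinch G x a b) x w (min 2 (deg G w)) := by
    intro w hw
    rcases Nat.eq_zero_or_pos (deg G w) with h0 | h0
    · rw [h0]
      exact perf_zero _ _ _
    · have hw2 := h2 w (by omega)
      rw [min_eq_left hw2]
      have hda := h2 a ((deg_pos_iff G a).2 ⟨b, hab⟩)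
      have hdb := h2 b ((deg_pos_iff G b).2 ⟨a, hab.symm⟩)
      exact perf_subdiv_new hx' hab hw (fun h => (hG a w h.symm).mono (le_min hda hw2))
        (fun h => (hG b w h.symm).mono (le_min hdb hw2))
  intro u v huv
  by_cases hu : u = x
  · subst hu
    rw [hnew, hold v huv.symm]
    exact hnp v huv.symm
  · by_cases hv : v = x
    · subst hv
      rw [hnew, hold u hu, min_comm]
      exact (hnp u hu).symm (Ne.symm hu)
    · rw [hold u hu, hold v hv]
      exact perf_subdiv_old hx' hab hu hv (hG u v huv)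

end Subdiv

end Pool.Agent.AvgConn
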