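import Pool.Agent.Work.MP_88992e_co.Defs

/-!
# Average connectivity: regular base graphs

Cayley graphs of a group generated by `k` involutions whose reduced words of length at most `R`
are distinct: they are `k`-regular, small sets span forests, large sets have large boundary.
-/

namespace Pool.Agent.AvgConn

open Finset
open scoped Classical

namespace Cay

/-- reduced words -/
def Red {k : ℕ} (l : List (Fin k)) : Prop := l.IsChain (· ≠ ·)

theorem red_nil {k : ℕ} : Red ([] : List (Fin k)) := List.IsChain.nil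

theorem red_cons {k : ℕ} {i : Fin k} {l : List (Fin k)} :
    Red (i :: l) ↔ l.head? ≠ some i ∧ Red l := by
  unfold Red
  rw [List.isChain_cons]
  constructor
  · rintro ⟨h1, h2⟩
    exact ⟨fun h => h1 i (by simp [h]) rfl, h2⟩
  · rintro ⟨h1, h2⟩
    refine ⟨fun y hy h => h1 ?_, h2⟩
    subst h
    simpa using hy

theorem Red.drop {k : ℕ} {l : List (Fin k)} (h : Red l) (j : ℕ) : Red (l.drop j) := by
  induction l generalizing j with
  | nil => simpa using h
  | cons i l ih =>
    cases j with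
    | zero => simpa using h
    | succ j => simpa using ih (red_cons.1 h).2 j

section abs

variable {G : Type*} [Group G] {k : ℕ} (s : Fin k → G)

/-- product of a word -/
def pr (l : List (Fin k)) : G := (l.map s).prod

@[simp] theorem pr_nil : pr s [] = 1 := rfl

@[simp] theorem pr_cons (i : Fin k) (l : List (Fin k)) : pr s (i :: l) = s i * pr s l := by
  simp [pr]

theorem pr_append (l l' : List (Fin k)) : pr s (l ++ l') = pr s l * pr s l' := by
  simp [pr]

theorem pr_reverse (h1 : ∀ i, s i * s i = 1) (l : List (Fin k)) :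
    pr s l.reverse = (pr s l)⁻¹ := by
  induction l with
  | nil => simp
  | cons i l ih =>
    rw [List.reverse_cons, pr_append, ih, pr_cons, pr_cons, pr_nil, mul_one, mul_inv_rev]
    congr 1
    exact eq_inv_of_mul_eq_one_left (h1 i)

/-- the Cayley graph (left multiplication) -/
def cay (h1 : ∀ i, s i * s i = 1) : SimpleGraph G where
  Adj g h := g ≠ h ∧ ∃ i, h = s i * g
  symm := ⟨by
    rintro g h ⟨h0, i, hi⟩
    refine ⟨h0.symm, i, ?_⟩
    rw [hi, ← mul_assoc, h1, one_mul]⟩
  loopless := ⟨fun g h => h.1 rfl⟩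

variable [Fintype G]

/-- number of boundary edges -/
noncomputable def bd (X : Finset G) : ℕ :=
  #{p ∈ X ×ˢ (univ : Finset (Fin k)) | s p.2 * p.1 ∉ X}

theorem bd_single (X : Finset G) (i : Fin k) (Y : Finset G) (hY : Y ⊆ X)
    (h : ∀ y ∈ Y, s i * y ∉ X) : #Y ≤ bd s X := by
  unfold bd
  apply Finset.card_le_card_of_injOn (fun y => (y, i))
  · intro y hy
    have hy' : y ∈ Y := hy
    simp only [Finset.coe_filter, Finset.mem_product, Finset.mem_univ, and_true, Set.mem_ofPred_eq]
    exact ⟨hY hy', h y hy'⟩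
  · intro y _ z _ hyz
    exact (Prod.mk.inj hyz).1

theorem bd_list (X : Finset G) (l : List (Fin k)) :
    #{x ∈ X | pr s l * x ∉ X} ≤ l.length * bd s X := by
  induction l with
  | nil =>
    simp
  | cons i l ih =>
    have hsub : ({x ∈ X | pr s (i :: l) * x ∉ X} : Finset G) ⊆
        {x ∈ X | pr s l * x ∉ X} ∪ {x ∈ X | pr s l * x ∈ X ∧ s i * (pr s l * x) ∉ X} := by
      intro x hx
      simp only [Finset.mem_filter, Finset.mem_union, pr_cons, mul_assoc] at hx ⊢
      by_cases h : pr s l * x ∈ X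
      · right; exact ⟨hx.1, h, hx.2⟩
      · left; exact ⟨hx.1, h⟩
    have h2 : #{x ∈ X | pr s l * x ∈ X ∧ s i * (pr s l * x) ∉ X} ≤ bd s X := by
      have := bd_single s X i
        (({x ∈ X | pr s l * x ∈ X ∧ s i * (pr s l * x) ∉ X} : Finset G).image
          (fun x => pr s l * x)) (by
            intro y hy
            obtain ⟨x, hx, rfl⟩ := Finset.mem_image.1 hy
            exact (Finset.mem_filter.1 hx).2.1) (by
            intro y hy
            obtain ⟨x, hx, rfl⟩ := Finset.mem_image.1 hy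
            exact (Finset.mem_filter.1 hx).2.2)
      rwa [Finset.card_image_of_injective _ (mul_right_injective _)] at this
    calc _ ≤ _ := Finset.card_le_card hsub
      _ ≤ _ := Finset.card_union_le _ _
      _ ≤ l.length * bd s X + bd s X := Nat.add_le_add ih h2
      _ = _ := by rw [List.length_cons]; ring

theorem avg (X B : Finset G) (r : ℕ) (hB : ∀ g ∈ B, ∃ l : List (Fin k), l.length ≤ r ∧ pr s l = g)
    (h2 : 2 * #X ≤ #B) : #X ≤ 2 * r * bd s X := by
  have hup : ∑ g ∈ B, #{x ∈ X | g * x ∉ X} ≤ #B * (r * bd s X) := by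
    rw [← smul_eq_mul, ← Finset.sum_const]
    apply Finset.sum_le_sum
    intro g hg
    obtain ⟨l, hl, rfl⟩ := hB g hg
    exact (bd_list s X l).trans (Nat.mul_le_mul_right _ hl)
  have hsw : ∑ g ∈ B, #{x ∈ X | g * x ∉ X} = ∑ x ∈ X, #{g ∈ B | g * x ∉ X} :=
    Finset.sum_card_bipartiteAbove_eq_sum_card_bipartiteBelow (fun g x => g * x ∉ X)
  have hlow : #X * (#B - #X) ≤ ∑ x ∈ X, #{g ∈ B | g * x ∉ X} := by
    rw [← smul_eq_mul, ← Finset.sum_const]
    apply Finset.sum_le_sum
    intro x _
    have h3 : #{g ∈ B | g * x ∈ X} ≤ #X := by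
      apply Finset.card_le_card_of_injOn (fun g => g * x)
      · intro g hg
        have hg' : g ∈ ({g ∈ B | g * x ∈ X} : Finset G) := hg
        exact (Finset.mem_filter.1 hg').2
      · intro g _ g' _ h
        exact mul_right_cancel h
    have h4 := Finset.card_filter_add_card_filter_not (s := B) (fun g => g * x ∈ X)
    omega
  rcases Nat.eq_zero_or_pos #B with h0 | hpos
  · omega
  have h5 : #B ≤ 2 * (#B - #X) := by omega
  have h6 : #X * (#B - #X) ≤ #B * (r * bd s X) := hlow.trans (hsw ▸ hup)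
  have h7 : #B * #X ≤ #B * (2 * r * bd s X) := by
    calc #B * #X ≤ (2 * (#B - #X)) * #X := Nat.mul_le_mul_right _ h5
      _ = 2 * (#X * (#B - #X)) := by ring
      _ ≤ 2 * (#B * (r * bd s X)) := Nat.mul_le_mul_left _ h6
      _ = _ := by ring
  exact Nat.le_of_mul_le_mul_left h7 hpos

/-- balls -/
noncomputable def ball (r : ℕ) : Finset G := {g | ∃ l : List (Fin k), l.length ≤ r ∧ pr s l = g}

theorem mem_ball {r : ℕ} {g : G} :
    g ∈ ball s r ↔ ∃ l : List (Fin k), l.length ≤ r ∧ pr s l = g := by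
  simp [ball]

theorem ball_mono {r r' : ℕ} (h : r ≤ r') : ball s r ⊆ ball s r' := by
  intro g hg
  obtain ⟨l, hl, rfl⟩ := (mem_ball s).1 hg
  exact (mem_ball s).2 ⟨l, hl.trans h, rfl⟩

theorem ball_mul {r r' : ℕ} {g g' : G} (h : g ∈ ball s r) (h' : g' ∈ ball s r') :
    g * g' ∈ ball s (r + r') := by
  obtain ⟨l, hl, rfl⟩ := (mem_ball s).1 h
  obtain ⟨l', hl', rfl⟩ := (mem_ball s).1 h'
  exact (mem_ball s).2 ⟨l ++ l', by rw [List.length_append]; omega, pr_append s l l'⟩

theorem ball_inv (h1 : ∀ i, s i * s i = 1) {r : ℕ} {g : G} (h : g ∈ ball s r) :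
    g⁻¹ ∈ ball s r := by
  obtain ⟨l, hl, rfl⟩ := (mem_ball s).1 h
  exact (mem_ball s).2 ⟨l.reverse, by rwa [List.length_reverse], pr_reverse s h1 l⟩

theorem exists_exact (hgen : ∀ g, ∃ l : List (Fin k), pr s l = g) (r : ℕ) :
    ball s r = univ ∨ ∃ g ∈ ball s (r + 1), g ∉ ball s r := by
  by_contra hcon
  push Not at hcon
  obtain ⟨h1, h2⟩ := hcon
  apply h1
  rw [Finset.eq_univ_iff_forall]
  intro g
  obtain ⟨l, rfl⟩ := hgen g
  induction l with
  | nil => exact (mem_ball s).2 ⟨[], by simp, rfl⟩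
  | cons i l ih =>
    apply h2
    rw [pr_cons, add_comm]
    exact ball_mul s ((mem_ball s).2 ⟨[i], by simp, by simp⟩) ih

theorem ball_growth (h1 : ∀ i, s i * s i = 1) (hgen : ∀ g, ∃ l : List (Fin k), pr s l = g)
    (r r0 : ℕ) :
    ball s (r + r0) = univ ∨ #(ball s r) + #(ball s r0) ≤ #(ball s (r + (2 * r0 + 1))) := by
  rcases exists_exact s hgen (r + r0) with h | ⟨x, hx, hx'⟩
  · exact Or.inl h
  right
  rw [← Finset.card_image_of_injective (ball s r0) (mul_left_injective x),
    ← Finset.card_union_of_disjoint]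
  · apply Finset.card_le_card
    apply Finset.union_subset (ball_mono s (by omega))
    intro y hy
    obtain ⟨g, hg, rfl⟩ := Finset.mem_image.1 hy
    have := ball_mul s hg hx
    exact ball_mono s (by omega) this
  · rw [Finset.disjoint_left]
    intro y hy hy'
    obtain ⟨g, hg, rfl⟩ := Finset.mem_image.1 hy'
    apply hx'
    have := ball_mul s (ball_inv s h1 hg) hy
    simp only [inv_mul_cancel_left] at this
    rwa [add_comm] at this

theorem ball_lin (h1 : ∀ i, s i * s i = 1) (hgen : ∀ g, ∃ l : List (Fin k), pr s l = g)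
    (r0 j : ℕ) :
    ball s (j * (2 * r0 + 1)) = univ ∨ j * #(ball s r0) ≤ #(ball s (j * (2 * r0 + 1))) := by
  induction j with
  | zero => right; simp
  | succ j ih =>
    have hu : ∀ r r' : ℕ, r ≤ r' → ball s r = univ → ball s r' = univ := by
      intro r r' hr h
      exact Finset.eq_univ_of_forall fun g => ball_mono s hr (h ▸ Finset.mem_univ g)
    rcases ih with h | h
    · exact Or.inl (hu _ _ (by nlinarith) h)
    rcases ball_growth s h1 hgen (j * (2 * r0 + 1)) r0 with h' | h'
    · exact Or.inl (hu _ _ (by nlinarith) h')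
    right
    rw [Nat.succ_mul j (2 * r0 + 1), Nat.succ_mul j #(ball s r0)]
    omega

theorem bd_large (h1 : ∀ i, s i * s i = 1) (hgen : ∀ g, ∃ l : List (Fin k), pr s l = g)
    (r0 b lam : ℕ) (hb0 : 0 < b) (hb : b ≤ #(ball s r0)) (hlam : 6 * (2 * r0 + 1) * lam ≤ b)
    (X : Finset G) (hX : b ≤ #X) (hX2 : 2 * #X ≤ Fintype.card G) : lam ≤ bd s X := by
  obtain ⟨j, hj1, hj2⟩ : ∃ j, 2 * #X ≤ j * b ∧ j * b ≤ 3 * #X := by
    refine ⟨2 * #X / b + 1, ?_, ?_⟩
    · exact (Nat.lt_div_mul_add hb0).le.trans (Nat.succ_mul _ _).ge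
    · have := Nat.div_mul_le_self (2 * #X) b
      rw [Nat.succ_mul]
      omega
  have hB : 2 * #X ≤ #(ball s (j * (2 * r0 + 1))) := by
    rcases ball_lin s h1 hgen r0 j with h | h
    · rw [h, Finset.card_univ]; exact hX2
    · exact hj1.trans ((Nat.mul_le_mul_left _ hb).trans h)
  have h3 := avg s X _ _ (fun g hg => (mem_ball s).1 hg) hB
  have hX0 : 0 < #X := by omega
  have h4 : #X * b ≤ #X * (6 * (2 * r0 + 1) * bd s X) := by
    calc #X * b ≤ (2 * (j * (2 * r0 + 1)) * bd s X) * b := Nat.mul_le_mul_right _ h3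
      _ = (j * b) * (2 * (2 * r0 + 1) * bd s X) := by ring
      _ ≤ (3 * #X) * (2 * (2 * r0 + 1) * bd s X) := Nat.mul_le_mul_right _ hj2
      _ = _ := by ring
  have h5 := Nat.le_of_mul_le_mul_left h4 hX0
  have h6 := hlam.trans h5
  exact Nat.le_of_mul_le_mul_left h6 (by omega)

/-! ### sparsity -/

theorem exists_low (R : ℕ) (hinj : ∀ l l' : List (Fin k), Red l → Red l' → l.length ≤ R →
      l'.length ≤ R → pr s l = pr s l' → l = l') (X : Finset G) (hX : X.Nonempty)
    (hR : #X ≤ R) : ∃ x ∈ X, #{i | s i * x ∈ X} ≤ 1 := by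
  by_contra hcon
  push Not at hcon
  obtain ⟨x0, hx0⟩ := hX
  have key : ∀ m : ℕ, ∃ l : List (Fin k), l.length = m ∧ Red l ∧
      ∀ j, pr s (l.drop j) * x0 ∈ X := by
    intro m
    induction m with
    | zero => exact ⟨[], rfl, red_nil, fun j => by simpa using hx0⟩
    | succ m ih =>
      obtain ⟨l, hl, hred, hmem⟩ := ih
      have hy : pr s l * x0 ∈ X := by simpa using hmem 0
      have hc := hcon _ hy
      obtain ⟨i, hi, hne⟩ : ∃ i, s i * (pr s l * x0) ∈ X ∧ l.head? ≠ some i := by
        rcases hh : l.head? with _ | a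
        · obtain ⟨i, hi⟩ := Finset.card_pos.1 (by omega : 0 < #{i | s i * (pr s l * x0) ∈ X})
          exact ⟨i, (Finset.mem_filter.1 hi).2, by simp⟩
        · obtain ⟨i, hi, hia⟩ := Finset.exists_mem_ne hc a
          exact ⟨i, (Finset.mem_filter.1 hi).2, by
            intro h; exact hia (Option.some.inj h).symm⟩
      refine ⟨i :: l, by simp [hl], red_cons.2 ⟨hne, hred⟩, ?_⟩
      intro j
      cases j with
      | zero => simpa [mul_assoc] using hi
      | succ j => simpa using hmem j
  obtain ⟨l, hl, hred, hmem⟩ := key #X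
  have hlt : #X < #(Finset.range (#X + 1)) := by simp
  obtain ⟨j, hj, j', hj', hne, heq⟩ := Finset.exists_ne_map_eq_of_card_lt_of_maps_to hlt
    (f := fun j => pr s (l.drop j) * x0) (fun j _ => hmem j)
  have heq' : pr s (l.drop j) = pr s (l.drop j') := mul_right_cancel heq
  have := hinj _ _ (hred.drop j) (hred.drop j') (by rw [List.length_drop]; omega)
    (by rw [List.length_drop]; omega) heq'
  have hlen := congrArg List.length this
  rw [List.length_drop, List.length_drop, hl] at hlen
  rw [Finset.mem_range] at hj hj'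
  omega

theorem ew_insert_le (H : SimpleGraph G) (X : Finset G) (x : G) (hx : x ∈ X) :
    ew H X X ≤ ew H (X.erase x) (X.erase x) + 2 * #{y ∈ X | H.Adj x y} := by
  unfold ew
  have hsub : ({p ∈ X ×ˢ X | H.Adj p.1 p.2} : Finset (G × G)) ⊆
      ({p ∈ (X.erase x) ×ˢ (X.erase x) | H.Adj p.1 p.2} : Finset (G × G)) ∪
      ((({y ∈ X | H.Adj x y} : Finset G).image (fun y => (x, y))) ∪
       (({y ∈ X | H.Adj x y} : Finset G).image (fun y => (y, x)))) := by
    rintro ⟨p, q⟩ hp
    simp only [Finset.mem_filter, Finset.mem_product, Finset.mem_union, Finset.mem_image,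
      Finset.mem_erase, Prod.mk.injEq] at hp ⊢
    obtain ⟨⟨hpX, hqX⟩, hadj⟩ := hp
    by_cases h1 : p = x
    · right; left
      exact ⟨q, ⟨hqX, h1 ▸ hadj⟩, h1.symm, rfl⟩
    by_cases h2 : q = x
    · right; right
      exact ⟨p, ⟨hpX, h2 ▸ hadj.symm⟩, rfl, h2.symm⟩
    left
    exact ⟨⟨⟨h1, hpX⟩, h2, hqX⟩, hadj⟩
  calc _ ≤ _ := Finset.card_le_card hsub
    _ ≤ _ := Finset.card_union_le _ _
    _ ≤ _ := Nat.add_le_add_left (Finset.card_union_le _ _) _
    _ ≤ _ := Nat.add_le_add_left (Nat.add_le_add Finset.card_image_le Finset.card_image_le) _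
    _ = _ := by ring

theorem sparse (h1 : ∀ i, s i * s i = 1) (R : ℕ)
    (hinj : ∀ l l' : List (Fin k), Red l → Red l' → l.length ≤ R →
      l'.length ≤ R → pr s l = pr s l' → l = l') :
    ∀ (n : ℕ) (X : Finset G), #X = n → X.Nonempty → #X ≤ R →
      ew (cay s h1) X X + 2 ≤ 2 * #X := by
  intro n
  induction n with
  | zero =>
    intro X hX hne
    rw [Finset.card_eq_zero] at hX
    exact absurd hX hne.ne_empty
  | succ n ih =>
    intro X hX hne hR
    obtain ⟨x, hx, hlow⟩ := exists_low s R hinj X hne hR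
    have hle := ew_insert_le (cay s h1) X x hx
    have hdeg : #{y ∈ X | (cay s h1).Adj x y} ≤ 1 := by
      refine le_trans ?_ hlow
      have hsub : ({y ∈ X | (cay s h1).Adj x y} : Finset G) ⊆
          ({i | s i * x ∈ X} : Finset (Fin k)).image (fun i => s i * x) := by
        intro y hy
        obtain ⟨hyX, -, i, hi⟩ := Finset.mem_filter.1 hy
        refine Finset.mem_image.2 ⟨i, ?_, hi.symm⟩
        simp only [Finset.mem_filter, Finset.mem_univ, true_and]
        exact hi ▸ hyX
      exact (Finset.card_le_card hsub).trans Finset.card_image_le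
    have hcard : #(X.erase x) = n := by rw [Finset.card_erase_of_mem hx, hX]; rfl
    rcases (X.erase x).eq_empty_or_nonempty with h0 | hne'
    · rw [h0] at hle
      have hz : #{y ∈ X | (cay s h1).Adj x y} = 0 := by
        rw [Finset.card_eq_zero, Finset.filter_eq_empty_iff]
        intro y hy hadj
        have : y ∈ X.erase x := Finset.mem_erase.2 ⟨hadj.ne', hy⟩
        rw [h0] at this
        exact absurd this (Finset.notMem_empty _)
      rw [hz] at hle
      have : ew (cay s h1) ∅ ∅ = 0 := by simp [ew]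
      have : 1 ≤ #X := by omega
      omega
    · have := ih (X.erase x) hcard hne' (by omega)
      omega

/-! ### counting edges -/

theorem ew_eq (h1 : ∀ i, s i * s i = 1) (h0 : ∀ i, s i ≠ 1) (hs : Function.Injective s)
    (X Y : Finset G) :
    ew (cay s h1) X Y = #{p ∈ X ×ˢ (univ : Finset (Fin k)) | s p.2 * p.1 ∈ Y} := by
  unfold ew
  symm
  apply Finset.card_bij (fun p _ => (p.1, s p.2 * p.1))
  · rintro ⟨x, i⟩ hp
    simp only [Finset.mem_filter, Finset.mem_product, Finset.mem_univ, and_true] at hp ⊢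
    refine ⟨⟨hp.1, hp.2⟩, ?_, i, rfl⟩
    intro h
    exact h0 i (by simpa using h.symm)
  · rintro ⟨x, i⟩ _ ⟨y, j⟩ _ h
    simp only [Prod.mk.injEq] at h
    obtain ⟨rfl, h⟩ := h
    rw [hs (mul_right_cancel h)]
  · rintro ⟨x, y⟩ hp
    simp only [Finset.mem_filter, Finset.mem_product] at hp
    obtain ⟨⟨hx, hy⟩, -, i, rfl⟩ := hp
    exact ⟨(x, i), by simp [hx, hy], rfl⟩

theorem bd_eq (h1 : ∀ i, s i * s i = 1) (h0 : ∀ i, s i ≠ 1) (hs : Function.Injective s)
    (X : Finset G) : ew (cay s h1) X Xᶜ = bd s X := by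
  rw [ew_eq s h1 h0 hs]
  unfold bd
  simp only [Finset.mem_compl]

theorem ew_add (h1 : ∀ i, s i * s i = 1) (h0 : ∀ i, s i ≠ 1) (hs : Function.Injective s)
    (X : Finset G) : ew (cay s h1) X X + ew (cay s h1) X Xᶜ = k * #X := by
  rw [ew_eq s h1 h0 hs, ew_eq s h1 h0 hs]
  simp only [Finset.mem_compl]
  rw [Finset.card_filter_add_card_filter_not, Finset.card_product, Finset.card_univ,
    Fintype.card_fin, mul_comm]

theorem ew_symm {V : Type*} [Fintype V] (H : SimpleGraph V) (X Y : Finset V) :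
    ew H X Y = ew H Y X := by
  unfold ew
  apply Finset.card_bij (fun p _ => (p.2, p.1))
  · rintro ⟨x, y⟩ hp
    simp only [Finset.mem_filter, Finset.mem_product] at hp ⊢
    exact ⟨⟨hp.1.2, hp.1.1⟩, hp.2.symm⟩
  · rintro ⟨x, y⟩ _ ⟨x', y'⟩ _ h
    simp only [Prod.mk.injEq] at h ⊢
    exact ⟨h.2, h.1⟩
  · rintro ⟨x, y⟩ hp
    simp only [Finset.mem_filter, Finset.mem_product] at hp
    exact ⟨(y, x), by simp [hp.1.1, hp.1.2, hp.2.symm], rfl⟩

theorem deg_eq (h1 : ∀ i, s i * s i = 1) (h0 : ∀ i, s i ≠ 1) (hs : Function.Injective s)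
    (w : G) : deg (cay s h1) w = k := by
  unfold deg
  have : (cay s h1).neighborSet w = Set.range (fun i => s i * w) := by
    ext y
    simp only [SimpleGraph.mem_neighborSet, Set.mem_range]
    constructor
    · rintro ⟨-, i, rfl⟩; exact ⟨i, rfl⟩
    · rintro ⟨i, rfl⟩
      exact ⟨fun h => h0 i (by simpa using h.symm), i, rfl⟩
  rw [this, ← Set.image_univ, Set.ncard_image_of_injective _
    (fun i j h => hs (mul_right_cancel h)), Set.ncard_univ, Nat.card_eq_fintype_card,
    Fintype.card_fin]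

end abs

/-! ### number of reduced words -/

/-- reduced words of length `m` -/
noncomputable def rw' (k : ℕ) : ℕ → Finset (List (Fin k))
  | 0 => {[]}
  | m + 1 => (rw' k m).biUnion fun l =>
      (univ.filter fun i : Fin k => l.head? ≠ some i).image fun i => i :: l

theorem mem_rw' {k m : ℕ} {l : List (Fin k)} (h : l ∈ rw' k m) : l.length = m ∧ Red l := by
  induction m generalizing l with
  | zero =>
    simp only [rw', Finset.mem_singleton] at h
    subst h
    exact ⟨rfl, red_nil⟩
  | succ m ih =>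
    simp only [rw', Finset.mem_biUnion, Finset.mem_image, Finset.mem_filter, Finset.mem_univ,
      true_and] at h
    obtain ⟨l', hl', i, hi, rfl⟩ := h
    obtain ⟨h1, h2⟩ := ih hl'
    exact ⟨by simp [h1], red_cons.2 ⟨hi, h2⟩⟩

theorem card_rw' {k : ℕ} (hk : 3 ≤ k) (m : ℕ) : 2 ^ m ≤ #(rw' k m) := by
  induction m with
  | zero => simp [rw']
  | succ m ih =>
    rw [rw', Finset.card_biUnion]
    · calc 2 ^ (m + 1) = 2 ^ m * 2 := pow_succ _ _
        _ ≤ #(rw' k m) * 2 := Nat.mul_le_mul_right _ ih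
        _ = ∑ _l ∈ rw' k m, 2 := by rw [Finset.sum_const, smul_eq_mul]
        _ ≤ _ := by
          apply Finset.sum_le_sum
          intro l _
          rw [Finset.card_image_of_injective _ (fun i j h => (List.cons.inj h).1)]
          rcases hh : l.head? with _ | a
          · simp; omega
          · have hsub : (univ : Finset (Fin k)).erase a ⊆
                univ.filter fun i : Fin k => (some a : Option (Fin k)) ≠ some i := by
              intro i hi
              simp only [Finset.mem_filter, Finset.mem_univ, true_and]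
              intro h
              exact (Finset.mem_erase.1 hi).1 (Option.some.inj h).symm
            refine le_trans ?_ (Finset.card_le_card hsub)
            rw [Finset.card_erase_of_mem (Finset.mem_univ _), Finset.card_univ, Fintype.card_fin]
            omega
    · intro l _ l' _ hne
      rw [Function.onFun, Finset.disjoint_left]
      intro t ht ht'
      obtain ⟨i, _, rfl⟩ := Finset.mem_image.1 ht
      obtain ⟨j, _, h⟩ := Finset.mem_image.1 ht'
      exact hne (List.cons.inj h).2.symm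

/-! ### the permutations of the tree -/

/-- vertices of the ball of radius `R` of the `k`-regular tree -/
def Wd (k R : ℕ) : Type := {l : List (Fin k) // Red l ∧ l.length ≤ R}

noncomputable instance (k R : ℕ) : Finite (Wd k R) :=
  ((List.finite_length_le (Fin k) R).subset (fun _ h => h.2 :
    {l : List (Fin k) | Red l ∧ l.length ≤ R} ⊆ _)).to_subtype

/-- reflection in the edges of colour `i` -/
noncomputable def stp {k R : ℕ} (i : Fin k) (w : Wd k R) : Wd k R :=
  if h : w.1.head? = some i then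
    ⟨w.1.tail, by
      obtain ⟨l, h1, h2⟩ := w
      cases l with
      | nil => exact ⟨red_nil, by simp⟩
      | cons a l =>
        refine ⟨(red_cons.1 h1).2, ?_⟩
        simp only [List.length_cons, List.tail_cons] at h2 ⊢
        omega⟩
  else if h' : w.1.length < R then ⟨i :: w.1, red_cons.2 ⟨h, w.2.1⟩, by
    rw [List.length_cons]; omega⟩
  else w

theorem stp_invol {k R : ℕ} (i : Fin k) : Function.Involutive (stp (R := R) i) := by
  rintro ⟨l, h1, h2⟩
  unfold stp
  by_cases h : l.head? = some i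
  · cases l with
    | nil => simp at h
    | cons a l =>
      have ha : a = i := by simpa using h
      subst ha
      have h3 : ¬ l.head? = some a := (red_cons.1 h1).1
      have h4 : l.length < R := by
        simp only [List.length_cons] at h2
        omega
      simp [h3, h4]
  · by_cases h' : l.length < R
    · simp [h, h']
    · simp [h, h']

/-- the generators as permutations -/
noncomputable def sig {k R : ℕ} (i : Fin k) : Equiv.Perm (Wd k R) := (stp_invol i).toPerm

theorem sig_apply {k R : ℕ} (i : Fin k) (w : Wd k R) : sig i w = stp i w := rfl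

theorem prod_root {k R : ℕ} (l : List (Fin k)) (h : Red l) (hR : l.length ≤ R) :
    ((l.map (sig (R := R))).prod ⟨[], red_nil, by simp⟩).1 = l := by
  induction l with
  | nil => rfl
  | cons i l ih =>
    simp only [List.length_cons] at hR
    have h2 := red_cons.1 h
    have ih' := ih h2.2 (by omega)
    rw [List.map_cons, List.prod_cons, Equiv.Perm.mul_apply, sig_apply]
    unfold stp
    rw [dif_neg (by rw [ih']; exact h2.1), dif_pos (by rw [ih']; omega)]
    simp only
    rw [ih']

/-- the group -/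
abbrev Gp (k R : ℕ) : Type := Subgroup.closure (Set.range (sig (k := k) (R := R)))

/-- its generators -/
noncomputable def gen {k R : ℕ} (i : Fin k) : Gp k R :=
  ⟨sig i, Subgroup.subset_closure ⟨i, rfl⟩⟩

theorem gen_sq {k R : ℕ} (i : Fin k) : gen (R := R) i * gen i = 1 := by
  apply Subtype.ext
  apply Equiv.ext
  intro w
  exact stp_invol i w

theorem pr_gen {k R : ℕ} (l : List (Fin k)) :
    ((pr (gen (R := R)) l : Gp k R) : Equiv.Perm (Wd k R)) = (l.map sig).prod := by
  induction l with
  | nil => rfl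
  | cons i l ih =>
    rw [pr_cons, List.map_cons, List.prod_cons, Subgroup.coe_mul, ih]
    rfl

theorem gen_gen {k R : ℕ} (g : Gp k R) : ∃ l : List (Fin k), pr gen l = g := by
  obtain ⟨g, hg⟩ := g
  induction hg using Subgroup.closure_induction with
  | mem x hx =>
    obtain ⟨i, rfl⟩ := hx
    exact ⟨[i], by simp [gen]⟩
  | one => exact ⟨[], rfl⟩
  | mul x y hx hy ihx ihy =>
    obtain ⟨l, hl⟩ := ihx
    obtain ⟨l', hl'⟩ := ihy
    refine ⟨l ++ l', ?_⟩
    rw [pr_append, hl, hl']
    rfl
  | inv x hx ih =>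
    obtain ⟨l, hl⟩ := ih
    refine ⟨l.reverse, ?_⟩
    rw [pr_reverse gen gen_sq, hl]
    rfl

theorem gen_inj {k R : ℕ} (l l' : List (Fin k)) (h : Red l) (h' : Red l') (hR : l.length ≤ R)
    (hR' : l'.length ≤ R) (heq : pr (gen (R := R)) l = pr gen l') : l = l' := by
  rw [← prod_root l h hR, ← prod_root l' h' hR', ← pr_gen, ← pr_gen, heq]

theorem base_abs (G : Type) [Group G] [Fintype G] {k : ℕ} (hk : 3 ≤ k) (s : Fin k → G)
    (h1 : ∀ i, s i * s i = 1) (hgen : ∀ g, ∃ l : List (Fin k), pr s l = g)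
    (lam K B r0 R : ℕ) (hr0 : 6 * (2 * r0 + 1) * lam ≤ 2 ^ r0) (hB : B ≤ 2 ^ r0)
    (hR : R = K + 2 ^ r0)
    (hinj : ∀ l l' : List (Fin k), Red l → Red l' → l.length ≤ R →
      l'.length ≤ R → pr s l = pr s l' → l = l') :
    ∃ (W : Type) (_ : Fintype W) (H : SimpleGraph W),
      (∀ w, deg H w = k) ∧
      (∀ X : Finset W, X.Nonempty → #X ≤ K → ew H X X + 2 ≤ 2 * #X) ∧
      (∀ X : Finset W, lam ≤ #X → lam ≤ #Xᶜ → lam ≤ ew H X Xᶜ) ∧
      B ≤ Fintype.card W := by
  have hpow : 0 < 2 ^ r0 := by positivity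
  have hr0R : r0 ≤ R := by
    have : r0 < 2 ^ r0 := Nat.lt_two_pow_self
    omega
  have hR1 : 1 ≤ R := by omega
  have hs : Function.Injective s := by
    intro i j hij
    have := hinj [i] [j] (red_cons.2 ⟨by simp, red_nil⟩)
      (red_cons.2 ⟨by simp, red_nil⟩) (by simpa using hR1) (by simpa using hR1)
      (by simpa using hij)
    simpa using this
  have h0 : ∀ i, s i ≠ 1 := by
    intro i hi
    have := hinj [i] [] (red_cons.2 ⟨by simp, red_nil⟩) red_nil
      (by simpa using hR1) (by simp) (by simpa using hi)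
    simp at this
  have hball : 2 ^ r0 ≤ #(ball s r0) := by
    refine (card_rw' hk r0).trans ?_
    apply Finset.card_le_card_of_injOn (fun l => pr s l)
    · intro l hl
      have hl' := mem_rw' (Finset.mem_coe.1 hl)
      exact Finset.mem_coe.2 ((mem_ball _).2 ⟨l, hl'.1.le, rfl⟩)
    · intro l hl l' hl' heq
      have h1 := mem_rw' (Finset.mem_coe.1 hl)
      have h2 := mem_rw' (Finset.mem_coe.1 hl')
      exact hinj l l' h1.2 h2.2 (by omega) (by omega) heq
  have hsp : ∀ X : Finset G, X.Nonempty → #X ≤ R →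
      ew (cay s h1) X X + 2 ≤ 2 * #X := fun X hX hXR =>
    sparse s h1 R hinj #X X rfl hX hXR
  have hbd : ∀ X : Finset G, lam ≤ #X → 2 * #X ≤ Fintype.card G →
      lam ≤ ew (cay s h1) X Xᶜ := by
    intro X hX hX2
    rcases le_total (2 ^ r0) #X with h | h
    · rw [bd_eq s h1 h0 hs]
      exact bd_large s h1 hgen r0 (2 ^ r0) lam hpow hball hr0 X h hX2
    · rcases X.eq_empty_or_nonempty with rfl | hne
      · simp only [Finset.card_empty, Nat.le_zero] at hX
        omega
      have h4 := hsp X hne (by omega)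
      have h2 := ew_add s h1 h0 hs X
      have h3 : 3 * #X ≤ k * #X := Nat.mul_le_mul_right _ hk
      omega
  refine ⟨G, inferInstance, cay s h1, deg_eq s h1 h0 hs, ?_, ?_, ?_⟩
  · intro X hX hXK
    exact hsp X hX (by omega)
  · intro X h1 h2
    have hc : #X + #Xᶜ = Fintype.card G := Finset.card_add_card_compl X
    rcases le_total #X #Xᶜ with h | h
    · exact hbd X h1 (by omega)
    · have := hbd Xᶜ h2 (by omega)
      rwa [compl_compl, ew_symm] at this
  · calc B ≤ 2 ^ r0 := hB
      _ ≤ _ := hball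
      _ ≤ _ := Finset.card_le_univ _

end Cay

open Cay in
theorem base_graph (k : ℕ) (hk : 3 ≤ k) (lam K B : ℕ) :
    ∃ (W : Type) (_ : Fintype W) (H : SimpleGraph W),
      (∀ w, deg H w = k) ∧
      (∀ X : Finset W, X.Nonempty → #X ≤ K → ew H X X + 2 ≤ 2 * #X) ∧
      (∀ X : Finset W, lam ≤ #X → lam ≤ #Xᶜ → lam ≤ ew H X Xᶜ) ∧
      B ≤ Fintype.card W := by
  obtain ⟨r0, hr0, hB⟩ : ∃ r0 : ℕ, 6 * (2 * r0 + 1) * lam ≤ 2 ^ r0 ∧ B ≤ 2 ^ r0 := by
    set M := 24 * lam + B with hM
    have hM1 : M < 2 ^ M := Nat.lt_two_pow_self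
    refine ⟨2 * M, ?_, ?_⟩
    · rw [two_mul M, pow_add]
      have h1 : M + 1 ≤ 2 ^ M := hM1
      have h2 : 24 * lam ≤ 2 ^ M := by omega
      calc 6 * (2 * (M + M) + 1) * lam ≤ (M + 1) * (24 * lam) := by nlinarith
        _ ≤ 2 ^ M * 2 ^ M := Nat.mul_le_mul h1 h2
    · have : 2 ^ M ≤ 2 ^ (2 * M) := Nat.pow_le_pow_right (by norm_num) (by omega)
      omega
  haveI : Fintype (Gp k (K + 2 ^ r0)) := Fintype.ofFinite _
  exact base_abs (Gp k (K + 2 ^ r0)) hk gen gen_sq gen_gen lam K B r0 _ hr0 hB rfl gen_inj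

end Pool.Agent.AvgConn
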