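import Pool.Agent.Work.MP_88992e_co.SqDefs

/-!
# Module CIRC: the power of a cycle is highly connected
-/

namespace Pool.Agent.AvgConn

open Finset
open scoped Classical

/-- the first vertices behind the start of a shortest forward way from `P` to `Q` -/
theorem circ_half {L : ℕ} [NeZero L] (k : ℕ) (P Q : ZMod L → Prop) (hPQ : ∀ i, P i → ¬ Q i)
    (hP : ∃ i, P i) (hQ : ∃ i, Q i)
    (hno : ∀ i, P i → ∀ p : ℕ, 1 ≤ p → p ≤ k → ¬ Q (i + (p : ZMod L))) :
    k < L ∧ ∃ a, P a ∧ ∀ s : ℕ, 1 ≤ s → s ≤ k →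
      ¬ P (a + (s : ZMod L)) ∧ ¬ Q (a + (s : ZMod L)) := by
  obtain ⟨i, hi⟩ := hP
  obtain ⟨j, hj⟩ := hQ
  have hex : ∃ d : ℕ, ∃ a, P a ∧ Q (a + (d : ZMod L)) := by
    refine ⟨(j - i).val, i, hi, ?_⟩
    rw [ZMod.natCast_zmod_val, add_sub_cancel]
    exact hj
  have hmin : Nat.find hex ≤ (j - i).val := Nat.find_min' hex ⟨i, hi, by
    rw [ZMod.natCast_zmod_val, add_sub_cancel]
    exact hj⟩
  have hlt : (j - i).val < L := ZMod.val_lt _
  obtain ⟨a, ha, hb⟩ := Nat.find_spec hex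
  set d := Nat.find hex with hd
  have hd0 : d ≠ 0 := by
    intro h0
    rw [h0, Nat.cast_zero, add_zero] at hb
    exact hPQ a ha hb
  have hdk : k < d := by
    by_contra hle
    exact hno a ha d (by omega) (by omega) hb
  refine ⟨by omega, a, ha, fun s hs1 hs2 => ⟨fun hPs => ?_, fun hQs => ?_⟩⟩
  · refine Nat.find_min hex (m := d - s) (by omega) ⟨a + (s : ZMod L), hPs, ?_⟩
    have : ((s : ZMod L)) + ((d - s : ℕ) : ZMod L) = (d : ZMod L) := by
      rw [← Nat.cast_add]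
      congr 1
      omega
    rw [add_assoc, this]
    exact hb
  · exact Nat.find_min hex (m := s) (by omega) ⟨a, ha, hQs⟩

theorem circ_cut {L : ℕ} [NeZero L] (k : ℕ) (P Q : ZMod L → Prop) (hPQ : ∀ i, P i → ¬ Q i)
    (hP : ∃ i, P i) (hQ : ∃ i, Q i) (hR : #{i : ZMod L | ¬ P i ∧ ¬ Q i} < 2 * k) :
    ∃ i j, P i ∧ Q j ∧ ∃ p : ℕ, 1 ≤ p ∧ p ≤ k ∧ (j = i + (p : ZMod L) ∨ i = j + (p : ZMod L)) := by
  by_contra hcon
  push Not at hcon
  obtain ⟨hkL, a, ha, ha'⟩ := circ_half k P Q hPQ hP hQ fun i hi p hp1 hp2 hq =>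
    (hcon i _ hi hq p hp1 hp2).1 rfl
  obtain ⟨-, b, hb, hb'⟩ := circ_half k Q P (fun i h1 h2 => hPQ i h2 h1) hQ hP
    fun j hj p hp1 hp2 hi => (hcon _ j hi hj p hp1 hp2).2 rfl
  have hinj : ∀ c : ZMod L, Set.InjOn (fun s : ℕ => c + (s : ZMod L)) (Finset.Icc 1 k) := by
    intro c s hs s' hs' h
    rw [Finset.coe_Icc, Set.mem_Icc] at hs hs'
    have h1 : ((s : ℕ) : ZMod L) = (s' : ZMod L) := add_left_cancel h
    rw [ZMod.natCast_eq_natCast_iff] at h1
    exact Nat.ModEq.eq_of_lt_of_lt h1 (by omega) (by omega)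
  have hcard : ∀ c : ZMod L, #((Finset.Icc 1 k).image fun s : ℕ => c + (s : ZMod L)) = k := by
    intro c
    rw [Finset.card_image_of_injOn (hinj c), Nat.card_Icc]
    omega
  have hsub : (Finset.Icc 1 k).image (fun s : ℕ => a + (s : ZMod L)) ∪
      (Finset.Icc 1 k).image (fun s : ℕ => b + (s : ZMod L)) ⊆
      ({i : ZMod L | ¬ P i ∧ ¬ Q i} : Finset (ZMod L)) := by
    intro x hx
    rw [mem_union, mem_image, mem_image] at hx
    rw [mem_filter]
    rcases hx with ⟨s, hs, rfl⟩ | ⟨s, hs, rfl⟩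
    · rw [Finset.mem_Icc] at hs
      exact ⟨mem_univ _, ha' s hs.1 hs.2⟩
    · rw [Finset.mem_Icc] at hs
      exact ⟨mem_univ _, (hb' s hs.1 hs.2).2, (hb' s hs.1 hs.2).1⟩
  have hdisj : Disjoint ((Finset.Icc 1 k).image fun s : ℕ => a + (s : ZMod L))
      ((Finset.Icc 1 k).image fun s : ℕ => b + (s : ZMod L)) := by
    rw [disjoint_left]
    intro x hx hx'
    rw [mem_image] at hx hx'
    obtain ⟨s, hs, rfl⟩ := hx
    obtain ⟨s', hs', h⟩ := hx'
    rw [Finset.mem_Icc] at hs hs'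
    rcases lt_trichotomy s s' with hlt | heq | hlt
    · have h1 : b + ((s' - s : ℕ) : ZMod L) = a := by
        rw [Nat.cast_sub hlt.le]
        linear_combination h
      exact (hb' (s' - s) (by omega) (by omega)).2 (by rw [h1]; exact ha)
    · subst heq
      have h1 : b = a := add_right_cancel h
      exact hPQ a ha (h1 ▸ hb)
    · have h1 : a + ((s - s' : ℕ) : ZMod L) = b := by
        rw [Nat.cast_sub hlt.le]
        linear_combination -h
      exact (ha' (s - s') (by omega) (by omega)).2 (by rw [h1]; exact hb)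
  have := card_le_card hsub
  rw [card_union_of_disjoint hdisj, hcard, hcard] at this
  omega

end Pool.Agent.AvgConn
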