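import Pool.Agent.Work.MP_88992e_co.SqDefs

/-!
# Ports in a residue class
-/

namespace Pool.Agent.AvgConn

open Finset
open scoped Classical

universe u

theorem ports_in_segment {A : Type} [Fintype A] (e : A → ℕ) {L : ℕ} [NeZero L] (i : ZMod L) :
    L * #{x : (Σ a : A, Fin (e a)) | ((x.2 : ℕ) : ZMod L) = i} ≤
      ∑ a, e a + L * Fintype.card A := by
  have h1 : #{x : (Σ a : A, Fin (e a)) | ((x.2 : ℕ) : ZMod L) = i} =
      ∑ a, #{p : Fin (e a) | ((p : ℕ) : ZMod L) = i} := by
    rw [card_filter, Fintype.sum_sigma]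
    apply sum_congr rfl
    intro a _
    rw [card_filter]
  have h2 : ∀ a, L * #{p : Fin (e a) | ((p : ℕ) : ZMod L) = i} ≤ e a + L := by
    intro a
    have hL : 0 < L := Nat.pos_of_ne_zero (NeZero.ne L)
    have h3 : #{p : Fin (e a) | ((p : ℕ) : ZMod L) = i} ≤ #(range (e a / L + 1)) := by
      refine card_le_card_of_injOn (fun p : Fin (e a) => (p : ℕ) / L) ?_ ?_
      · intro p _
        simp only [coe_range, Set.mem_Iio]
        have := Nat.div_le_div_right (c := L) p.2.le
        omega
      · intro p hp q hq hpq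
        simp only [coe_filter, mem_univ, true_and, Set.mem_ofPred_eq] at hp hq
        have h4 : (p : ℕ) % L = (q : ℕ) % L := by
          rw [← ZMod.natCast_eq_natCast_iff', hp, hq]
        have h5 : (p : ℕ) / L = (q : ℕ) / L := hpq
        apply Fin.ext
        rw [← Nat.div_add_mod (p : ℕ) L, ← Nat.div_add_mod (q : ℕ) L, h4, h5]
    rw [card_range] at h3
    have h6 : L * (e a / L) ≤ e a := Nat.mul_div_le (e a) L
    calc L * #{p : Fin (e a) | ((p : ℕ) : ZMod L) = i} ≤ L * (e a / L + 1) :=
          Nat.mul_le_mul_left L h3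
      _ = L * (e a / L) + L := by ring
      _ ≤ e a + L := by omega
  rw [h1, mul_sum]
  calc ∑ a, L * #{p : Fin (e a) | ((p : ℕ) : ZMod L) = i} ≤ ∑ a, (e a + L) :=
        sum_le_sum fun a _ => h2 a
    _ = ∑ a, e a + L * Fintype.card A := by
        rw [sum_add_distrib, sum_const, card_univ, smul_eq_mul, mul_comm]

end Pool.Agent.AvgConn
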