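import Pool.Agent.Work.MP_88992e_co.KUp
import Pool.Agent.Work.MP_88992e_co.Trunc

/-!
# The upper bound for the sum of the local connectivities
-/

set_option linter.unusedSectionVars false

namespace Pool.Agent.AvgConn

open Finset
open scoped Classical

variable {V : Type*} [Fintype V]

/-! ### Arithmetic -/

theorem abel_int (a b : ℕ → ℤ) (t : ℤ) (ha : ∀ k, a (k + 1) ≤ a k)
    (h : ∀ n, ∑ j ∈ range n, (a j - b j) ≤ t) (n : ℕ) :
    ∑ j ∈ range n, a j * (a j - b j) ≤
      t * a 0 - t * a n + a n * ∑ j ∈ range n, (a j - b j) := by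
  induction n with
  | zero => simp
  | succ n ih =>
    have h1 := h (n + 1)
    have h2 := ha n
    rw [sum_range_succ]
    set A := ∑ j ∈ range n, (a j - b j) with hA
    have hA' : ∑ j ∈ range (n + 1), (a j - b j) = A + (a n - b n) := by
      rw [sum_range_succ]
    rw [hA'] at h1 ⊢
    nlinarith [mul_nonneg (sub_nonneg.2 h2) (sub_nonneg.2 h1)]

theorem int_ineq (a b : ℤ) : a * (a - 1) - b * (b - 1) ≤ 2 * (a * (a - b)) := by
  have : 0 ≤ (a - b) * (a - b + 1) := by
    rcases le_or_gt 0 (a - b) with h | h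
    · exact mul_nonneg h (by omega)
    · exact mul_nonneg_of_nonpos_of_nonpos (by omega) (by omega)
  nlinarith

theorem cnt_cast_mul_pred (x : ℕ) : ((x * (x - 1) : ℕ) : ℤ) = (x : ℤ) * ((x : ℤ) - 1) := by
  rcases x with _ | x
  · simp
  · push_cast
    simp

theorem abel_nat (a b : ℕ → ℕ) (t n : ℕ) (ha : ∀ k, a (k + 1) ≤ a k) (hn : a n = 0)
    (h : ∀ n, ∑ j ∈ range n, a j ≤ ∑ j ∈ range n, b j + t) :
    ∑ j ∈ range n, a j * (a j - 1) ≤ ∑ j ∈ range n, b j * (b j - 1) + 2 * (t * a 0) := by
  have h1 := abel_int (fun j => (a j : ℤ)) (fun j => (b j : ℤ)) (t : ℤ)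
    (fun k => by exact_mod_cast ha k) (fun n => by
      rw [sum_sub_distrib]
      have := h n
      have h2 : (∑ j ∈ range n, (a j : ℤ)) ≤ ∑ j ∈ range n, (b j : ℤ) + t := by exact_mod_cast this
      linarith) n
  simp only [hn] at h1
  have h2 : ∑ j ∈ range n, ((a j : ℤ) * ((a j : ℤ) - 1) - (b j : ℤ) * ((b j : ℤ) - 1)) ≤
      ∑ j ∈ range n, 2 * ((a j : ℤ) * ((a j : ℤ) - (b j : ℤ))) :=
    sum_le_sum fun j _ => int_ineq _ _
  rw [sum_sub_distrib, ← mul_sum] at h2
  have h3 : ((∑ j ∈ range n, a j * (a j - 1) : ℕ) : ℤ)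
      = ∑ j ∈ range n, (a j : ℤ) * ((a j : ℤ) - 1) := by
    rw [Nat.cast_sum]
    exact sum_congr rfl fun j _ => cnt_cast_mul_pred _
  have h4 : ((∑ j ∈ range n, b j * (b j - 1) : ℕ) : ℤ)
      = ∑ j ∈ range n, (b j : ℤ) * ((b j : ℤ) - 1) := by
    rw [Nat.cast_sum]
    exact sum_congr rfl fun j _ => cnt_cast_mul_pred _
  have h5 : ((∑ j ∈ range n, a j * (a j - 1) : ℕ) : ℤ) ≤
      ((∑ j ∈ range n, b j * (b j - 1) + 2 * (t * a 0) : ℕ) : ℤ) := by
    rw [Nat.cast_add, h3, h4]
    push_cast
    push_cast at h1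
    linarith
  exact_mod_cast h5

/-! ### Sums over ordered pairs -/

theorem cnt_sum_ind (X : Finset V) :
    ∑ p : V × V with p.1 ≠ p.2, (if p.1 ∈ X ∧ p.2 ∈ X then 1 else 0) = #X * (#X - 1) := by
  rw [sum_boole, filter_filter, Nat.cast_id]
  have : ({p : V × V | p.1 ≠ p.2 ∧ p.1 ∈ X ∧ p.2 ∈ X} : Finset (V × V)) = X.offDiag := by
    ext p
    simp only [mem_filter, mem_univ, true_and, mem_offDiag]
    tauto
  rw [this, offDiag_card, Nat.mul_sub_one]

theorem cnt_sum_ind_cross (X Y : Finset V) (h : Disjoint X Y) :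
    ∑ p : V × V with p.1 ≠ p.2, (if p.1 ∈ X ∧ p.2 ∈ Y then 1 else 0) = #X * #Y := by
  rw [sum_boole, filter_filter, Nat.cast_id]
  have : ({p : V × V | p.1 ≠ p.2 ∧ p.1 ∈ X ∧ p.2 ∈ Y} : Finset (V × V)) = X ×ˢ Y := by
    ext p
    simp only [mem_filter, mem_univ, true_and, mem_product]
    constructor
    · exact fun h => h.2
    · intro h2
      refine ⟨fun h3 => ?_, h2⟩
      exact (Finset.disjoint_left.1 h h2.1) (h3 ▸ h2.2)
  rw [this, card_product]

/-! ### Counting edges -/

/-- the vertex is joined to `C` -/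
def Rc (G : SimpleGraph V) (C : Finset V) (v : V) : Prop := ∃ c ∈ C, G.Reachable v c

/-- vertices outside `C` joined to `C` -/
noncomputable def TO (G : SimpleGraph V) (C : Finset V) : Finset V := {v | v ∉ C ∧ Rc G C v}

/-- non-isolated vertices not joined to `C` -/
noncomputable def TZ (G : SimpleGraph V) (C : Finset V) : Finset V :=
  {v | ¬ Rc G C v ∧ deg G v ≠ 0}

theorem cnt_exists_parent (G : SimpleGraph V) (C : Finset V) : ∃ (δ : V → ℕ) (p : V → V),
    ∀ v, v ∉ C → Rc G C v → G.Adj v (p v) ∧ Rc G C (p v) ∧ δ (p v) < δ v := by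
  set δ : V → ℕ := fun v => sInf {n | ∃ c ∈ C, ∃ w : G.Walk v c, w.length = n} with hδ
  have key : ∀ v, ∃ y, v ∉ C → Rc G C v → G.Adj v y ∧ Rc G C y ∧ δ y < δ v := by
    intro v
    by_cases hv : v ∉ C ∧ Rc G C v
    · obtain ⟨hvC, c, hc, ⟨w⟩⟩ := hv
      have hne : {n | ∃ c ∈ C, ∃ w : G.Walk v c, w.length = n}.Nonempty :=
        ⟨w.length, c, hc, w, rfl⟩
      obtain ⟨c', hc', w', hw'⟩ := Nat.sInf_mem hne
      cases w' with
      | nil => exact absurd hc' hvC
      | cons hadj w'' =>
        rename_i y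
        refine ⟨y, fun _ _ => ⟨hadj, ⟨c', hc', ⟨w''⟩⟩, ?_⟩⟩
        have h1 : δ y ≤ w''.length := Nat.sInf_le ⟨c', hc', w'', rfl⟩
        have h2 : w''.length + 1 = δ v := by
          rw [SimpleGraph.Walk.length_cons] at hw'
          exact hw'
        omega
    · exact ⟨v, fun h1 h2 => absurd ⟨h1, h2⟩ hv⟩
  choose p hp using key
  exact ⟨δ, p, hp⟩

theorem cnt_deg_eq (G : SimpleGraph V) (v : V) : deg G v = #{w | G.Adj v w} := by
  unfold deg
  rw [Set.ncard_eq_toFinset_card']
  congr 1
  ext w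
  simp

theorem cnt_sum_deg (G : SimpleGraph V) :
    ∑ v, deg G v = #{p : V × V | G.Adj p.1 p.2} := by
  simp only [cnt_deg_eq, card_filter]
  rw [← univ_product_univ, sum_product]

theorem count_edges (G : SimpleGraph V) (C : Finset V) :
    ∑ u ∈ C, #{w ∈ C | G.Adj u w} + 2 * #(TO G C) + #(TZ G C) ≤ ∑ v, deg G v := by
  obtain ⟨δ, p, hp⟩ := cnt_exists_parent G C
  have hq : ∀ v, ∃ w, deg G v ≠ 0 → G.Adj v w := by
    intro v
    by_cases h : deg G v ≠ 0
    · rw [cnt_deg_eq, card_ne_zero] at h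
      obtain ⟨w, hw⟩ := h
      exact ⟨w, fun _ => (mem_filter.1 hw).2⟩
    · exact ⟨v, fun h2 => absurd h2 h⟩
  choose q hq using hq
  set E1 : Finset (V × V) := {x ∈ C ×ˢ C | G.Adj x.1 x.2} with hE1
  set E2 : Finset (V × V) := (TO G C).image (fun x => (x, p x)) with hE2
  set E3 : Finset (V × V) := (TO G C).image (fun x => (p x, x)) with hE3
  set E4 : Finset (V × V) := (TZ G C).image (fun x => (x, q x)) with hE4
  have mTO : ∀ x, x ∈ TO G C ↔ x ∉ C ∧ Rc G C x := fun x => by simp [TO]
  have mTZ : ∀ x, x ∈ TZ G C ↔ ¬ Rc G C x ∧ deg G x ≠ 0 := fun x => by simp [TZ]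
  have c1 : #E1 = ∑ u ∈ C, #{w ∈ C | G.Adj u w} := by
    simp only [hE1, card_filter]
    rw [sum_product]
  have c2 : #E2 = #(TO G C) := card_image_of_injective _ fun x y h => (Prod.ext_iff.1 h).1
  have c3 : #E3 = #(TO G C) := card_image_of_injective _ fun x y h => (Prod.ext_iff.1 h).2
  have c4 : #E4 = #(TZ G C) := card_image_of_injective _ fun x y h => (Prod.ext_iff.1 h).1
  have d12 : Disjoint E1 E2 := by
    rw [Finset.disjoint_left]
    rintro ⟨x, y⟩ h1 h2
    obtain ⟨z, hz, he⟩ := mem_image.1 h2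
    obtain ⟨rfl, rfl⟩ := Prod.mk.inj he
    exact ((mTO z).1 hz).1 (mem_product.1 (mem_filter.1 h1).1).1
  have d13 : Disjoint E1 E3 := by
    rw [Finset.disjoint_left]
    rintro ⟨x, y⟩ h1 h2
    obtain ⟨z, hz, he⟩ := mem_image.1 h2
    obtain ⟨rfl, rfl⟩ := Prod.mk.inj he
    exact ((mTO z).1 hz).1 (mem_product.1 (mem_filter.1 h1).1).2
  have hCR : ∀ x ∈ C, Rc G C x := fun x hx => ⟨x, hx, SimpleGraph.Reachable.refl x⟩
  have d14 : Disjoint E1 E4 := by
    rw [Finset.disjoint_left]
    rintro ⟨x, y⟩ h1 h2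
    obtain ⟨z, hz, he⟩ := mem_image.1 h2
    obtain ⟨rfl, rfl⟩ := Prod.mk.inj he
    exact ((mTZ z).1 hz).1 (hCR z (mem_product.1 (mem_filter.1 h1).1).1)
  have d23 : Disjoint E2 E3 := by
    rw [Finset.disjoint_left]
    rintro ⟨x, y⟩ h1 h2
    obtain ⟨z, hz, he⟩ := mem_image.1 h1
    obtain ⟨z', hz', he'⟩ := mem_image.1 h2
    obtain ⟨e1, e2⟩ := Prod.mk.inj he
    obtain ⟨e3, e4⟩ := Prod.mk.inj he'
    have h3 := (hp z ((mTO z).1 hz).1 ((mTO z).1 hz).2).2.2
    have h4 := (hp z' ((mTO z').1 hz').1 ((mTO z').1 hz').2).2.2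
    rw [e2, e1] at h3
    rw [e3, e4] at h4
    omega
  have d24 : Disjoint E2 E4 := by
    rw [Finset.disjoint_left]
    rintro ⟨x, y⟩ h1 h2
    obtain ⟨z, hz, he⟩ := mem_image.1 h1
    obtain ⟨z', hz', he'⟩ := mem_image.1 h2
    obtain ⟨e1, e2⟩ := Prod.mk.inj he
    obtain ⟨e3, e4⟩ := Prod.mk.inj he'
    refine ((mTZ z').1 hz').1 ?_
    rw [e3, ← e1]
    exact ((mTO z).1 hz).2
  have d34 : Disjoint E3 E4 := by
    rw [Finset.disjoint_left]
    rintro ⟨x, y⟩ h1 h2
    obtain ⟨z, hz, he⟩ := mem_image.1 h1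
    obtain ⟨z', hz', he'⟩ := mem_image.1 h2
    obtain ⟨e1, e2⟩ := Prod.mk.inj he
    obtain ⟨e3, e4⟩ := Prod.mk.inj he'
    refine ((mTZ z').1 hz').1 ?_
    rw [e3, ← e1]
    exact (hp z ((mTO z).1 hz).1 ((mTO z).1 hz).2).2.1
  have hsub : (E1 ∪ E2) ∪ (E3 ∪ E4) ⊆ ({p : V × V | G.Adj p.1 p.2} : Finset (V × V)) := by
    intro x hx
    rw [mem_filter]
    refine ⟨mem_univ _, ?_⟩
    rcases mem_union.1 hx with hx | hx
    · rcases mem_union.1 hx with hx | hx
      · exact (mem_filter.1 hx).2
      · obtain ⟨z, hz, rfl⟩ := mem_image.1 hx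
        exact (hp z ((mTO z).1 hz).1 ((mTO z).1 hz).2).1
    · rcases mem_union.1 hx with hx | hx
      · obtain ⟨z, hz, rfl⟩ := mem_image.1 hx
        exact (hp z ((mTO z).1 hz).1 ((mTO z).1 hz).2).1.symm
      · obtain ⟨z, hz, rfl⟩ := mem_image.1 hx
        exact hq z ((mTZ z).1 hz).2
  have hcard := card_le_card hsub
  rw [card_union_of_disjoint, card_union_of_disjoint d12, card_union_of_disjoint d34, c1, c2, c3,
    c4, ← cnt_sum_deg] at hcard
  · omega
  · rw [Finset.disjoint_union_left, Finset.disjoint_union_right, Finset.disjoint_union_right]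
    exact ⟨⟨d13, d14⟩, ⟨d23, d24⟩⟩

/-! ### The bound -/

theorem cnt_kappa_isolated {G : SimpleGraph V} {u v : V} (huv : u ≠ v) (h : deg G u = 0) :
    kappa G u v = 0 := by
  apply kappa_not_reachable
  rintro ⟨w⟩
  cases w with
  | nil => exact huv rfl
  | cons hadj w' =>
    rename_i y
    rw [cnt_deg_eq, card_eq_zero, filter_eq_empty_iff] at h
    exact h (mem_univ y) hadj

theorem min_le_sum (D x y : ℕ) (hx2 : 2 ≤ x) (hy2 : 2 ≤ y) (hx : x ≤ D) :
    min x y ≤ 1 + 1 + ∑ k ∈ Icc 3 D, if k ≤ x ∧ k ≤ y then 1 else 0 := by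
  rw [sum_boole, Nat.cast_id]
  have : Icc 3 (min x y) ⊆ {k ∈ Icc 3 D | k ≤ x ∧ k ≤ y} := by
    intro k hk
    rw [mem_Icc] at hk
    rw [mem_filter, mem_Icc]
    omega
  have h := card_le_card this
  rw [Nat.card_Icc] at h
  omega

theorem upper (G : SimpleGraph V) (d : V → ℕ) (hd : ∀ v, deg G v = d v)
    (hm : 2 * cnt d 1 ≤ ∑ v, d v) (D : ℕ) (hD : ∀ v, d v ≤ D) :
    ∑ p : V × V with p.1 ≠ p.2, kappa G p.1 p.2 ≤
      cnt d 1 * (cnt d 1 - 1) + cnt d 2 * (cnt d 2 - 1) +
        ∑ k ∈ Icc 3 D, (tl d k - tl d (k + 1)) * (tl d k - tl d (k + 1) - 1) := by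
  obtain ⟨C, hC2, hC1, hCC⟩ := exists_core G
  set e : V → ℕ := fun u => #{w ∈ C | G.Adj u w} with he
  have hed : ∀ u, e u ≤ d u := by
    intro u
    rw [← hd, cnt_deg_eq]
    exact card_le_card (filter_subset_filter _ (subset_univ _))
  set A : ℕ → Finset V := fun k => {u ∈ C | k ≤ e u} with hA
  set P : Finset V := {v | 1 ≤ d v} with hP
  have hCP : C ⊆ P := by
    intro u hu
    rw [hP, mem_filter]
    have := hC2 u hu
    have := hed u
    exact ⟨mem_univ _, by simp only [he] at this; omega⟩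
  have hcard1 : #P = cnt d 1 := rfl
  have hdisj : Disjoint C (TZ G C) := by
    rw [Finset.disjoint_left]
    intro x hx hx2
    exact (mem_filter.1 hx2).2.1 ⟨x, hx, SimpleGraph.Reachable.refl x⟩
  -- pointwise bound
  have hpt : ∀ p : V × V, p.1 ≠ p.2 →
      kappa G p.1 p.2 + (if p.1 ∈ C ∧ p.2 ∈ TZ G C then 1 else 0)
        + (if p.1 ∈ TZ G C ∧ p.2 ∈ C then 1 else 0) ≤
      (if p.1 ∈ P ∧ p.2 ∈ P then 1 else 0) + (if p.1 ∈ C ∧ p.2 ∈ C then 1 else 0) +
        ∑ k ∈ Icc 3 D, if p.1 ∈ A k ∧ p.2 ∈ A k then 1 else 0 := by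
    rintro ⟨u, v⟩ huv
    dsimp only at huv ⊢
    have hTZP : ∀ x, x ∈ TZ G C → x ∈ P := by
      intro x hx
      have := (mem_filter.1 hx).2.2
      rw [hd] at this
      rw [hP, mem_filter]
      exact ⟨mem_univ _, by omega⟩
    by_cases hu : u ∈ C
    · by_cases hv : v ∈ C
      · have h1 := hCC u hu v hv huv
        have h2 := hCC v hv u hu huv.symm
        rw [kappa_comm] at h2
        have h3 : v ∉ TZ G C := Finset.disjoint_left.1 hdisj hv
        have h4 : u ∉ TZ G C := Finset.disjoint_left.1 hdisj hu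
        have h5 := min_le_sum D (e u) (e v) (hC2 u hu) (hC2 v hv) ((hed u).trans (hD u))
        have h6 : ∀ k, (u ∈ A k ∧ v ∈ A k) ↔ (k ≤ e u ∧ k ≤ e v) := by
          intro k
          simp only [hA, mem_filter, hu, hv, true_and]
        simp only [h6, hu, hv, h3, h4, hCP hu, hCP hv, and_self, and_false, false_and,
          if_true, if_false]
        have h7 : kappa G u v ≤ min (e u) (e v) := le_min h1 h2
        omega
      · by_cases hv2 : v ∈ TZ G C
        · have h1 : kappa G u v = 0 := by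
            apply kappa_not_reachable
            intro h
            exact (mem_filter.1 hv2).2.1 ⟨u, hu, h.symm⟩
          have h4 : u ∉ TZ G C := Finset.disjoint_left.1 hdisj hu
          simp only [h1, hu, hv, hv2, h4, hCP hu, hTZP v hv2, and_self, and_false, false_and,
            if_true, if_false]
          omega
        · have h4 : u ∉ TZ G C := Finset.disjoint_left.1 hdisj hu
          by_cases hv3 : d v = 0
          · have h1 : kappa G u v = 0 := by
              rw [kappa_comm]
              exact cnt_kappa_isolated huv.symm (by rw [hd]; exact hv3)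
            simp only [h1, hv2, h4, and_false, false_and, if_false]
            exact Nat.zero_le _
          · have h1 : kappa G u v ≤ 1 := by
              rw [kappa_comm]
              exact hC1 v u huv.symm hv
            have h5 : v ∈ P := by
              rw [hP, mem_filter]
              exact ⟨mem_univ _, by omega⟩
            simp only [hv2, h4, h5, hCP hu, and_self, and_false, false_and, if_true, if_false]
            omega
    · by_cases hv : v ∈ C
      · have h4 : v ∉ TZ G C := Finset.disjoint_left.1 hdisj hv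
        by_cases hu2 : u ∈ TZ G C
        · have h1 : kappa G u v = 0 := by
            apply kappa_not_reachable
            intro h
            exact (mem_filter.1 hu2).2.1 ⟨v, hv, h⟩
          simp only [h1, hu, hv, hu2, h4, hCP hv, hTZP u hu2, and_self, and_false, false_and,
            if_true, if_false]
          omega
        · by_cases hu3 : d u = 0
          · have h1 : kappa G u v = 0 := cnt_kappa_isolated huv (by rw [hd]; exact hu3)
            simp only [h1, hu2, h4, and_false, false_and, if_false]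
            exact Nat.zero_le _
          · have h1 : kappa G u v ≤ 1 := hC1 u v huv hu
            have h5 : u ∈ P := by
              rw [hP, mem_filter]
              exact ⟨mem_univ _, by omega⟩
            simp only [hu2, h4, h5, hCP hv, and_self, and_false, false_and, if_true, if_false]
            omega
      · simp only [hu, hv, false_and, and_false, if_false]
        by_cases hu3 : d u = 0
        · have h1 : kappa G u v = 0 := cnt_kappa_isolated huv (by rw [hd]; exact hu3)
          rw [h1]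
          exact Nat.zero_le _
        · by_cases hv3 : d v = 0
          · have h1 : kappa G u v = 0 := by
              rw [kappa_comm]
              exact cnt_kappa_isolated huv.symm (by rw [hd]; exact hv3)
            rw [h1]
            exact Nat.zero_le _
          · have h1 : kappa G u v ≤ 1 := hC1 u v huv hu
            have h5 : u ∈ P := by
              rw [hP, mem_filter]
              exact ⟨mem_univ _, by omega⟩
            have h6 : v ∈ P := by
              rw [hP, mem_filter]
              exact ⟨mem_univ _, by omega⟩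
            simp only [h5, h6, and_self, if_true]
            omega
  -- sum over all ordered pairs
  have hsum : ∑ p : V × V with p.1 ≠ p.2, kappa G p.1 p.2 + 2 * (#(TZ G C) * #C) ≤
      #P * (#P - 1) + #C * (#C - 1) + ∑ k ∈ Icc 3 D, #(A k) * (#(A k) - 1) := by
    have h1 := sum_le_sum (s := ({p : V × V | p.1 ≠ p.2} : Finset (V × V)))
      (fun p hp => hpt p (mem_filter.1 hp).2)
    rw [sum_add_distrib, sum_add_distrib, sum_add_distrib, sum_add_distrib, cnt_sum_ind, cnt_sum_ind,
      cnt_sum_ind_cross _ _ hdisj, cnt_sum_ind_cross _ _ hdisj.symm, sum_comm] at h1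
    simp only [cnt_sum_ind] at h1
    rw [mul_comm (#C) (#(TZ G C))] at h1
    omega
  -- the two sequences
  have hcount := count_edges G C
  have hPcard : #P = #C + #(TO G C) + #(TZ G C) := by
    have hdu : Disjoint (C ∪ TO G C) (TZ G C) := by
      rw [Finset.disjoint_left]
      intro x hx hx2
      rcases mem_union.1 hx with h | h
      · exact Finset.disjoint_left.1 hdisj h hx2
      · exact (mem_filter.1 hx2).2.1 (mem_filter.1 h).2.2
    have hdu2 : Disjoint C (TO G C) := by
      rw [Finset.disjoint_left]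
      intro x hx hx2
      exact (mem_filter.1 hx2).2.1 hx
    rw [← card_union_of_disjoint hdu2, ← card_union_of_disjoint hdu]
    congr 1
    ext x
    simp only [hP, TO, TZ, mem_filter, mem_univ, true_and, mem_union]
    constructor
    · intro hx
      by_cases h1 : x ∈ C
      · exact Or.inl (Or.inl h1)
      · by_cases h2 : Rc G C x
        · exact Or.inl (Or.inr ⟨h1, h2⟩)
        · exact Or.inr ⟨h2, by rw [hd]; omega⟩
    · rintro ((h | h) | h)
      · have := hCP h
        rw [hP, mem_filter] at this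
        exact this.2
      · obtain ⟨h1, c, hc, hr⟩ := h
        have hxc : x ≠ c := fun h => h1 (h ▸ hc)
        obtain ⟨w⟩ := hr
        cases w with
        | nil => exact absurd rfl hxc
        | cons hadj w' =>
          rename_i y
          have : 0 < deg G x := by
            rw [cnt_deg_eq]
            exact card_pos.2 ⟨y, mem_filter.2 ⟨mem_univ _, hadj⟩⟩
          rw [hd] at this
          exact this
      · have := h.2
        rw [hd] at this
        omega
  have hC_n2 : #C ≤ cnt d 2 := by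
    unfold cnt
    apply card_le_card
    intro u hu
    rw [mem_filter]
    exact ⟨mem_univ _, (hC2 u hu).trans (hed u)⟩
  have hn21 : cnt d 2 ≤ cnt d 1 := by
    unfold cnt
    apply card_le_card
    intro u hu
    rw [mem_filter] at hu ⊢
    exact ⟨mem_univ _, by omega⟩
  -- `S_k - S_(k+1) = n_k`
  have hS : ∀ k, ∑ i, (d i + 1 - k) = ∑ i, (d i + 1 - (k + 1)) + cnt d k := by
    intro k
    unfold cnt
    rw [card_filter, ← sum_add_distrib]
    refine sum_congr rfl fun i _ => ?_
    split_ifs <;> omega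
  have hS1 : ∑ i, (d i + 1 - 1) = ∑ i, d i := by
    refine sum_congr rfl fun i _ => ?_
    omega
  have hA2 : ∀ k, #(A k) ≤ cnt d k := by
    intro k
    unfold cnt
    apply card_le_card
    intro u hu
    rw [mem_filter] at hu ⊢
    exact ⟨mem_univ _, hu.2.trans (hed u)⟩
  have hAmono : ∀ k, #(A (k + 1)) ≤ #(A k) := by
    intro k
    apply card_le_card
    intro u hu
    rw [mem_filter] at hu ⊢
    exact ⟨hu.1, by omega⟩
  have hAD : ∀ k, D < k → #(A k) = 0 := by
    intro k hk
    rw [card_eq_zero, hA, filter_eq_empty_iff]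
    intro u _ h
    have := hed u
    have := hD u
    omega
  -- sum of all a_k
  have hAsum : ∀ n, ∑ j ∈ range n, #(A (j + 3)) + 2 * #C ≤ ∑ u ∈ C, e u := by
    intro n
    have h1 : ∀ j, #(A (j + 3)) = ∑ u ∈ C, if j + 3 ≤ e u then 1 else 0 := by
      intro j
      rw [hA, card_filter]
    simp only [h1]
    rw [sum_comm, card_eq_sum_ones, mul_sum, ← sum_add_distrib]
    refine sum_le_sum fun u hu => ?_
    rw [sum_boole, Nat.cast_id]
    have h2 := hC2 u hu
    have h3 : ({j ∈ range n | j + 3 ≤ e u} : Finset ℕ) ⊆ range (e u - 2) := by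
      intro j hj
      rw [mem_filter] at hj
      rw [mem_range]
      omega
    have h4 := card_le_card h3
    rw [card_range] at h4
    simp only [he] at h4 ⊢
    omega
  have htl : ∀ n, ∑ j ∈ range n, (tl d (j + 3) - tl d (j + 3 + 1)) + tl d (n + 3) = tl d 3 := by
    intro n
    induction n with
    | zero => simp
    | succ n ih =>
      rw [sum_range_succ]
      have : tl d (n + 3 + 1) ≤ tl d (n + 3) := by
        unfold tl
        have := hS (n + 3)
        omega
      rw [show n + 1 + 3 = n + 3 + 1 from by ring]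
      omega
  have hcn : ∀ n, ∑ j ∈ range n, cnt d (j + 3) + ∑ i, (d i + 1 - (n + 3))
      = ∑ i, (d i + 1 - 3) := by
    intro n
    induction n with
    | zero => simp
    | succ n ih =>
      rw [sum_range_succ]
      have := hS (n + 3)
      rw [show n + 1 + 3 = n + 3 + 1 from by ring]
      omega
  have hpart : ∀ n, ∑ j ∈ range n, #(A (j + 3)) ≤
      ∑ j ∈ range n, (tl d (j + 3) - tl d (j + 3 + 1)) + #(TZ G C) := by
    intro n
    have h1 := htl n
    have h2 := hAsum n
    have h3 := hcn n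
    have h4 : ∑ j ∈ range n, #(A (j + 3)) ≤ ∑ j ∈ range n, cnt d (j + 3) :=
      sum_le_sum fun j _ => hA2 _
    have h5 := hS 1
    have h6 := hS 2
    simp only [Nat.reduceAdd] at h5 h6
    rw [hS1] at h5
    have h7 : ∑ v, deg G v = ∑ v, d v := sum_congr rfl fun v _ => hd v
    rw [h7] at hcount
    have h8 : tl d 3 = ∑ i, (d i + 1 - 3) - (cnt d 1 - cnt d 2) := rfl
    have h9 : tl d (n + 3) = ∑ i, (d i + 1 - (n + 3)) - (cnt d 1 - cnt d 2) := rfl
    simp only [he] at h2
    omega
  -- Abel summation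
  have habel := abel_nat (fun j => #(A (j + 3))) (fun j => tl d (j + 3) - tl d (j + 3 + 1))
    (#(TZ G C)) (D - 2) (fun k => by
      have := hAmono (k + 3)
      rw [show k + 3 + 1 = k + 1 + 3 from by ring] at this
      exact this) (hAD _ (by omega)) hpart
  have hre : ∀ f : ℕ → ℕ, ∑ k ∈ Icc 3 D, f k = ∑ j ∈ range (D - 2), f (j + 3) := by
    intro f
    have : Icc 3 D = Ico 3 (D + 1) := by
      ext k
      rw [mem_Icc, mem_Ico]
      omega
    rw [this, sum_Ico_eq_sum_range, show D + 1 - 3 = D - 2 from by omega]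
    refine sum_congr rfl fun j _ => ?_
    rw [add_comm]
  rw [hre] at hsum ⊢
  have hA3 : #(A (0 + 3)) ≤ #C := card_le_card (filter_subset _ _)
  have h1 : #(TZ G C) * #(A (0 + 3)) ≤ #(TZ G C) * #C := Nat.mul_le_mul_left _ hA3
  have h2 : #C * (#C - 1) ≤ cnt d 2 * (cnt d 2 - 1) :=
    Nat.mul_le_mul hC_n2 (by omega)
  rw [hcard1] at hsum
  omega

end Pool.Agent.AvgConn
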