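import Pool.Agent.Work.MP_88992e_co.SqDefs
import Pool.Agent.Work.MP_88992e_co.Base3

/-!
# A criterion for the cut condition
-/

namespace Pool.Agent.AvgConn

open Finset
open scoped Classical

universe u

variable {V : Type u} [Fintype V]

/-- among more than `#N` pairwise disjoint sets one misses `N` -/
lemma exists_miss {S N : Finset V} {F : V → Finset V}
    (hF : ∀ y ∈ S, ∀ z ∈ S, y ≠ z → Disjoint (F y) (F z)) (hc : #N < #S) :
    ∃ y ∈ S, ∀ x ∈ F y, x ∉ N := by
  by_contra hcon
  push Not at hcon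
  have h1 : ∀ y ∈ S, ∃ x, x ∈ F y ∧ x ∈ N := hcon
  choose! f hf1 hf2 using h1
  have : #S ≤ #N := by
    refine card_le_card_of_injOn f (fun y hy => hf2 y hy) ?_
    intro y hy z hz hyz
    by_contra hne
    have hd := hF y hy z hz hne
    rw [disjoint_left] at hd
    refine hd (hf1 y hy) ?_
    have := hf1 z hz
    rwa [← hyz] at this
  omega

variable {L : ℕ} [NeZero L]

theorem good_of_tails {seg : V → ZMod L} {G : SimpleGraph V} (hlk : ∀ i, Lk G (sg seg i))
    (hfar : ∀ i j : ZMod L, far i j → ∃ u v, seg u = i ∧ seg v = j ∧ G.Adj u v)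
    (T : V → V → Finset V) (h1 : ∀ u y, G.Adj u y → y ∈ T u y ∧ u ∉ T u y ∧ Lk G (T u y) ∧
      ∃ i, sg seg i ⊆ T u y)
    (h2 : ∀ u y z, G.Adj u y → G.Adj u z → y ≠ z → Disjoint (T u y) (T u z))
    (hL : ∀ u, deg G u + 6 ≤ L) : Good G (deg G) := by
  intro u v huv A huA hvA hcond
  by_contra hlt
  push Not at hlt
  have hltu : #(nb G A) < deg G u := lt_of_lt_of_le hlt (min_le_left _ _)
  have hltv : #(nb G A) < deg G v := lt_of_lt_of_le hlt (min_le_right _ _)
  -- a segment inside `A`
  have hin : ∃ i, ∀ x ∈ sg seg i, x ∈ A ∧ x ∉ nb G A := by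
    obtain ⟨y, hy, hmiss⟩ := exists_miss (S := ({w | G.Adj u w} : Finset V)) (N := nb G A)
      (F := T u) (by
        intro y hy z hz hyz
        exact h2 u y z (by simpa using hy) (by simpa using hz) hyz) (by rwa [← deg_eq])
    have hy' : G.Adj u y := by simpa using hy
    obtain ⟨hyT, -, hlkT, i, hi⟩ := h1 u y hy'
    have hyA : y ∈ A := by
      by_contra hyA
      exact hmiss y hyT (mem_nb.2 ⟨hyA, u, huA, hy'⟩)
    have hsub := hlkT A ⟨y, hyT, hyA⟩ hmiss
    exact ⟨i, fun x hx => ⟨hsub (hi hx), hmiss x (hi hx)⟩⟩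
  -- a segment outside
  have hout : ∃ j, ∀ x ∈ sg seg j, x ∉ A ∧ x ∉ nb G A := by
    have hz : ∃ z, G.Adj v z ∧ z ≠ u ∧ ∀ x ∈ T v z, x ∉ nb G A := by
      by_cases hadj : G.Adj v u
      · have hvN : v ∈ nb G A := mem_nb.2 ⟨hvA, u, huA, hadj.symm⟩
        obtain ⟨z, hz, hmiss⟩ := exists_miss (S := (({w | G.Adj v w} : Finset V)).erase u)
          (N := (nb G A).erase v) (F := T v) (by
            intro y hy z hz hyz
            exact h2 v y z (by simpa using mem_of_mem_erase hy)
              (by simpa using mem_of_mem_erase hz) hyz) (by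
            rw [card_erase_of_mem hvN, card_erase_of_mem (by simpa using hadj), ← deg_eq]
            have : 0 < #(nb G A) := card_pos.2 ⟨v, hvN⟩
            omega)
        obtain ⟨hzu, hz'⟩ := mem_erase.1 hz
        have hz'' : G.Adj v z := by simpa using hz'
        refine ⟨z, hz'', hzu, ?_⟩
        intro x hx hxN
        refine hmiss x hx (mem_erase.2 ⟨?_, hxN⟩)
        rintro rfl
        exact (h1 x z hz'').2.1 hx
      · obtain ⟨z, hz, hmiss⟩ := exists_miss (S := ({w | G.Adj v w} : Finset V)) (N := nb G A)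
          (F := T v) (by
            intro y hy z hz hyz
            exact h2 v y z (by simpa using hy) (by simpa using hz) hyz) (by rwa [← deg_eq])
        have hz' : G.Adj v z := by simpa using hz
        refine ⟨z, hz', ?_, hmiss⟩
        rintro rfl
        exact hadj hz'
    obtain ⟨z, hvz, hzu, hmiss⟩ := hz
    obtain ⟨hzT, -, hlkT, j, hj⟩ := h1 v z hvz
    have hzA : z ∉ A := fun hzA => hzu (hcond z hzA hvz.symm)
    refine ⟨j, fun x hx => ⟨fun hxA => hzA ?_, hmiss x (hj hx)⟩⟩
    exact hlkT A ⟨x, hj hx, hxA⟩ hmiss hzT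
  -- the three kinds of segments
  set P : Finset (ZMod L) := {i | ∀ x ∈ sg seg i, x ∈ A ∧ x ∉ nb G A} with hP
  set Q : Finset (ZMod L) := {i | ∀ x ∈ sg seg i, x ∉ A ∧ x ∉ nb G A} with hQ
  have hfar' : ∀ p ∈ P, ∀ q ∈ Q, ¬ far p q := by
    intro p hp q hq hpq
    simp only [hP, mem_filter, mem_univ, true_and] at hp
    simp only [hQ, mem_filter, mem_univ, true_and] at hq
    obtain ⟨a, b, ha, hb, hab⟩ := hfar p q hpq
    have haA := (hp a (by simpa [sg] using ha)).1
    have hb' := hq b (by simpa [sg] using hb)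
    exact hb'.2 (mem_nb.2 ⟨hb'.1, a, haA, hab⟩)
  obtain ⟨i, hi⟩ := hin
  obtain ⟨j, hj⟩ := hout
  have hiP : i ∈ P := by simpa [hP] using hi
  have hjQ : j ∈ Q := by simpa [hQ] using hj
  have hQc : #Q ≤ 3 := by
    refine (card_le_card (t := {i, i + 1, i - 1}) ?_).trans card_le_three
    intro q hq
    have := hfar' i hiP q hq
    unfold far at this
    simp only [mem_insert, mem_singleton]
    by_contra hcon
    push Not at hcon
    refine this ⟨hcon.1, hcon.2.1, fun h => hcon.2.2 ?_⟩
    rw [h]
    ring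
  have hPc : #P ≤ 3 := by
    refine (card_le_card (t := {j, j + 1, j - 1}) ?_).trans card_le_three
    intro p hp
    have := hfar' p hp j hjQ
    unfold far at this
    simp only [mem_insert, mem_singleton]
    by_contra hcon
    push Not at hcon
    refine this ⟨Ne.symm hcon.1, fun h => hcon.2.2 ?_, hcon.2.1⟩
    rw [h]
    ring
  -- every other segment meets `nb G A`
  have hcov : (univ : Finset (ZMod L)) ⊆ (P ∪ Q) ∪ (nb G A).image seg := by
    intro k _
    by_cases hk : k ∈ (nb G A).image seg
    · exact mem_union_right _ hk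
    · apply mem_union_left
      have hkN : ∀ x ∈ sg seg k, x ∉ nb G A := by
        intro x hx hxN
        apply hk
        rw [mem_image]
        exact ⟨x, hxN, by simpa [sg] using hx⟩
      by_cases hkA : ∃ x ∈ sg seg k, x ∈ A
      · apply mem_union_left
        have hsub := hlk k A hkA hkN
        simp only [hP, mem_filter, mem_univ, true_and]
        exact fun x hx => ⟨hsub hx, hkN x hx⟩
      · apply mem_union_right
        push Not at hkA
        simp only [hQ, mem_filter, mem_univ, true_and]
        exact fun x hx => ⟨hkA x hx, hkN x hx⟩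
  have hcard := card_le_card hcov
  rw [card_univ, ZMod.card] at hcard
  have h5 := card_union_le (P ∪ Q) ((nb G A).image seg)
  have h6 := card_union_le P Q
  have h7 : #((nb G A).image seg) ≤ #(nb G A) := card_image_le
  have h8 := hL u
  omega

end Pool.Agent.AvgConn
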