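import Pool.Agent.Work.MP_88992e_co.SqDefs

/-!
# A criterion for the cut condition, with hubs
-/

namespace Pool.Agent.AvgConn

open Finset
open scoped Classical

universe u

/-- among more than `#N` pairwise disjoint sets one misses `N` -/
lemma exists_unhit {ι V : Type*} {S : Finset ι} {N : Finset V} {F : ι → Finset V}
    (hF : ∀ y ∈ S, ∀ z ∈ S, y ≠ z → Disjoint (F y) (F z)) (hc : #N < #S) :
    ∃ y ∈ S, ∀ x ∈ F y, x ∉ N := by
  by_contra hcon
  push Not at hcon
  have h1 : ∀ y ∈ S, ∃ x, x ∈ F y ∧ x ∈ N := hcon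
  obtain ⟨y₀, hy₀⟩ := card_pos.1 (lt_of_le_of_lt (Nat.zero_le _) hc)
  obtain ⟨x₀, -⟩ := h1 y₀ hy₀
  have : Nonempty V := ⟨x₀⟩
  choose! f hf1 hf2 using h1
  have : #S ≤ #N := by
    refine card_le_card_of_injOn f (fun y hy => hf2 y hy) ?_
    intro y hy z hz hyz
    by_contra hne
    have hd := hF y hy z hz hne
    rw [disjoint_left] at hd
    refine hd (hf1 y hy) ?_
    have := hf1 z hz
    rwa [← hyz] at this
  omega

/-- a side of a small cut contains one of the sets `Q i` -/
lemma exists_inside {V : Type u} [Fintype V] {L : ℕ} [NeZero L] {G : SimpleGraph V}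
    {t : ℕ} {hub : V → Prop} {Q : ZMod L → Finset V} (hQ : ∀ i j, i ≠ j → Disjoint (Q i) (Q j))
    (hlk : ∀ i, Lk G (Q i)) {T : V → V → Finset V}
    (h1 : ∀ u y, ¬ hub u → G.Adj u y → y ∈ T u y ∧ u ∉ T u y ∧ Lk G (T u y) ∧
      ((∃ i, Q i ⊆ T u y) ∨ ∃ a ∈ T u y, hub a))
    (h2 : ∀ u y z, ¬ hub u → G.Adj u y → G.Adj u z → y ≠ z → Disjoint (T u y) (T u z))
    (hhub : ∀ a, hub a → t ≤ #{i : ZMod L | ∃ y ∈ Q i, G.Adj a y})
    {A : Finset V} {w : V} (hw : w ∈ A) (ht : #(nb G A) < t) (hd : #(nb G A) < deg G w) :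
    ∃ i, Q i ⊆ A ∧ ∀ x ∈ Q i, x ∉ nb G A := by
  have key : ∀ a ∈ A, hub a → ∃ i, Q i ⊆ A ∧ ∀ x ∈ Q i, x ∉ nb G A := by
    intro a haA ha
    obtain ⟨i, hi, hmiss⟩ := exists_unhit (S := ({i : ZMod L | ∃ y ∈ Q i, G.Adj a y} :
      Finset (ZMod L))) (N := nb G A) (F := Q) (fun y _ z _ hyz => hQ y z hyz)
      (lt_of_lt_of_le ht (hhub a ha))
    obtain ⟨y, hyQ, hay⟩ : ∃ y ∈ Q i, G.Adj a y := by simpa using hi
    have hyA : y ∈ A := by
      by_contra hyA
      exact hmiss y hyQ (mem_nb.2 ⟨hyA, a, haA, hay⟩)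
    exact ⟨i, hlk i A ⟨y, hyQ, hyA⟩ hmiss, hmiss⟩
  by_cases hhw : hub w
  · exact key w hw hhw
  · obtain ⟨y, hy, hmiss⟩ := exists_unhit (S := ({z | G.Adj w z} : Finset V)) (N := nb G A)
      (F := T w) (by
        intro y hy z hz hyz
        exact h2 w y z hhw (by simpa using hy) (by simpa using hz) hyz) (by rwa [← deg_eq])
    have hy' : G.Adj w y := by simpa using hy
    obtain ⟨hyT, -, hlkT, h3⟩ := h1 w y hhw hy'
    have hyA : y ∈ A := by
      by_contra hyA
      exact hmiss y hyT (mem_nb.2 ⟨hyA, w, hw, hy'⟩)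
    have hsub := hlkT A ⟨y, hyT, hyA⟩ hmiss
    rcases h3 with ⟨i, hi⟩ | ⟨a, haT, ha⟩
    · exact ⟨i, hi.trans hsub, fun x hx => hmiss x (hi hx)⟩
    · exact key a (hsub haT) ha

theorem good_of_tails_hubs {V : Type u} [Fintype V] {L : ℕ} [NeZero L] {G : SimpleGraph V}
    (t : ℕ) (hub : V → Prop) (Q : ZMod L → Finset V) (hQ : ∀ i j, i ≠ j → Disjoint (Q i) (Q j))
    (hlk : ∀ i, Lk G (Q i))
    (hfar : ∀ i j : ZMod L, far i j → ∃ u ∈ Q i, ∃ v ∈ Q j, G.Adj u v)
    (T : V → V → Finset V)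
    (h1 : ∀ u y, ¬ hub u → G.Adj u y → y ∈ T u y ∧ u ∉ T u y ∧ Lk G (T u y) ∧
      ((∃ i, Q i ⊆ T u y) ∨ ∃ a ∈ T u y, hub a))
    (h2 : ∀ u y z, ¬ hub u → G.Adj u y → G.Adj u z → y ≠ z → Disjoint (T u y) (T u z))
    (hdeg : ∀ u, ¬ hub u → deg G u ≤ t) (hL : t + 6 ≤ L)
    (hhub : ∀ a, hub a → t ≤ #{i : ZMod L | ∃ y ∈ Q i, G.Adj a y})
    (hpair : ∀ a b, hub a → hub b → a ≠ b → Perf G a b (min (deg G a) (deg G b))) :
    Good G (deg G) := by
  intro u v huv A huA hvA hcond
  by_contra hlt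
  push Not at hlt
  have hltu : #(nb G A) < deg G u := lt_of_lt_of_le hlt (min_le_left _ _)
  have hltv : #(nb G A) < deg G v := lt_of_lt_of_le hlt (min_le_right _ _)
  have ht : #(nb G A) < t := by
    by_cases hu : hub u
    · by_cases hv : hub v
      · exact absurd (hpair u v hu hv huv A huA hvA hcond) (not_le.2 hlt)
      · exact lt_of_lt_of_le hltv (hdeg v hv)
    · exact lt_of_lt_of_le hltu (hdeg u hu)
  -- the other side
  set B : Finset V := {y | (y ∉ A ∧ y ∉ nb G A) ∨ y = v} with hB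
  have hvB : v ∈ B := by simp [hB]
  have hBA : ∀ y ∈ B, y ∉ A := by
    intro y hy
    simp only [hB, mem_filter, mem_univ, true_and] at hy
    rcases hy with h | h
    · exact h.1
    · rw [h]
      exact hvA
  have hnB : #(nb G B) ≤ #(nb G A) := by
    by_cases hadj : G.Adj u v
    · have hvN : v ∈ nb G A := mem_nb.2 ⟨hvA, u, huA, hadj⟩
      have hsub : nb G B ⊆ insert u ((nb G A).erase v) := by
        intro y hy
        obtain ⟨h3, a, ha, h4⟩ := mem_nb.1 hy
        simp only [hB, mem_filter, mem_univ, true_and, not_or, not_and, not_not] at h3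
        obtain ⟨h5, h6⟩ := h3
        by_cases hyA : y ∈ A
        · simp only [hB, mem_filter, mem_univ, true_and] at ha
          rcases ha with ⟨h7, h8⟩ | h7
          · exact absurd (mem_nb.2 ⟨h7, y, hyA, h4.symm⟩) h8
          · subst h7
            rw [hcond y hyA h4.symm]
            exact mem_insert_self _ _
        · exact mem_insert_of_mem (mem_erase.2 ⟨h6, h5 hyA⟩)
      refine (card_le_card hsub).trans ((card_insert_le _ _).trans ?_)
      rw [card_erase_of_mem hvN]
      have : 0 < #(nb G A) := card_pos.2 ⟨v, hvN⟩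
      omega
    · apply card_le_card
      intro y hy
      obtain ⟨h3, a, ha, h4⟩ := mem_nb.1 hy
      simp only [hB, mem_filter, mem_univ, true_and, not_or, not_and, not_not] at h3
      obtain ⟨h5, h6⟩ := h3
      by_cases hyA : y ∈ A
      · simp only [hB, mem_filter, mem_univ, true_and] at ha
        rcases ha with ⟨h7, h8⟩ | h7
        · exact absurd (mem_nb.2 ⟨h7, y, hyA, h4.symm⟩) h8
        · subst h7
          rw [hcond y hyA h4.symm] at h4
          exact absurd h4.symm hadj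
      · exact h5 hyA
  obtain ⟨i, hiA, hiN⟩ := exists_inside hQ hlk h1 h2 hhub huA ht hltu
  obtain ⟨j, hjB, -⟩ := exists_inside hQ hlk h1 h2 hhub hvB (lt_of_le_of_lt hnB ht)
    (lt_of_le_of_lt hnB hltv)
  -- the two kinds of unhit sets
  set P : Finset (ZMod L) := {k | Q k ⊆ A ∧ ∀ x ∈ Q k, x ∉ nb G A} with hP
  set R : Finset (ZMod L) := {k | (∀ x ∈ Q k, x ∉ A) ∧ ∀ x ∈ Q k, x ∉ nb G A} with hR
  have hRc : #R ≤ 3 := by
    refine (card_le_card (t := {i, i + 1, i - 1}) ?_).trans card_le_three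
    intro k hk
    simp only [hR, mem_filter, mem_univ, true_and] at hk
    simp only [mem_insert, mem_singleton]
    by_contra hcon
    push Not at hcon
    obtain ⟨a, ha, b, hb, hab⟩ := hfar i k ⟨hcon.1, hcon.2.1, fun h => hcon.2.2 (by
      rw [h]
      ring)⟩
    exact hk.2 b hb (mem_nb.2 ⟨hk.1 b hb, a, hiA ha, hab⟩)
  have hkey : ∀ k ∈ P, far k j → u ∈ Q k ∧ v ∈ Q j ∧ v ∈ nb G A := by
    intro k hk hkj
    simp only [hP, mem_filter, mem_univ, true_and] at hk
    obtain ⟨a, ha, b, hb, hab⟩ := hfar k j hkj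
    have hbB := hjB hb
    have hbN : b ∈ nb G A := mem_nb.2 ⟨hBA b hbB, a, hk.1 ha, hab⟩
    simp only [hB, mem_filter, mem_univ, true_and] at hbB
    have hbv : b = v := by
      rcases hbB with h | h
      · exact absurd hbN h.2
      · exact h
    subst hbv
    have hau := hcond a (hk.1 ha) hab
    subst hau
    exact ⟨ha, hb, hbN⟩
  have hPc : #P ≤ 3 := by
    by_cases hex : ∃ k ∈ P, far k j
    · obtain ⟨k₀, hk₀, hk₀j⟩ := hex
      obtain ⟨hu, hv, hvN⟩ := hkey k₀ hk₀ hk₀j
      refine (card_le_card (t := {k₀, j + 1, j - 1}) ?_).trans card_le_three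
      intro k hk
      simp only [mem_insert, mem_singleton]
      by_contra hcon
      push Not at hcon
      have hkj : k ≠ j := by
        rintro rfl
        simp only [hP, mem_filter, mem_univ, true_and] at hk
        exact hk.2 v hv hvN
      have h3 := hkey k hk ⟨hkj.symm, fun h => hcon.2.2 (by
        rw [h]
        ring), hcon.2.1⟩
      have h4 := hQ k k₀ hcon.1
      rw [disjoint_left] at h4
      exact h4 h3.1 hu
    · push Not at hex
      refine (card_le_card (t := {j, j + 1, j - 1}) ?_).trans card_le_three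
      intro k hk
      simp only [mem_insert, mem_singleton]
      by_contra hcon
      push Not at hcon
      exact hex k hk ⟨Ne.symm hcon.1, fun h => hcon.2.2 (by
        rw [h]
        ring), hcon.2.1⟩
  -- every other set meets `nb G A`
  set H : Finset (ZMod L) := {k | ∃ x ∈ Q k, x ∈ nb G A} with hH
  have hHc : #H ≤ #(nb G A) := by
    by_contra hcon
    push Not at hcon
    obtain ⟨k, hk, hmiss⟩ := exists_unhit (S := H) (N := nb G A) (F := Q)
      (fun y _ z _ hyz => hQ y z hyz) hcon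
    simp only [hH, mem_filter, mem_univ, true_and] at hk
    obtain ⟨x, hx, hxN⟩ := hk
    exact hmiss x hx hxN
  have hcov : (univ : Finset (ZMod L)) ⊆ (P ∪ R) ∪ H := by
    intro k _
    by_cases hk : k ∈ H
    · exact mem_union_right _ hk
    · apply mem_union_left
      simp only [hH, mem_filter, mem_univ, true_and, not_exists, not_and] at hk
      by_cases hkA : ∃ x ∈ Q k, x ∈ A
      · apply mem_union_left
        simp only [hP, mem_filter, mem_univ, true_and]
        exact ⟨hlk k A hkA hk, hk⟩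
      · apply mem_union_right
        push Not at hkA
        simp only [hR, mem_filter, mem_univ, true_and]
        exact ⟨hkA, hk⟩
  have hcard := card_le_card hcov
  rw [card_univ, ZMod.card] at hcard
  have h5 := card_union_le (P ∪ R) H
  have h6 := card_union_le P R
  omega

end Pool.Agent.AvgConn
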