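import Pool.Agent.Work.MP_88992e_co.Circ
import Pool.Agent.Work.MP_88992e_co.Crit2

/-!
# A criterion for the cut condition, with hubs and edges between near segments
-/

namespace Pool.Agent.AvgConn

open Finset
open scoped Classical

universe u

/-- a vertex that is not a hub has a tail inside its side of a small cut -/
lemma exists_tail_inside {V : Type u} [Fintype V] {G : SimpleGraph V}
    {hub : V → Prop} {T : V → V → Finset V} {X : V → V → Prop}
    (h1 : ∀ u y, ¬ hub u → G.Adj u y → y ∈ T u y ∧ u ∉ T u y ∧ Lk G (T u y) ∧ X u y)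
    (h2 : ∀ u y z, ¬ hub u → G.Adj u y → G.Adj u z → y ≠ z → Disjoint (T u y) (T u z))
    {A : Finset V} {w : V} (hhw : ¬ hub w) (hw : w ∈ A) (hd : #(nb G A) < deg G w) :
    ∃ y, G.Adj w y ∧ T w y ⊆ A ∧ w ∉ T w y ∧ ∀ x ∈ T w y, x ∉ nb G A := by
  obtain ⟨y, hy, hmiss⟩ := exists_unhit (S := ({z | G.Adj w z} : Finset V)) (N := nb G A)
    (F := T w) (by
      intro y hy z hz hyz
      exact h2 w y z hhw (by simpa using hy) (by simpa using hz) hyz) (by rwa [← deg_eq])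
  have hy' : G.Adj w y := by simpa using hy
  obtain ⟨hyT, hwT, hlkT, -⟩ := h1 w y hhw hy'
  have hyA : y ∈ A := by
    by_contra hyA
    exact hmiss y hyT (mem_nb.2 ⟨hyA, w, hw, hy'⟩)
  exact ⟨y, hy', hlkT A ⟨y, hyT, hyA⟩ hmiss, hwT, hmiss⟩

theorem good_of_tails_circ {V : Type u} [Fintype V] {L : ℕ} [NeZero L] {G : SimpleGraph V}
    (t k : ℕ) (htk : t ≤ 2 * k) (hub : V → Prop) (Q : ZMod L → Finset V)
    (hQ : ∀ i j, i ≠ j → Disjoint (Q i) (Q j)) (hlk : ∀ i, Lk G (Q i))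
    (hnear : ∀ (i j : ZMod L) (p : ℕ), 1 ≤ p → p ≤ k → j = i + (p : ZMod L) →
      ∃ u ∈ Q i, ∃ v ∈ Q j, G.Adj u v)
    (T : V → V → Finset V)
    (h1 : ∀ u y, ¬ hub u → G.Adj u y → y ∈ T u y ∧ u ∉ T u y ∧ Lk G (T u y) ∧
      ((∃ i, Q i ⊆ T u y) ∨ ∃ a ∈ T u y, hub a))
    (h2 : ∀ u y z, ¬ hub u → G.Adj u y → G.Adj u z → y ≠ z → Disjoint (T u y) (T u z))
    (hdeg : ∀ u, ¬ hub u → deg G u ≤ t)
    (hhub : ∀ a, hub a → t ≤ #{i : ZMod L | ∃ y ∈ Q i, G.Adj a y})
    (hpair : ∀ a b, hub a → hub b → a ≠ b → Perf G a b (min (deg G a) (deg G b))) :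
    Good G (deg G) := by
  intro u v huv A huA hvA hcond
  by_contra hlt
  push Not at hlt
  have hltu : #(nb G A) < deg G u := lt_of_lt_of_le hlt (min_le_left _ _)
  have hltv : #(nb G A) < deg G v := lt_of_lt_of_le hlt (min_le_right _ _)
  have hnot : ¬ hub u ∨ ¬ hub v := by
    by_contra hcon
    push Not at hcon
    exact absurd (hpair u v hcon.1 hcon.2 huv A huA hvA hcond) (not_le.2 hlt)
  have ht : #(nb G A) < t := by
    rcases hnot with hu | hv
    · exact lt_of_lt_of_le hltu (hdeg u hu)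
    · exact lt_of_lt_of_le hltv (hdeg v hv)
  have hk : 1 ≤ k := by omega
  -- the other side
  set B : Finset V := {y | (y ∉ A ∧ y ∉ nb G A) ∨ y = v} with hB
  have hvB : v ∈ B := by simp [hB]
  have hBmem : ∀ y ∈ B, (y ∉ A ∧ y ∉ nb G A) ∨ y = v := by
    intro y hy
    simpa only [hB, mem_filter, mem_univ, true_and] using hy
  have hBA : ∀ y ∈ B, y ∉ A := by
    intro y hy
    rcases hBmem y hy with h | h
    · exact h.1
    · rw [h]
      exact hvA
  -- the only possible edge between the sides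
  have hE : ∀ a ∈ A, ∀ b ∈ B, G.Adj a b → a = u ∧ b = v := by
    intro a ha b hb hab
    rcases hBmem b hb with h | h
    · exact absurd (mem_nb.2 ⟨h.1, a, ha, hab⟩) h.2
    · rw [h] at hab ⊢
      exact ⟨hcond a ha hab, rfl⟩
  have hnB : #(nb G B) ≤ #(nb G A) := by
    have hcase : ∀ y ∈ nb G B, y ≠ v ∧ ((y ∈ A ∧ y = u ∧ G.Adj u v) ∨ y ∈ nb G A) := by
      intro y hy
      obtain ⟨h3, a, ha, h4⟩ := mem_nb.1 hy
      simp only [hB, mem_filter, mem_univ, true_and, not_or, not_and, not_not] at h3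
      obtain ⟨h5, h6⟩ := h3
      refine ⟨h6, ?_⟩
      by_cases hyA : y ∈ A
      · obtain ⟨h7, h8⟩ := hE y hyA a ha h4.symm
        subst h7 h8
        exact Or.inl ⟨hyA, rfl, h4.symm⟩
      · exact Or.inr (h5 hyA)
    by_cases hadj : G.Adj u v
    · have hvN : v ∈ nb G A := mem_nb.2 ⟨hvA, u, huA, hadj⟩
      have hsub : nb G B ⊆ insert u ((nb G A).erase v) := by
        intro y hy
        obtain ⟨h3, h4 | h4⟩ := hcase y hy
        · rw [h4.2.1]
          exact mem_insert_self _ _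
        · exact mem_insert_of_mem (mem_erase.2 ⟨h3, h4⟩)
      refine (card_le_card hsub).trans ((card_insert_le _ _).trans ?_)
      rw [card_erase_of_mem hvN]
      have : 0 < #(nb G A) := card_pos.2 ⟨v, hvN⟩
      omega
    · apply card_le_card
      intro y hy
      obtain ⟨h3, h4 | h4⟩ := hcase y hy
      · exact absurd h4.2.2 hadj
      · exact h4
  -- the segments
  have hne : ∀ i, (Q i).Nonempty := by
    intro i
    obtain ⟨a, ha, -⟩ := hnear i (i + ((1 : ℕ) : ZMod L)) 1 le_rfl hk rfl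
    exact ⟨a, ha⟩
  have hexcl : ∀ i, Q i ⊆ A → ¬ Q i ⊆ B := by
    intro i h3 h4
    obtain ⟨a, ha⟩ := hne i
    exact hBA a (h4 ha) (h3 ha)
  obtain ⟨i₁, hi₁, -⟩ := exists_inside hQ hlk h1 h2 hhub huA ht hltu
  obtain ⟨j₁, hj₁, -⟩ := exists_inside hQ hlk h1 h2 hhub hvB (lt_of_le_of_lt hnB ht)
    (lt_of_le_of_lt hnB hltv)
  -- the segments that meet `nb G A`
  set H : Finset (ZMod L) := {k | ∃ x ∈ Q k, x ∈ nb G A} with hH
  have hHc : #H ≤ #(nb G A) := by
    by_contra hcon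
    push Not at hcon
    obtain ⟨k, hk, hmiss⟩ := exists_unhit (S := H) (N := nb G A) (F := Q)
      (fun y _ z _ hyz => hQ y z hyz) hcon
    simp only [hH, mem_filter, mem_univ, true_and] at hk
    obtain ⟨x, hx, hxN⟩ := hk
    exact hmiss x hx hxN
  have hcov : ∀ i, ¬ Q i ⊆ A → ¬ Q i ⊆ B → i ∈ H := by
    intro i h3 h4
    by_contra hiH
    simp only [hH, mem_filter, mem_univ, true_and, not_exists, not_and] at hiH
    apply h4
    intro x hx
    simp only [hB, mem_filter, mem_univ, true_and]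
    refine Or.inl ⟨fun hxA => h3 (hlk i A ⟨x, hx, hxA⟩ hiH), hiH x hx⟩
  have hedge : ∀ i j, Q i ⊆ A → Q j ⊆ B →
      (∃ p : ℕ, 1 ≤ p ∧ p ≤ k ∧ (j = i + (p : ZMod L) ∨ i = j + (p : ZMod L))) →
      u ∈ Q i ∧ v ∈ Q j ∧ G.Adj u v := by
    rintro i j hi hj ⟨p, hp1, hp2, hp3 | hp3⟩
    · obtain ⟨a, ha, b, hb, hab⟩ := hnear i j p hp1 hp2 hp3
      obtain ⟨h3, h4⟩ := hE a (hi ha) b (hj hb) hab
      subst h3 h4
      exact ⟨ha, hb, hab⟩
    · obtain ⟨b, hb, a, ha, hab⟩ := hnear j i p hp1 hp2 hp3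
      obtain ⟨h3, h4⟩ := hE a (hi ha) b (hj hb) hab.symm
      subst h3 h4
      exact ⟨ha, hb, hab.symm⟩
  have huniq : ∀ x i j, x ∈ Q i → x ∈ Q j → i = j := by
    intro x i j hi hj
    by_contra hij
    exact (disjoint_left.1 (hQ i j hij)) hi hj
  obtain ⟨i₀, j₀, hi₀, hj₀, hp⟩ := circ_cut k (fun i => Q i ⊆ A) (fun i => Q i ⊆ B) hexcl
    ⟨i₁, hi₁⟩ ⟨j₁, hj₁⟩ (by
      refine lt_of_le_of_lt (card_le_card (t := H) ?_) (by omega)
      intro i hi
      simp only [mem_filter, mem_univ, true_and] at hi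
      exact hcov i hi.1 hi.2)
  obtain ⟨hu₀, hv₀, huvadj⟩ := hedge i₀ j₀ hi₀ hj₀ hp
  have hvN : v ∈ nb G A := mem_nb.2 ⟨hvA, u, huA, huvadj⟩
  have hj₀H : j₀ ∈ H := by
    simp only [hH, mem_filter, mem_univ, true_and]
    exact ⟨v, hv₀, hvN⟩
  -- only one segment on each side
  have hPonly : ∀ i, Q i ⊆ A → i = i₀ := by
    intro i hi
    by_contra hii
    obtain ⟨i', j', ⟨hi', hne'⟩, hj', hp'⟩ := circ_cut k (fun i => Q i ⊆ A ∧ i ≠ i₀)
      (fun i => Q i ⊆ B) (fun i hi => hexcl i hi.1) ⟨i, hi, hii⟩ ⟨j₁, hj₁⟩ (by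
        have hH0 : 0 < #H := card_pos.2 ⟨j₀, hj₀H⟩
        have h3 := card_insert_le i₀ (H.erase j₀)
        rw [card_erase_of_mem hj₀H] at h3
        refine lt_of_le_of_lt (card_le_card (t := insert i₀ (H.erase j₀)) ?_) (by omega)
        intro i hi
        simp only [mem_filter, mem_univ, true_and, not_and, not_not] at hi
        by_cases hiA : Q i ⊆ A
        · rw [hi.1 hiA]
          exact mem_insert_self _ _
        · refine mem_insert_of_mem (mem_erase.2 ⟨?_, hcov i hiA hi.2⟩)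
          rintro rfl
          exact hi.2 hj₀)
    exact hne' (huniq u i' i₀ (hedge i' j' hi' hj' hp').1 hu₀)
  have hRonly : ∀ j, Q j ⊆ B → j = j₀ := by
    intro j hj
    by_contra hjj
    obtain ⟨i', j', hi', ⟨hj', hne'⟩, hp'⟩ := circ_cut k (fun i => Q i ⊆ A)
      (fun i => Q i ⊆ B ∧ i ≠ j₀) (fun i hi h => hexcl i hi h.1) ⟨i₁, hi₁⟩ ⟨j, hj, hjj⟩ (by
        refine lt_of_le_of_lt (card_le_card (t := H) ?_) (by omega)
        intro i hi
        simp only [mem_filter, mem_univ, true_and, not_and, not_not] at hi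
        by_cases hiB : Q i ⊆ B
        · rw [hi.2 hiB]
          exact hj₀H
        · exact hcov i hi.1 hiB)
    exact hne' (huniq v j' j₀ (hedge i' j' hi' hj' hp').2.1 hv₀)
  -- a hub sees all segments
  have hLt : L ≤ t := by
    have hsub : (univ : Finset (ZMod L)) ⊆ insert i₀ H := by
      intro i _
      by_cases hiA : Q i ⊆ A
      · rw [hPonly i hiA]
        exact mem_insert_self _ _
      · apply mem_insert_of_mem
        by_cases hiB : Q i ⊆ B
        · rw [hRonly i hiB]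
          exact hj₀H
        · exact hcov i hiA hiB
    have h3 := (card_le_card hsub).trans (card_insert_le _ _)
    rw [card_univ, ZMod.card] at h3
    omega
  have hall : ∀ a, hub a → ∀ i, ∃ y ∈ Q i, G.Adj a y := by
    intro a ha i
    have h3 : #({i : ZMod L | ∃ y ∈ Q i, G.Adj a y} : Finset (ZMod L)) =
        Fintype.card (ZMod L) := by
      refine le_antisymm (card_le_univ _) ?_
      rw [ZMod.card]
      exact hLt.trans (hhub a ha)
    have h4 := (card_eq_iff_eq_univ _).1 h3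
    have h5 : i ∈ ({i : ZMod L | ∃ y ∈ Q i, G.Adj a y} : Finset (ZMod L)) := by
      rw [h4]
      exact mem_univ _
    simpa using h5
  rcases hnot with hu | hv
  · obtain ⟨y, hy, hTA, huT, -⟩ := exists_tail_inside h1 h2 hu huA hltu
    rcases (h1 u y hu hy).2.2.2 with ⟨i, hi⟩ | ⟨a, haT, ha⟩
    · rw [hPonly i (hi.trans hTA)] at hi
      exact huT (hi hu₀)
    · obtain ⟨z, hz, haz⟩ := hall a ha j₀
      obtain ⟨h3, -⟩ := hE a (hTA haT) z (hj₀ hz) haz
      rw [h3] at haT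
      exact huT haT
  · obtain ⟨y, hy, hTB, hvT, -⟩ := exists_tail_inside h1 h2 hv hvB (lt_of_le_of_lt hnB hltv)
    rcases (h1 v y hv hy).2.2.2 with ⟨j, hj⟩ | ⟨a, haT, ha⟩
    · rw [hRonly j (hj.trans hTB)] at hj
      exact hvT (hj hv₀)
    · obtain ⟨z, hz, haz⟩ := hall a ha i₀
      obtain ⟨-, h3⟩ := hE z (hi₀ hz) a (hTB haT) haz.symm
      rw [h3] at haT
      exact hvT haT

end Pool.Agent.AvgConn
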