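import Mathlib

/-!
# Average connectivity and degree sequences: definitions
-/

namespace Pool.Agent.AvgConn

open Finset
open scoped Classical

/-- the paths in `F` pairwise share no vertex other than the two ends -/
def IntDisj {V : Type*} {G : SimpleGraph V} {u v : V} (F : Finset (G.Path u v)) : Prop :=
  ∀ P ∈ F, ∀ Q ∈ F, P ≠ Q → ∀ x, x ∈ (P : G.Walk u v).support →
    x ∈ (Q : G.Walk u v).support → x = u ∨ x = v

/-- the largest size of a family of `u`-`v` paths that pairwise share no vertex other than
`u` and `v` -/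
noncomputable def kappa {V : Type*} (G : SimpleGraph V) (u v : V) : ℕ :=
  sSup {k | ∃ F : Finset (G.Path u v), F.card = k ∧ IntDisj F}

/-- the degree -/
noncomputable def deg {V : Type*} (G : SimpleGraph V) (v : V) : ℕ := (G.neighborSet v).ncard

/-- the average connectivity of a graph on `n` vertices -/
noncomputable def avgConn {n : ℕ} (G : SimpleGraph (Fin n)) : ℝ :=
  (∑ p : Fin n × Fin n with p.1 < p.2, (kappa G p.1 p.2 : ℝ)) / (n.choose 2 : ℝ)

/-- the number of entries of `d` that are at least `k` -/
noncomputable def cnt {V : Type*} [Fintype V] (d : V → ℕ) (k : ℕ) : ℕ := #{i | k ≤ d i}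

/-! ### Tools -/

section

variable {V : Type*} [Fintype V]

/-- the vertices outside `A` that are adjacent to a vertex of `A` -/
noncomputable def nb (G : SimpleGraph V) (A : Finset V) : Finset V :=
  {y | y ∉ A ∧ ∃ a ∈ A, G.Adj a y}

/-- the number of ordered pairs `(x, y)` of adjacent vertices with `x ∈ X`, `y ∈ Y` -/
noncomputable def ew (G : SimpleGraph V) (X Y : Finset V) : ℕ :=
  #{p ∈ X ×ˢ Y | G.Adj p.1 p.2}

/-- the cut condition equivalent (Menger) to the existence of `k` internally disjoint
`u`-`v` paths -/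
def Perf (G : SimpleGraph V) (u v : V) (k : ℕ) : Prop :=
  ∀ A : Finset V, u ∈ A → v ∉ A → (∀ a ∈ A, G.Adj a v → a = u) → k ≤ #(nb G A)

/-- all pairs satisfy the cut condition for `min (e u) (e v)` -/
def Good (G : SimpleGraph V) (e : V → ℕ) : Prop :=
  ∀ u v, u ≠ v → Perf G u v (min (e u) (e v))

/-- remove the edge `ab`, add the edges `xa` and `xb` -/
def pinch (G : SimpleGraph V) (x a b : V) : SimpleGraph V :=
  G.deleteEdges {s(a, b)} ⊔ SimpleGraph.fromEdgeSet {s(x, a), s(x, b)}

end

end Pool.Agent.AvgConn
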