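import Pool.Agent.Work.MP_88992e_co.RobDefs

/-!
# Robust graphs of minimum degree three are perfect
-/

namespace Pool.Agent.AvgConn

open Finset
open scoped Classical

variable {V : Type*} [Fintype V]

/-- `ew` as a sum over the second set -/
theorem ew_eq_sum_right (G : SimpleGraph V) (X Y : Finset V) :
    ew G X Y = ∑ y ∈ Y, #{x ∈ X | G.Adj x y} := by
  unfold ew
  rw [card_filter, sum_product_right]
  refine sum_congr rfl fun y _ => ?_
  rw [card_filter]

/-- `ew` as a sum over the first set -/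
theorem ew_eq_sum_left (G : SimpleGraph V) (X Y : Finset V) :
    ew G X Y = ∑ x ∈ X, #{y ∈ Y | G.Adj x y} := by
  unfold ew
  rw [card_filter, sum_product]
  refine sum_congr rfl fun x _ => ?_
  rw [card_filter]

theorem card_adj_le (G : SimpleGraph V) (X : Finset V) (y : V) :
    #{x ∈ X | G.Adj x y} ≤ deg G y := by
  rw [deg_eq]
  refine card_le_card fun x hx => ?_
  rw [mem_filter] at hx
  rw [mem_filter_univ]
  exact hx.2.symm

theorem card_adj_le' (G : SimpleGraph V) (X : Finset V) (y : V) :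
    #{x ∈ X | G.Adj y x} ≤ deg G y := by
  rw [deg_eq]
  refine card_le_card fun x hx => ?_
  rw [mem_filter] at hx
  rw [mem_filter_univ]
  exact hx.2

/-- edges from `A` to the outside end in `nb G A` -/
theorem ew_compl_le {G : SimpleGraph V} {t : ℕ} (ht : ∀ v, deg G v ≤ t) (A : Finset V) :
    ew G A Aᶜ ≤ t * #(nb G A) := by
  rw [ew_eq_sum_right]
  calc ∑ y ∈ Aᶜ, #{x ∈ A | G.Adj x y} = ∑ y ∈ nb G A, #{x ∈ A | G.Adj x y} := by
        symm
        refine sum_subset (fun y hy => mem_compl.2 (mem_nb.1 hy).1) fun y hy hy' => ?_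
        rw [card_eq_zero, filter_eq_empty_iff]
        intro x hx hxy
        exact hy' (mem_nb.2 ⟨mem_compl.1 hy, x, hx, hxy⟩)
    _ ≤ ∑ y ∈ nb G A, t := sum_le_sum fun y _ => (card_adj_le G A y).trans (ht y)
    _ = t * #(nb G A) := by rw [sum_const, smul_eq_mul, mul_comm]

theorem mem_supp {G : SimpleGraph V} {v : V} : v ∈ supp G ↔ deg G v ≠ 0 := by
  unfold supp
  rw [mem_filter_univ]

theorem mem_supp_of_adj {G : SimpleGraph V} {v w : V} (h : G.Adj v w) : v ∈ supp G :=
  mem_supp.2 ((deg_pos_iff G v).2 ⟨w, h⟩)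

/-- A small set has many neighbours. -/
theorem Rob.le_nb {G : SimpleGraph V} {t lam K : ℕ} (h : Rob G t lam K)
    (h3 : ∀ v, deg G v ≠ 0 → 3 ≤ deg G v) {A : Finset V} (hA : A ⊆ supp G)
    (hK : #A + #(nb G A) ≤ K) {w : V} (hw : w ∈ A) : deg G w ≤ #(nb G A) := by
  set N := nb G A with hN
  have hdisj : Disjoint A N := by
    rw [disjoint_left]
    intro a ha haN
    exact (mem_nb.1 haN).1 ha
  have hne : A.Nonempty := ⟨w, hw⟩
  have hX := h.sparse (A ∪ N) (hne.mono subset_union_left) (by rw [card_union_of_disjoint hdisj]; exact hK)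
  have hAA := h.sparse A hne (by omega)
  rw [card_union_of_disjoint hdisj] at hX
  -- the pairs with an element of `A`
  have h1 : 2 * ∑ a ∈ A, deg G a ≤ ew G (A ∪ N) (A ∪ N) + ew G A A := by
    have e1 : ∑ a ∈ A, deg G a = #((A ×ˢ (A ∪ N)).filter fun p => G.Adj p.1 p.2) := by
      have : ew G A (A ∪ N) = ∑ x ∈ A, #{y ∈ A ∪ N | G.Adj x y} := ew_eq_sum_left G A (A ∪ N)
      unfold ew at this
      rw [this]
      refine sum_congr rfl fun a ha => ?_
      rw [deg_eq]
      congr 1
      ext y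
      rw [mem_filter_univ, mem_filter, mem_union]
      constructor
      · intro hy
        refine ⟨?_, hy⟩
        by_cases hyA : y ∈ A
        · exact Or.inl hyA
        · exact Or.inr (mem_nb.2 ⟨hyA, a, ha, hy⟩)
      · exact fun hy => hy.2
    have e2 : ∑ a ∈ A, deg G a = #(((A ∪ N) ×ˢ A).filter fun p => G.Adj p.1 p.2) := by
      rw [e1]
      refine card_bij' (fun p _ => p.swap) (fun p _ => p.swap) ?_ ?_ ?_ ?_
      · intro p hp
        rw [mem_filter, mem_product] at hp ⊢
        exact ⟨⟨hp.1.2, hp.1.1⟩, hp.2.symm⟩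
      · intro p hp
        rw [mem_filter, mem_product] at hp ⊢
        exact ⟨⟨hp.1.2, hp.1.1⟩, hp.2.symm⟩
      · intro p _
        rfl
      · intro p _
        rfl
    have e3 := card_union_add_card_inter ((A ×ˢ (A ∪ N)).filter fun p => G.Adj p.1 p.2)
      (((A ∪ N) ×ˢ A).filter fun p => G.Adj p.1 p.2)
    have e4 : #(((A ×ˢ (A ∪ N)).filter fun p => G.Adj p.1 p.2) ∪
        (((A ∪ N) ×ˢ A).filter fun p => G.Adj p.1 p.2)) ≤ ew G (A ∪ N) (A ∪ N) := by
      unfold ew
      refine card_le_card fun p hp => ?_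
      rw [mem_union, mem_filter, mem_filter, mem_product, mem_product] at hp
      rw [mem_filter, mem_product]
      rcases hp with hp | hp
      · exact ⟨⟨mem_union_left _ hp.1.1, hp.1.2⟩, hp.2⟩
      · exact ⟨⟨hp.1.1, mem_union_left _ hp.1.2⟩, hp.2⟩
    have e5 : #(((A ×ˢ (A ∪ N)).filter fun p => G.Adj p.1 p.2) ∩
        (((A ∪ N) ×ˢ A).filter fun p => G.Adj p.1 p.2)) ≤ ew G A A := by
      unfold ew
      refine card_le_card fun p hp => ?_
      rw [mem_inter, mem_filter, mem_filter, mem_product, mem_product] at hp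
      rw [mem_filter, mem_product]
      exact ⟨⟨hp.1.1.1, hp.2.1.2⟩, hp.1.2⟩
    omega
  have h2 : 3 * #(A.erase w) ≤ ∑ a ∈ A.erase w, deg G a := by
    rw [mul_comm, ← smul_eq_mul]
    exact card_nsmul_le_sum _ _ _ fun a ha => h3 a (mem_supp.1 (hA (mem_of_mem_erase ha)))
  have h4 := add_sum_erase A (fun a => deg G a) hw
  have h5 := card_erase_add_one hw
  omega

/-- EXP: robust graphs of minimum degree three are perfect. -/
theorem Rob.good {G : SimpleGraph V} {t lam K : ℕ} (h : Rob G t lam K) (hl : t * t + 1 ≤ lam)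
    (hK : lam + t ≤ K) (h3 : ∀ v, deg G v ≠ 0 → 3 ≤ deg G v) : Good G (deg G) := by
  intro u v huv A0 hu0 hv0 hcond0
  by_contra hcon
  push Not at hcon
  have hNu : #(nb G A0) < deg G u := lt_of_lt_of_le hcon (min_le_left _ _)
  have hNv : #(nb G A0) < deg G v := lt_of_lt_of_le hcon (min_le_right _ _)
  have hus : u ∈ supp G := mem_supp.2 (by omega)
  have hvs : v ∈ supp G := mem_supp.2 (by omega)
  have htu := h.le u
  -- the non-isolated part of `A0`
  set A := A0 ∩ supp G with hA
  have hAs : A ⊆ supp G := inter_subset_right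
  have hu : u ∈ A := mem_inter.2 ⟨hu0, hus⟩
  have hv : v ∉ A := fun h1 => hv0 (mem_inter.1 h1).1
  have hcond : ∀ a ∈ A, G.Adj a v → a = u := fun a ha => hcond0 a (mem_inter.1 ha).1
  have hnb : nb G A = nb G A0 := by
    ext y
    rw [mem_nb, mem_nb]
    constructor
    · rintro ⟨h1, a, ha, hay⟩
      refine ⟨fun h2 => h1 (mem_inter.2 ⟨h2, mem_supp_of_adj hay.symm⟩), a, (mem_inter.1 ha).1, hay⟩
    · rintro ⟨h1, a, ha, hay⟩
      exact ⟨fun h2 => h1 (mem_inter.1 h2).1, a, mem_inter.2 ⟨ha, mem_supp_of_adj hay⟩, hay⟩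
  rw [← hnb] at hNu hNv
  rcases lt_or_ge #A lam with hsm | hlg
  · have := h.le_nb h3 hAs (by omega) hu
    omega
  -- the other side
  set B : Finset V := (supp G \ (A ∪ nb G A)) ∪ {v} with hB
  have hBs : B ⊆ supp G := by
    refine union_subset sdiff_subset ?_
    rw [singleton_subset_iff]
    exact hvs
  have hvB : v ∈ B := mem_union_right _ (mem_singleton_self v)
  have hmB : ∀ {y}, y ∈ supp G → y ∉ B → y ∈ A ∪ nb G A := by
    intro y hy hyB
    by_contra h1
    exact hyB (mem_union_left _ (mem_sdiff.2 ⟨hy, h1⟩))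
  have hBA : ∀ {b a}, b ∈ B → b ≠ v → a ∈ A → ¬ G.Adj b a := by
    intro b a hb hbv ha hba
    rcases mem_union.1 hb with h1 | h1
    · rw [mem_sdiff, mem_union, not_or] at h1
      exact h1.2.2 (mem_nb.2 ⟨h1.2.1, a, ha, hba.symm⟩)
    · exact hbv (mem_singleton.1 h1)
  have hnB : #(nb G B) ≤ #(nb G A) := by
    by_cases hvN : v ∈ nb G A
    · have hsub : nb G B ⊆ insert u ((nb G A).erase v) := by
        intro y hy
        obtain ⟨h1, b, hb, hby⟩ := mem_nb.1 hy
        have hyv : y ≠ v := by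
          rintro rfl
          exact h1 hvB
        rcases mem_union.1 (hmB (mem_supp_of_adj hby.symm) h1) with h2 | h2
        · by_cases hbv : b = v
          · subst hbv
            rw [hcond y h2 hby.symm]
            exact mem_insert_self _ _
          · exact absurd hby (hBA hb hbv h2)
        · exact mem_insert_of_mem (mem_erase.2 ⟨hyv, h2⟩)
      have h1 := (card_le_card hsub).trans (card_insert_le _ _)
      have h2 := card_erase_add_one hvN
      omega
    · refine card_le_card fun y hy => ?_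
      obtain ⟨h1, b, hb, hby⟩ := mem_nb.1 hy
      rcases mem_union.1 (hmB (mem_supp_of_adj hby.symm) h1) with h2 | h2
      · by_cases hbv : b = v
        · subst hbv
          exact absurd (mem_nb.2 ⟨hv, y, h2, hby.symm⟩) hvN
        · exact absurd hby (hBA hb hbv h2)
      · exact h2
  rcases lt_or_ge #B lam with hsm | hlg'
  · have := h.le_nb h3 hBs (by omega) hvB
    omega
  · have hBsub : B ⊆ supp G \ A := by
      intro y hy
      rw [mem_sdiff]
      refine ⟨hBs hy, fun hyA => ?_⟩
      rcases mem_union.1 hy with h1 | h1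
      · rw [mem_sdiff, mem_union, not_or] at h1
        exact h1.2.1 hyA
      · rw [mem_singleton] at h1
        exact hv (h1 ▸ hyA)
    have h1 := h.cut A hAs hlg (hlg'.trans (card_le_card hBsub))
    have h2 := ew_compl_le h.le A
    have h4 : t * #(nb G A) ≤ t * t := Nat.mul_le_mul_left _ (by omega)
    omega

end Pool.Agent.AvgConn
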