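import Pool.Agent.Work.MP_88992e_co.Exp

/-!
# Far edges in robust graphs
-/

namespace Pool.Agent.AvgConn

open Finset
open scoped Classical

variable {V : Type*} [Fintype V]

/-! ### Far edges -/

/-- the ball of radius `i` around `x` -/
noncomputable def bl (G : SimpleGraph V) (x : V) : ℕ → Finset V
  | 0 => {x}
  | i + 1 => bl G x i ∪ nb G (bl G x i)

theorem card_nb_le {G : SimpleGraph V} {t : ℕ} (ht : ∀ v, deg G v ≤ t) (A : Finset V) :
    #(nb G A) ≤ t * #A := by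
  have hsub : nb G A ⊆ A.biUnion fun a => {y | G.Adj a y} := by
    intro y hy
    obtain ⟨_, a, ha, hay⟩ := mem_nb.1 hy
    exact mem_biUnion.2 ⟨a, ha, by rw [mem_filter_univ]; exact hay⟩
  refine (card_le_card hsub).trans (card_biUnion_le.trans ?_)
  calc ∑ a ∈ A, #{y | G.Adj a y} ≤ ∑ _a ∈ A, t := sum_le_sum fun a _ => by
        rw [← deg_eq]
        exact ht a
    _ = t * #A := by rw [sum_const, smul_eq_mul, mul_comm]

theorem card_bl_le {G : SimpleGraph V} {t : ℕ} (ht : ∀ v, deg G v ≤ t) (x : V) (i : ℕ) :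
    #(bl G x i) ≤ (t + 1) ^ i := by
  induction i with
  | zero => simp [bl]
  | succ i ih =>
    rw [bl, pow_succ]
    refine (card_union_le _ _).trans ?_
    have := card_nb_le ht (bl G x i)
    nlinarith

theorem bl_mono {G : SimpleGraph V} {x : V} {i j : ℕ} (h : i ≤ j) : bl G x i ⊆ bl G x j := by
  induction j, h using Nat.le_induction with
  | base => exact Subset.rfl
  | succ j _ ih => exact ih.trans subset_union_left

theorem mem_bl_succ {G : SimpleGraph V} {x : V} {i : ℕ} {y z : V} (hy : y ∈ bl G x i)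
    (h : G.Adj y z) : z ∈ bl G x (i + 1) := by
  rw [bl, mem_union]
  by_cases hz : z ∈ bl G x i
  · exact Or.inl hz
  · exact Or.inr (mem_nb.2 ⟨hz, y, hy, h⟩)

/-- If there are no edges between the two parts, the number of edges is additive. -/
theorem ew_split_le {G : SimpleGraph V} {X Y : Finset V}
    (h : ∀ y ∈ Y, ∀ z ∈ X \ Y, ¬ G.Adj y z) :
    ew G X X ≤ ew G Y Y + ew G (X \ Y) (X \ Y) := by
  unfold ew
  refine (card_le_card ?_).trans (card_union_le _ _)
  intro p hp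
  rw [mem_filter, mem_product] at hp
  obtain ⟨⟨h1, h2⟩, h3⟩ := hp
  rw [mem_union, mem_filter, mem_filter, mem_product, mem_product]
  by_cases h4 : p.1 ∈ Y
  · by_cases h5 : p.2 ∈ Y
    · exact Or.inl ⟨⟨h4, h5⟩, h3⟩
    · exact absurd h3 (h _ h4 _ (mem_sdiff.2 ⟨h2, h5⟩))
  · by_cases h5 : p.2 ∈ Y
    · exact absurd h3.symm (h _ h5 _ (mem_sdiff.2 ⟨h1, h4⟩))
    · exact Or.inr ⟨⟨mem_sdiff.2 ⟨h1, h4⟩, mem_sdiff.2 ⟨h2, h5⟩⟩, h3⟩

theorem Rob.far_aux {G : SimpleGraph V} {t lam K : ℕ} (h : Rob G t lam K) {x z : V}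
    (hz : z ∉ bl G x K) {X : Finset V} (hx : x ∈ X) (hzX : z ∈ X) (hX : #X ≤ K) :
    ew G X X + 4 ≤ 2 * #X := by
  obtain ⟨i, hi, he⟩ : ∃ i, i < K ∧ X ∩ bl G x (i + 1) = X ∩ bl G x i := by
    by_contra hcon
    push Not at hcon
    have h1 : ∀ i, i ≤ K → i + 1 ≤ #(X ∩ bl G x i) := by
      intro i
      induction i with
      | zero =>
        intro _
        exact card_pos.2 ⟨x, mem_inter.2 ⟨hx, by simp [bl]⟩⟩
      | succ i ih =>
        intro hi
        have h2 := ih (by omega)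
        have h3 : X ∩ bl G x i ⊂ X ∩ bl G x (i + 1) :=
          (inter_subset_inter_left (bl_mono (Nat.le_succ i))).ssubset_of_ne
            (hcon i (by omega)).symm
        have h4 := card_lt_card h3
        omega
    have h2 := h1 K le_rfl
    have h3 : X ∩ bl G x K ⊂ X := by
      refine inter_subset_left.ssubset_of_ne ?_
      intro h4
      rw [← h4] at hzX
      exact hz (mem_inter.1 hzX).2
    have h4 := card_lt_card h3
    omega
  set Y := X ∩ bl G x i with hY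
  have hYX : Y ⊆ X := inter_subset_left
  have hxY : x ∈ Y := mem_inter.2 ⟨hx, bl_mono (Nat.zero_le i) (by simp [bl])⟩
  have hzY : z ∈ X \ Y := mem_sdiff.2 ⟨hzX, fun h1 => hz (bl_mono hi.le (mem_inter.1 h1).2)⟩
  have h1 : ∀ y ∈ Y, ∀ w ∈ X \ Y, ¬ G.Adj y w := by
    intro y hy w hw hyw
    rw [mem_sdiff] at hw
    apply hw.2
    rw [← he]
    exact mem_inter.2 ⟨hw.1, mem_bl_succ (mem_inter.1 hy).2 hyw⟩
  have h2 := ew_split_le h1
  have h3 := card_sdiff_add_card_eq_card hYX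
  have h4 := h.sparse Y ⟨x, hxY⟩ ((card_le_card hYX).trans hX)
  have h5 := h.sparse (X \ Y) ⟨z, hzY⟩ ((card_le_card sdiff_subset).trans hX)
  omega

/-- FAR: an edge far from `x`. -/
theorem Rob.exists_far {G : SimpleGraph V} {t lam K : ℕ} (h : Rob G t lam K) (hK : 1 ≤ K)
    (hs : (t + 1) ^ (K + 1) < #(supp G)) (x : V) :
    ∃ a b, G.Adj a b ∧ x ≠ a ∧ x ≠ b ∧ ¬ G.Adj x a ∧ ¬ G.Adj x b ∧
      ∀ X : Finset V, x ∈ X → (a ∈ X ∨ b ∈ X) → #X ≤ K → ew G X X + 4 ≤ 2 * #X := by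
  have h1 : ∃ a ∈ supp G, a ∉ bl G x (K + 1) := by
    by_contra hcon
    push Not at hcon
    have h2 := card_le_card (show supp G ⊆ bl G x (K + 1) from hcon)
    have h3 := card_bl_le h.le x (K + 1)
    omega
  obtain ⟨a, ha, ha'⟩ := h1
  obtain ⟨b, hab⟩ := (deg_pos_iff G a).1 (mem_supp.1 ha)
  have haK : a ∉ bl G x K := fun h2 => ha' (bl_mono (Nat.le_succ K) h2)
  have hbK : b ∉ bl G x K := fun h2 => ha' (mem_bl_succ h2 hab.symm)
  have hx0 : x ∈ bl G x 0 := by simp [bl]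
  have hne : ∀ {z}, z ∉ bl G x K → x ≠ z := by
    intro z hz hxz
    exact hz (hxz ▸ bl_mono (Nat.zero_le K) hx0)
  have hna : ∀ {z}, z ∉ bl G x K → ¬ G.Adj x z := fun hz hxz =>
    hz (bl_mono hK (mem_bl_succ hx0 hxz))
  refine ⟨a, b, hab, hne haK, hne hbK, hna haK, hna hbK, ?_⟩
  rintro X hx (haX | hbX) hX
  · exact h.far_aux haK hx haX hX
  · exact h.far_aux hbK hx hbX hX

end Pool.Agent.AvgConn
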