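import Pool.Agent.Work.MP_88992e_co.KUp

/-!
# Fewer edges than non-isolated vertices: the upper bound
-/

set_option linter.unusedSectionVars false

namespace Pool.Agent.AvgConn

open Finset
open scoped Classical

variable {V : Type*} [Fintype V]

/-- the connected component -/
noncomputable abbrev mk (G : SimpleGraph V) (v : V) : G.ConnectedComponent :=
  G.connectedComponentMk v

/-- the number of vertices of a component -/
noncomputable def vc (G : SimpleGraph V) (c : G.ConnectedComponent) : ℕ := #{v | mk G v = c}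

theorem deg_eq_card (G : SimpleGraph V) (v : V) : deg G v = #{w | G.Adj v w} := by
  unfold deg
  rw [Set.ncard_eq_toFinset_card']
  congr 1
  ext w
  simp

theorem sum_deg_eq (G : SimpleGraph V) :
    ∑ v, deg G v = #{p : V × V | G.Adj p.1 p.2} := by
  simp only [deg_eq_card, card_filter]
  rw [← univ_product_univ, sum_product]

/-- a set meeting every component: the edges towards it. -/
theorem ew_add_le (G : SimpleGraph V) (C S : Finset V) (hCS : C ⊆ S)
    (hS : ∀ u, ∃ s ∈ S, G.Reachable u s) :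
    ew G C C + 2 * Fintype.card V ≤ ∑ v, deg G v + 2 * #S := by
  have hex : ∀ u, ∃ n, ∃ s ∈ S, ∃ p : G.Walk u s, p.length = n := by
    intro u
    obtain ⟨s, hs, ⟨p⟩⟩ := hS u
    exact ⟨p.length, s, hs, p, rfl⟩
  set D : V → ℕ := fun u => Nat.find (hex u) with hD
  have hpar : ∀ u, u ∉ S → ∃ w, G.Adj u w ∧ D w < D u := by
    intro u hu
    obtain ⟨s, hs, p, hp⟩ := Nat.find_spec (hex u)
    cases p with
    | nil => exact absurd hs hu
    | cons h q =>
        rename_i w
        refine ⟨w, h, ?_⟩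
        have h1 : D w ≤ q.length := Nat.find_min' (hex w) ⟨s, hs, q, rfl⟩
        rw [SimpleGraph.Walk.length_cons] at hp
        show D w < Nat.find (hex u)
        omega
  choose! par hadj hlt using hpar
  set P : Finset (V × V) := {p : V × V | G.Adj p.1 p.2} with hP
  set A₁ : Finset (V × V) := {p ∈ C ×ˢ C | G.Adj p.1 p.2} with hA₁
  set A₂ : Finset (V × V) := Sᶜ.image (fun u => (u, par u)) with hA₂
  set A₃ : Finset (V × V) := Sᶜ.image (fun u => (par u, u)) with hA₃
  have c2 : #A₂ = #Sᶜ := card_image_of_injective _ fun u w h => congrArg Prod.fst h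
  have c3 : #A₃ = #Sᶜ := card_image_of_injective _ fun u w h => congrArg Prod.snd h
  have d12 : Disjoint A₁ A₂ := by
    rw [disjoint_left]
    rintro ⟨a, b⟩ h1 h2
    rw [hA₁, mem_filter, mem_product] at h1
    obtain ⟨u, hu, hu'⟩ := mem_image.1 h2
    have : u = a := congrArg Prod.fst hu'
    subst this
    exact (mem_compl.1 hu) (hCS h1.1.1)
  have d13 : Disjoint A₁ A₃ := by
    rw [disjoint_left]
    rintro ⟨a, b⟩ h1 h2
    rw [hA₁, mem_filter, mem_product] at h1
    obtain ⟨u, hu, hu'⟩ := mem_image.1 h2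
    have : u = b := congrArg Prod.snd hu'
    subst this
    exact (mem_compl.1 hu) (hCS h1.1.2)
  have d23 : Disjoint A₂ A₃ := by
    rw [disjoint_left]
    rintro ⟨a, b⟩ h1 h2
    obtain ⟨u, hu, hu'⟩ := mem_image.1 h1
    obtain ⟨w, hw, hw'⟩ := mem_image.1 h2
    have e1 : u = a := congrArg Prod.fst hu'
    have e2 : par u = b := congrArg Prod.snd hu'
    have e3 : par w = a := congrArg Prod.fst hw'
    have e4 : w = b := congrArg Prod.snd hw'
    have l1 := hlt u (mem_compl.1 hu)
    have l2 := hlt w (mem_compl.1 hw)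
    rw [e2, e1] at l1
    rw [e3, e4] at l2
    omega
  have hsub : (A₁ ∪ A₂) ∪ A₃ ⊆ P := by
    intro p hp
    rw [mem_union, mem_union] at hp
    rw [hP, mem_filter]
    refine ⟨mem_univ _, ?_⟩
    rcases hp with (h | h) | h
    · exact (mem_filter.1 h).2
    · obtain ⟨u, hu, rfl⟩ := mem_image.1 h
      exact hadj u (mem_compl.1 hu)
    · obtain ⟨u, hu, rfl⟩ := mem_image.1 h
      exact (hadj u (mem_compl.1 hu)).symm
  have hcard := card_le_card hsub
  rw [card_union_of_disjoint (disjoint_union_left.2 ⟨d13, d23⟩), card_union_of_disjoint d12,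
    c2, c3] at hcard
  have hs : ∑ v, deg G v = #P := sum_deg_eq G
  rw [hs]
  have h1 : #Sᶜ + #S = Fintype.card V := card_compl_add_card S
  have h2 : ew G C C = #A₁ := rfl
  rw [h2]
  omega

/-- components that do not meet `C` -/
noncomputable def free (G : SimpleGraph V) (C : Finset V) : Finset G.ConnectedComponent :=
  {c | ∀ v ∈ C, mk G v ≠ c}

theorem ew_add_le_free (G : SimpleGraph V) (C : Finset V) :
    ew G C C + 2 * Fintype.card V ≤ ∑ v, deg G v + 2 * #C + 2 * #(free G C) := by
  set rt : G.ConnectedComponent → V := fun c => c.out with hrt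
  have hout : ∀ c, mk G (rt c) = c := fun c => Quot.out_eq c
  have h1 := ew_add_le G C (C ∪ (free G C).image rt) subset_union_left (by
    intro u
    by_cases hu : mk G u ∈ free G C
    · refine ⟨rt (mk G u), mem_union_right _ (mem_image_of_mem _ hu), ?_⟩
      exact SimpleGraph.ConnectedComponent.exact (hout (mk G u)).symm
    · have h2 : ¬ ∀ v ∈ C, mk G v ≠ mk G u := fun h => hu (mem_filter.2 ⟨mem_univ _, h⟩)
      push Not at h2
      obtain ⟨v, hv, hvu⟩ := h2
      exact ⟨v, mem_union_left _ hv, SimpleGraph.ConnectedComponent.exact hvu.symm⟩)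
  have h2 : #(C ∪ (free G C).image rt) ≤ #C + #(free G C) :=
    (card_union_le _ _).trans (Nat.add_le_add_left card_image_le _)
  omega

/-- the components with at least two vertices -/
noncomputable def big (G : SimpleGraph V) : Finset G.ConnectedComponent := {c | 2 ≤ vc G c}

theorem vc_pos (G : SimpleGraph V) (c : G.ConnectedComponent) : 1 ≤ vc G c := by
  refine card_pos.2 ⟨c.out, mem_filter.2 ⟨mem_univ _, Quot.out_eq c⟩⟩

theorem deg_eq_zero_of_vc {G : SimpleGraph V} {v : V} (h : vc G (mk G v) = 1) :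
    deg G v = 0 := by
  rw [deg_eq_card, card_eq_zero, filter_eq_empty_iff]
  intro w _ hvw
  have h1 : 1 < vc G (mk G v) := by
    refine one_lt_card.2 ⟨v, mem_filter.2 ⟨mem_univ _, rfl⟩, w, mem_filter.2 ⟨mem_univ _, ?_⟩,
      hvw.ne⟩
    exact SimpleGraph.ConnectedComponent.sound hvw.symm.reachable
  omega

theorem deg_pos_of_vc {G : SimpleGraph V} {v : V} (h : 2 ≤ vc G (mk G v)) :
    1 ≤ deg G v := by
  obtain ⟨w, hw, hwv⟩ := exists_mem_ne (show 1 < #{w | mk G w = mk G v} from h) v
  have hr : G.Reachable v w := (SimpleGraph.ConnectedComponent.exact (mem_filter.1 hw).2).symm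
  obtain ⟨p⟩ := hr
  cases p with
  | nil => exact absurd rfl hwv
  | cons h q =>
      rename_i w'
      rw [deg_eq_card]
      exact card_pos.2 ⟨w', mem_filter.2 ⟨mem_univ _, h⟩⟩

/-- the number of trivial components is at most the number of isolated vertices -/
theorem card_trivial_le (G : SimpleGraph V) :
    #{c : G.ConnectedComponent | ¬ 2 ≤ vc G c} + cnt (deg G) 1 ≤ Fintype.card V := by
  have h1 : #{c : G.ConnectedComponent | ¬ 2 ≤ vc G c} ≤ #{v | ¬ 1 ≤ deg G v} := by
    refine card_le_card_of_injOn (fun c => c.out) ?_ ?_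
    · intro c hc
      have h2 := (mem_filter.1 (mem_coe.1 hc)).2
      have h3 := vc_pos G c
      have h4 : mk G c.out = c := Quot.out_eq c
      have h5 : vc G (mk G c.out) = 1 := by rw [h4]; omega
      refine mem_coe.2 (mem_filter.2 ⟨mem_univ _, ?_⟩)
      rw [deg_eq_zero_of_vc h5]
      omega
    · intro c _ c' _ h
      have h4 : mk G c.out = c := Quot.out_eq c
      have h5 : mk G c'.out = c' := Quot.out_eq c'
      rw [← h4, ← h5]
      exact congrArg _ h
  have h2 : #{v | 1 ≤ deg G v} + #{v | ¬ 1 ≤ deg G v} = Fintype.card V := by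
    rw [card_filter_add_card_filter_not]
    rfl
  unfold cnt
  omega

/-- the sizes of the big components -/
theorem sum_vc_big (G : SimpleGraph V) : ∑ c ∈ big G, vc G c ≤ cnt (deg G) 1 := by
  have h1 : #{v | 2 ≤ vc G (mk G v)} = ∑ c ∈ big G, vc G c := by
    rw [card_eq_sum_card_fiberwise (f := fun v => mk G v) (t := big G) (by
      intro v hv
      exact mem_coe.2 (mem_filter.2 ⟨mem_univ _, (mem_filter.1 (mem_coe.1 hv)).2⟩))]
    refine sum_congr rfl fun c hc => ?_
    rw [vc, filter_filter]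
    congr 1
    ext v
    simp only [mem_filter, mem_univ, true_and]
    constructor
    · exact fun h => h.2
    · intro h
      refine ⟨?_, h⟩
      rw [h]
      exact (mem_filter.1 hc).2
  rw [← h1]
  refine card_le_card fun v hv => ?_
  rw [mem_filter] at hv ⊢
  exact ⟨hv.1, deg_pos_of_vc hv.2⟩

/-- the number of ordered pairs of distinct vertices in the same component -/
theorem card_reach (G : SimpleGraph V) :
    #{p : V × V | p.1 ≠ p.2 ∧ mk G p.1 = mk G p.2} = ∑ c ∈ big G, vc G c * (vc G c - 1) := by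
  have h1 : #{p : V × V | p.1 ≠ p.2 ∧ mk G p.1 = mk G p.2} =
      ∑ c, vc G c * (vc G c - 1) := by
    rw [card_eq_sum_card_fiberwise (f := fun p => mk G p.1) (t := univ) (by
      intro v hv
      exact mem_coe.2 (mem_univ _))]
    refine sum_congr rfl fun c _ => ?_
    have h2 : filter (fun p : V × V => mk G p.1 = c)
        (filter (fun p : V × V => p.1 ≠ p.2 ∧ mk G p.1 = mk G p.2) univ) =
        offDiag (filter (fun v => mk G v = c) univ) := by
      ext p
      simp only [mem_filter, mem_univ, true_and, mem_offDiag]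
      constructor
      · rintro ⟨⟨h3, h4⟩, h5⟩
        exact ⟨h5, h4 ▸ h5, h3⟩
      · rintro ⟨h3, h4, h5⟩
        exact ⟨⟨h5, h3.trans h4.symm⟩, h3⟩
    rw [h2, offDiag_card, ← vc, Nat.mul_sub, mul_one]
  rw [h1]
  symm
  refine sum_subset (subset_univ _) fun c _ hc => ?_
  have h3 : ¬ 2 ≤ vc G c := fun h => hc (mem_filter.2 ⟨mem_univ _, h⟩)
  have h4 := vc_pos G c
  have h5 : vc G c = 1 := by omega
  rw [h5, Nat.sub_self, mul_zero]

/-- convexity -/
theorem convex_sum {ι : Type*} (T : Finset ι) (f : ι → ℕ) (hf : ∀ i ∈ T, 2 ≤ f i) :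
    ∃ W : ℕ, ∑ i ∈ T, f i = 2 * #T + W ∧
      ∑ i ∈ T, f i * (f i - 1) ≤ 2 * #T + W * (W + 3) := by
  induction T using Finset.induction_on with
  | empty => exact ⟨0, by simp, by simp⟩
  | insert a T ha ih =>
      obtain ⟨W, h1, h2⟩ := ih fun i hi => hf i (mem_insert_of_mem hi)
      have h3 := hf a (mem_insert_self a T)
      obtain ⟨w, hw⟩ := Nat.exists_eq_add_of_le h3
      refine ⟨W + w, ?_, ?_⟩
      · rw [sum_insert ha, card_insert_of_notMem ha, h1, hw]
        ring
      · rw [sum_insert ha, card_insert_of_notMem ha, hw]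
        have h4 : (2 + w) * (2 + w - 1) = 2 + w * (w + 3) := by
          have : 2 + w - 1 = 1 + w := by omega
          rw [this]
          ring
        rw [h4]
        nlinarith [Nat.zero_le (w * W)]

/-- the number of big components: `2 (#big) ≥ 2 n_1 - Σ d`, and more if the core is not empty. -/
theorem two_mul_card_big (G : SimpleGraph V) (C : Finset V)
    (hC : ∀ v ∈ C, 2 ≤ #{w ∈ C | G.Adj v w}) :
    ew G C C + 2 * cnt (deg G) 1 + (if C.Nonempty then 2 else 0) ≤
      ∑ v, deg G v + 2 * #C + 2 * #(big G) := by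
  have h1 := ew_add_le_free G C
  have h2 := card_trivial_le G
  set N₀ : Finset G.ConnectedComponent := {c | ¬ 2 ≤ vc G c} with hN₀
  have h3 : #(free G C) ≤ #N₀ + #(free G C ∩ big G) := by
    have : free G C ⊆ N₀ ∪ (free G C ∩ big G) := by
      intro c hc
      by_cases h : 2 ≤ vc G c
      · exact mem_union_right _ (mem_inter.2 ⟨hc, mem_filter.2 ⟨mem_univ _, h⟩⟩)
      · exact mem_union_left _ (mem_filter.2 ⟨mem_univ _, h⟩)
    exact (card_le_card this).trans (card_union_le _ _)
  split_ifs with hne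
  · obtain ⟨v, hv⟩ := hne
    have h4 : #(free G C ∩ big G) + 1 ≤ #(big G) := by
      have h5 : free G C ∩ big G ⊂ big G := by
        refine (ssubset_iff_of_subset inter_subset_right).2 ⟨mk G v, ?_, ?_⟩
        · refine mem_filter.2 ⟨mem_univ _, ?_⟩
          obtain ⟨w, hw⟩ := card_pos.1 (lt_of_lt_of_le two_pos (hC v hv))
          have h6 := (mem_filter.1 hw).2
          exact one_lt_card.2 ⟨v, mem_filter.2 ⟨mem_univ _, rfl⟩, w, mem_filter.2 ⟨mem_univ _,
            SimpleGraph.ConnectedComponent.sound h6.symm.reachable⟩, h6.ne⟩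
        · intro h6
          exact (mem_filter.1 (mem_inter.1 h6).1).2 v hv rfl
      exact card_lt_card h5
    omega
  · have h4 : #(free G C ∩ big G) ≤ #(big G) := card_le_card inter_subset_right
    omega

/-- pairs: `kappa` is at most one outside the core. -/
theorem sum_kappa_le (G : SimpleGraph V) (C : Finset V)
    (h1 : ∀ u v, u ≠ v → u ∉ C → kappa G u v ≤ 1) :
    ∑ p : V × V with p.1 ≠ p.2, kappa G p.1 p.2 ≤
      ∑ c ∈ big G, vc G c * (vc G c - 1) +
        ∑ p ∈ C.offDiag, (kappa G p.1 p.2 - 1) := by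
  have h2 : ∀ p : V × V, p.1 ≠ p.2 → kappa G p.1 p.2 ≤
      (if mk G p.1 = mk G p.2 then 1 else 0) + (if p ∈ C.offDiag then kappa G p.1 p.2 - 1 else 0) := by
    intro p hp
    by_cases hr : mk G p.1 = mk G p.2
    · rw [if_pos hr]
      by_cases hC : p ∈ C.offDiag
      · rw [if_pos hC]; omega
      · rw [if_neg hC]
        have h3 : p.1 ∉ C ∨ p.2 ∉ C := by
          by_contra hcon
          push Not at hcon
          exact hC (mem_offDiag.2 ⟨hcon.1, hcon.2, hp⟩)
        rcases h3 with h3 | h3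
        · have := h1 _ _ hp h3; omega
        · have := h1 _ _ (Ne.symm hp) h3
          rw [kappa_comm] at this
          omega
    · have h3 : ¬ G.Reachable p.1 p.2 := fun h => hr (SimpleGraph.ConnectedComponent.sound h)
      rw [kappa_not_reachable h3]
      exact Nat.zero_le _
  rw [← card_reach]
  refine (sum_le_sum fun p hp => h2 p (mem_filter.1 hp).2).trans ?_
  rw [sum_add_distrib]
  refine Nat.add_le_add ?_ ?_
  · rw [← card_filter, filter_filter]
  · rw [← sum_filter]
    exact sum_le_sum_of_subset fun p hp => (mem_filter.1 hp).2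

/-- the pairs of the core. -/
theorem sum_core_le (G : SimpleGraph V) (C : Finset V)
    (hC : ∀ v ∈ C, 2 ≤ #{w ∈ C | G.Adj v w})
    (h1 : ∀ u ∈ C, ∀ v ∈ C, u ≠ v → kappa G u v ≤ #{w ∈ C | G.Adj u w}) :
    ∃ z : ℕ, ew G C C = 2 * #C + z ∧
      ∑ p ∈ C.offDiag, (kappa G p.1 p.2 - 1) ≤ #C * (#C - 1) + z * (z - 1) := by
  set e : V → ℕ := fun u => #{w ∈ C | G.Adj u w} with he
  set f : V → ℕ := fun u => e u - 2 with hf
  have hef : ∀ u ∈ C, e u = 2 + f u := by
    intro u hu
    have := hC u hu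
    show e u = 2 + (e u - 2)
    have h2 : 2 ≤ e u := this
    omega
  have hew : ew G C C = ∑ u ∈ C, e u := by
    unfold ew
    rw [card_filter, sum_product]
    refine sum_congr rfl fun u _ => ?_
    rw [he]
    show _ = #(filter (fun w => G.Adj u w) C)
    rw [card_filter]
  refine ⟨∑ u ∈ C, f u, ?_, ?_⟩
  · rw [hew, sum_congr rfl hef, sum_add_distrib, sum_const, smul_eq_mul, mul_comm]
  · have h2 : ∀ p ∈ C.offDiag, kappa G p.1 p.2 - 1 ≤ 1 + f p.1 * f p.2 := by
      intro p hp
      obtain ⟨hp1, hp2, hp3⟩ := mem_offDiag.1 hp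
      have k1 : kappa G p.1 p.2 ≤ 2 + f p.1 := (h1 _ hp1 _ hp2 hp3).trans (hef _ hp1).le
      have k2 : kappa G p.1 p.2 ≤ 2 + f p.2 := by
        rw [kappa_comm]
        exact (h1 _ hp2 _ hp1 (Ne.symm hp3)).trans (hef _ hp2).le
      rcases Nat.eq_zero_or_pos (f p.1) with h0 | h0
      · rw [h0] at k1 ⊢; omega
      · rcases Nat.eq_zero_or_pos (f p.2) with h0' | h0'
        · rw [h0'] at k2 ⊢; omega
        · have h3 : f p.2 ≤ f p.1 * f p.2 := Nat.le_mul_of_pos_left _ h0
          omega
    refine (sum_le_sum h2).trans ?_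
    rw [sum_add_distrib, sum_const, smul_eq_mul, mul_one, offDiag_card]
    have h3 : #C * #C - #C = #C * (#C - 1) := by rw [Nat.mul_sub, mul_one]
    rw [h3]
    refine Nat.add_le_add_left ?_ _
    have h4 : ∑ p ∈ C.offDiag, f p.1 * f p.2 + ∑ u ∈ C, f u * f u =
        (∑ u ∈ C, f u) * ∑ u ∈ C, f u := by
      rw [sum_mul_sum, ← sum_product', ← diag_union_offDiag, sum_union (disjoint_diag_offDiag _),
        sum_diag, add_comm]
    have h5 : ∑ u ∈ C, f u ≤ ∑ u ∈ C, f u * f u := sum_le_sum fun u _ => Nat.le_mul_self _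
    rw [Nat.mul_sub, mul_one]
    omega

/-- upper bound, fewer edges than non-isolated vertices; s = sum of degrees, n1 = cnt d 1,
n2 = cnt d 2, x = s - n1, g = n1 - m, ordered pairs -/
theorem upper_small (G : SimpleGraph V) (d : V → ℕ) (hd : ∀ v, deg G v = d v)
    (hm : ∑ v, d v < 2 * cnt d 1) :
    ∑ p : V × V with p.1 ≠ p.2, kappa G p.1 p.2 ≤
      (2 * cnt d 1 - ∑ v, d v) +
      max (((∑ v, d v - cnt d 1) + 2) * ((∑ v, d v - cnt d 1) + 1) - 2)
        ((∑ v, d v - cnt d 1) * ((∑ v, d v - cnt d 1) - 1) + cnt d 2 * (cnt d 2 - 1)) := by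
  have hdd : deg G = d := funext hd
  obtain ⟨C, hC1, hC2, hC3⟩ := exists_core G
  have hk := sum_kappa_le G C hC2
  obtain ⟨z, hz, hcore⟩ := sum_core_le G C hC1 hC3
  have hT := two_mul_card_big G C hC1
  obtain ⟨W, hW1, hW2⟩ := convex_sum (big G) (vc G) fun c hc => (mem_filter.1 hc).2
  have hvc := sum_vc_big G
  rw [hdd] at hT hvc
  have hn1 : cnt d 1 ≤ ∑ v, d v := by
    unfold cnt
    rw [card_filter]
    refine sum_le_sum fun v _ => ?_
    split_ifs with h
    · exact h
    · exact Nat.zero_le _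
  have hCn : #C ≤ cnt d 2 := by
    refine card_le_card fun v hv => mem_filter.2 ⟨mem_univ _, ?_⟩
    rw [← hd v, deg_eq_card]
    refine (hC1 v hv).trans (card_le_card fun w hw => ?_)
    exact mem_filter.2 ⟨mem_univ _, (mem_filter.1 hw).2⟩
  set n1 := cnt d 1 with hn1d
  set n2 := cnt d 2 with hn2d
  set s := ∑ v, d v with hsd
  set t := #(big G) with htd
  obtain ⟨x, hx⟩ := Nat.exists_eq_add_of_le hn1
  have hxs : s - n1 = x := by omega
  rw [hxs]
  obtain ⟨g2, hg2⟩ := Nat.exists_eq_add_of_lt hm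
  have hg : 2 * n1 - s = g2 + 1 := by omega
  rw [hg]
  refine hk.trans ?_
  by_cases hne : C.Nonempty
  · rw [if_pos hne, hz] at hT
    obtain ⟨a, ha⟩ : ∃ a, 2 * t = g2 + 1 + z + 2 + a := ⟨2 * t - (g2 + 1 + z + 2), by omega⟩
    obtain ⟨b, hb⟩ : ∃ b, x = W + z + 2 + a + b := ⟨x - (W + z + 2 + a), by omega⟩
    refine le_trans ?_ (Nat.add_le_add_left (le_max_right _ _) _)
    have h1 : #C * (#C - 1) ≤ n2 * (n2 - 1) := Nat.mul_le_mul hCn (Nat.sub_le_sub_right hCn 1)
    have h2 : x * (x - 1) = (W + z + 2 + a + b) * (W + z + 1 + a + b) := by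
      have : x - 1 = W + z + 1 + a + b := by omega
      rw [this, hb]
    have h3 : z * (z - 1) ≤ z * z := Nat.mul_le_mul_left _ (Nat.sub_le _ _)
    have h4 : z + 2 + a + W * (W + 3) + z * z ≤ x * (x - 1) := by
      rw [h2]
      nlinarith [Nat.zero_le (W * z), Nat.zero_le (W * a), Nat.zero_le (W * b),
        Nat.zero_le (z * a), Nat.zero_le (z * b), Nat.zero_le (a * a), Nat.zero_le (a * b),
        Nat.zero_le (b * b), Nat.zero_le (z * z)]
    calc ∑ c ∈ big G, vc G c * (vc G c - 1) + ∑ p ∈ C.offDiag, (kappa G p.1 p.2 - 1)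
        ≤ (2 * t + W * (W + 3)) + (#C * (#C - 1) + z * (z - 1)) := Nat.add_le_add hW2 hcore
      _ ≤ (2 * t + W * (W + 3)) + (n2 * (n2 - 1) + z * z) := by omega
      _ = g2 + 1 + (z + 2 + a + W * (W + 3) + z * z + n2 * (n2 - 1)) := by rw [ha]; ring
      _ ≤ _ := by omega
  · have hC0 : C = ∅ := not_nonempty_iff_eq_empty.1 hne
    rw [if_neg hne, hz] at hT
    obtain ⟨a, ha⟩ : ∃ a, 2 * t = g2 + 1 + z + a := ⟨2 * t - (g2 + 1 + z), by omega⟩
    obtain ⟨b, hb⟩ : ∃ b, x = W + z + a + b := ⟨x - (W + z + a), by omega⟩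
    refine le_trans ?_ (Nat.add_le_add_left (le_max_left _ _) _)
    have h0 : ∑ p ∈ C.offDiag, (kappa G p.1 p.2 - 1) = 0 := by
      rw [hC0]
      rfl
    rw [h0, add_zero]
    refine hW2.trans ?_
    have h1 : (x + 2) * (x + 1) = x * (x + 3) + 2 := by ring
    have h2 : z + a + W * (W + 3) ≤ x * (x + 3) := by
      rw [hb]
      nlinarith [Nat.zero_le (W * z), Nat.zero_le (W * a), Nat.zero_le (W * b),
        Nat.zero_le (z * a), Nat.zero_le (z * b), Nat.zero_le (a * a), Nat.zero_le (a * b),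
        Nat.zero_le (b * b), Nat.zero_le (z * z)]
    omega

end Pool.Agent.AvgConn
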