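import Pool.Agent.Work.MP_88992e_co.Asm
import Pool.Agent.Work.MP_88992e_co.SmallUp

/-!
# The final value
-/

namespace Pool.Agent.AvgConn

open Finset
open scoped Classical

lemma two_choose (x : ℕ) : 2 * x.choose 2 = x * (x - 1) := by
  rw [Nat.choose_two_right]
  exact Nat.mul_div_cancel' (Nat.even_mul_pred_self x).two_dvd

/-- the sum of all `kappa`, over ordered pairs -/
noncomputable def ksum {V : Type*} [Fintype V] (G : SimpleGraph V) : ℕ :=
  ∑ p : V × V with p.1 ≠ p.2, kappa G p.1 p.2

lemma two_mul_pairs {n : ℕ} (G : SimpleGraph (Fin n)) :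
    ksum G = 2 * ∑ p : Fin n × Fin n with p.1 < p.2, kappa G p.1 p.2 := by
  have h1 : (univ.filter fun p : Fin n × Fin n => p.1 ≠ p.2)
      = (univ.filter fun p : Fin n × Fin n => p.1 < p.2) ∪
        (univ.filter fun p : Fin n × Fin n => p.2 < p.1) := by
    ext p
    simp only [mem_filter, mem_univ, true_and, mem_union]
    exact ne_iff_lt_or_gt
  have h2 : Disjoint (univ.filter fun p : Fin n × Fin n => p.1 < p.2)
      (univ.filter fun p : Fin n × Fin n => p.2 < p.1) := by
    rw [Finset.disjoint_left]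
    intro p hp hp'
    simp only [mem_filter, mem_univ, true_and] at hp hp'
    exact absurd hp hp'.asymm
  have h0 : ksum G = ∑ p ∈ (univ.filter fun p : Fin n × Fin n => p.1 ≠ p.2),
      kappa G p.1 p.2 := by
    unfold ksum
    congr 1
    ext p
    simp
  rw [h0, h1, sum_union h2, two_mul]
  congr 1
  refine sum_bij (fun p _ => p.swap) ?_ ?_ ?_ ?_
  · intro p hp
    simpa using hp
  · intro p _ q _ h
    exact Prod.swap_injective h
  · intro p hp
    exact ⟨p.swap, by simpa using hp, by simp⟩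
  · intro p _
    exact kappa_comm G _ _

/-- if `2 * N` is an upper bound for the sum over ordered pairs and is attained, then
`N / C(n, 2)` is the largest average connectivity -/
theorem isGreatest_of {n : ℕ} {d : Fin n → ℕ} {N : ℕ}
    (hu : ∀ G : SimpleGraph (Fin n), (∀ v, deg G v = d v) → ksum G ≤ 2 * N)
    (hl : ∃ G : SimpleGraph (Fin n), (∀ v, deg G v = d v) ∧ 2 * N ≤ ksum G) :
    IsGreatest {x : ℝ | ∃ G : SimpleGraph (Fin n), (∀ v, deg G v = d v) ∧ avgConn G = x}
      ((N : ℝ) / (n.choose 2 : ℝ)) := by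
  have key : ∀ G : SimpleGraph (Fin n), avgConn G
      = ((∑ p : Fin n × Fin n with p.1 < p.2, kappa G p.1 p.2 : ℕ) : ℝ) / (n.choose 2 : ℝ) := by
    intro G
    unfold avgConn
    push_cast
    rfl
  constructor
  · obtain ⟨G, h1, h2⟩ := hl
    have h3 := hu G h1
    rw [two_mul_pairs] at h2 h3
    refine ⟨G, h1, ?_⟩
    rw [key G]
    congr 2
    omega
  · rintro x ⟨G, h1, rfl⟩
    have h3 := hu G h1
    rw [two_mul_pairs] at h3
    rw [key G]
    apply div_le_div_of_nonneg_right _ (Nat.cast_nonneg _)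
    exact_mod_cast (by omega : ∑ p : Fin n × Fin n with p.1 < p.2, kappa G p.1 p.2 ≤ N)

lemma deg_lt {n : ℕ} (G : SimpleGraph (Fin n)) (v : Fin n) : deg G v ≤ n := by
  rw [deg_eq]
  refine (card_le_univ _).trans ?_
  simp

/-- at least as many edges as non-isolated vertices, effective degrees at most three -/
theorem sparse_ge {n : ℕ} (d : Fin n → ℕ) (hreal : ∃ G : SimpleGraph (Fin n), ∀ v, deg G v = d v)
    (h3 : ∑ v, (d v - 3) ≤ #{v | d v = 1}) (m : ℕ) (hm : ∑ v, d v = 2 * m) (hmn : cnt d 1 ≤ m) :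
    IsGreatest {x : ℝ | ∃ G : SimpleGraph (Fin n), (∀ v, deg G v = d v) ∧ avgConn G = x}
      ((((cnt d 1).choose 2 + (cnt d 2).choose 2 + (2 * (m - cnt d 1)).choose 2 : ℕ) : ℝ) /
        (n.choose 2 : ℝ)) := by
  have hones := cnt_ones d
  have hsum := sum_sub_two d
  have hD : ∀ v, d v ≤ n + 3 := by
    obtain ⟨G, hG⟩ := hreal
    intro v
    rw [← hG v]
    exact (deg_lt G v).trans (by omega)
  have htl : ∑ k ∈ Icc 3 (n + 3), (tl d k - tl d (k + 1)) * (tl d k - tl d (k + 1) - 1)
      = 2 * (m - cnt d 1) * (2 * (m - cnt d 1) - 1) := by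
    have h4 : ∀ k, 4 ≤ k → tl d k = 0 := by
      intro k hk
      unfold tl
      have : ∑ i, (d i + 1 - k) ≤ ∑ v, (d v - 3) := sum_le_sum fun i _ => by omega
      omega
    have h5 : tl d 3 = 2 * (m - cnt d 1) := by
      unfold tl
      have h6 : ∑ v, (d v + 1 - 3) = ∑ v, (d v - 2) := sum_congr rfl fun i _ => by omega
      rw [h6]
      omega
    rw [sum_eq_single 3]
    · rw [h5, h4 4 le_rfl]
      rfl
    · intro k hk hk3
      rw [mem_Icc] at hk
      rw [h4 k (by omega)]
      simp
    · intro h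
      exact absurd (mem_Icc.2 ⟨le_rfl, by omega⟩) h
  have hval : 2 * ((cnt d 1).choose 2 + (cnt d 2).choose 2 + (2 * (m - cnt d 1)).choose 2)
      = cnt d 1 * (cnt d 1 - 1) + cnt d 2 * (cnt d 2 - 1) +
        2 * (m - cnt d 1) * (2 * (m - cnt d 1) - 1) := by
    rw [mul_add, mul_add, two_choose, two_choose, two_choose]
  apply isGreatest_of
  · intro G hG
    have := upper G d hG (by omega) (n + 3) hD
    rw [htl] at this
    rw [hval]
    exact this
  · obtain ⟨G, hG⟩ := hreal
    obtain ⟨H, hH1, hH2⟩ := exists_sparse G d hG (by omega) h3 (n + 3) hD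
    rw [htl] at hH2
    exact ⟨H, hH1, by rw [hval]; exact hH2⟩

/-- fewer edges than non-isolated vertices -/
theorem sparse_lt {n : ℕ} (d : Fin n → ℕ) (m : ℕ) (hm : ∑ v, d v = 2 * m) (hmn : m < cnt d 1) :
    IsGreatest {x : ℝ | ∃ G : SimpleGraph (Fin n), (∀ v, deg G v = d v) ∧ avgConn G = x}
      (((cnt d 1 - m + max ((2 * m - cnt d 1 + 2).choose 2 - 1)
        ((2 * m - cnt d 1).choose 2 + (cnt d 2).choose 2) : ℕ) : ℝ) / (n.choose 2 : ℝ)) := by
  have hones := cnt_ones d
  have hsum := sum_sub_two d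
  have hlt : ∑ v, d v < 2 * cnt d 1 := by omega
  have hev : Even (∑ v, d v) := by
    rw [hm]
    exact even_two_mul m
  -- the excess is at least the number of vertices of degree at least two
  have hx : cnt d 2 ≤ 2 * m - cnt d 1 := by
    have h1 : cnt d 1 + cnt d 2 ≤ ∑ v, d v := by
      unfold cnt
      rw [card_filter, card_filter, ← sum_add_distrib]
      refine sum_le_sum fun v _ => ?_
      split_ifs <;> omega
    omega
  set x := 2 * m - cnt d 1 with hxd
  have e1 : 2 * cnt d 1 - ∑ v, d v = 2 * (cnt d 1 - m) := by omega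
  have e2 : ∑ v, d v - cnt d 1 = x := by omega
  have c1 : 2 * ((x + 2).choose 2 - 1) = (x + 2) * (x + 1) - 2 := by
    have := two_choose (x + 2)
    rw [Nat.add_sub_assoc (by norm_num)] at this
    rw [Nat.mul_sub, this]
  have c2 : 2 * (x.choose 2 + (cnt d 2).choose 2) = x * (x - 1) + cnt d 2 * (cnt d 2 - 1) := by
    rw [mul_add, two_choose, two_choose]
  have hval : 2 * (cnt d 1 - m + max ((x + 2).choose 2 - 1) (x.choose 2 + (cnt d 2).choose 2))
      = 2 * cnt d 1 - ∑ v, d v + max ((x + 2) * (x + 1) - 2)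
        (x * (x - 1) + cnt d 2 * (cnt d 2 - 1)) := by
    rw [mul_add, e1, ← c1, ← c2]
    congr 1
    exact (Nat.mul_max_mul_left _ _ _).symm
  apply isGreatest_of
  · intro G hG
    have := upper_small G d hG hlt
    rw [e2] at this
    rw [hval]
    exact this
  · rw [hval]
    rcases le_total ((x + 2) * (x + 1) - 2) (x * (x - 1) + cnt d 2 * (cnt d 2 - 1)) with h | h
    · rcases Nat.lt_or_ge (cnt d 2) 3 with h2 | h2
      · -- both are equal or the first is larger
        obtain ⟨H, hH1, hH2⟩ := exists_forest d hev hlt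
        rw [e2] at hH2
        refine ⟨H, hH1, le_trans (Nat.add_le_add_left ?_ _) hH2⟩
        apply max_le le_rfl
        have h3 : x * (x - 1) + 2 ≤ (x + 2) * (x + 1) - 2 ∨ x = 0 := by
          rcases Nat.eq_zero_or_pos x with h0 | h0
          · exact Or.inr h0
          · left
            obtain ⟨y, hy⟩ : ∃ y, x = y + 1 := ⟨x - 1, by omega⟩
            rw [hy]
            have : (y + 1 + 2) * (y + 1 + 1) = (y + 1) * (y + 1 - 1) + (4 * y + 6) := by
              simp only [Nat.add_sub_cancel]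
              ring
            omega
        have h4 : cnt d 2 * (cnt d 2 - 1) ≤ 2 := by
          have : cnt d 2 = 0 ∨ cnt d 2 = 1 ∨ cnt d 2 = 2 := by omega
          rcases this with h5 | h5 | h5 <;> rw [h5] <;> norm_num
        rcases h3 with h5 | h5
        · omega
        · rw [h5] at hx ⊢
          have : cnt d 2 = 0 := by omega
          rw [this]
      · obtain ⟨H, hH1, hH2⟩ := exists_unicyclic d hev hlt h2
        rw [e2] at hH2
        exact ⟨H, hH1, by rw [max_eq_right h]; exact hH2⟩
    · obtain ⟨H, hH1, hH2⟩ := exists_forest d hev hlt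
      rw [e2] at hH2
      exact ⟨H, hH1, by rw [max_eq_left h]; exact hH2⟩

end Pool.Agent.AvgConn
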