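import Pool.Agent.Work.MP_88992e_co.RobDefs
import Pool.Agent.Work.MP_88992e_co.Base3

/-!
# Pinching and linking keep a graph robust
-/

set_option linter.unusedSectionVars false

namespace Pool.Agent.AvgConn

open Finset
open scoped Classical

variable {V : Type*} [Fintype V]

theorem pin_ew_mono {G G' : SimpleGraph V} {X Y X' Y' : Finset V}
    (h : ∀ p ∈ X, ∀ q ∈ Y, G.Adj p q → p ∈ X' ∧ q ∈ Y' ∧ G'.Adj p q) :
    ew G X Y ≤ ew G' X' Y' := by
  unfold ew
  apply card_le_card
  rintro ⟨p, q⟩ hp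
  rw [mem_filter, mem_product] at hp ⊢
  obtain ⟨h1, h2, h3⟩ := h p hp.1.1 q hp.1.2 hp.2
  exact ⟨⟨h1, h2⟩, h3⟩

theorem pin_ew_comm (G : SimpleGraph V) (X Y : Finset V) : ew G X Y = ew G Y X := by
  unfold ew
  simp only [card_filter]
  rw [sum_product, sum_product_right]
  refine sum_congr rfl fun p _ => sum_congr rfl fun q _ => ?_
  simp only [G.adj_comm p q]

theorem pin_sum_deg (G : SimpleGraph V) (Z : Finset V) :
    ∑ v ∈ Z, deg G v = ew G Z Z + ew G Z Zᶜ := by
  unfold ew
  simp only [card_filter, deg_eq]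
  rw [sum_product, sum_product, ← sum_add_distrib]
  refine sum_congr rfl fun p _ => ?_
  rw [sum_add_sum_compl]

theorem pin_mem_supp {G : SimpleGraph V} {v : V} : v ∈ supp G ↔ deg G v ≠ 0 := by
  simp [supp]

theorem pin_mem_supp_of_adj {G : SimpleGraph V} {v w : V} (h : G.Adj v w) : v ∈ supp G :=
  pin_mem_supp.2 ((deg_pos_iff G v).2 ⟨w, h⟩)

/-- a small sparse set has a large boundary -/
theorem pin_small {G : SimpleGraph V} {K : ℕ} {Z : Finset V} (hZs : Z ⊆ supp G)
    (hsp : ∀ X : Finset V, X.Nonempty → #X ≤ K → ew G X X + 2 ≤ 2 * #X)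
    (hdef : ∑ v ∈ supp G, (3 - deg G v) ≤ 2) (hZ : #Z ≤ K) : #Z ≤ ew G Z Zᶜ := by
  rcases Z.eq_empty_or_nonempty with h0 | h0
  · rw [h0]
    simp
  · have h1 := hsp Z h0 hZ
    have h2 := pin_sum_deg G Z
    have h3 : ∑ v ∈ Z, (3 - deg G v) ≤ 2 :=
      (sum_le_sum_of_subset hZs).trans hdef
    have h4 : 3 * #Z ≤ ∑ v ∈ Z, deg G v + ∑ v ∈ Z, (3 - deg G v) := by
      rw [← sum_add_distrib, mul_comm, ← smul_eq_mul, ← sum_const]
      refine sum_le_sum fun v _ => ?_
      omega
    omega

/-- the boundary condition after one vertex is (perhaps) added to the support -/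
theorem pin_cut {G G' : SimpleGraph V} {t lam K : ℕ} {x : V} (h : Rob G t lam K)
    (hlam : lam ≤ K) (hsupp : supp G' = insert x (supp G))
    (hsp : ∀ X : Finset V, X.Nonempty → #X ≤ K → ew G' X X + 2 ≤ 2 * #X)
    (hmono : ∀ X : Finset V, ew G X Xᶜ ≤ ew G' X Xᶜ)
    (hdef : ∑ v ∈ supp G', (3 - deg G' v) ≤ 2) (X : Finset V) (hX : X ⊆ supp G')
    (h1 : lam ≤ #X) (h2 : lam ≤ #(supp G' \ X)) : lam ≤ ew G' X Xᶜ := by
  by_cases hx : x ∈ supp G
  · rw [insert_eq_of_mem hx] at hsupp
    rw [hsupp] at hX h2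
    exact (h.cut X hX h1 h2).trans (hmono X)
  · have hx0 : ∀ w, ¬ G.Adj x w := by
      intro w hw
      exact hx (pin_mem_supp_of_adj hw)
    by_cases hxX : x ∈ X
    · by_cases hc : #X ≤ lam
      · have h3 := pin_small hX hsp hdef (hc.trans hlam)
        exact h1.trans h3
      · have h4 : lam ≤ #(X.erase x) := by
          rw [card_erase_of_mem hxX]
          omega
        have h5 : X.erase x ⊆ supp G := by
          intro v hv
          have := hX (mem_of_mem_erase hv)
          rw [hsupp, mem_insert] at this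
          exact this.resolve_left (mem_erase.1 hv).1
        have h6 : lam ≤ #(supp G \ X.erase x) := by
          refine h2.trans (card_le_card ?_)
          intro v hv
          rw [mem_sdiff, hsupp, mem_insert] at hv
          rw [mem_sdiff]
          refine ⟨hv.1.resolve_left fun h => hv.2 (h ▸ hxX), fun h => hv.2 (mem_of_mem_erase h)⟩
        refine (h.cut _ h5 h4 h6).trans (le_trans ?_ (hmono X))
        refine pin_ew_mono fun p hp q hq hpq => ⟨mem_of_mem_erase hp, ?_, hpq⟩
        rw [mem_compl] at hq ⊢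
        intro hqX
        apply hq
        refine mem_erase.2 ⟨?_, hqX⟩
        rintro rfl
        exact hx0 _ hpq.symm
    · by_cases hc : #(supp G' \ X) ≤ lam
      · have h3 := pin_small (Z := supp G' \ X) sdiff_subset hsp hdef (hc.trans hlam)
        refine h2.trans (h3.trans ?_)
        rw [pin_ew_comm]
        refine pin_ew_mono fun p hp q hq hpq => ⟨?_, ?_, hpq⟩
        · rw [mem_compl, mem_sdiff, not_and, not_not] at hp
          exact hp (pin_mem_supp_of_adj hpq)
        · rw [mem_compl]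
          exact (mem_sdiff.1 hq).2
      · have h5 : X ⊆ supp G := by
          intro v hv
          have := hX hv
          rw [hsupp, mem_insert] at this
          exact this.resolve_left fun h => hxX (h ▸ hv)
        have h6 : lam ≤ #(supp G \ X) := by
          have : supp G' \ X = insert x (supp G \ X) := by
            ext v
            rw [mem_sdiff, hsupp, mem_insert, mem_insert, mem_sdiff]
            constructor
            · rintro ⟨h | h, h7⟩
              · exact Or.inl h
              · exact Or.inr ⟨h, h7⟩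
            · rintro (h | ⟨h, h7⟩)
              · exact ⟨Or.inl h, h ▸ hxX⟩
              · exact ⟨Or.inr h, h7⟩
          rw [this] at hc
          have := card_insert_le x (supp G \ X)
          omega
        exact (h.cut X h5 h1 h6).trans (hmono X)

/-! ### Pinching -/

section

variable {G : SimpleGraph V} {x a b : V}

theorem pin_mono (hab : G.Adj a b) (hxa : x ≠ a) (hxb : x ≠ b) (h1 : ¬ G.Adj x a)
    (h2 : ¬ G.Adj x b) (X : Finset V) : ew G X Xᶜ ≤ ew (pinch G x a b) X Xᶜ := by
  -- the case that the edge crosses, from `a` to `b`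
  have key : ∀ a b : V, G.Adj a b → x ≠ a → x ≠ b → ¬ G.Adj x a → ¬ G.Adj x b → a ∈ X →
      b ∉ X → ew G X Xᶜ ≤ ew (pinch G x a b) X Xᶜ := by
    intro a b hab hxa hxb h1 h2 haX hbX
    set E : Finset (V × V) := {p ∈ X ×ˢ Xᶜ | G.Adj p.1 p.2} with hE
    set E' : Finset (V × V) := {p ∈ X ×ˢ Xᶜ | (pinch G x a b).Adj p.1 p.2} with hE'
    have habE : (a, b) ∈ E := by
      rw [hE, mem_filter, mem_product, mem_compl]
      exact ⟨⟨haX, hbX⟩, hab⟩
    -- the new pair
    have hnew : ∃ r : V × V, r ∈ E' ∧ r ∉ E := by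
      by_cases hxX : x ∈ X
      · refine ⟨(x, b), ?_, ?_⟩
        · rw [hE', mem_filter, mem_product, mem_compl]
          exact ⟨⟨hxX, hbX⟩, pinch_adj_right hxb⟩
        · rw [hE, mem_filter]
          exact fun h => h2 h.2
      · refine ⟨(a, x), ?_, ?_⟩
        · rw [hE', mem_filter, mem_product, mem_compl]
          exact ⟨⟨haX, hxX⟩, (pinch_adj_left hxa).symm⟩
        · rw [hE, mem_filter]
          exact fun h => h1 h.2.symm
    obtain ⟨r, hr, hrE⟩ := hnew
    have hsub : insert r (E.erase (a, b)) ⊆ E' := by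
      intro p hp
      rcases mem_insert.1 hp with rfl | hp
      · exact hr
      · obtain ⟨hne, hp⟩ := mem_erase.1 hp
        rw [hE, mem_filter, mem_product, mem_compl] at hp
        rw [hE', mem_filter, mem_product, mem_compl]
        refine ⟨hp.1, pinch_adj_of hp.2 ?_⟩
        intro h5
        rw [Sym2.eq_iff] at h5
        rcases h5 with ⟨h5, h6⟩ | ⟨h5, h6⟩
        · exact hne (Prod.ext h5 h6)
        · exact hbX (h5 ▸ hp.1.1)
    have hc := card_le_card hsub
    rw [card_insert_of_notMem (fun h => hrE (mem_of_mem_erase h)), card_erase_of_mem habE] at hc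
    have hpos : 0 < #E := card_pos.2 ⟨_, habE⟩
    show #E ≤ #E'
    omega
  by_cases ha : a ∈ X
  · by_cases hb : b ∈ X
    · refine pin_ew_mono fun p hp q hq hpq => ⟨hp, hq, pinch_adj_of hpq ?_⟩
      intro h5
      rw [mem_compl] at hq
      rw [Sym2.eq_iff] at h5
      rcases h5 with ⟨_, h5⟩ | ⟨_, h5⟩
      · exact hq (h5 ▸ hb)
      · exact hq (h5 ▸ ha)
    · exact key a b hab hxa hxb h1 h2 ha hb
  · by_cases hb : b ∈ X
    · rw [pinch_comm]
      exact key b a hab.symm hxb hxa h2 h1 hb ha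
    · refine pin_ew_mono fun p hp q hq hpq => ⟨hp, hq, pinch_adj_of hpq ?_⟩
      intro h5
      rw [Sym2.eq_iff] at h5
      rcases h5 with ⟨h5, _⟩ | ⟨h5, _⟩
      · exact ha (h5 ▸ hp)
      · exact hb (h5 ▸ hp)

theorem pin_inside_far {X : Finset V} (h : x ∉ X ∨ (a ∉ X ∧ b ∉ X)) :
    ew (pinch G x a b) X X ≤ ew G X X := by
  refine pin_ew_mono fun p hp q hq hpq => ⟨hp, hq, ?_⟩
  rw [pinch_adj] at hpq
  rcases hpq with hpq | ⟨hpq | hpq, _⟩
  · exact hpq.1
  · rw [Sym2.eq_iff] at hpq
    rcases hpq with ⟨h1, h2⟩ | ⟨h1, h2⟩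
    · rw [h1] at hp
      rw [h2] at hq
      rcases h with h | h
      · exact absurd hp h
      · exact absurd hq h.1
    · rw [h1] at hp
      rw [h2] at hq
      rcases h with h | h
      · exact absurd hq h
      · exact absurd hp h.1
  · rw [Sym2.eq_iff] at hpq
    rcases hpq with ⟨h1, h2⟩ | ⟨h1, h2⟩
    · rw [h1] at hp
      rw [h2] at hq
      rcases h with h | h
      · exact absurd hp h
      · exact absurd hq h.2
    · rw [h1] at hp
      rw [h2] at hq
      rcases h with h | h
      · exact absurd hq h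
      · exact absurd hp h.2

theorem pin_inside (hab : G.Adj a b) (X : Finset V) :
    ew (pinch G x a b) X X ≤ ew G X X + 2 := by
  -- exactly one end inside
  have key : ∀ a b : V, b ∉ X → ew (pinch G x a b) X X ≤ ew G X X + 2 := by
    intro a b hb
    have hsub : ({p ∈ X ×ˢ X | (pinch G x a b).Adj p.1 p.2} : Finset (V × V)) ⊆
        insert (x, a) (insert (a, x) {p ∈ X ×ˢ X | G.Adj p.1 p.2}) := by
      rintro ⟨p, q⟩ hp
      rw [mem_filter, mem_product] at hp
      obtain ⟨⟨hp, hq⟩, hpq⟩ := hp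
      rw [mem_insert, mem_insert, mem_filter, mem_product]
      dsimp only at hp hq hpq ⊢
      rw [pinch_adj] at hpq
      rcases hpq with hpq | ⟨hpq | hpq, _⟩
      · exact Or.inr (Or.inr ⟨⟨hp, hq⟩, hpq.1⟩)
      · rw [Sym2.eq_iff] at hpq
        rcases hpq with ⟨h1, h2⟩ | ⟨h1, h2⟩
        · exact Or.inl (by rw [h1, h2])
        · exact Or.inr (Or.inl (by rw [h1, h2]))
      · rw [Sym2.eq_iff] at hpq
        rcases hpq with ⟨_, h2⟩ | ⟨h2, _⟩
        · exact absurd (h2 ▸ hq) hb
        · exact absurd (h2 ▸ hp) hb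
    have hc := card_le_card hsub
    have h1 := card_insert_le (x, a) (insert (a, x) ({p ∈ X ×ˢ X | G.Adj p.1 p.2} :
      Finset (V × V)))
    have h2 := card_insert_le (a, x) ({p ∈ X ×ˢ X | G.Adj p.1 p.2} : Finset (V × V))
    unfold ew
    omega
  by_cases hb : b ∈ X
  · by_cases ha : a ∈ X
    · set E : Finset (V × V) := {p ∈ X ×ˢ X | G.Adj p.1 p.2} with hE
      have h1 : (a, b) ∈ E := by
        rw [hE, mem_filter, mem_product]
        exact ⟨⟨ha, hb⟩, hab⟩
      have h2 : (b, a) ∈ E.erase (a, b) := by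
        rw [mem_erase, hE, mem_filter, mem_product]
        exact ⟨fun h => hab.ne (Prod.mk.inj h).2, ⟨⟨hb, ha⟩, hab.symm⟩⟩
      have hsub : ({p ∈ X ×ˢ X | (pinch G x a b).Adj p.1 p.2} : Finset (V × V)) ⊆
          insert (x, a) (insert (a, x) (insert (x, b) (insert (b, x)
            ((E.erase (a, b)).erase (b, a))))) := by
        rintro ⟨p, q⟩ hp
        rw [mem_filter, mem_product] at hp
        obtain ⟨⟨hp, hq⟩, hpq⟩ := hp
        rw [mem_insert, mem_insert, mem_insert, mem_insert, mem_erase, mem_erase, hE, mem_filter,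
          mem_product]
        dsimp only at hp hq hpq ⊢
        rw [pinch_adj] at hpq
        rcases hpq with hpq | ⟨hpq | hpq, _⟩
        · refine Or.inr (Or.inr (Or.inr (Or.inr ⟨?_, ?_, ⟨hp, hq⟩, hpq.1⟩)))
          · intro h3
            obtain ⟨h3, h4⟩ := Prod.mk.inj h3
            exact hpq.2 (by rw [h3, h4]; exact Sym2.eq_swap)
          · intro h3
            obtain ⟨h3, h4⟩ := Prod.mk.inj h3
            exact hpq.2 (by rw [h3, h4])
        · rw [Sym2.eq_iff] at hpq
          rcases hpq with ⟨h3, h4⟩ | ⟨h3, h4⟩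
          · exact Or.inl (by rw [h3, h4])
          · exact Or.inr (Or.inl (by rw [h3, h4]))
        · rw [Sym2.eq_iff] at hpq
          rcases hpq with ⟨h3, h4⟩ | ⟨h3, h4⟩
          · exact Or.inr (Or.inr (Or.inl (by rw [h3, h4])))
          · exact Or.inr (Or.inr (Or.inr (Or.inl (by rw [h3, h4]))))
      have hc := card_le_card hsub
      have c1 := card_erase_of_mem h1
      have c2 := card_erase_of_mem h2
      have p1 : 0 < #E := card_pos.2 ⟨_, h1⟩
      have p2 : 0 < #(E.erase (a, b)) := card_pos.2 ⟨_, h2⟩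
      have i1 := card_insert_le (x, a) (insert (a, x) (insert (x, b) (insert (b, x)
            ((E.erase (a, b)).erase (b, a)))))
      have i2 := card_insert_le (a, x) (insert (x, b) (insert (b, x)
            ((E.erase (a, b)).erase (b, a))))
      have i3 := card_insert_le (x, b) (insert (b, x) ((E.erase (a, b)).erase (b, a)))
      have i4 := card_insert_le (b, x) ((E.erase (a, b)).erase (b, a))
      show #({p ∈ X ×ˢ X | (pinch G x a b).Adj p.1 p.2} : Finset (V × V)) ≤ #E + 2
      omega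
    · rw [pinch_comm]
      exact key b a ha
  · exact key a b hb

end

theorem Rob.pinch_step {G : SimpleGraph V} {t lam K : ℕ} {x a b : V} (h : Rob G t lam K)
    (hlam : lam ≤ K) (hab : G.Adj a b) (hxa : x ≠ a) (hxb : x ≠ b) (h1 : ¬ G.Adj x a)
    (h2 : ¬ G.Adj x b)
    (hfar : ∀ X : Finset V, x ∈ X → (a ∈ X ∨ b ∈ X) → #X ≤ K → ew G X X + 4 ≤ 2 * #X)
    (ht : deg G x + 2 ≤ t)
    (hdef : ∑ v ∈ supp (pinch G x a b), (3 - deg (pinch G x a b) v) ≤ 2) :
    Rob (pinch G x a b) t lam K := by
  have hnew := deg_pinch_new hab hxa hxb h1 h2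
  have hold : ∀ v, v ≠ x → deg (pinch G x a b) v = deg G v := fun v hv =>
    deg_pinch_old hab hxa hxb h1 h2 hv
  have hsp : ∀ X : Finset V, X.Nonempty → #X ≤ K →
      ew (pinch G x a b) X X + 2 ≤ 2 * #X := by
    intro X hX hXK
    by_cases hc : x ∈ X ∧ (a ∈ X ∨ b ∈ X)
    · have h3 := hfar X hc.1 hc.2 hXK
      have h4 := pin_inside (x := x) hab X
      omega
    · have h3 := h.sparse X hX hXK
      have h4 : ew (pinch G x a b) X X ≤ ew G X X := by
        apply pin_inside_far
        by_cases hx : x ∈ X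
        · right
          exact ⟨fun h => hc ⟨hx, Or.inl h⟩, fun h => hc ⟨hx, Or.inr h⟩⟩
        · exact Or.inl hx
      omega
  refine ⟨?_, hsp, ?_, hdef⟩
  · intro v
    by_cases hv : v = x
    · rw [hv, hnew]
      exact ht
    · rw [hold v hv]
      exact h.le v
  · refine pin_cut (x := x) h hlam ?_ hsp (pin_mono hab hxa hxb h1 h2) hdef
    ext v
    rw [mem_insert, pin_mem_supp, pin_mem_supp]
    by_cases hv : v = x
    · rw [hv, hnew]
      simp
    · rw [hold v hv]
      simp [hv]

/-- the new vertex `y` is joined to `x` -/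
theorem Rob.link_step {G : SimpleGraph V} {t lam K : ℕ} {x y : V} (h : Rob G t lam K)
    (hlam : lam ≤ K) (hx : deg G x ≠ 0) (hy : deg G y = 0) (ht : deg G x + 1 ≤ t)
    (hdef : ∑ v ∈ supp (addE G x y), (3 - deg (addE G x y) v) ≤ 2) :
    Rob (addE G x y) t lam K := by
  have hxy : x ≠ y := by
    rintro rfl
    exact hx hy
  have hy0 : ∀ w, ¬ G.Adj y w := not_adj_of_deg hy
  have hnadj : ¬ G.Adj x y := fun h => hy0 x h.symm
  have dx := deg_addE_left hxy hnadj
  have dy := deg_addE_right hxy hnadj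
  have hold : ∀ v, v ≠ x → v ≠ y → deg (addE G x y) v = deg G v := fun v h1 h2 =>
    deg_addE_other h1 h2
  have hsp : ∀ X : Finset V, X.Nonempty → #X ≤ K → ew (addE G x y) X X + 2 ≤ 2 * #X := by
    intro X hX hXK
    by_cases hc : x ∈ X ∧ y ∈ X
    · have hne : (X.erase y).Nonempty := ⟨x, mem_erase.2 ⟨hxy, hc.1⟩⟩
      have hcard := card_erase_of_mem hc.2
      have hpos : 0 < #(X.erase y) := card_pos.2 hne
      have h3 := h.sparse (X.erase y) hne (by omega)
      have hsub : ({p ∈ X ×ˢ X | (addE G x y).Adj p.1 p.2} : Finset (V × V)) ⊆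
          insert (x, y) (insert (y, x) {p ∈ X.erase y ×ˢ X.erase y | G.Adj p.1 p.2}) := by
        rintro ⟨p, q⟩ hp
        rw [mem_filter, mem_product] at hp
        obtain ⟨⟨hp, hq⟩, hpq⟩ := hp
        rw [mem_insert, mem_insert, mem_filter, mem_product]
        dsimp only at hp hq hpq ⊢
        rw [addE_adj] at hpq
        rcases hpq with hpq | ⟨hpq, _⟩
        · refine Or.inr (Or.inr ⟨⟨mem_erase.2 ⟨?_, hp⟩, mem_erase.2 ⟨?_, hq⟩⟩, hpq⟩)
          · rintro rfl
            exact hy0 _ hpq
          · rintro rfl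
            exact hy0 _ hpq.symm
        · rw [Sym2.eq_iff] at hpq
          rcases hpq with ⟨h1, h2⟩ | ⟨h1, h2⟩
          · exact Or.inl (by rw [h1, h2])
          · exact Or.inr (Or.inl (by rw [h1, h2]))
      have hc1 := card_le_card hsub
      have i1 := card_insert_le (x, y) (insert (y, x)
        ({p ∈ X.erase y ×ˢ X.erase y | G.Adj p.1 p.2} : Finset (V × V)))
      have i2 := card_insert_le (y, x)
        ({p ∈ X.erase y ×ˢ X.erase y | G.Adj p.1 p.2} : Finset (V × V))
      unfold ew at h3 ⊢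
      omega
    · have h3 := h.sparse X hX hXK
      have h4 : ew (addE G x y) X X ≤ ew G X X := by
        refine pin_ew_mono fun p hp q hq hpq => ⟨hp, hq, ?_⟩
        rw [addE_adj] at hpq
        rcases hpq with hpq | ⟨hpq, _⟩
        · exact hpq
        · rw [Sym2.eq_iff] at hpq
          rcases hpq with ⟨h5, h6⟩ | ⟨h5, h6⟩
          · exact absurd ⟨h5 ▸ hp, h6 ▸ hq⟩ hc
          · exact absurd ⟨h6 ▸ hq, h5 ▸ hp⟩ hc
      omega
  refine ⟨?_, hsp, ?_, hdef⟩
  · intro v
    by_cases hv : v = x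
    · rw [hv, dx]
      exact ht
    · by_cases hv2 : v = y
      · rw [hv2, dy, hy]
        omega
      · rw [hold v hv hv2]
        exact h.le v
  · refine pin_cut (x := y) h hlam ?_ hsp ?_ hdef
    · ext v
      rw [mem_insert, pin_mem_supp, pin_mem_supp]
      by_cases hv : v = x
      · rw [hv, dx]
        simp [hx]
      · by_cases hv2 : v = y
        · rw [hv2, dy]
          simp
        · rw [hold v hv hv2]
          simp [hv2]
    · intro X
      exact pin_ew_mono fun p hp q hq hpq => ⟨hp, hq, le_addE G x y hpq⟩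

end Pool.Agent.AvgConn
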