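import Pool.Agent.Work.MP_88992e_co.RobDefs
import Pool.Agent.Work.MP_88992e_co.Cay

/-!
# The base graph on a subset of a larger vertex set
-/

namespace Pool.Agent.AvgConn

open Finset
open scoped Classical

universe u

set_option linter.unusedSectionVars false

section map

variable {W : Type} [Fintype W] {V : Type u} [Fintype V] (f : W ↪ V) (H : SimpleGraph W)

/-- the part of `X` in the image -/
noncomputable def pb (X : Finset V) : Finset W := {w | f w ∈ X}

theorem mem_pb {X : Finset V} {w : W} : w ∈ pb f X ↔ f w ∈ X := by simp [pb]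

theorem deg_map_mem (w : W) : deg (H.map f) (f w) = deg H w := by
  rw [deg, deg]
  have h : (H.map f).neighborSet (f w) = f '' H.neighborSet w := by
    ext y
    rw [SimpleGraph.mem_neighborSet, SimpleGraph.map_adj]
    constructor
    · rintro ⟨a, b, hab, ha, rfl⟩
      exact ⟨b, by rw [SimpleGraph.mem_neighborSet, ← f.injective ha]; exact hab, rfl⟩
    · rintro ⟨b, hb, rfl⟩
      exact ⟨w, b, hb, rfl, rfl⟩
  rw [h, Set.ncard_image_of_injective _ f.injective]

theorem deg_map_not_mem {v : V} (hv : ∀ w, f w ≠ v) : deg (H.map f) v = 0 := by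
  rw [deg]
  have h : (H.map f).neighborSet v = ∅ := by
    ext y
    rw [SimpleGraph.mem_neighborSet, SimpleGraph.map_adj]
    constructor
    · rintro ⟨a, b, -, ha, -⟩
      exact (hv a ha).elim
    · intro h; exact h.elim
  rw [h, Set.ncard_empty]

theorem ew_of (G : SimpleGraph V)
    (hG : ∀ x y, G.Adj x y ↔ ∃ a b, H.Adj a b ∧ f a = x ∧ f b = y) (X Y : Finset V) :
    ew G X Y = ew H (pb f X) (pb f Y) := by
  rw [ew, ew]
  symm
  refine Finset.card_bij (fun q _ => (f q.1, f q.2)) ?_ ?_ ?_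
  · intro q hq
    rw [mem_filter, mem_product] at hq ⊢
    exact ⟨⟨(mem_pb f).1 hq.1.1, (mem_pb f).1 hq.1.2⟩, (hG _ _).2 ⟨_, _, hq.2, rfl, rfl⟩⟩
  · intro q _ q' _ h
    rw [Prod.mk.injEq] at h
    exact Prod.ext (f.injective h.1) (f.injective h.2)
  · rintro ⟨x, y⟩ hp
    rw [mem_filter, mem_product] at hp
    obtain ⟨a, b, hab, ha, hb⟩ := (hG _ _).1 hp.2
    refine ⟨(a, b), ?_, ?_⟩
    · rw [mem_filter, mem_product]
      refine ⟨⟨(mem_pb f).2 ?_, (mem_pb f).2 ?_⟩, hab⟩
      · rw [ha]; exact hp.1.1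
      · rw [hb]; exact hp.1.2
    · rw [ha, hb]

theorem ew_map (X Y : Finset V) : ew (H.map f) X Y = ew H (pb f X) (pb f Y) :=
  ew_of f H _ (fun x y => SimpleGraph.map_adj f H x y) X Y

theorem card_pb_le (X : Finset V) : #(pb f X) ≤ #X := by
  refine Finset.card_le_card_of_injOn f (fun w hw => (mem_pb f).1 hw) (f.injective.injOn)

theorem card_pb {X : Finset V} (hX : ∀ x ∈ X, ∃ w, f w = x) : #(pb f X) = #X := by
  refine le_antisymm (card_pb_le f X) ?_
  have : X ⊆ (pb f X).map f := by
    intro x hx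
    obtain ⟨w, rfl⟩ := hX x hx
    exact Finset.mem_map_of_mem f ((mem_pb f).2 hx)
  calc #X ≤ #((pb f X).map f) := card_le_card this
    _ = #(pb f X) := Finset.card_map f

end map

/-- the base graph on any `b` vertices of a larger vertex set -/
theorem base_in (k t lam K B : ℕ) (hk : 3 ≤ k) (hkt : k ≤ t) :
    ∃ b : ℕ, B ≤ b ∧ ∀ (V : Type u) [Fintype V] (S : Finset V), #S = b →
      ∃ G : SimpleGraph V, (∀ v, deg G v = if v ∈ S then k else 0) ∧ Rob G t lam K := by
  obtain ⟨W, iW, H, h1, h2, h3, h4⟩ := base_graph k hk lam K B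
  refine ⟨Fintype.card W, h4, fun V _ S hS => ?_⟩
  have hc : Fintype.card W = Fintype.card S := by rw [Fintype.card_coe, hS]
  let eq : W ≃ S := Fintype.equivOfCardEq hc
  let f : W ↪ V := eq.toEmbedding.trans (Function.Embedding.subtype _)
  have hf : ∀ w, f w ∈ S := fun w => (eq w).2
  have hsur : ∀ x ∈ S, ∃ w, f w = x := by
    intro x hx
    refine ⟨eq.symm ⟨x, hx⟩, ?_⟩
    show ((eq (eq.symm ⟨x, hx⟩) : S) : V) = x
    rw [Equiv.apply_symm_apply]
  have hdeg : ∀ v, deg (H.map f) v = if v ∈ S then k else 0 := by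
    intro v
    split_ifs with hv
    · obtain ⟨w, rfl⟩ := hsur v hv
      rw [deg_map_mem, h1]
    · exact deg_map_not_mem f H fun w h => hv (h ▸ hf w)
  have hsupp : supp (H.map f) = S := by
    ext v
    rw [supp, mem_filter, hdeg]
    constructor
    · rintro ⟨-, h⟩
      by_contra hv
      rw [if_neg hv] at h
      exact h rfl
    · intro hv
      exact ⟨mem_univ _, by rw [if_pos hv]; omega⟩
  refine ⟨H.map f, hdeg, ?_, ?_, ?_, ?_⟩
  · intro v
    rw [hdeg]
    split_ifs
    · exact hkt
    · exact Nat.zero_le _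
  · intro X hX hK
    rw [ew_map]
    rcases (pb f X).eq_empty_or_nonempty with h | h
    · rw [h]
      have : 0 < #X := hX.card_pos
      simp only [ew, Finset.empty_product, Finset.filter_empty, Finset.card_empty]
      omega
    · have h5 := h2 _ h ((card_pb_le f X).trans hK)
      have h6 := card_pb_le f X
      omega
  · intro X hXs hX1 hX2
    rw [hsupp] at hXs hX2
    rw [ew_map]
    have h5 : #(pb f X) = #X := card_pb f fun x hx => hsur x (hXs hx)
    have h6 : pb f Xᶜ = (pb f X)ᶜ := by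
      ext w
      rw [mem_compl, mem_pb, mem_pb, mem_compl]
    have h7 : #(pb f (S \ X)) = #(S \ X) := card_pb f fun x hx =>
      hsur x (mem_sdiff.1 hx).1
    have h8 : pb f (S \ X) = (pb f X)ᶜ := by
      ext w
      rw [mem_compl, mem_pb, mem_pb, mem_sdiff]
      exact ⟨fun h => h.2, fun h => ⟨hf w, h⟩⟩
    rw [h6]
    refine h3 _ (by rw [h5]; exact hX1) ?_
    rw [← h8, h7]
    exact hX2
  · rw [hsupp]
    have : ∑ v ∈ S, (3 - deg (H.map f) v) = 0 := by
      refine Finset.sum_eq_zero fun v hv => ?_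
      rw [hdeg, if_pos hv]
      omega
    omega

end Pool.Agent.AvgConn
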