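import Pool.Agent.Work.MP_88992e_co.Exp
import Pool.Agent.Work.MP_88992e_co.Far
import Pool.Agent.Work.MP_88992e_co.Pin
import Pool.Agent.Work.MP_88992e_co.Trn

/-!
# Inserting all vertices
-/

namespace Pool.Agent.AvgConn

open Finset
open scoped Classical

universe u

variable {V : Type u} [Fintype V]

lemma even_sum_deg (G : SimpleGraph V) : Even (∑ v, deg G v) := by
  have h := SimpleGraph.sum_degrees_eq_twice_card_edges G
  have h2 : ∀ v, deg G v = G.degree v := by
    intro v
    rw [deg_eq, ← SimpleGraph.card_neighborFinset_eq_degree]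
    congr 1
    ext w
    simp
  rw [sum_congr rfl fun v _ => h2 v, h]
  exact even_two_mul _

/-- raising the degree of `x` by `2 j` -/
theorem Rob.raise {G : SimpleGraph V} {t lam K : ℕ} (h : Rob G t lam K) (hlam : lam ≤ K)
    (hK : 1 ≤ K) {x : V} (h3 : ∀ v, v ≠ x → deg G v ≠ 0 → 3 ≤ deg G v)
    (hs : (t + 1) ^ (K + 1) < #(supp G)) (j : ℕ) (ht : deg G x + 2 * j ≤ t) :
    ∃ H : SimpleGraph V, Rob H t lam K ∧ deg H x = deg G x + 2 * j ∧
      ∀ v, v ≠ x → deg H v = deg G v := by
  induction j with
  | zero => exact ⟨G, h, by simp, fun _ _ => rfl⟩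
  | succ j ih =>
    obtain ⟨H, h1, h2, h4⟩ := ih (by omega)
    have hsH : (t + 1) ^ (K + 1) < #(supp H) := by
      refine hs.trans_le (card_le_card ?_)
      intro v hv
      rw [mem_supp] at hv ⊢
      by_cases hvx : v = x
      · subst hvx
        rw [h2]
        omega
      · rw [h4 v hvx]
        exact hv
    obtain ⟨a, b, hab, hxa, hxb, h5, h6, hfar⟩ := h1.exists_far hK hsH x
    have hdx := deg_pinch_new hab hxa hxb h5 h6
    have hdo := fun v (hv : v ≠ x) => deg_pinch_old hab hxa hxb h5 h6 hv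
    refine ⟨pinch H x a b, h1.pinch_step hlam hab hxa hxb h5 h6 hfar (by omega) ?_,
      by omega, fun v hv => by rw [hdo v hv, h4 v hv]⟩
    -- only `x` can be deficient
    have hxs : x ∈ supp (pinch H x a b) := mem_supp.2 (by omega)
    rw [← add_sum_erase _ _ hxs]
    have h0 : ∑ v ∈ (supp (pinch H x a b)).erase x, (3 - deg (pinch H x a b) v) = 0 := by
      refine sum_eq_zero fun v hv => ?_
      obtain ⟨hvx, hvs⟩ := mem_erase.1 hv
      rw [mem_supp, hdo v hvx, h4 v hvx] at hvs
      have := h3 v hvx hvs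
      rw [hdo v hvx, h4 v hvx]
      omega
    rw [h0]
    omega

/-- inserting one vertex of even degree -/
theorem Rob.insert_even {G : SimpleGraph V} {t lam K : ℕ} (h : Rob G t lam K) (hlam : lam ≤ K)
    (hK : 1 ≤ K) {x : V} (h3 : ∀ v, deg G v ≠ 0 → 3 ≤ deg G v) (hx : deg G x = 0)
    (hs : (t + 1) ^ (K + 1) < #(supp G)) {r : ℕ} (hr : Even r) (ht : r ≤ t) :
    ∃ H : SimpleGraph V, Rob H t lam K ∧ deg H x = r ∧ ∀ v, v ≠ x → deg H v = deg G v := by
  obtain ⟨j, hj⟩ := hr
  obtain ⟨H, h1, h2, h4⟩ := h.raise hlam hK (x := x) (fun v _ => h3 v) hs j (by omega)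
  exact ⟨H, h1, by omega, h4⟩

/-- inserting two vertices of odd degree -/
theorem Rob.insert_odd {G : SimpleGraph V} {t lam K : ℕ} (h : Rob G t lam K) (hlam : lam ≤ K)
    (hK : 1 ≤ K) {x y : V} (hxy : x ≠ y) (h3 : ∀ v, deg G v ≠ 0 → 3 ≤ deg G v)
    (hx : deg G x = 0) (hy : deg G y = 0) (hs : (t + 1) ^ (K + 1) < #(supp G)) {r s : ℕ}
    (hr : Odd r) (hs' : Odd s) (hr3 : 3 ≤ r) (hs3 : 3 ≤ s) (hrt : r ≤ t) (hst : s ≤ t) :
    ∃ H : SimpleGraph V, Rob H t lam K ∧ deg H x = r ∧ deg H y = s ∧
      ∀ v, v ≠ x → v ≠ y → deg H v = deg G v := by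
  obtain ⟨i, hi⟩ := hr
  obtain ⟨j, hj⟩ := hs'
  obtain ⟨H₁, h1, h2, h4⟩ := h.raise hlam hK (x := x) (fun v _ => h3 v) hs i (by omega)
  have hy1 : deg H₁ y = 0 := by rw [h4 y hxy.symm, hy]
  have hnadj : ¬ H₁.Adj x y := fun h0 => not_adj_of_deg hy1 x h0.symm
  have dx : deg (addE H₁ x y) x = r := by
    rw [deg_addE_left hxy hnadj]
    omega
  have dy : deg (addE H₁ x y) y = 1 := by
    rw [deg_addE_right hxy hnadj, hy1]
  have dv : ∀ v, v ≠ x → v ≠ y → deg (addE H₁ x y) v = deg G v := by
    intro v hv hv'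
    rw [deg_addE_other hv hv', h4 v hv]
  have hR : Rob (addE H₁ x y) t lam K := by
    refine h1.link_step hlam (by omega) hy1 (by omega) ?_
    have hys : y ∈ supp (addE H₁ x y) := mem_supp.2 (by omega)
    rw [← add_sum_erase _ _ hys]
    have h0 : ∑ v ∈ (supp (addE H₁ x y)).erase y, (3 - deg (addE H₁ x y) v) = 0 := by
      refine sum_eq_zero fun v hv => ?_
      obtain ⟨hvy, hvs⟩ := mem_erase.1 hv
      by_cases hvx : v = x
      · subst hvx
        omega
      · rw [mem_supp, dv v hvx hvy] at hvs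
        have := h3 v hvs
        rw [dv v hvx hvy]
        omega
    rw [h0]
    omega
  have hsH : (t + 1) ^ (K + 1) < #(supp (addE H₁ x y)) := by
    refine hs.trans_le (card_le_card ?_)
    intro v hv
    rw [mem_supp] at hv ⊢
    by_cases hvx : v = x
    · subst hvx
      omega
    · by_cases hvy : v = y
      · subst hvy
        omega
      · rw [dv v hvx hvy]
        exact hv
  obtain ⟨H, h5, h6, h7⟩ := hR.raise hlam hK (x := y) (by
    intro v hvy hv
    by_cases hvx : v = x
    · subst hvx
      omega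
    · rw [dv v hvx hvy] at hv ⊢
      exact h3 v hv) hsH j (by omega)
  refine ⟨H, h5, ?_, by omega, fun v hv hv' => ?_⟩
  · rw [h7 x hxy, dx]
  · rw [h7 v hv', dv v hv hv']

/-- inserting all vertices -/
theorem Rob.complete {t lam K : ℕ} (hlam : lam ≤ K) (hK : 1 ≤ K) (e : V → ℕ)
    (het : ∀ v, e v ≤ t) (he3 : ∀ v, e v ≠ 0 → 3 ≤ e v) (hev : Even (∑ v, e v)) (n : ℕ) :
    ∀ G : SimpleGraph V, Rob G t lam K → (∀ v, deg G v = e v ∨ deg G v = 0) →
      (t + 1) ^ (K + 1) < #(supp G) → #{v | e v ≠ 0 ∧ deg G v = 0} ≤ n →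
      ∃ H : SimpleGraph V, Rob H t lam K ∧ ∀ v, deg H v = e v := by
  induction n using Nat.strong_induction_on with
  | _ n ih =>
    intro G hG hd hs hn
    have h3 : ∀ v, deg G v ≠ 0 → 3 ≤ deg G v := by
      intro v hv
      rcases hd v with h | h
      · rw [h] at hv ⊢
        exact he3 v hv
      · exact absurd h hv
    set R : Finset V := {v | e v ≠ 0 ∧ deg G v = 0} with hR
    by_cases hR0 : R = ∅
    · refine ⟨G, hG, fun v => ?_⟩
      rcases hd v with h | h
      · exact h
      · by_contra hne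
        have : v ∈ R := by
          rw [hR, mem_filter]
          exact ⟨mem_univ _, fun h0 => hne (by rw [h, h0]), h⟩
        rw [hR0] at this
        exact notMem_empty _ this
    -- the step: a larger graph
    have step : ∀ (H : SimpleGraph V) (x : V), x ∈ R → Rob H t lam K →
        (∀ v, deg H v = e v ∨ deg H v = 0) → (∀ v, deg G v ≠ 0 → deg H v ≠ 0) →
        deg H x ≠ 0 → ∃ H' : SimpleGraph V, Rob H' t lam K ∧ ∀ v, deg H' v = e v := by
      intro H x hx hH hdH hle hxH
      have hlt : #{v | e v ≠ 0 ∧ deg H v = 0} < #R := by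
        apply card_lt_card
        rw [ssubset_iff_of_subset]
        · refine ⟨x, hx, ?_⟩
          simp [hxH]
        · intro v hv
          simp only [hR, mem_filter, mem_univ, true_and] at hv ⊢
          refine ⟨hv.1, ?_⟩
          by_contra h0
          exact hle v h0 hv.2
      refine ih _ (hlt.trans_le hn) H hH hdH (hs.trans_le (card_le_card ?_)) le_rfl
      intro v hv
      rw [mem_supp] at hv ⊢
      exact hle v hv
    by_cases hex : ∃ x ∈ R, Even (e x)
    · obtain ⟨x, hx, hxe⟩ := hex
      have hx' := hx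
      simp only [hR, mem_filter, mem_univ, true_and] at hx'
      obtain ⟨H, h1, h2, h4⟩ := hG.insert_even hlam hK h3 hx'.2 hs hxe (het x)
      refine step H x hx h1 ?_ ?_ (by rw [h2]; exact hx'.1)
      · intro v
        by_cases hvx : v = x
        · subst hvx
          exact Or.inl h2
        · rw [h4 v hvx]
          exact hd v
      · intro v hv
        by_cases hvx : v = x
        · subst hvx
          rw [h2]
          exact hx'.1
        · rw [h4 v hvx]
          exact hv
    · push Not at hex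
      have hodd : ∀ x ∈ R, Odd (e x) := fun x hx => Nat.not_even_iff_odd.1 (hex x hx)
      -- the number of remaining vertices is even
      have hsum : ∑ v, e v = ∑ v, deg G v + ∑ v ∈ R, e v := by
        rw [hR, sum_filter, ← sum_add_distrib]
        refine sum_congr rfl fun v _ => ?_
        by_cases h0 : deg G v = 0
        · by_cases h5 : e v = 0
          · simp [h0, h5]
          · simp [h0, h5]
        · rcases hd v with h | h
          · rw [if_neg (by tauto), h]
            rfl
          · exact absurd h h0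
      have heR : Even (∑ v ∈ R, e v) := by
        have h5 := even_sum_deg G
        rw [hsum] at hev
        exact (Nat.even_add.1 hev).1 h5
      have hcard : Even #R := by
        by_contra hc
        have hc' := Nat.not_even_iff_odd.1 hc
        have : Odd (∑ v ∈ R, e v) := by
          rw [Finset.odd_sum_iff_odd_card_odd]
          rw [filter_true_of_mem hodd]
          exact hc'
        exact (Nat.not_even_iff_odd.2 this) heR
      have hpos : 0 < #R := card_pos.2 (nonempty_iff_ne_empty.2 hR0)
      obtain ⟨k, hk⟩ := hcard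
      obtain ⟨x, hx, y, hy, hxy⟩ := one_lt_card.1 (by omega : 1 < #R)
      have hx' := hx
      have hy' := hy
      simp only [hR, mem_filter, mem_univ, true_and] at hx' hy'
      obtain ⟨H, h1, h2, h2', h4⟩ := hG.insert_odd hlam hK hxy h3 hx'.2 hy'.2 hs (hodd x hx)
        (hodd y hy) (he3 x hx'.1) (he3 y hy'.1) (het x) (het y)
      refine step H x hx h1 ?_ ?_ (by rw [h2]; exact hx'.1)
      · intro v
        by_cases hvx : v = x
        · subst hvx
          exact Or.inl h2
        · by_cases hvy : v = y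
          · subst hvy
            exact Or.inl h2'
          · rw [h4 v hvx hvy]
            exact hd v
      · intro v hv
        by_cases hvx : v = x
        · subst hvx
          rw [h2]
          exact hx'.1
        · by_cases hvy : v = y
          · subst hvy
            rw [h2']
            exact hy'.1
          · rw [h4 v hvx hvy]
            exact hv

/-- perfect graphs with bounded degrees, at least three -/
theorem exists_perfect (t : ℕ) : ∃ C : ℕ, ∀ (V : Type u) [Fintype V] (e : V → ℕ),
    (∀ v, e v ≤ t) → (∀ v, e v ≠ 0 → 3 ≤ e v) → Even (∑ v, e v) → C ≤ #{v | e v ≠ 0} →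
    ∃ G : SimpleGraph V, (∀ v, deg G v = e v) ∧ Good G (deg G) := by
  set lam := t * t + 1 with hlam
  set K := lam + t with hK
  have hbase : ∀ k : ℕ, ∃ b : ℕ, 3 ≤ k → k ≤ t → (t + 1) ^ (K + 1) + 1 ≤ b ∧
      ∀ (V : Type u) [Fintype V] (S : Finset V), #S = b →
        ∃ G : SimpleGraph V, (∀ v, deg G v = if v ∈ S then k else 0) ∧ Rob G t lam K := by
    intro k
    by_cases hk : 3 ≤ k ∧ k ≤ t
    · obtain ⟨b, hb1, hb2⟩ := base_in.{u} k t lam K ((t + 1) ^ (K + 1) + 1) hk.1 hk.2
      exact ⟨b, fun _ _ => ⟨hb1, hb2⟩⟩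
    · exact ⟨0, fun h1 h2 => absurd ⟨h1, h2⟩ hk⟩
  choose b hb using hbase
  refine ⟨∑ k ∈ Icc 3 t, b k, ?_⟩
  intro V _ e het he3 hev hC
  rcases Nat.lt_or_ge t 3 with ht | ht
  · -- the empty graph
    have he0 : ∀ v, e v = 0 := by
      intro v
      by_contra h0
      have := he3 v h0
      have := het v
      omega
    have hd0 : ∀ v, deg (⊥ : SimpleGraph V) v = 0 := by
      intro v
      by_contra h0
      obtain ⟨w, hw⟩ := (deg_pos_iff _ v).1 h0
      exact hw
    refine ⟨⊥, fun v => by rw [hd0, he0], fun u v _ => ?_⟩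
    rw [hd0, Nat.zero_min]
    exact perf_zero _ _ _
  · -- an abundant degree
    have hpig : ∃ k ∈ Icc 3 t, b k ≤ #{v | e v = k} := by
      by_contra hcon
      push Not at hcon
      have h1 : #{v | e v ≠ 0} = ∑ k ∈ Icc 3 t, #{v | e v = k} := by
        rw [← card_biUnion]
        · congr 1
          ext v
          simp only [mem_filter, mem_univ, true_and, mem_biUnion, mem_Icc]
          constructor
          · intro hv
            exact ⟨e v, ⟨he3 v hv, het v⟩, rfl⟩
          · rintro ⟨k, ⟨hk, _⟩, hk2⟩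
            omega
        · intro k _ l _ hkl
          rw [Function.onFun, Finset.disjoint_left]
          intro v hv hv'
          simp only [mem_filter, mem_univ, true_and] at hv hv'
          exact hkl (hv.symm.trans hv')
      have h2 : ∑ k ∈ Icc 3 t, #{v | e v = k} < ∑ k ∈ Icc 3 t, b k :=
        sum_lt_sum_of_nonempty ⟨3, mem_Icc.2 ⟨le_rfl, ht⟩⟩ hcon
      omega
    obtain ⟨k, hk, hbk⟩ := hpig
    rw [mem_Icc] at hk
    obtain ⟨hb1, hb2⟩ := hb k hk.1 hk.2
    obtain ⟨S, hS, hSc⟩ := exists_subset_card_eq hbk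
    obtain ⟨G, hG1, hG2⟩ := hb2 V S hSc
    have hSe : ∀ v ∈ S, e v = k := by
      intro v hv
      have := hS hv
      simpa using this
    have hsupp : supp G = S := by
      ext v
      rw [mem_supp, hG1]
      by_cases hv : v ∈ S
      · simp only [hv, if_true, iff_true]
        omega
      · simp [hv]
    obtain ⟨H, hH1, hH2⟩ := Rob.complete (by omega : lam ≤ K) (by omega : 1 ≤ K) e het he3 hev _
      G hG2 (by
        intro v
        rw [hG1]
        by_cases hv : v ∈ S
        · rw [if_pos hv, hSe v hv]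
          exact Or.inl rfl
        · rw [if_neg hv]
          exact Or.inr rfl) (by rw [hsupp, hSc]; omega) le_rfl
    refine ⟨H, hH2, hH1.good le_rfl le_rfl ?_⟩
    intro v hv
    rw [hH2] at hv ⊢
    exact he3 v hv

end Pool.Agent.AvgConn
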