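import Pool.Agent.Work.MP_88992e_co.Fin1
import Pool.Agent.Work.MP_88992e_co.Ins

/-!
# Bounded effective degree
-/

namespace Pool.Agent.AvgConn

open Finset
open scoped Classical

universe u

/-- sequences whose effective degrees are at most `t`, with many entries at least three -/
theorem exists_bounded (t : ℕ) : ∃ C : ℕ, ∀ (V : Type u) [Fintype V] (G : SimpleGraph V)
    (d : V → ℕ), (∀ v, deg G v = d v) → 2 * cnt d 1 ≤ ∑ v, d v →
    ∑ v, (d v - t) ≤ #{v | d v = 1} → C ≤ cnt d 3 → ∀ D : ℕ, (∀ v, d v ≤ D) →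
    ∃ H : SimpleGraph V, (∀ v, deg H v = d v) ∧
      cnt d 1 * (cnt d 1 - 1) + cnt d 2 * (cnt d 2 - 1) +
        ∑ k ∈ Icc 3 D, (tl d k - tl d (k + 1)) * (tl d k - tl d (k + 1) - 1)
        ≤ ∑ p : V × V with p.1 ≠ p.2, kappa H p.1 p.2 := by
  obtain ⟨C, hC⟩ := exists_perfect.{u} t
  refine ⟨C, ?_⟩
  intro V _ G d hd hm ht hCd D hD
  by_cases h3 : ∑ v, (d v - 3) ≤ #{v | d v = 1}
  · exact exists_sparse G d hd hm h3 D hD
  push Not at h3
  have hones := cnt_ones d
  have hsum := sum_sub_two d
  have hev : Even (∑ v, d v) := by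
    rw [← sum_congr rfl fun v _ => hd v]
    exact even_sum_deg G
  obtain ⟨e, e1, e2, e3, e4⟩ := exists_trunc d (cnt d 1 - cnt d 2) (by omega)
  -- the values are at most `t`
  have het : ∀ v, e v ≤ t := by
    rcases Nat.lt_or_ge t 3 with ht3 | ht3
    · -- impossible
      exfalso
      have : ∑ v, (d v - 3) ≤ ∑ v, (d v - t) := sum_le_sum fun v _ => by omega
      omega
    · have h5 := e4 (t + 1) (by omega)
      have h6 : ∑ v, (d v + 1 - (t + 1)) = ∑ v, (d v - t) := by
        refine sum_congr rfl fun v _ => ?_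
        omega
      rw [h6] at h5
      have h7 : ∑ v, (e v + 1 - (t + 1)) = 0 := by omega
      intro v
      have := (sum_eq_zero_iff_of_nonneg (fun v _ => Nat.zero_le (e v + 1 - (t + 1)))).1 h7 v
        (mem_univ v)
      omega
  -- the number of values at least three
  have hc3 : cnt e 3 = cnt d 3 := by
    have h6 := e4 3 le_rfl
    have h7 := e4 4 (by norm_num)
    have h8 : ∑ v, (d v + 1 - 4) = ∑ v, (d v - 3) := by
      refine sum_congr rfl fun v _ => ?_
      omega
    have h10 := tail_succ d 3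
    norm_num at h10
    rw [cnt_eq_tail e 3, h6, h7]
    rw [h8] at h10 ⊢
    omega
  -- the branch vertices
  set e' : V → ℕ := fun v => if 3 ≤ e v then e v else 0 with he'
  have hset : (univ.filter fun v => e' v ≠ 0) = (univ.filter fun v => 3 ≤ e v) := by
    ext v
    simp only [mem_filter, mem_univ, true_and, he']
    split_ifs with h
    · simp only [h, iff_true]
      omega
    · simp [h]
  have hsume : ∑ v, d v = ∑ v, e v + (cnt d 1 - cnt d 2) := by
    rw [← e3, ← sum_add_distrib]
    refine sum_congr rfl fun v _ => ?_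
    have := e1 v
    omega
  -- parity
  have hev' : Even (∑ v, e' v) := by
    have h5 : ∑ v, e v = ∑ v, e' v + 2 * #{v | e v = 2} + #{v | d v = 1} := by
      rw [card_filter, card_filter, mul_sum, ← sum_add_distrib, ← sum_add_distrib]
      refine sum_congr rfl fun v _ => ?_
      have a1 := e1 v
      have a2 := e2 v
      simp only [he']
      by_cases h6 : 3 ≤ e v
      · rw [if_pos h6, if_neg (by omega), if_neg (by omega)]
        omega
      · rw [if_neg h6]
        by_cases h7 : e v = 2
        · rw [if_pos h7, if_neg (by omega)]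
          omega
        · rw [if_neg h7]
          by_cases h8 : d v = 1
          · rw [if_pos h8]
            omega
          · rw [if_neg h8]
            omega
    rw [Nat.even_iff] at hev ⊢
    omega
  obtain ⟨G₁, hG1, hG2⟩ := hC V e' (by
    intro v
    simp only [he']
    split_ifs
    · exact het v
    · exact Nat.zero_le _) (by
    intro v hv
    simp only [he'] at hv ⊢
    split_ifs at hv ⊢ with h
    · exact h
    · exact absurd rfl hv) hev' (by
    rw [hset]
    exact hCd.trans (le_of_eq hc3.symm))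
  -- the vertices of degree two
  have hne : ∃ a b, G₁.Adj a b := by
    have h5 : 0 < cnt d 3 := by
      by_contra h0
      have h6 : cnt d 3 = 0 := by omega
      have h7 : ∑ v, (d v - 3) = 0 := by
        refine sum_eq_zero fun v _ => ?_
        have : v ∉ ({v | 3 ≤ d v} : Finset V) := by
          rw [card_eq_zero.1 h6]
          exact notMem_empty _
        simp only [mem_filter, mem_univ, true_and] at this
        omega
      omega
    rw [← hc3] at h5
    obtain ⟨v, hv⟩ := card_pos.1 h5
    simp only [mem_filter, mem_univ, true_and] at hv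
    obtain ⟨w, hw⟩ := (deg_pos_iff G₁ v).1 (by
      rw [hG1]
      simp only [he', if_pos hv]
      omega)
    exact ⟨v, w, hw⟩
  obtain ⟨H₀, hH1, hH2⟩ := add_twos hG2 (by
    intro v hv
    rw [hG1] at hv ⊢
    simp only [he'] at hv ⊢
    split_ifs at hv ⊢ with h
    · omega
    · exact absurd rfl hv) hne (univ.filter fun v => e v = 2) (by
    intro v hv
    simp only [mem_filter, mem_univ, true_and] at hv
    rw [hG1]
    simp only [he']
    rw [if_neg (by omega)])
  refine asm d e e1 e2 e3 e4 H₀ ?_ hH2 D hD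
  intro v
  have a1 := e1 v
  have a2 := e2 v
  rw [hH1, hG1]
  simp only [he', mem_filter, mem_univ, true_and]
  by_cases h5 : e v = 2
  · rw [if_pos h5, if_pos (by omega), h5]
  · rw [if_neg h5]
    by_cases h6 : 3 ≤ e v
    · rw [if_pos h6, if_pos (by omega)]
    · rw [if_neg h6, if_neg (by omega)]

/-- the value -/
theorem bounded_value (t : ℕ) : ∃ C : ℕ, ∀ (n : ℕ) (d : Fin n → ℕ),
    (∃ G : SimpleGraph (Fin n), ∀ v, deg G v = d v) → 2 * cnt d 1 ≤ ∑ v, d v →
    ∑ v, (d v - t) ≤ #{v | d v = 1} → C ≤ cnt d 3 →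
    IsGreatest {x : ℝ | ∃ G : SimpleGraph (Fin n), (∀ v, deg G v = d v) ∧ avgConn G = x}
      ((((cnt d 1).choose 2 + (cnt d 2).choose 2 +
        ∑ k ∈ Icc 3 n, (tl d k - tl d (k + 1)).choose 2 : ℕ) : ℝ) / (n.choose 2 : ℝ)) := by
  obtain ⟨C, hC⟩ := exists_bounded.{0} t
  refine ⟨C, ?_⟩
  rintro n d ⟨G₀, hG₀⟩ hm ht hCd
  have hD : ∀ v, d v ≤ n := fun v => by
    rw [← hG₀ v]
    exact deg_lt G₀ v
  have hval : 2 * ((cnt d 1).choose 2 + (cnt d 2).choose 2 +
      ∑ k ∈ Icc 3 n, (tl d k - tl d (k + 1)).choose 2)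
      = cnt d 1 * (cnt d 1 - 1) + cnt d 2 * (cnt d 2 - 1) +
        ∑ k ∈ Icc 3 n, (tl d k - tl d (k + 1)) * (tl d k - tl d (k + 1) - 1) := by
    rw [mul_add, mul_add, two_choose, two_choose, mul_sum]
    congr 1
    exact sum_congr rfl fun k _ => two_choose _
  apply isGreatest_of
  · intro G hG
    rw [hval]
    exact upper G d hG hm n hD
  · obtain ⟨H, hH1, hH2⟩ := hC (Fin n) G₀ d hG₀ hm ht hCd n hD
    exact ⟨H, hH1, by rw [hval]; exact hH2⟩

end Pool.Agent.AvgConn
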