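import Pool.Agent.Work.MP_88992e_co.HubFin3

/-!
# The value: few effective degrees above `t`, and `t ^ 2` small against the surplus
-/

namespace Pool.Agent.AvgConn

open Finset
open scoped Classical

lemma even_sum_deg' {V : Type} [Fintype V] (G : SimpleGraph V) : Even (∑ v, deg G v) := by
  have h := SimpleGraph.sum_degrees_eq_twice_card_edges G
  have h2 : ∀ v, deg G v = G.degree v := by
    intro v
    rw [deg_eq, ← SimpleGraph.card_neighborFinset_eq_degree]
    congr 1
    ext w
    simp
  rw [sum_congr rfl fun v _ => h2 v, h]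
  exact even_two_mul _

/-- the total of the effective degrees that are larger than `t` -/
noncomputable def heavy {V : Type*} [Fintype V] (d : V → ℕ) (t : ℕ) : ℕ :=
  (t + 1) * tl d (t + 1) - t * tl d (t + 2)

/-- sequences with few effective degrees above `t` and `12 * t ^ 2` small against `m - n_1` -/
theorem exists_bounded_hub {V : Type} [Fintype V] (t r m : ℕ) (hr : 3 ≤ r) (hrt : r ≤ t)
    (G : SimpleGraph V) (d : V → ℕ) (hd : ∀ v, deg G v = d v) (hm2 : ∑ v, d v = 2 * m)
    (hH : heavy d t + (tl d (r + 1) - tl d (r + 2)) ≤ cnt d 3)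
    (hbig : cnt d 1 + 12 * t ^ 2 + (4 * r - 11) * heavy d t ≤ m)
    (D : ℕ) (hD : ∀ v, d v ≤ D) :
    ∃ H : SimpleGraph V, (∀ v, deg H v = d v) ∧
      cnt d 1 * (cnt d 1 - 1) + cnt d 2 * (cnt d 2 - 1) +
        ∑ k ∈ Icc 3 D, (tl d k - tl d (k + 1)) * (tl d k - tl d (k + 1) - 1)
        ≤ ∑ p : V × V with p.1 ≠ p.2, kappa H p.1 p.2 := by
  by_cases h3 : ∑ v, (d v - 3) ≤ #{v | d v = 1}
  · exact exists_sparse G d hd (by omega) h3 D hD
  push Not at h3
  have hones := cnt_ones d
  have hsum := sum_sub_two d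
  have hev : Even (∑ v, d v) := by
    rw [← sum_congr rfl fun v _ => hd v]
    exact even_sum_deg' G
  obtain ⟨e, e1, e2, e3, e4⟩ := exists_trunc d (cnt d 1 - cnt d 2) (by omega)
  -- the number of values at least three
  have hc3 : cnt e 3 = cnt d 3 := by
    have h6 := e4 3 le_rfl
    have h7 := e4 4 (by norm_num)
    have h8 : ∑ v, (d v + 1 - 4) = ∑ v, (d v - 3) := by
      refine sum_congr rfl fun v _ => ?_
      omega
    have h10 := tail_succ d 3
    norm_num at h10
    rw [cnt_eq_tail e 3, h6, h7]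
    rw [h8] at h10 ⊢
    omega
  have htl : ∀ k, 3 ≤ k → tl d k = cnt e k + tl d (k + 1) := by
    intro k hk
    have h6 := e4 k hk
    have h7 := e4 (k + 1) (by omega)
    have h8 := tail_succ e k
    unfold tl
    rw [← h6, ← h7]
    exact h8
  -- the heavy vertices
  have hheavy : ∑ v with t < e v, e v = heavy d t := by
    have h5 : ∑ v with t < e v, e v = ∑ v, (e v + 1 - (t + 1)) + t * cnt e (t + 1) := by
      unfold cnt
      rw [card_filter, mul_sum, ← sum_add_distrib, sum_filter]
      refine sum_congr rfl fun v _ => ?_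
      by_cases hv : t < e v
      · rw [if_pos hv, if_pos (by omega)]
        omega
      · rw [if_neg hv, if_neg (by omega)]
        omega
    have h6 := e4 (t + 1) (by omega)
    have h9 := htl (t + 1) (by omega)
    rw [h5, h6]
    unfold heavy
    have h10 : ∑ v, (d v + 1 - (t + 1)) - (cnt d 1 - cnt d 2) = tl d (t + 1) := rfl
    rw [h10, h9]
    have h11 : (t + 1) * (cnt e (t + 1) + tl d (t + 2)) =
        (cnt e (t + 1) + tl d (t + 2) + t * cnt e (t + 1)) + t * tl d (t + 2) := by ring
    rw [h11, Nat.add_sub_cancel]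
  -- the surplus
  have hsur : ∑ v, (e v - 2) + 2 * cnt d 1 = ∑ v, d v := by
    have h6 := e4 3 le_rfl
    have h7 : ∀ f : V → ℕ, ∑ v, (f v + 1 - 3) = ∑ v, (f v - 2) := fun f =>
      sum_congr rfl fun v _ => by omega
    rw [h7, h7] at h6
    omega
  -- the branch vertices
  set e' : V → ℕ := fun v => if 3 ≤ e v then e v else 0 with he'
  have hset : ∑ v, (e' v - 2) = ∑ v, (e v - 2) := by
    refine sum_congr rfl fun v _ => ?_
    simp only [he']
    split_ifs with h
    · rfl
    · omega
  have hset2 : #{v | e' v ≠ 0 ∧ e' v ≤ r} + cnt e (r + 1) = cnt d 3 := by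
    rw [← hc3]
    unfold cnt
    rw [card_filter, card_filter, card_filter, ← sum_add_distrib]
    refine sum_congr rfl fun v _ => ?_
    simp only [he']
    by_cases h : 3 ≤ e v
    · rw [if_pos h, if_pos h]
      by_cases h' : e v ≤ r
      · rw [if_pos ⟨by omega, h'⟩, if_neg (by omega)]
      · rw [if_neg (by omega), if_pos (by omega)]
    · rw [if_neg h, if_neg (by omega), if_neg (by omega), if_neg h]
  have hset3 : ∑ v with t < e' v, e' v = heavy d t := by
    rw [← hheavy, sum_filter, sum_filter]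
    refine sum_congr rfl fun v _ => ?_
    simp only [he']
    by_cases h : 3 ≤ e v
    · rw [if_pos h]
    · rw [if_neg h, if_neg (by omega), if_neg (by omega)]
  have hsume : ∑ v, d v = ∑ v, e v + (cnt d 1 - cnt d 2) := by
    rw [← e3, ← sum_add_distrib]
    refine sum_congr rfl fun v _ => ?_
    have := e1 v
    omega
  -- parity
  have hev' : Even (∑ v, e' v) := by
    have h5 : ∑ v, e v = ∑ v, e' v + 2 * #{v | e v = 2} + #{v | d v = 1} := by
      rw [card_filter, card_filter, mul_sum, ← sum_add_distrib, ← sum_add_distrib]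
      refine sum_congr rfl fun v _ => ?_
      have a1 := e1 v
      have a2 := e2 v
      simp only [he']
      by_cases h6 : 3 ≤ e v
      · rw [if_pos h6, if_neg (by omega), if_neg (by omega)]
        omega
      · rw [if_neg h6]
        by_cases h7 : e v = 2
        · rw [if_pos h7, if_neg (by omega)]
          omega
        · rw [if_neg h7]
          by_cases h8 : d v = 1
          · rw [if_pos h8]
            omega
          · rw [if_neg h8]
            omega
    rw [Nat.even_iff] at hev ⊢
    omega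
  obtain ⟨G₁, hG1, hG2⟩ := exists_perfect_hub e' t r hr hrt (by
    intro v hv
    simp only [he'] at hv ⊢
    split_ifs at hv ⊢ with h
    · exact h
    · exact absurd rfl hv) hev' (by
    have h9 : tl d (r + 1) = cnt e (r + 1) + tl d (r + 2) := htl (r + 1) (by omega)
    rw [hset3]
    omega) (by
    rw [hset, hset3]
    have h5 : ∑ v, (e v - 2) = 2 * (m - cnt d 1) := by omega
    have h6 : (8 * r - 22) * heavy d t = 2 * ((4 * r - 11) * heavy d t) := by
      rw [← mul_assoc]
      congr 1
      omega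
    rw [h5, h6]
    omega)
  -- the vertices of degree two
  have hne : ∃ a b, G₁.Adj a b := by
    have h5 : ∃ v, 3 ≤ e v := by
      by_contra h0
      push Not at h0
      have h7 : ∑ v, (e v - 2) = 0 := sum_eq_zero fun v _ => by
        have := h0 v
        omega
      have h8 : ∑ v, (d v - 3) ≤ ∑ v, (d v - 2) := sum_le_sum fun v _ => by omega
      omega
    obtain ⟨v, hv⟩ := h5
    obtain ⟨w, hw⟩ := (deg_pos_iff G₁ v).1 (by
      rw [hG1]
      simp only [he', if_pos hv]
      omega)
    exact ⟨v, w, hw⟩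
  obtain ⟨H₀, hH1, hH2⟩ := add_twos hG2 (by
    intro v hv
    rw [hG1] at hv ⊢
    simp only [he'] at hv ⊢
    split_ifs at hv ⊢ with h
    · omega
    · exact absurd rfl hv) hne (univ.filter fun v => e v = 2) (by
    intro v hv
    simp only [mem_filter, mem_univ, true_and] at hv
    rw [hG1]
    simp only [he']
    rw [if_neg (by omega)])
  refine asm d e e1 e2 e3 e4 H₀ ?_ hH2 D hD
  intro v
  have a1 := e1 v
  have a2 := e2 v
  rw [hH1, hG1]
  simp only [he', mem_filter, mem_univ, true_and]
  by_cases h5 : e v = 2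
  · rw [if_pos h5, if_pos (by omega), h5]
  · rw [if_neg h5]
    by_cases h6 : 3 ≤ e v
    · rw [if_pos h6, if_pos (by omega)]
    · rw [if_neg h6, if_neg (by omega)]

/-- the value -/
theorem hub_value (n m t r : ℕ) (hr : 3 ≤ r) (hrt : r ≤ t) (d : Fin n → ℕ)
    (hreal : ∃ G : SimpleGraph (Fin n), ∀ v, deg G v = d v) (hm2 : ∑ v, d v = 2 * m)
    (hH : heavy d t + (tl d (r + 1) - tl d (r + 2)) ≤ cnt d 3)
    (hbig : cnt d 1 + 12 * t ^ 2 + (4 * r - 11) * heavy d t ≤ m) :
    IsGreatest {x : ℝ | ∃ G : SimpleGraph (Fin n), (∀ v, deg G v = d v) ∧ avgConn G = x}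
      ((((cnt d 1).choose 2 + (cnt d 2).choose 2 +
        ∑ k ∈ Icc 3 n, (tl d k - tl d (k + 1)).choose 2 : ℕ) : ℝ) / (n.choose 2 : ℝ)) := by
  obtain ⟨G₀, hG₀⟩ := hreal
  have hD : ∀ v, d v ≤ n := fun v => by
    rw [← hG₀ v]
    exact deg_lt G₀ v
  have hval : 2 * ((cnt d 1).choose 2 + (cnt d 2).choose 2 +
      ∑ k ∈ Icc 3 n, (tl d k - tl d (k + 1)).choose 2)
      = cnt d 1 * (cnt d 1 - 1) + cnt d 2 * (cnt d 2 - 1) +
        ∑ k ∈ Icc 3 n, (tl d k - tl d (k + 1)) * (tl d k - tl d (k + 1) - 1) := by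
    rw [mul_add, mul_add, two_choose, two_choose, mul_sum]
    congr 1
    exact sum_congr rfl fun k _ => two_choose _
  apply isGreatest_of
  · intro G hG
    rw [hval]
    exact upper G d hG (by omega) n hD
  · obtain ⟨H, hH1, hH2⟩ := exists_bounded_hub t r m hr hrt G₀ d hG₀ hm2 hH hbig n hD
    exact ⟨H, hH1, by rw [hval]; exact hH2⟩

end Pool.Agent.AvgConn
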