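import Pool.Agent.Work.MP_88992e_co.Basic

/-!
# Inserting two adjacent vertices of degree three
-/

namespace Pool.Agent.AvgConn

open Finset
open scoped Classical

variable {V : Type*} [Fintype V]

/-- subdivide `ab` by `x` and `cd` by `y`, join `x` and `y` -/
def hins (G : SimpleGraph V) (x a b y c d : V) : SimpleGraph V :=
  pinch (pinch G x a b) y c d ⊔ SimpleGraph.fromEdgeSet {s(x, y)}

section

variable {G : SimpleGraph V} {x a b y c d : V}

/-- the situation -/
structure HD (G : SimpleGraph V) (x a b y c d : V) : Prop where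
  hx : ∀ w, ¬ G.Adj x w
  hy : ∀ w, ¬ G.Adj y w
  hxy : x ≠ y
  hab : G.Adj a b
  hcd : G.Adj c d
  hne : s(a, b) ≠ s(c, d)

omit [Fintype V] in
lemma HD.symm (h : HD G x a b y c d) : HD G y c d x a b :=
  ⟨h.hy, h.hx, h.hxy.symm, h.hcd, h.hab, h.hne.symm⟩

omit [Fintype V] in
lemma HD.xa (h : HD G x a b y c d) : x ≠ a := by
  rintro rfl
  exact h.hx _ h.hab

omit [Fintype V] in
lemma HD.xb (h : HD G x a b y c d) : x ≠ b := by
  rintro rfl
  exact h.hx _ h.hab.symm

omit [Fintype V] in
lemma HD.xc (h : HD G x a b y c d) : x ≠ c := by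
  rintro rfl
  exact h.hx _ h.hcd

omit [Fintype V] in
lemma HD.xd (h : HD G x a b y c d) : x ≠ d := by
  rintro rfl
  exact h.hx _ h.hcd.symm

omit [Fintype V] in
lemma HD.ya (h : HD G x a b y c d) : y ≠ a := h.symm.xc

omit [Fintype V] in
lemma HD.yb (h : HD G x a b y c d) : y ≠ b := h.symm.xd

omit [Fintype V] in
lemma HD.yc (h : HD G x a b y c d) : y ≠ c := h.symm.xa

omit [Fintype V] in
lemma HD.yd (h : HD G x a b y c d) : y ≠ d := h.symm.xb

omit [Fintype V] in
/-- adjacency of old vertices -/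
lemma hins_old (_h : HD G x a b y c d) {p q : V} (hp : p ≠ x) (hp' : p ≠ y) (hq : q ≠ x)
    (hq' : q ≠ y) :
    (hins G x a b y c d).Adj p q ↔ G.Adj p q ∧ s(p, q) ≠ s(a, b) ∧ s(p, q) ≠ s(c, d) := by
  unfold hins
  rw [SimpleGraph.sup_adj, SimpleGraph.fromEdgeSet_adj, pinch_adj_old hp' hq',
    pinch_adj_old hp hq]
  simp only [Set.mem_singleton_iff]
  constructor
  · rintro (⟨⟨h1, h2⟩, h3⟩ | ⟨h1, _⟩)
    · exact ⟨h1, h2, h3⟩
    · rw [Sym2.eq_iff] at h1
      rcases h1 with ⟨h1, _⟩ | ⟨h1, _⟩
      · exact absurd h1 hp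
      · exact absurd h1 hp'
  · rintro ⟨h1, h2, h3⟩
    exact Or.inl ⟨⟨h1, h2⟩, h3⟩

omit [Fintype V] in
/-- the neighbours of `x` -/
lemma hins_x (h : HD G x a b y c d) {q : V} :
    (hins G x a b y c d).Adj x q ↔ q = a ∨ q = b ∨ q = y := by
  unfold hins
  rw [SimpleGraph.sup_adj, SimpleGraph.fromEdgeSet_adj]
  simp only [Set.mem_singleton_iff]
  have hx := h.hx
  by_cases hqy : q = y
  · subst hqy
    simp [h.hxy]
  · rw [pinch_adj_old h.hxy hqy, pinch_adj_new h.xa h.xb]
    constructor
    · rintro (⟨h1 | h1 | h1, _⟩ | ⟨h1, _⟩)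
      · exact absurd h1 (hx _)
      · exact Or.inl h1
      · exact Or.inr (Or.inl h1)
      · rw [Sym2.eq_iff] at h1
        rcases h1 with ⟨_, h1⟩ | ⟨h1, _⟩
        · exact absurd h1 hqy
        · exact absurd h1 h.hxy
    · intro h1
      refine Or.inl ⟨?_, ?_⟩
      · rcases h1 with h1 | h1 | h1
        · exact Or.inr (Or.inl h1)
        · exact Or.inr (Or.inr h1)
        · exact absurd h1 hqy
      · intro h2
        rw [Sym2.eq_iff] at h2
        rcases h2 with ⟨h2, _⟩ | ⟨h2, _⟩
        · exact h.xc h2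
        · exact h.xd h2

omit [Fintype V] in
/-- the neighbours of `y` -/
lemma hins_y (h : HD G x a b y c d) {q : V} :
    (hins G x a b y c d).Adj y q ↔ q = c ∨ q = d ∨ q = x := by
  unfold hins
  rw [SimpleGraph.sup_adj, SimpleGraph.fromEdgeSet_adj]
  simp only [Set.mem_singleton_iff]
  rw [pinch_adj_new h.yc h.yd]
  constructor
  · rintro ((h1 | h1 | h1) | ⟨h1, h2⟩)
    · exfalso
      rw [SimpleGraph.adj_comm] at h1
      by_cases hq : q = x
      · subst hq
        rw [pinch_adj_new h.xa h.xb] at h1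
        rcases h1 with h1 | h1 | h1
        · exact h.hx _ h1
        · exact h.ya h1
        · exact h.yb h1
      · rw [pinch_adj_old hq h.hxy.symm] at h1
        exact h.hy _ h1.1.symm
    · exact Or.inl h1
    · exact Or.inr (Or.inl h1)
    · rw [Sym2.eq_iff] at h1
      rcases h1 with ⟨h1, _⟩ | ⟨_, h1⟩
      · exact absurd h1 h.hxy.symm
      · exact Or.inr (Or.inr h1)
  · rintro (h1 | h1 | h1)
    · exact Or.inl (Or.inr (Or.inl h1))
    · exact Or.inl (Or.inr (Or.inr h1))
    · subst h1
      exact Or.inr ⟨Sym2.eq_swap, h.hxy.symm⟩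

omit [Fintype V] in
lemma hins_symm (h : HD G x a b y c d) : hins G x a b y c d = hins G y c d x a b := by
  ext p q
  by_cases hp : p = x
  · subst hp
    rw [hins_x h, hins_y h.symm]
  · by_cases hp' : p = y
    · subst hp'
      rw [hins_y h, hins_x h.symm]
    · by_cases hq : q = x
      · subst hq
        rw [SimpleGraph.adj_comm, hins_x h, SimpleGraph.adj_comm, hins_y h.symm]
      · by_cases hq' : q = y
        · subst hq'
          rw [SimpleGraph.adj_comm, hins_y h, SimpleGraph.adj_comm, hins_x h.symm]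
        · rw [hins_old h hp hp' hq hq', hins_old h.symm hp' hp hq' hq]
          tauto

lemma deg_hins_x (h : HD G x a b y c d) : deg (hins G x a b y c d) x = 3 := by
  rw [deg_eq]
  have : (univ.filter fun w => (hins G x a b y c d).Adj x w) = {a, b, y} := by
    ext w
    simp [hins_x h]
  rw [this, card_eq_three]
  exact ⟨a, b, y, h.hab.ne, h.ya.symm, h.yb.symm, rfl⟩

lemma deg_hins_y (h : HD G x a b y c d) : deg (hins G x a b y c d) y = 3 := by
  rw [hins_symm h]
  exact deg_hins_x h.symm

omit [Fintype V] in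
/-- the intermediate graph -/
lemma HD.mid (h : HD G x a b y c d) : (pinch G x a b).Adj c d ∧
    ∀ w, ¬ (pinch G x a b).Adj y w := by
  refine ⟨pinch_adj_of h.hcd h.hne.symm, ?_⟩
  intro w hw
  by_cases hwx : w = x
  · subst hwx
    rw [SimpleGraph.adj_comm, pinch_adj_new h.xa h.xb] at hw
    rcases hw with h1 | h1 | h1
    · exact h.hx _ h1
    · exact h.ya h1
    · exact h.yb h1
  · rw [pinch_adj_old h.hxy.symm hwx] at hw
    exact h.hy _ hw.1

omit [Fintype V] in
lemma hins_ge (G : SimpleGraph V) (x a b y c d : V) :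
    pinch (pinch G x a b) y c d ≤ hins G x a b y c d := le_sup_left

lemma deg_hins_old (h : HD G x a b y c d) {v : V} (hv : v ≠ x) (hv' : v ≠ y) :
    deg (hins G x a b y c d) v = deg G v := by
  have h1 : deg (hins G x a b y c d) v = deg (pinch (pinch G x a b) y c d) v := by
    rw [deg_eq, deg_eq]
    congr 1
    ext w
    simp only [mem_filter, mem_univ, true_and]
    unfold hins
    rw [SimpleGraph.sup_adj, SimpleGraph.fromEdgeSet_adj]
    simp only [Set.mem_singleton_iff, or_iff_left_iff_imp]
    rintro ⟨h2, _⟩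
    rw [Sym2.eq_iff] at h2
    rcases h2 with ⟨h2, _⟩ | ⟨h2, _⟩
    · exact absurd h2 hv
    · exact absurd h2 hv'
  obtain ⟨hcd', hy'⟩ := h.mid
  rw [h1, deg_pinch_old hcd' h.yc h.yd (hy' _) (hy' _) hv',
    deg_pinch_old h.hab h.xa h.xb (h.hx _) (h.hx _) hv]

/-- old pairs -/
lemma perf_hins_old (h : HD G x a b y c d) {u v : V} (hu : u ≠ x) (hu' : u ≠ y) (hv : v ≠ x)
    (hv' : v ≠ y) {k : ℕ} (hp : Perf G u v k) : Perf (hins G x a b y c d) u v k := by
  obtain ⟨hcd', hy'⟩ := h.mid
  exact (perf_subdiv_old hy' hcd' hu' hv' (perf_subdiv_old h.hx h.hab hu hv hp)).mono_graph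
    (hins_ge _ _ _ _ _ _ _)

/-- new pairs -/
lemma perf_hins_new (h : HD G x a b y c d) (h3 : ∀ v, deg G v ≠ 0 → 3 ≤ deg G v)
    (hG : ∀ u v, u ≠ v → deg G u ≠ 0 → deg G v ≠ 0 → Perf G u v 3) {w : V} (hw : w ≠ x)
    (hw3 : w = y ∨ deg G w ≠ 0) : Perf (hins G x a b y c d) x w 3 := by
  intro A hxA hwA hcond
  by_contra hlt
  push Not at hlt
  set H := hins G x a b y c d with hH
  set T := nb H A with hT
  -- the old part
  set A₀ : Finset V := {v ∈ A | deg G v ≠ 0} with hA₀
  have hA₀sub : A₀ ⊆ A := filter_subset _ _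
  have hxy := h.hxy
  have hdx : deg G x = 0 := by
    by_contra h0
    obtain ⟨z, hz⟩ := (deg_pos_iff G x).1 h0
    exact h.hx z hz
  have hdy : deg G y = 0 := by
    by_contra h0
    obtain ⟨z, hz⟩ := (deg_pos_iff G y).1 h0
    exact h.hy z hz
  have hold : ∀ v, deg G v ≠ 0 → v ≠ x ∧ v ≠ y := by
    intro v hv
    exact ⟨fun h0 => hv (h0 ▸ hdx), fun h0 => hv (h0 ▸ hdy)⟩
  have hda : deg G a ≠ 0 := (deg_pos_iff G a).2 ⟨b, h.hab⟩
  have hdb : deg G b ≠ 0 := (deg_pos_iff G b).2 ⟨a, h.hab.symm⟩
  have hdc : deg G c ≠ 0 := (deg_pos_iff G c).2 ⟨d, h.hcd⟩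
  have hdd : deg G d ≠ 0 := (deg_pos_iff G d).2 ⟨c, h.hcd.symm⟩
  -- `A₀` is not empty
  have hA₀ne : A₀.Nonempty := by
    by_contra hemp
    rw [not_nonempty_iff_eq_empty] at hemp
    have hout : ∀ v, deg G v ≠ 0 → v ∉ A := by
      intro v hv hvA
      have : v ∈ A₀ := mem_filter.2 ⟨hvA, hv⟩
      rw [hemp] at this
      exact absurd this (notMem_empty _)
    have ha : a ∈ T := mem_nb.2 ⟨hout a hda, x, hxA, (hins_x h).2 (Or.inl rfl)⟩
    have hb : b ∈ T := mem_nb.2 ⟨hout b hdb, x, hxA, (hins_x h).2 (Or.inr (Or.inl rfl))⟩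
    by_cases hyA : y ∈ A
    · have hc : c ∈ T := mem_nb.2 ⟨hout c hdc, y, hyA, (hins_y h).2 (Or.inl rfl)⟩
      have hd : d ∈ T := mem_nb.2 ⟨hout d hdd, y, hyA, (hins_y h).2 (Or.inr (Or.inl rfl))⟩
      have hcase : (c ≠ a ∧ c ≠ b) ∨ (d ≠ a ∧ d ≠ b) := by
        by_contra hcon
        push Not at hcon
        obtain ⟨h1, h2⟩ := hcon
        apply h.hne
        rw [Sym2.eq_iff]
        by_cases hca : c = a
        · left
          refine ⟨hca.symm, ?_⟩
          by_cases hda' : d = a
          · exact absurd (hca.trans hda'.symm) h.hcd.ne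
          · exact (h2 hda').symm
        · right
          have hcb := h1 hca
          refine ⟨?_, hcb.symm⟩
          by_contra hda'
          exact h.hcd.ne (hcb.trans (h2 fun h4 => hda' h4.symm).symm)
      rcases hcase with ⟨h1, h2⟩ | ⟨h1, h2⟩
      · have : #({a, b, c} : Finset V) ≤ #T := card_le_card (by
          intro z hz
          simp only [mem_insert, mem_singleton] at hz
          rcases hz with rfl | rfl | rfl <;> assumption)
        rw [card_eq_three.2 ⟨a, b, c, h.hab.ne, h1.symm, h2.symm, rfl⟩] at this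
        omega
      · have : #({a, b, d} : Finset V) ≤ #T := card_le_card (by
          intro z hz
          simp only [mem_insert, mem_singleton] at hz
          rcases hz with rfl | rfl | rfl <;> assumption)
        rw [card_eq_three.2 ⟨a, b, d, h.hab.ne, h1.symm, h2.symm, rfl⟩] at this
        omega
    · have hy : y ∈ T := mem_nb.2 ⟨hyA, x, hxA, (hins_x h).2 (Or.inr (Or.inr rfl))⟩
      have : #({a, b, y} : Finset V) ≤ #T := card_le_card (by
        intro z hz
        simp only [mem_insert, mem_singleton] at hz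
        rcases hz with rfl | rfl | rfl <;> assumption)
      rw [card_eq_three.2 ⟨a, b, y, h.hab.ne, h.ya.symm, h.yb.symm, rfl⟩] at this
      omega
  obtain ⟨u₀, hu₀⟩ := hA₀ne
  -- the neighbours of `A₀` in the old graph
  have hNsub : ∀ q ∈ nb G A₀, q ∈ T ∨ (y ∈ T ∧ (q = c ∨ q = d) ∧ (c ∈ A₀ ∨ d ∈ A₀)) := by
    intro q hq
    obtain ⟨hqA, p, hp, hpq⟩ := mem_nb.1 hq
    have hdq : deg G q ≠ 0 := (deg_pos_iff G q).2 ⟨p, hpq.symm⟩
    have hqA' : q ∉ A := fun h0 => hqA (mem_filter.2 ⟨h0, hdq⟩)
    obtain ⟨hqx, hqy⟩ := hold q hdq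
    obtain ⟨hpx, hpy⟩ := hold p (mem_filter.1 hp).2
    by_cases h1 : s(p, q) = s(a, b)
    · left
      refine mem_nb.2 ⟨hqA', x, hxA, ?_⟩
      rw [Sym2.eq_iff] at h1
      rcases h1 with ⟨_, h1⟩ | ⟨_, h1⟩
      · exact (hins_x h).2 (Or.inr (Or.inl h1))
      · exact (hins_x h).2 (Or.inl h1)
    · by_cases h2 : s(p, q) = s(c, d)
      · have hq' : q = c ∨ q = d := by
          rw [Sym2.eq_iff] at h2
          rcases h2 with ⟨_, h2⟩ | ⟨_, h2⟩
          · exact Or.inr h2
          · exact Or.inl h2
        have hp' : p = c ∨ p = d := by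
          rw [Sym2.eq_iff] at h2
          rcases h2 with ⟨h2, _⟩ | ⟨h2, _⟩
          · exact Or.inl h2
          · exact Or.inr h2
        by_cases hyA : y ∈ A
        · left
          refine mem_nb.2 ⟨hqA', y, hyA, (hins_y h).2 ?_⟩
          rcases hq' with h3 | h3
          · exact Or.inl h3
          · exact Or.inr (Or.inl h3)
        · right
          refine ⟨mem_nb.2 ⟨hyA, p, hA₀sub hp, ?_⟩, hq', ?_⟩
          · refine SimpleGraph.Adj.symm ((hins_y h).2 ?_)
            rcases hp' with h3 | h3
            · exact Or.inl h3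
            · exact Or.inr (Or.inl h3)
          · rcases hp' with h3 | h3
            · exact Or.inl (h3 ▸ hp)
            · exact Or.inr (h3 ▸ hp)
      · left
        exact mem_nb.2 ⟨hqA', p, hA₀sub hp, (hins_old h hpx hpy hqx hqy).2 ⟨hpq, h1, h2⟩⟩
  -- at most one old neighbour is not in `T`, and then `y ∈ T`
  have hyN : y ∉ nb G A₀ := by
    intro h0
    obtain ⟨_, p, _, hp⟩ := mem_nb.1 h0
    exact h.hy _ hp.symm
  have hcard : #(nb G A₀) ≤ #T := by
    by_cases hall : ∀ q ∈ nb G A₀, q ∈ T
    · exact card_le_card hall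
    · push Not at hall
      obtain ⟨q, hq, hqT⟩ := hall
      rcases hNsub q hq with h1 | ⟨hyT, hqcd, hcd⟩
      · exact absurd h1 hqT
      · have hsub : nb G A₀ ⊆ insert q (T.erase y) := by
          intro z hz
          by_cases hzq : z = q
          · rw [hzq]
            exact mem_insert_self _ _
          · refine mem_insert_of_mem (mem_erase.2 ⟨fun h0 => hyN (h0 ▸ hz), ?_⟩)
            rcases hNsub z hz with h1 | ⟨_, hzcd, _⟩
            · exact h1
            · exfalso
              have hqA := (mem_nb.1 hq).1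
              have hzA := (mem_nb.1 hz).1
              rcases hqcd with h4 | h4 <;> rcases hzcd with h5 | h5 <;>
                rcases hcd with h6 | h6
              all_goals first
                | exact hzq (h5.trans h4.symm)
                | exact hqA (h4 ▸ h6)
                | exact hzA (h5 ▸ h6)
        refine (card_le_card hsub).trans ((card_insert_le _ _).trans ?_)
        rw [card_erase_of_mem hyT]
        have : 0 < #T := card_pos.2 ⟨y, hyT⟩
        omega
  have hdu₀ : deg G u₀ ≠ 0 := (mem_filter.1 hu₀).2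
  -- every old vertex is in `A₀` or a neighbour of `A₀`
  have hcover : ∀ z, deg G z ≠ 0 → z ∈ A₀ ∨ z ∈ nb G A₀ := by
    intro z hz
    by_contra hcon
    push Not at hcon
    obtain ⟨h1, h2⟩ := hcon
    have hne : u₀ ≠ z := by
      rintro rfl
      exact h1 hu₀
    have := hG u₀ z hne hdu₀ hz A₀ hu₀ h1 (fun a' ha' haz =>
      absurd (mem_nb.2 ⟨h1, a', ha', haz⟩) h2)
    omega
  rcases hw3 with rfl | hdw
  · -- `w = y`
    have hcA : c ∉ A₀ := by
      intro h0
      have := hcond c (hA₀sub h0) (SimpleGraph.Adj.symm ((hins_y h).2 (Or.inl rfl)))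
      exact h.xc this.symm
    have hdA : d ∉ A₀ := by
      intro h0
      have := hcond d (hA₀sub h0) (SimpleGraph.Adj.symm ((hins_y h).2 (Or.inr (Or.inl rfl))))
      exact h.xd this.symm
    have hcN : c ∈ nb G A₀ := (hcover c hdc).resolve_left hcA
    have hdN : d ∈ nb G A₀ := (hcover d hdd).resolve_left hdA
    have hcT : c ∈ T := by
      rcases hNsub c hcN with h1 | ⟨_, _, h1⟩
      · exact h1
      · exact absurd h1 (by tauto)
    have hdT : d ∈ T := by
      rcases hNsub d hdN with h1 | ⟨_, _, h1⟩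
      · exact h1
      · exact absurd h1 (by tauto)
    have hyT : w ∈ T := mem_nb.2 ⟨hwA, x, hxA, (hins_x h).2 (Or.inr (Or.inr rfl))⟩
    have : #({c, d, w} : Finset V) ≤ #T := card_le_card (by
      intro z hz
      simp only [mem_insert, mem_singleton] at hz
      rcases hz with rfl | rfl | rfl <;> assumption)
    rw [card_eq_three.2 ⟨c, d, w, h.hcd.ne, h.yc.symm, h.yd.symm, rfl⟩] at this
    omega
  · -- `w` old
    obtain ⟨hwx, hwy⟩ := hold w hdw
    have hwA₀ : w ∉ A₀ := fun h0 => hwA (hA₀sub h0)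
    have hwN : w ∈ nb G A₀ := (hcover w hdw).resolve_left hwA₀
    -- the neighbours of `w`
    have hdeg := h3 w hdw
    rw [deg_eq] at hdeg
    -- the neighbours of `w` in `A₀` come from the two edges
    have hin : ∀ p ∈ A₀, G.Adj p w → s(p, w) = s(a, b) ∨ s(p, w) = s(c, d) := by
      intro p hp hpw
      by_contra hcon
      push Not at hcon
      obtain ⟨hpx, hpy⟩ := hold p (mem_filter.1 hp).2
      exact hpx (hcond p (hA₀sub hp) ((hins_old h hpx hpy hwx hwy).2 ⟨hpw, hcon.1, hcon.2⟩))
    -- the neighbours of `w` outside `A₀`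
    have hNle : #(nb G A₀) ≤ 2 := by omega
    have hsplit : (univ.filter fun z => G.Adj w z) ⊆
        (A₀.filter fun z => G.Adj z w) ∪ ((nb G A₀).erase w) := by
      intro z hz
      have hz' : G.Adj w z := by simpa using hz
      rcases hcover z ((deg_pos_iff G z).2 ⟨w, hz'.symm⟩) with h1 | h1
      · exact mem_union_left _ (mem_filter.2 ⟨h1, hz'.symm⟩)
      · exact mem_union_right _ (mem_erase.2 ⟨hz'.ne', h1⟩)
    have hc1 := (card_le_card hsplit).trans (card_union_le _ _)
    rw [card_erase_of_mem hwN] at hc1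
    have hNpos : 0 < #(nb G A₀) := card_pos.2 ⟨w, hwN⟩
    -- two neighbours in `A₀`
    have h2 : 1 < #(A₀.filter fun z => G.Adj z w) := by omega
    obtain ⟨p, hp, p', hp', hpp⟩ := one_lt_card.1 h2
    rw [mem_filter] at hp hp'
    have hp1 := hin p hp.1 hp.2
    have hp1' := hin p' hp'.1 hp'.2
    have hinj : s(p, w) ≠ s(p', w) := by
      intro h0
      rw [Sym2.eq_iff] at h0
      rcases h0 with ⟨h0, _⟩ | ⟨h0, h0'⟩
      · exact hpp h0
      · exact hpp (h0.trans h0')
    have hwc : ∃ p ∈ A₀, s(p, w) = s(c, d) := by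
      rcases hp1 with h4 | h4
      · rcases hp1' with h5 | h5
        · exact absurd (h4.trans h5.symm) hinj
        · exact ⟨p', hp'.1, h5⟩
      · exact ⟨p, hp.1, h4⟩
    have hwab : w = a ∨ w = b := by
      have : s(p, w) = s(a, b) ∨ s(p', w) = s(a, b) := by
        rcases hp1 with h4 | h4
        · exact Or.inl h4
        · rcases hp1' with h5 | h5
          · exact Or.inr h5
          · exact absurd (h4.trans h5.symm) hinj
      rcases this with h4 | h4
      · rw [Sym2.eq_iff] at h4
        rcases h4 with ⟨_, h4⟩ | ⟨_, h4⟩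
        · exact Or.inr h4
        · exact Or.inl h4
      · rw [Sym2.eq_iff] at h4
        rcases h4 with ⟨_, h4⟩ | ⟨_, h4⟩
        · exact Or.inr h4
        · exact Or.inl h4
    obtain ⟨pc, hpc, hpcw⟩ := hwc
    have hwcd : w = c ∨ w = d := by
      rw [Sym2.eq_iff] at hpcw
      rcases hpcw with ⟨_, h4⟩ | ⟨_, h4⟩
      · exact Or.inr h4
      · exact Or.inl h4
    have hwT : w ∈ T := by
      refine mem_nb.2 ⟨hwA, x, hxA, (hins_x h).2 ?_⟩
      rcases hwab with h4 | h4
      · exact Or.inl h4
      · exact Or.inr (Or.inl h4)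
    have hywadj : (hins G x a b y c d).Adj y w := by
      refine (hins_y h).2 ?_
      rcases hwcd with h4 | h4
      · exact Or.inl h4
      · exact Or.inr (Or.inl h4)
    have hyA : y ∉ A := by
      intro h0
      exact hxy (hcond y h0 hywadj).symm
    have hyT : y ∈ T := mem_nb.2 ⟨hyA, x, hxA, (hins_x h).2 (Or.inr (Or.inr rfl))⟩
    -- the third neighbour
    have h5 : ∃ q, G.Adj w q ∧ q ∉ A₀ := by
      by_contra hcon
      push Not at hcon
      have hsub : (univ.filter fun z => G.Adj w z) ⊆ {p, p'} := by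
        intro z hz
        have hz' : G.Adj w z := by simpa using hz
        have hzA := hcon z hz'
        have hz1 := hin z hzA hz'.symm
        -- `s(z, w)` is one of the two edges
        have hz2 : s(z, w) = s(p, w) ∨ s(z, w) = s(p', w) := by
          rcases hp1 with h6 | h6
          · rcases hp1' with h7 | h7
            · exact absurd (h6.trans h7.symm) hinj
            · rcases hz1 with h8 | h8
              · exact Or.inl (h8.trans h6.symm)
              · exact Or.inr (h8.trans h7.symm)
          · rcases hp1' with h7 | h7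
            · rcases hz1 with h8 | h8
              · exact Or.inr (h8.trans h7.symm)
              · exact Or.inl (h8.trans h6.symm)
            · exact absurd (h6.trans h7.symm) hinj
        simp only [mem_insert, mem_singleton]
        rcases hz2 with h6 | h6
        · rw [Sym2.eq_iff] at h6
          rcases h6 with ⟨h6, _⟩ | ⟨h6, h6'⟩
          · exact Or.inl h6
          · exact absurd h6 hz'.ne'
        · rw [Sym2.eq_iff] at h6
          rcases h6 with ⟨h6, _⟩ | ⟨h6, h6'⟩
          · exact Or.inr h6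
          · exact absurd h6 hz'.ne'
      have := card_le_card hsub
      have h6 : #({p, p'} : Finset V) ≤ 2 := card_le_two
      omega
    obtain ⟨q, hq, hqA⟩ := h5
    have hqN : q ∈ nb G A₀ := (hcover q ((deg_pos_iff G q).2 ⟨w, hq.symm⟩)).resolve_left hqA
    have hqy : q ≠ y := fun h0 => hyN (h0 ▸ hqN)
    have hqT : q ∈ T := by
      rcases hNsub q hqN with h1 | ⟨_, hqcd, _⟩
      · exact h1
      · exfalso
        -- `q` is `c` or `d`, not `w`, so `q = pc ∈ A₀`
        have : q = pc := by
          rw [Sym2.eq_iff] at hpcw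
          rcases hpcw with ⟨h6, h7⟩ | ⟨h6, h7⟩
          · rcases hqcd with h8 | h8
            · exact h8.trans h6.symm
            · exact absurd (h8.trans h7.symm) hq.ne'
          · rcases hqcd with h8 | h8
            · exact absurd (h8.trans h7.symm) hq.ne'
            · exact h8.trans h6.symm
        exact hqA (this ▸ hpc)
    have : #({w, y, q} : Finset V) ≤ #T := card_le_card (by
      intro z hz
      simp only [mem_insert, mem_singleton] at hz
      rcases hz with rfl | rfl | rfl <;> assumption)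
    rw [card_eq_three.2 ⟨w, y, q, hwy, hq.ne, hqy.symm, rfl⟩] at this
    omega

/-- inserting two adjacent cubic vertices keeps a graph with degrees at least three perfect -/
theorem good_hins (h : HD G x a b y c d) (hG : Good G (deg G))
    (h3 : ∀ v, deg G v ≠ 0 → 3 ≤ deg G v) :
    Good (hins G x a b y c d) (deg (hins G x a b y c d)) := by
  have hdx := deg_hins_x h
  have hdy := deg_hins_y h
  have hG3 : ∀ u v, u ≠ v → deg G u ≠ 0 → deg G v ≠ 0 → Perf G u v 3 := fun u v huv hu hv =>
    (hG u v huv).mono (le_min (h3 u hu) (h3 v hv))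
  -- pairs with `x`
  have hx : ∀ w, w ≠ x → Perf (hins G x a b y c d) x w
      (min (deg (hins G x a b y c d) x) (deg (hins G x a b y c d) w)) := by
    intro w hw
    rw [hdx]
    by_cases hwy : w = y
    · subst hwy
      rw [hdy]
      exact perf_hins_new h h3 hG3 hw (Or.inl rfl)
    · rw [deg_hins_old h hw hwy]
      by_cases h0 : deg G w = 0
      · rw [h0]
        exact perf_zero _ _ _
      · rw [min_eq_left (h3 w h0)]
        exact perf_hins_new h h3 hG3 hw (Or.inr h0)
  have hy : ∀ w, w ≠ y → Perf (hins G x a b y c d) y w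
      (min (deg (hins G x a b y c d) y) (deg (hins G x a b y c d) w)) := by
    intro w hw
    rw [hdy]
    by_cases hwx : w = x
    · subst hwx
      rw [hdx, hins_symm h]
      exact perf_hins_new h.symm h3 hG3 hw (Or.inl rfl)
    · rw [deg_hins_old h hwx hw]
      by_cases h0 : deg G w = 0
      · rw [h0]
        exact perf_zero _ _ _
      · rw [min_eq_left (h3 w h0), hins_symm h]
        exact perf_hins_new h.symm h3 hG3 hw (Or.inr h0)
  intro u v huv
  by_cases hu : u = x
  · subst hu
    exact hx v huv.symm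
  by_cases hu' : u = y
  · subst hu'
    exact hy v huv.symm
  by_cases hv : v = x
  · subst hv
    rw [min_comm]
    exact (hx u hu).symm (Ne.symm hu)
  by_cases hv' : v = y
  · subst hv'
    rw [min_comm]
    exact (hy u hu').symm (Ne.symm hu')
  rw [deg_hins_old h hu hu', deg_hins_old h hv hv']
  exact perf_hins_old h hu hu' hv hv' (hG u v huv)

end

end Pool.Agent.AvgConn
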