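import Pool.Agent.Work.MP_88992e_co.SqDefs

/-!
# Module HSEG: a hub with many ports meets many segments
-/

namespace Pool.Agent.AvgConn

open Finset
open scoped Classical

theorem segs_of_ports {t e L : ℕ} [NeZero L] (he : t ≤ e) (hL : t ≤ L) :
    t ≤ #{i : ZMod L | ∃ p < e, (p : ZMod L) = i} := by
  have h := Finset.card_le_card_of_injOn (s := Finset.range t)
    (t := ({i : ZMod L | ∃ p < e, (p : ZMod L) = i} : Finset (ZMod L)))
    (fun p => (p : ZMod L)) (by
      intro p hp
      have hp' : p < t := Finset.mem_range.1 hp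
      simp only [Finset.coe_filter, Finset.mem_univ, true_and, Set.mem_ofPred_eq]
      exact ⟨p, by omega, rfl⟩) (by
      intro p hp q hq hpq
      have hp' : p < t := Finset.mem_range.1 hp
      have hq' : q < t := Finset.mem_range.1 hq
      have h1 : (p : ZMod L) = (q : ZMod L) := hpq
      rw [ZMod.natCast_eq_natCast_iff', Nat.mod_eq_of_lt (by omega), Nat.mod_eq_of_lt (by omega)] at h1
      exact h1)
  rwa [Finset.card_range] at h

end Pool.Agent.AvgConn
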