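import Pool.Agent.Work.MP_88992e_co.SqDefs

/-!
# A graph with hubs
-/

namespace Pool.Agent.AvgConn

open Finset
open scoped Classical

/-- the graph on `B ⊕ A`: `G₀` on `B`, and `b` is joined to the hub `a` if `P b a` -/
def hubG {B A : Type} (G₀ : SimpleGraph B) (P : B → A → Prop) : SimpleGraph (B ⊕ A) where
  Adj x y := (∃ b c, x = Sum.inl b ∧ y = Sum.inl c ∧ G₀.Adj b c) ∨
    (∃ b a, x = Sum.inl b ∧ y = Sum.inr a ∧ P b a) ∨
    ∃ b a, x = Sum.inr a ∧ y = Sum.inl b ∧ P b a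
  symm := by
    refine ⟨?_⟩
    rintro x y (⟨b, c, hx, hy, h⟩ | ⟨b, a, hx, hy, h⟩ | ⟨b, a, hx, hy, h⟩)
    · exact Or.inl ⟨c, b, hy, hx, h.symm⟩
    · exact Or.inr (Or.inr ⟨b, a, hy, hx, h⟩)
    · exact Or.inr (Or.inl ⟨b, a, hy, hx, h⟩)
  loopless := by
    refine ⟨?_⟩
    rintro x (⟨b, c, hx, hy, h⟩ | ⟨b, a, hx, hy, h⟩ | ⟨b, a, hx, hy, h⟩)
    · rw [hx] at hy
      rw [Sum.inl.inj hy] at h
      exact G₀.irrefl h
    · rw [hx] at hy; cases hy
    · rw [hx] at hy; cases hy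

theorem hubG_inl_inl {B A : Type} {G₀ : SimpleGraph B} {P : B → A → Prop} {b c : B} :
    (hubG G₀ P).Adj (Sum.inl b) (Sum.inl c) ↔ G₀.Adj b c := by
  constructor
  · rintro (⟨b, c, hx, hy, h⟩ | ⟨b, a, hx, hy, h⟩ | ⟨b, a, hx, hy, h⟩)
    · rw [Sum.inl.inj hx, Sum.inl.inj hy]; exact h
    · cases hy
    · cases hx
  · exact fun h => Or.inl ⟨b, c, rfl, rfl, h⟩

theorem hubG_inl_inr {B A : Type} {G₀ : SimpleGraph B} {P : B → A → Prop} {b : B} {a : A} :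
    (hubG G₀ P).Adj (Sum.inl b) (Sum.inr a) ↔ P b a := by
  constructor
  · rintro (⟨b, c, hx, hy, h⟩ | ⟨b, a, hx, hy, h⟩ | ⟨b, a, hx, hy, h⟩)
    · cases hy
    · rw [Sum.inl.inj hx, Sum.inr.inj hy]; exact h
    · cases hx
  · exact fun h => Or.inr (Or.inl ⟨b, a, rfl, rfl, h⟩)

theorem hubG_inr_inl {B A : Type} {G₀ : SimpleGraph B} {P : B → A → Prop} {b : B} {a : A} :
    (hubG G₀ P).Adj (Sum.inr a) (Sum.inl b) ↔ P b a := by
  rw [SimpleGraph.adj_comm]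
  exact hubG_inl_inr

theorem hubG_inr_inr {B A : Type} {G₀ : SimpleGraph B} {P : B → A → Prop} {a c : A} :
    ¬ (hubG G₀ P).Adj (Sum.inr a) (Sum.inr c) := by
  rintro (⟨b, c, hx, hy, h⟩ | ⟨b, a, hx, hy, h⟩ | ⟨b, a, hx, hy, h⟩)
  · cases hx
  · cases hx
  · cases hy

theorem deg_hub_inl {B A : Type} [Fintype B] [Fintype A] (G₀ : SimpleGraph B)
    (P : B → A → Prop) (b : B) :
    deg (hubG G₀ P) (Sum.inl b) = deg G₀ b + #{a | P b a} := by
  rw [deg_eq, deg_eq, Finset.card_filter, Finset.card_filter, Finset.card_filter,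
    Fintype.sum_sum_type]
  congr 1
  · refine Finset.sum_congr rfl fun c _ => ?_
    simp only [hubG_inl_inl]
  · refine Finset.sum_congr rfl fun c _ => ?_
    simp only [hubG_inl_inr]

theorem deg_hub_inr {B A : Type} [Fintype B] [Fintype A] (G₀ : SimpleGraph B)
    (P : B → A → Prop) (a : A) : deg (hubG G₀ P) (Sum.inr a) = #{b | P b a} := by
  rw [deg_eq, Finset.card_filter, Finset.card_filter, Fintype.sum_sum_type]
  have h : ∑ c : A, (if (hubG G₀ P).Adj (Sum.inr a) (Sum.inr c) then 1 else 0) = 0 :=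
    Finset.sum_eq_zero fun c _ => if_neg hubG_inr_inr
  rw [h, add_zero]
  refine Finset.sum_congr rfl fun c _ => ?_
  simp only [hubG_inr_inl]

theorem lk_inl {B A : Type} [Fintype B] [Fintype A] {G₀ : SimpleGraph B} {P : B → A → Prop}
    {T : Finset B} (h : Lk G₀ T) : Lk (hubG G₀ P) (T.map Function.Embedding.inl) := by
  intro X hX hnb
  let Y : Finset B := {b | Sum.inl b ∈ X}
  have hY : ∀ b, b ∈ Y ↔ Sum.inl b ∈ X := fun b => by simp [Y]
  have h1 : T ⊆ Y := by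
    apply h Y
    · obtain ⟨x, hx, hxX⟩ := hX
      obtain ⟨b, hb, rfl⟩ := Finset.mem_map.1 hx
      exact ⟨b, hb, (hY b).2 hxX⟩
    · intro x hx hxn
      rw [mem_nb] at hxn
      obtain ⟨h2, a, ha, hax⟩ := hxn
      refine hnb (Sum.inl x) (Finset.mem_map.2 ⟨x, hx, rfl⟩) ?_
      rw [mem_nb]
      exact ⟨fun h3 => h2 ((hY x).2 h3), Sum.inl a, (hY a).1 ha, hubG_inl_inl.2 hax⟩
  intro x hx
  obtain ⟨b, hb, rfl⟩ := Finset.mem_map.1 hx
  exact (hY b).1 (h1 hb)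

end Pool.Agent.AvgConn
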