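import Pool.Agent.Work.MP_88992e_co.SqDefs

/-!
# Positions from keys
-/

namespace Pool.Agent.AvgConn

open Finset
open scoped Classical

universe u

theorem exists_pos {V : Type u} [Fintype V] {L : ℕ} (seg : V → ZMod L) (key : V → ℕ)
    (hk : ∀ u v, seg u = seg v → key u = key v → u = v) (hne : ∀ i, ∃ v, seg v = i) :
    ∃ pos : V → ℕ, Coord seg pos ∧
      ∀ u v, seg u = seg v → (pos u ≤ pos v ↔ key u ≤ key v) := by
  set B : V → Finset V := fun v => univ.filter fun w => seg w = seg v ∧ key w < key v with hB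
  have hmem : ∀ v w, w ∈ B v ↔ seg w = seg v ∧ key w < key v := by
    intro v w
    simp [hB]
  have hlt : ∀ u v, seg u = seg v → key u < key v → #(B u) < #(B v) := by
    intro u v hs hkl
    apply card_lt_card
    rw [ssubset_iff_of_subset]
    · refine ⟨u, (hmem v u).2 ⟨hs, hkl⟩, fun h => ?_⟩
      have := ((hmem u u).1 h).2
      omega
    · intro w hw
      obtain ⟨h1, h2⟩ := (hmem u w).1 hw
      exact (hmem v w).2 ⟨h1.trans hs, h2.trans hkl⟩
  have hle : ∀ u v, seg u = seg v → (#(B u) ≤ #(B v) ↔ key u ≤ key v) := by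
    intro u v hs
    constructor
    · intro h
      by_contra hcon
      have := hlt v u hs.symm (by omega)
      omega
    · intro h
      rcases Nat.lt_or_eq_of_le h with h | h
      · exact (hlt u v hs h).le
      · rw [hk u v hs h]
  refine ⟨fun v => #(B v), ⟨?_, ?_, ?_⟩, hle⟩
  · intro u v hs hp
    apply hk u v hs
    have h1 := (hle u v hs).1 hp.le
    have h2 := (hle v u hs.symm).1 hp.ge
    omega
  · intro v p hp
    have hp' : #(B v) = p + 1 := hp
    have hne' : (B v).Nonempty := by
      rw [← card_pos]; omega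
    obtain ⟨w, hw, hmax⟩ := exists_max_image (B v) key hne'
    obtain ⟨w1, w2⟩ := (hmem v w).1 hw
    refine ⟨w, w1, ?_⟩
    have hBv : B v = insert w (B w) := by
      ext x
      rw [mem_insert, hmem, hmem]
      constructor
      · rintro ⟨x1, x2⟩
        rcases Nat.lt_or_eq_of_le (hmax x ((hmem v x).2 ⟨x1, x2⟩)) with h | h
        · exact Or.inr ⟨x1.trans w1.symm, h⟩
        · exact Or.inl (hk x w (x1.trans w1.symm) h)
      · rintro (rfl | ⟨x1, x2⟩)
        · exact ⟨w1, w2⟩
        · exact ⟨x1.trans w1, x2.trans w2⟩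
    have hnot : w ∉ B w := fun h => by
      have := ((hmem w w).1 h).2
      omega
    rw [hBv, card_insert_of_notMem hnot] at hp'
    exact Nat.succ_injective hp'
  · intro i
    obtain ⟨v0, hv0⟩ := hne i
    obtain ⟨v, hv, hmin⟩ := exists_min_image (univ.filter fun w => seg w = i) key
      ⟨v0, by simp [hv0]⟩
    rw [mem_filter] at hv
    refine ⟨v, hv.2, ?_⟩
    rw [card_eq_zero, eq_empty_iff_forall_notMem]
    intro w hw
    obtain ⟨h1, h2⟩ := (hmem v w).1 hw
    have := hmin w (by simp [h1, hv.2])
    omega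

end Pool.Agent.AvgConn
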