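import Pool.Agent.Work.MP_88992e_co.Ring

/-!
# Module LKC: a convex part of a segment is linked
-/

namespace Pool.Agent.AvgConn

open Finset
open scoped Classical

universe u

theorem lk_convex {V : Type u} [Fintype V] {L : ℕ} {seg : V → ZMod L} {pos : V → ℕ}
    (hc : Coord seg pos) {G : SimpleGraph V} (hG : ring seg pos ≤ G) {T : Finset V} {i : ZMod L}
    (h1 : ∀ v ∈ T, seg v = i)
    (h2 : ∀ u ∈ T, ∀ v ∈ T, ∀ w, seg w = i → pos u ≤ pos w → pos w ≤ pos v → w ∈ T) :
    Lk G T := by
  rintro A ⟨x, hxT, hxA⟩ hA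
  have hadj : ∀ u w, seg w = seg u → pos w = pos u + 1 → G.Adj u w := by
    intro u w hs hp
    apply hG
    rw [ring, SimpleGraph.fromRel_adj]
    refine ⟨?_, Or.inl (Or.inl ⟨hs, hp⟩)⟩
    rintro rfl
    omega
  have hstep : ∀ u ∈ A, ∀ w ∈ T, G.Adj u w → w ∈ A := by
    intro u hu w hw h
    by_contra hn
    exact hA w hw (mem_nb.2 ⟨hn, u, hu, h⟩)
  have up : ∀ n, ∀ y ∈ T, pos y = pos x + n → y ∈ A := by
    intro n
    induction n with
    | zero =>
      intro y hy hp
      rw [hc.inj y x ((h1 y hy).trans (h1 x hxT).symm) (by omega)]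
      exact hxA
    | succ n ih =>
      intro y hy hp
      obtain ⟨w, hw1, hw2⟩ := hc.down y (pos x + n) (by omega)
      have hwT : w ∈ T := h2 x hxT y hy w (hw1.trans (h1 y hy)) (by omega) (by omega)
      exact hstep w (ih w hwT hw2) y hy (hadj w y hw1.symm (by omega))
  have down : ∀ n, ∀ y ∈ T, pos y + n = pos x → y ∈ A := by
    intro n
    induction n with
    | zero =>
      intro y hy hp
      rw [hc.inj y x ((h1 y hy).trans (h1 x hxT).symm) (by omega)]
      exact hxA
    | succ n ih =>
      intro y hy hp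
      obtain ⟨w, hw1, hw2⟩ := hc.down' x (pos y + 1) (by omega)
      have hws : seg w = i := hw1.trans (h1 x hxT)
      have hwT : w ∈ T := h2 y hy x hxT w hws (by omega) (by omega)
      exact hstep w (ih w hwT (by omega)) y hy (hadj y w (hws.trans (h1 y hy).symm) hw2).symm
  intro y hy
  rcases le_total (pos x) (pos y) with h | h
  · exact up (pos y - pos x) y hy (by omega)
  · exact down (pos x - pos y) y hy (by omega)

end Pool.Agent.AvgConn
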