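import Pool.Agent.Work.MP_88992e_co.Swap
import Pool.Agent.Work.MP_88992e_co.BadW

/-!
# Realising the degrees by a nice graph
-/

namespace Pool.Agent.AvgConn

open Finset
open scoped Classical

universe u

variable {V : Type u} [Fintype V] {L : ℕ} [NeZero L]

omit [NeZero L] in
lemma real_deg_eq_sum (H : SimpleGraph V) (v : V) :
    deg H v = ∑ w, if H.Adj v w then 1 else 0 := by
  rw [deg_eq, card_filter]

omit [NeZero L] in
lemma real_sum_deg_even (G : SimpleGraph V) : Even (∑ v, deg G v) := by
  have h1 : ∀ v, deg G v = G.degree v := fun v => by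
    rw [deg_eq, ← SimpleGraph.card_neighborFinset_eq_degree]
    congr 1
    ext w
    simp
  simp only [h1]
  rw [SimpleGraph.sum_degrees_eq_twice_card_edges]
  exact even_two_mul _

theorem exists_nice {seg : V → ZMod L} {g : V → ℕ} {s w : ℕ} (hg : ∀ v, g v ≤ s)
    (hw : ∀ i, segW seg g i ≤ w) (M : SimpleGraph V) (hM : Nice seg M)
    (hdM : ∀ v, deg M v ≤ g v) (hev : Even (∑ v, g v))
    (hbig : 2 * ((2 * s + 2) * w) + ∑ v, deg M v < ∑ v, g v) :
    ∃ H : SimpleGraph V, M ≤ H ∧ Nice seg H ∧ ∀ v, deg H v = g v := by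
  set S : Finset (SimpleGraph V) := univ.filter fun H => M ≤ H ∧ Nice seg H ∧ ∀ v, deg H v ≤ g v
    with hS
  have hMS : M ∈ S := mem_filter.2 ⟨mem_univ _, le_rfl, hM, hdM⟩
  obtain ⟨H, hHS, hmax⟩ := S.exists_max_image (fun H => ∑ v, deg H v) ⟨M, hMS⟩
  obtain ⟨-, hMH, hH, hd⟩ := mem_filter.1 hHS
  refine ⟨H, hMH, hH, ?_⟩
  by_contra hne
  push Not at hne
  obtain ⟨x, hx⟩ := hne
  have hx : deg H x < g x := lt_of_le_of_ne (hd x) hx
  -- no larger graph
  have hno : ∀ H' : SimpleGraph V, M ≤ H' → Nice seg H' → (∀ v, deg H' v ≤ g v) →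
      ∑ v, deg H' v ≤ ∑ v, deg H v := fun H' h1 h2 h3 =>
    hmax H' (mem_filter.2 ⟨mem_univ _, h1, h2, h3⟩)
  have hself : ∀ z, z ∈ bad seg H z := fun z => by
    rw [swp_mem_bad]
    exact Or.inl fun h => h.1 rfl
  have hsum2 : ∀ x y : V, ∑ v, (deg H v + (if v = x then 1 else 0) + (if v = y then 1 else 0)) =
      ∑ v, deg H v + 2 := by
    intro x y
    rw [sum_add_distrib, sum_add_distrib, sum_ite_eq' univ x, sum_ite_eq' univ y,
      if_pos (mem_univ _), if_pos (mem_univ _)]
  -- deficient vertices are bad for each other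
  have hbad : ∀ p q, deg H p < g p → deg H q < g q → q ∈ bad seg H p := by
    intro p q hp hq
    by_contra hpq
    obtain ⟨H', h1, h2, h3⟩ := hH.add hpq
    have hpq' : p ≠ q := by
      rintro rfl
      exact hpq (hself p)
    have h4 := hno H' (hMH.trans h2) h1 (by
      intro v
      rw [h3]
      by_cases hvp : v = p
      · subst hvp
        rw [if_pos rfl, if_neg hpq']
        omega
      · rw [if_neg hvp]
        by_cases hvq : v = q
        · subst hvq
          rw [if_pos rfl]
          omega
        · rw [if_neg hvq]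
          exact hd v)
    simp only [h3] at h4
    rw [hsum2] at h4
    omega
  -- a second deficient vertex
  obtain ⟨y, hy, hxy⟩ : ∃ y, deg H y < g y ∧ (x = y → deg H x + 2 ≤ g x) := by
    by_cases h2 : deg H x + 2 ≤ g x
    · exact ⟨x, hx, fun _ => h2⟩
    · by_contra hcon
      push Not at hcon
      have h3 : ∀ v, v ≠ x → deg H v = g v := by
        intro v hv
        refine le_antisymm (hd v) ?_
        by_contra hlt
        push Not at hlt
        exact hv (hcon v hlt).1.symm
      have h4 : ∑ v, g v = ∑ v, deg H v + 1 := by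
        have h5 : ∀ v, g v = deg H v + if v = x then 1 else 0 := by
          intro v
          by_cases hv : v = x
          · subst hv
            rw [if_pos rfl]
            omega
          · rw [if_neg hv, h3 v hv]
            rfl
        rw [sum_congr rfl fun v _ => h5 v, sum_add_distrib, sum_ite_eq' univ x,
          if_pos (mem_univ _)]
      have h6 := real_sum_deg_even H
      rw [h4] at hev
      rw [Nat.even_add_one] at hev
      exact hev h6
  have hw1 := bad_weight hg hw hd hx
  have hw2 := bad_weight hg hw hd hy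
  have hdef : ∀ a, a ∉ bad seg H x → deg H a = g a := by
    intro a ha
    refine le_antisymm (hd a) ?_
    by_contra hlt
    push Not at hlt
    exact ha (hbad x a hx hlt)
  -- the pair to be swapped
  obtain ⟨a, b, hab, ha, hb, hMab⟩ : ∃ a b, H.Adj a b ∧ a ∉ bad seg H x ∧ b ∉ bad seg H y ∧
      ¬ M.Adj a b := by
    by_contra hcon
    push Not at hcon
    have h1 : ∑ a ∈ (bad seg H x)ᶜ, deg H a ≤
        ∑ a, (∑ b, if H.Adj a b ∧ b ∈ bad seg H y then 1 else 0) + ∑ a, deg M a := by
      rw [← sum_add_distrib]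
      refine (sum_le_sum fun a ha => ?_).trans (sum_le_sum_of_subset (subset_univ _))
      rw [mem_compl] at ha
      rw [real_deg_eq_sum H a, real_deg_eq_sum M a, ← sum_add_distrib]
      refine sum_le_sum fun b _ => ?_
      by_cases h2 : H.Adj a b
      · by_cases h3 : b ∈ bad seg H y
        · rw [if_pos h2, if_pos ⟨h2, h3⟩]
          omega
        · rw [if_pos h2, if_pos (hcon a b h2 ha h3)]
          omega
      · rw [if_neg h2]
        exact Nat.zero_le _
    have h2 : ∑ a, (∑ b, if H.Adj a b ∧ b ∈ bad seg H y then 1 else 0) =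
        ∑ b ∈ bad seg H y, deg H b := by
      rw [sum_comm, ← sum_filter_add_sum_filter_not univ (fun b => b ∈ bad seg H y)]
      have h3 : ∑ b ∈ univ.filter (fun b => b ∉ bad seg H y),
          (∑ a, if H.Adj a b ∧ b ∈ bad seg H y then 1 else 0) = 0 := by
        refine sum_eq_zero fun b hb => sum_eq_zero fun a _ => ?_
        rw [if_neg fun h => (mem_filter.1 hb).2 h.2]
      rw [h3, add_zero, filter_mem_eq_inter, univ_inter]
      refine sum_congr rfl fun b hb => ?_
      rw [real_deg_eq_sum]
      refine sum_congr rfl fun a _ => ?_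
      by_cases h4 : H.Adj a b
      · rw [if_pos ⟨h4, hb⟩, if_pos h4.symm]
      · rw [if_neg fun h => h4 h.1, if_neg fun h => h4 h.symm]
    have h3 : ∑ b ∈ bad seg H y, deg H b ≤ (2 * s + 2) * w :=
      (sum_le_sum fun b _ => hd b).trans hw2
    have h4 : ∑ a ∈ (bad seg H x)ᶜ, deg H a = ∑ a ∈ (bad seg H x)ᶜ, g a :=
      sum_congr rfl fun a ha => hdef a (mem_compl.1 ha)
    have h5 := sum_add_sum_compl (bad seg H x) g
    omega
  obtain ⟨H', h1, h2, h3⟩ := hH.swap hab (hbad x y hx hy) ha hb
  have h4 := hno H' (by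
    intro p q hpq
    refine h2 p q (hMH hpq) ?_
    intro h
    rw [Sym2.eq_iff] at h
    rcases h with ⟨rfl, rfl⟩ | ⟨rfl, rfl⟩
    · exact hMab hpq
    · exact hMab hpq.symm) h1 (by
    intro v
    rw [h3]
    by_cases hvx : v = x
    · subst hvx
      rw [if_pos rfl]
      by_cases hvy : v = y
      · rw [if_pos hvy]
        have := hxy hvy
        omega
      · rw [if_neg hvy]
        omega
    · rw [if_neg hvx]
      by_cases hvy : v = y
      · subst hvy
        rw [if_pos rfl]
        omega
      · rw [if_neg hvy]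
        exact hd v)
  simp only [h3] at h4
  rw [hsum2] at h4
  omega

end Pool.Agent.AvgConn
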