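import Pool.Agent.Work.MP_88992e_co.SqDefs

/-!
# Module RING: degrees in the ring plus a nice graph
-/

namespace Pool.Agent.AvgConn

open Finset
open scoped Classical

universe u

section

variable {V : Type u} {L : ℕ}

/-- all lower positions occur in a segment -/
theorem Coord.down' {seg : V → ZMod L} {pos : V → ℕ} (hc : Coord seg pos) (v : V) (p : ℕ)
    (hp : p ≤ pos v) : ∃ w, seg w = seg v ∧ pos w = p := by
  obtain ⟨k, hk⟩ := Nat.exists_eq_add_of_le hp
  induction k generalizing v with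
  | zero => exact ⟨v, rfl, by omega⟩
  | succ k ih =>
    obtain ⟨w, hw1, hw2⟩ := hc.down v (p + k) (by omega)
    obtain ⟨w', h1, h2⟩ := ih w (by omega) (by omega)
    exact ⟨w', h1.trans hw1, h2⟩

theorem Coord.exists_succ {seg : V → ZMod L} {pos : V → ℕ} (hc : Coord seg pos) (u : V) :
    ∃ v, nxt seg pos u v := by
  by_cases h : ∃ w, seg w = seg u ∧ pos u < pos w
  · obtain ⟨w, h1, h2⟩ := h
    obtain ⟨v, h3, h4⟩ := hc.down' w (pos u + 1) h2
    exact ⟨v, Or.inl ⟨h3.trans h1, h4⟩⟩
  · obtain ⟨v, h3, h4⟩ := hc.zero (seg u + 1)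
    refine ⟨v, Or.inr ⟨h3, h4, fun w hw => ?_⟩⟩
    by_contra h5
    exact h ⟨w, hw, not_le.1 h5⟩

theorem Coord.succ_unique {seg : V → ZMod L} {pos : V → ℕ} (hc : Coord seg pos) {u v v' : V}
    (h : nxt seg pos u v) (h' : nxt seg pos u v') : v = v' := by
  rcases h with ⟨h1, h2⟩ | ⟨h1, h2, h3⟩ <;> rcases h' with ⟨h1', h2'⟩ | ⟨h1', h2', h3'⟩
  · exact hc.inj v v' (h1.trans h1'.symm) (h2.trans h2'.symm)
  · have := h3' v h1
    omega
  · have := h3 v' h1'
    omega
  · exact hc.inj v v' (h1.trans h1'.symm) (h2.trans h2'.symm)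

theorem Coord.pred_unique {seg : V → ZMod L} {pos : V → ℕ} (hc : Coord seg pos) {u u' v : V}
    (h : nxt seg pos u v) (h' : nxt seg pos u' v) : u = u' := by
  rcases h with ⟨h1, h2⟩ | ⟨h1, h2, h3⟩ <;> rcases h' with ⟨h1', h2'⟩ | ⟨h1', h2', h3'⟩
  · exact hc.inj u u' (h1.symm.trans h1') (by omega)
  · omega
  · omega
  · have e : seg u = seg u' := add_right_cancel (h1.symm.trans h1')
    have a := h3 u' e.symm
    have b := h3' u e
    exact hc.inj u u' e (le_antisymm b a)

end

section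

variable {V : Type u} [Fintype V] {L : ℕ}

theorem Coord.exists_pred {seg : V → ZMod L} {pos : V → ℕ} (hc : Coord seg pos) (v : V) :
    ∃ u, nxt seg pos u v := by
  rcases Nat.eq_zero_or_pos (pos v) with h | h
  · obtain ⟨w, hw, -⟩ := hc.zero (seg v - 1)
    obtain ⟨u, hu, hmax⟩ := (sg seg (seg v - 1)).exists_max_image pos
      ⟨w, by simpa [sg] using hw⟩
    have hu' : seg u = seg v - 1 := by simpa [sg] using hu
    refine ⟨u, Or.inr ⟨by rw [hu', sub_add_cancel], h, fun x hx => hmax x ?_⟩⟩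
    have : seg x = seg v - 1 := hx.trans hu'
    simpa [sg] using this
  · obtain ⟨w, h1, h2⟩ := hc.down v (pos v - 1) (by omega)
    exact ⟨w, Or.inl ⟨h1.symm, by omega⟩⟩

/-- every vertex has exactly one successor and exactly one predecessor, they are different, and
no edge of `H` is an edge of the ring -/
theorem deg_ring_sup [NeZero L] {seg : V → ZMod L} {pos : V → ℕ} (hc : Coord seg pos) (hL : 4 ≤ L)
    {H : SimpleGraph V} (hH : Nice seg H) (v : V) :
    deg (ring seg pos ⊔ H) v = deg H v + 2 := by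
  obtain ⟨s, hs⟩ := hc.exists_succ v
  obtain ⟨p, hp⟩ := hc.exists_pred v
  have one : (1 : ZMod L) ≠ 0 := by
    intro h
    have h1 : ((1 : ℕ) : ZMod L) = 0 := by simpa using h
    have := Nat.le_of_dvd one_pos ((ZMod.natCast_eq_zero_iff 1 L).1 h1)
    omega
  have two : (1 : ZMod L) + 1 ≠ 0 := by
    intro h
    have h1 : ((1 + 1 : ℕ) : ZMod L) = 0 := by
      rw [Nat.cast_add, Nat.cast_one]
      exact h
    have := Nat.le_of_dvd two_pos ((ZMod.natCast_eq_zero_iff (1 + 1) L).1 h1)
    omega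
  have self : ∀ x, ¬ nxt seg pos x x := by
    rintro x (⟨-, h2⟩ | ⟨h1, -, -⟩)
    · omega
    · exact one (by simpa using h1)
  have back : ∀ x y, nxt seg pos x y → ¬ nxt seg pos y x := by
    rintro x y (⟨h1, h2⟩ | ⟨h1, h2, h3⟩) (⟨h1', h2'⟩ | ⟨h1', h2', h3'⟩)
    · omega
    · rw [h1] at h1'
      exact one (by simpa using h1')
    · rw [h1'] at h1
      exact one (by simpa using h1)
    · rw [h1] at h1'
      apply two
      have : seg x + (1 + 1) = seg x + 0 := by rw [add_zero, ← add_assoc]; exact h1'.symm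
      exact add_left_cancel this
  have hsp : s ≠ p := by
    rintro rfl
    exact back v s hs hp
  have hvs : v ≠ s := by
    rintro rfl
    exact self v hs
  have hvp : v ≠ p := by
    rintro rfl
    exact self v hp
  have hHn : ∀ w, H.Adj v w → ¬ nxt seg pos v w ∧ ¬ nxt seg pos w v := by
    intro w hw
    obtain ⟨f1, f2, f3⟩ := hH.1 v w hw
    refine ⟨?_, ?_⟩
    · rintro (⟨h1, -⟩ | ⟨h1, -, -⟩)
      · exact f1 h1
      · exact f2 h1
    · rintro (⟨h1, -⟩ | ⟨h1, -, -⟩)
      · exact f1 h1.symm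
      · exact f3 h1
  have hadj : ∀ w, (ring seg pos ⊔ H).Adj v w ↔ (w = s ∨ w = p) ∨ H.Adj v w := by
    intro w
    rw [SimpleGraph.sup_adj, ring, SimpleGraph.fromRel_adj]
    constructor
    · rintro (⟨-, h | h⟩ | h)
      · exact Or.inl (Or.inl (hc.succ_unique h hs))
      · exact Or.inl (Or.inr (hc.pred_unique h hp))
      · exact Or.inr h
    · rintro ((h | h) | h)
      · subst h
        exact Or.inl ⟨hvs, Or.inl hs⟩
      · subst h
        exact Or.inl ⟨hvp, Or.inr hp⟩
      · exact Or.inr h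
  rw [deg_eq, deg_eq]
  have e : ∀ i : DecidablePred fun w => (ring seg pos ⊔ H).Adj v w,
      (@Finset.filter V (fun w => (ring seg pos ⊔ H).Adj v w) i univ) =
      insert s (insert p (univ.filter fun w => H.Adj v w)) := by
    intro i
    ext w
    simp only [mem_filter, mem_univ, true_and, mem_insert, hadj]
    tauto
  have hs' : ¬ H.Adj v s := fun h => (hHn s h).1 hs
  have hp' : ¬ H.Adj v p := fun h => (hHn p h).2 hp
  rw [e, card_insert_of_notMem, card_insert_of_notMem]
  · simpa using hp'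
  · simp only [mem_insert, mem_filter, mem_univ, true_and, not_or]
    exact ⟨hsp, hs'⟩

end

end Pool.Agent.AvgConn
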