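import Pool.Agent.Work.MP_88992e_co.Ring

/-!
# Module TAIL: the tails in the ring plus a nice graph
-/

namespace Pool.Agent.AvgConn

open Finset
open scoped Classical

universe u

section

variable {V : Type u}

/-- a set in which every vertex reaches the root by descending steps lies on one side of every cut
it does not meet -/
theorem lk_of_root [Fintype V] {G : SimpleGraph V} {T : Finset V} {t : V}
    (m : V → ℕ) (h : ∀ v ∈ T, v ≠ t → ∃ w ∈ T, m w < m v ∧ G.Adj w v) : Lk G T := by
  intro A hA hno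
  have hadj : ∀ a ∈ T, ∀ b ∈ T, G.Adj a b → a ∈ A → b ∈ A := by
    intro a _ b hb hab haA
    by_contra hbA
    exact hno b hb (mem_nb.2 ⟨hbA, a, haA, hab⟩)
  have key : ∀ n : ℕ, ∀ v ∈ T, m v = n → (v ∈ A ↔ t ∈ A) := by
    intro n
    induction n using Nat.strong_induction_on with
    | _ n ih =>
      intro v hv hn
      by_cases hvt : v = t
      · rw [hvt]
      · obtain ⟨w, hw, hlt, hwv⟩ := h v hv hvt
        have h1 := ih (m w) (hn ▸ hlt) w hw rfl
        exact ⟨fun hvA => h1.1 (hadj v hv w hw hwv.symm hvA),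
          fun htA => hadj w hw v hv hwv (h1.2 htA)⟩
  obtain ⟨x, hxT, hxA⟩ := hA
  have htA : t ∈ A := (key _ x hxT rfl).1 hxA
  exact fun v hv => (key _ v hv rfl).2 htA

variable {L : ℕ} {seg : V → ZMod L} {pos : V → ℕ}

theorem ring_adj_of_nxt {u v : V} (hne : u ≠ v) (h : nxt seg pos u v) :
    (ring seg pos).Adj u v := by
  rw [ring, SimpleGraph.fromRel_adj]
  exact ⟨hne, Or.inl h⟩

theorem zmod_one_ne (hL : 4 ≤ L) (i : ZMod L) : i ≠ i + 1 := by
  intro h
  have h1 : (1 : ZMod L) = 0 := by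
    have : i + 0 = i + 1 := by rw [add_zero]; exact h
    exact (add_left_cancel this).symm
  have h2 : ((1 : ℕ) : ZMod L) = 0 := by exact_mod_cast h1
  rw [ZMod.natCast_eq_zero_iff] at h2
  have := Nat.le_of_dvd (by norm_num) h2
  omega

theorem zmod_two_ne (hL : 4 ≤ L) (i j : ZMod L) (h1 : i = j + 1) (h2 : j = i + 1) : False := by
  have h3 : j + 0 = j + 2 := by
    rw [add_zero]
    calc j = i + 1 := h2
      _ = (j + 1) + 1 := by rw [h1]
      _ = j + 2 := by ring
  have h4 : (2 : ZMod L) = 0 := (add_left_cancel h3).symm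
  have h5 : ((2 : ℕ) : ZMod L) = 0 := by exact_mod_cast h4
  rw [ZMod.natCast_eq_zero_iff] at h5
  have := Nat.le_of_dvd (by norm_num) h5
  omega

theorem nxt_ne (hL : 4 ≤ L) {u v : V} (h : nxt seg pos u v) : u ≠ v := by
  rintro rfl
  rcases h with ⟨_, h2⟩ | ⟨h1, _⟩
  · omega
  · exact zmod_one_ne hL _ h1

variable [Fintype V]

/-- the vertices behind `u` in its segment and the whole next segment -/
noncomputable def tailS (seg : V → ZMod L) (pos : V → ℕ) (u : V) : Finset V :=
  {v | (seg v = seg u ∧ pos u < pos v) ∨ seg v = seg u + 1}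

/-- the vertices before `u` in its segment and the whole previous segment -/
noncomputable def tailP (seg : V → ZMod L) (pos : V → ℕ) (u : V) : Finset V :=
  {v | (seg v = seg u ∧ pos v < pos u) ∨ seg v + 1 = seg u}

theorem mem_tailS {u v : V} :
    v ∈ tailS seg pos u ↔ (seg v = seg u ∧ pos u < pos v) ∨ seg v = seg u + 1 := by
  simp [tailS]

theorem mem_tailP {u v : V} :
    v ∈ tailP seg pos u ↔ (seg v = seg u ∧ pos v < pos u) ∨ seg v + 1 = seg u := by
  simp [tailP]

theorem mem_sg {i : ZMod L} {v : V} : v ∈ sg seg i ↔ seg v = i := by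
  simp [sg]

theorem lk_sg (hc : Coord seg pos) (hL : 4 ≤ L) (i : ZMod L) :
    Lk (ring seg pos) (sg seg i) := by
  obtain ⟨t, ht1, ht2⟩ := hc.zero i
  refine lk_of_root (t := t) pos ?_
  intro v hv hvt
  have hv' := mem_sg.1 hv
  have hpos : pos v ≠ 0 := by
    intro h0
    exact hvt (hc.inj v t (hv'.trans ht1.symm) (h0.trans ht2.symm))
  obtain ⟨p, hp⟩ := Nat.exists_eq_succ_of_ne_zero hpos
  obtain ⟨w, hw1, hw2⟩ := hc.down v p hp
  have hn : nxt seg pos w v := Or.inl ⟨hw1.symm, by rw [hw2]; exact hp⟩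
  exact ⟨w, mem_sg.2 (hw1.trans hv'), by omega, ring_adj_of_nxt (nxt_ne hL hn) hn⟩

theorem lk_tailS (hc : Coord seg pos) (hL : 4 ≤ L) (u : V) :
    Lk (ring seg pos) (tailS seg pos u) := by
  obtain ⟨t, ht1, ht2⟩ := hc.zero (seg u + 1)
  obtain ⟨N, hN⟩ : ∃ N, ∀ v : V, pos v ≤ N :=
    ⟨univ.sup pos, fun v => Finset.le_sup (mem_univ v)⟩
  refine lk_of_root (t := t)
    (fun v => if seg v = seg u + 1 then pos v else 1 + (N - pos v)) ?_
  intro v hv hvt
  rcases mem_tailS.1 hv with ⟨h1, h2⟩ | h1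
  · obtain ⟨w, hw⟩ := hc.exists_succ v
    have hv1 : ¬ seg v = seg u + 1 := by
      rw [h1]; exact zmod_one_ne hL _
    refine ⟨w, ?_, ?_, (ring_adj_of_nxt (nxt_ne hL hw) hw).symm⟩
    · rcases hw with ⟨h3, h4⟩ | ⟨h3, _, _⟩
      · exact mem_tailS.2 (Or.inl ⟨h3.trans h1, by omega⟩)
      · exact mem_tailS.2 (Or.inr (by rw [h3, h1]))
    · simp only [if_neg hv1]
      rcases hw with ⟨h3, h4⟩ | ⟨h3, h4, _⟩
      · have hw1 : ¬ seg w = seg u + 1 := by
          rw [h3]; exact hv1
        simp only [if_neg hw1]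
        have := hN w
        omega
      · have hw1 : seg w = seg u + 1 := by rw [h3, h1]
        simp only [if_pos hw1, h4]
        omega
  · have hpos : pos v ≠ 0 := by
      intro h0
      exact hvt (hc.inj v t (h1.trans ht1.symm) (h0.trans ht2.symm))
    obtain ⟨p, hp⟩ := Nat.exists_eq_succ_of_ne_zero hpos
    obtain ⟨w, hw1, hw2⟩ := hc.down v p hp
    have hn : nxt seg pos w v := Or.inl ⟨hw1.symm, by rw [hw2]; exact hp⟩
    have hw3 : seg w = seg u + 1 := hw1.trans h1
    refine ⟨w, mem_tailS.2 (Or.inr hw3), ?_, ring_adj_of_nxt (nxt_ne hL hn) hn⟩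
    simp only [if_pos h1, if_pos hw3]
    omega

theorem lk_tailP (hc : Coord seg pos) (hL : 4 ≤ L) (u : V) :
    Lk (ring seg pos) (tailP seg pos u) := by
  obtain ⟨t, ht1, ht2⟩ := hc.zero (seg u - 1)
  obtain ⟨N, hN⟩ : ∃ N, ∀ v : V, pos v ≤ N :=
    ⟨univ.sup pos, fun v => Finset.le_sup (mem_univ v)⟩
  have ht3 : seg t + 1 = seg u := by rw [ht1]; ring
  refine lk_of_root (t := t)
    (fun v => if seg v + 1 = seg u then pos v else N + 1 + pos v) ?_
  intro v hv hvt
  rcases mem_tailP.1 hv with ⟨h1, h2⟩ | h1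
  · have hv1 : ¬ seg v + 1 = seg u := by
      rw [h1]; exact fun h => zmod_one_ne hL _ h.symm
    by_cases h0 : pos v = 0
    · -- the predecessor is the last vertex of the previous segment
      obtain ⟨w, hwm, hwmax⟩ : ∃ w ∈ sg seg (seg u - 1), ∀ w' ∈ sg seg (seg u - 1),
          pos w' ≤ pos w := Finset.exists_max_image _ pos ⟨t, mem_sg.2 ht1⟩
      have hw0 := mem_sg.1 hwm
      have hw1 : seg w + 1 = seg u := by rw [hw0]; ring
      have hn : nxt seg pos w v := by
        refine Or.inr ⟨by rw [h1, hw1], h0, fun w' hw' => hwmax w' (mem_sg.2 (hw'.trans hw0))⟩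
      refine ⟨w, mem_tailP.2 (Or.inr hw1), ?_, ring_adj_of_nxt (nxt_ne hL hn) hn⟩
      simp only [if_neg hv1, if_pos hw1]
      have := hN w
      omega
    · obtain ⟨p, hp⟩ := Nat.exists_eq_succ_of_ne_zero h0
      obtain ⟨w, hw1, hw2⟩ := hc.down v p hp
      have hn : nxt seg pos w v := Or.inl ⟨hw1.symm, by rw [hw2]; exact hp⟩
      refine ⟨w, mem_tailP.2 (Or.inl ⟨hw1.trans h1, by omega⟩), ?_,
        ring_adj_of_nxt (nxt_ne hL hn) hn⟩
      have hw3 : ¬ seg w + 1 = seg u := by rw [hw1]; exact hv1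
      simp only [if_neg hv1, if_neg hw3]
      omega
  · have hst : seg v = seg t := add_right_cancel (h1.trans ht3.symm)
    have hpos : pos v ≠ 0 := by
      intro h0
      exact hvt (hc.inj v t hst (h0.trans ht2.symm))
    obtain ⟨p, hp⟩ := Nat.exists_eq_succ_of_ne_zero hpos
    obtain ⟨w, hw1, hw2⟩ := hc.down v p hp
    have hn : nxt seg pos w v := Or.inl ⟨hw1.symm, by rw [hw2]; exact hp⟩
    have hw3 : seg w + 1 = seg u := by rw [hw1]; exact h1
    refine ⟨w, mem_tailP.2 (Or.inr hw3), ?_, ring_adj_of_nxt (nxt_ne hL hn) hn⟩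
    simp only [if_pos h1, if_pos hw3]
    omega

theorem Lk.mono {G G' : SimpleGraph V} {T : Finset V} (h : Lk G T) (hG : G ≤ G') : Lk G' T :=
  fun A hA hno => h A hA fun x hx hx' => hno x hx (nb_mono hG A hx')

theorem exists_tails [NeZero L] (hc : Coord seg pos) (hL : 4 ≤ L)
    {H : SimpleGraph V} (hH : Nice seg H) :
    (∀ i, Lk (ring seg pos ⊔ H) (sg seg i)) ∧
    ∃ T : V → V → Finset V, (∀ u y, (ring seg pos ⊔ H).Adj u y → y ∈ T u y ∧ u ∉ T u y ∧
      Lk (ring seg pos ⊔ H) (T u y) ∧ ∃ i, sg seg i ⊆ T u y) ∧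
      ∀ u y z, (ring seg pos ⊔ H).Adj u y → (ring seg pos ⊔ H).Adj u z → y ≠ z →
        Disjoint (T u y) (T u z) := by
  have hle : ring seg pos ≤ ring seg pos ⊔ H := le_sup_left
  refine ⟨fun i => (lk_sg hc hL i).mono hle, fun u y => if H.Adj u y then sg seg (seg y) else
    if nxt seg pos u y then tailS seg pos u else tailP seg pos u, ?_, ?_⟩
  · intro u y huy
    by_cases h1 : H.Adj u y
    · simp only [if_pos h1]
      refine ⟨mem_sg.2 rfl, fun h => ?_, (lk_sg hc hL _).mono hle, seg y, Subset.rfl⟩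
      exact (hH.1 u y h1).1 (mem_sg.1 h).symm
    · have h2 : (ring seg pos).Adj u y := by
        rcases huy with h | h
        · exact h
        · exact absurd h h1
      rw [ring, SimpleGraph.fromRel_adj] at h2
      by_cases h3 : nxt seg pos u y
      · simp only [if_neg h1, if_pos h3]
        refine ⟨?_, ?_, (lk_tailS hc hL u).mono hle, seg u + 1, ?_⟩
        · rcases h3 with ⟨h4, h5⟩ | ⟨h4, _, _⟩
          · exact mem_tailS.2 (Or.inl ⟨h4, by omega⟩)
          · exact mem_tailS.2 (Or.inr h4)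
        · intro h
          rcases mem_tailS.1 h with ⟨_, h5⟩ | h5
          · omega
          · exact zmod_one_ne hL _ h5
        · intro v hv
          exact mem_tailS.2 (Or.inr (mem_sg.1 hv))
      · simp only [if_neg h1, if_neg h3]
        have h4 : nxt seg pos y u := h2.2.resolve_left h3
        refine ⟨?_, ?_, (lk_tailP hc hL u).mono hle, seg u - 1, ?_⟩
        · rcases h4 with ⟨h5, h6⟩ | ⟨h5, _, _⟩
          · exact mem_tailP.2 (Or.inl ⟨h5.symm, by omega⟩)
          · exact mem_tailP.2 (Or.inr h5.symm)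
        · intro h
          rcases mem_tailP.1 h with ⟨_, h5⟩ | h5
          · omega
          · exact zmod_one_ne hL _ h5.symm
        · intro v hv
          refine mem_tailP.2 (Or.inr ?_)
          rw [mem_sg.1 hv]; ring
  · have hSP : ∀ u, Disjoint (tailS seg pos u) (tailP seg pos u) := by
      intro u
      rw [Finset.disjoint_left]
      intro v hv hv'
      rcases mem_tailS.1 hv with ⟨h1, h2⟩ | h1 <;> rcases mem_tailP.1 hv' with ⟨h3, h4⟩ | h3
      · omega
      · rw [h1] at h3
        exact zmod_one_ne hL _ h3.symm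
      · rw [h3] at h1
        exact zmod_one_ne hL _ h1
      · exact zmod_two_ne hL _ _ h1 h3.symm
    have hHS : ∀ u y, H.Adj u y → Disjoint (sg seg (seg y)) (tailS seg pos u) := by
      intro u y h
      rw [Finset.disjoint_left]
      intro v hv hv'
      have hv1 := mem_sg.1 hv
      obtain ⟨f1, f2, _⟩ := hH.1 u y h
      rcases mem_tailS.1 hv' with ⟨h1, _⟩ | h1
      · exact f1 (hv1.symm.trans h1)
      · exact f2 (hv1.symm.trans h1)
    have hHP : ∀ u y, H.Adj u y → Disjoint (sg seg (seg y)) (tailP seg pos u) := by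
      intro u y h
      rw [Finset.disjoint_left]
      intro v hv hv'
      have hv1 := mem_sg.1 hv
      obtain ⟨f1, _, f3⟩ := hH.1 u y h
      rcases mem_tailP.1 hv' with ⟨h1, _⟩ | h1
      · exact f1 (hv1.symm.trans h1)
      · exact f3 (by rw [← hv1]; exact h1.symm)
    intro u y z huy huz hyz
    have hring : ∀ y, (ring seg pos ⊔ H).Adj u y → ¬ H.Adj u y →
        nxt seg pos u y ∨ nxt seg pos y u := by
      intro y h h'
      have h2 : (ring seg pos).Adj u y := by
        rcases h with h | h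
        · exact h
        · exact absurd h h'
      rw [ring, SimpleGraph.fromRel_adj] at h2
      exact h2.2
    by_cases hy : H.Adj u y <;> by_cases hz : H.Adj u z
    · simp only [if_pos hy, if_pos hz]
      rw [Finset.disjoint_left]
      intro v hv hv'
      exact hyz (hH.2 u y z hy hz ((mem_sg.1 hv).symm.trans (mem_sg.1 hv')))
    · simp only [if_pos hy, if_neg hz]
      split_ifs
      · exact hHS u y hy
      · exact hHP u y hy
    · simp only [if_neg hy, if_pos hz]
      split_ifs
      · exact (hHS u z hz).symm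
      · exact (hHP u z hz).symm
    · simp only [if_neg hy, if_neg hz]
      by_cases h1 : nxt seg pos u y <;> by_cases h2 : nxt seg pos u z
      · exact absurd (hc.succ_unique h1 h2) hyz
      · simp only [if_pos h1, if_neg h2]
        exact hSP u
      · simp only [if_neg h1, if_pos h2]
        exact (hSP u).symm
      · exact absurd (hc.pred_unique ((hring y huy hy).resolve_left h1)
          ((hring z huz hz).resolve_left h2)) hyz

end

end Pool.Agent.AvgConn
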