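import Pool.Agent.Work.MP_88992e_co.Port2
import Pool.Agent.Work.MP_88992e_co.Crit3
import Pool.Agent.Work.MP_88992e_co.Real
import Pool.Agent.Work.MP_88992e_co.Ring
import Pool.Agent.Work.MP_88992e_co.Tail
import Pool.Agent.Work.MP_88992e_co.Arcs
import Pool.Agent.Work.MP_88992e_co.LkConvex
import Pool.Agent.Work.MP_88992e_co.Hseg
import Pool.Agent.Work.MP_88992e_co.HubG
import Pool.Agent.Work.MP_88992e_co.Layout2

/-!
# Perfect realisations with hubs
-/

namespace Pool.Agent.AvgConn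

open Finset
open scoped Classical

/-- consecutive segments are joined by an edge of the ring -/
theorem ring_step {V : Type} [Fintype V] {L : ℕ} {seg : V → ZMod L} {pos : V → ℕ}
    (hc : Coord seg pos) (hL : 4 ≤ L) (i : ZMod L) :
    ∃ u v, seg u = i ∧ seg v = i + 1 ∧ (ring seg pos).Adj u v := by
  obtain ⟨w, hw, _⟩ := hc.zero i
  obtain ⟨u, hu, hmax⟩ := exists_max_image (univ.filter fun v => seg v = i) pos
    ⟨w, by simpa using hw⟩
  obtain ⟨v, hv, hv0⟩ := hc.zero (i + 1)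
  simp only [mem_filter, mem_univ, true_and] at hu hmax
  refine ⟨u, v, hu, hv, ?_⟩
  unfold ring
  rw [SimpleGraph.fromRel_adj]
  refine ⟨?_, Or.inl (Or.inr ⟨by rw [hv, hu], hv0, fun x hx => hmax x (hx.trans hu)⟩)⟩
  rintro rfl
  have h1 : i = i + 1 := hu.symm.trans hv
  have : Fact (1 < L) := ⟨by omega⟩
  have : NeZero L := ⟨by omega⟩
  have h2 : (1 : ZMod L) = 0 := by
    have := congrArg (fun z => z - i) h1
    simpa using this.symm
  exact one_ne_zero h2

theorem exists_hub {B A : Type} [Fintype B] [Fintype A] (eB : B → ℕ) (eA : A → ℕ) (t r : ℕ)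
    (hr : 3 ≤ r) (hrt : r ≤ t) (h3 : ∀ b, 3 ≤ eB b) (ht : ∀ b, eB b ≤ t)
    (hA : ∀ a, t + 1 ≤ eA a) (hev : Even (∑ b, eB b + ∑ a, eA a))
    (hH : ∑ a, eA a ≤ #{b | eB b ≤ r})
    (hbig : 24 * t ^ 2 + (8 * r - 22) * ∑ a, eA a ≤ ∑ b, (eB b - 2) + ∑ a, (eA a - 2)) :
    ∃ G : SimpleGraph (B ⊕ A), (∀ b, deg G (Sum.inl b) = eB b) ∧
      (∀ a, deg G (Sum.inr a) = eA a) ∧ Good G (deg G) := by
  obtain ⟨ρ, rfl⟩ : ∃ ρ, r = ρ + 3 := ⟨r - 3, by omega⟩
  obtain ⟨s, rfl⟩ : ∃ s, t = s + 2 := ⟨t - 2, by omega⟩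
  set L := 10 * (s + 2) with hL
  have : NeZero L := ⟨by omega⟩
  set g : B → ℕ := fun b => eB b - 2 with hg
  have hge : ∀ b, eB b = g b + 2 := fun b => by
    have := h3 b
    simp only [hg]
    omega
  have hgs : ∀ b, g b ≤ s := fun b => by
    have := ht b
    have := hge b
    omega
  have hg1 : ∀ b, 1 ≤ g b := fun b => by
    have := h3 b
    have := hge b
    omega
  set D := ∑ a, eA a with hD
  set h := Fintype.card A with hh
  set cB := Fintype.card B with hcB
  set WB := ∑ b, g b with hWB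
  have hDh : (s + 3) * h ≤ D := by
    rw [hD, hh, mul_comm, ← smul_eq_mul, ← card_univ]
    exact card_nsmul_le_sum _ _ _ fun a _ => hA a
  have hWA : ∑ a, (eA a - 2) + 2 * h = D := by
    rw [hD, hh, ← card_univ, mul_comm, ← smul_eq_mul, ← sum_const, ← sum_add_distrib]
    exact sum_congr rfl fun a _ => by
      have := hA a
      omega
  set WA := ∑ a, (eA a - 2) with hWA'
  have hWB1 : cB ≤ WB := by
    rw [hWB, hcB, ← card_univ, card_eq_sum_ones]
    exact sum_le_sum fun b _ => hg1 b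
  have hWBs : WB ≤ cB * s := by
    rw [hWB, hcB, ← smul_eq_mul, ← card_univ]
    exact sum_le_card_nsmul _ _ _ fun b _ => hgs b
  have hbig' : 24 * (s + 2) ^ 2 + (8 * ρ + 2) * D ≤ WB + WA := by
    have h1 : 8 * (ρ + 3) - 22 = 8 * ρ + 2 := by omega
    rw [h1] at hbig
    exact hbig
  have hexp : (8 * ρ + 2) * D = 8 * (ρ * D) + 2 * D := by ring
  have hH' : D ≤ #{b | g b ≤ ρ + 1} := by
    refine hH.trans (card_le_card ?_)
    intro b hb
    simp only [mem_filter, mem_univ, true_and] at hb ⊢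
    have := hge b
    omega
  have hDc : D ≤ cB := hH'.trans (card_le_univ _)
  have hWBle : WB + (s - (ρ + 1)) * D ≤ s * cB := by
    have h1 : WB + (s - (ρ + 1)) * #{b | g b ≤ ρ + 1} ≤ s * cB := by
      rw [hWB, hcB, card_filter, mul_sum, ← sum_add_distrib, mul_comm s, ← smul_eq_mul,
        ← card_univ]
      refine sum_le_card_nsmul _ _ _ fun b _ => ?_
      have := hgs b
      split_ifs <;> omega
    have h2 : (s - (ρ + 1)) * D ≤ (s - (ρ + 1)) * #{b | g b ≤ ρ + 1} :=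
      Nat.mul_le_mul_left _ hH'
    omega
  have hc : D + L ≤ cB := by
    by_contra hcon
    push Not at hcon
    obtain ⟨σ, rfl⟩ : ∃ σ, s = σ + (ρ + 1) := ⟨s - (ρ + 1), by omega⟩
    have h1 : (σ + (ρ + 1)) * cB ≤ (σ + (ρ + 1)) * (D + L) := Nat.mul_le_mul_left _ hcon.le
    have h2 : σ + (ρ + 1) - (ρ + 1) = σ := by omega
    rw [h2] at hWBle
    rw [hL] at h1
    nlinarith
  obtain ⟨ι, seg, pos, g', WY, hι, hC, hg', hιs, hconv, hWY1, hWY2, hbal1, hbal2⟩ :=
    layout_le g eA s (ρ + 1) hgs hg1 hH' hc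
  set W' := ∑ b, g' b with hW'
  have hW'B : W' + D = WB := by
    have h1 : ∑ b, #{x | ι x = b} = D := by
      rw [← card_eq_sum_card_fiberwise (f := ι) (s := univ) (t := univ) fun _ _ => by simp]
      rw [card_univ, Fintype.card_sigma, hD]
      simp
    rw [hW', ← h1, ← sum_add_distrib, hWB]
    exact sum_congr rfl fun b _ => hg' b
  have hg's : ∀ b, g' b ≤ s := fun b => (Nat.le.intro (hg' b)).trans (hgs b)
  have hW'low : 24 * (s + 2) ^ 2 + 8 * (ρ * D) ≤ W' := by omega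
  have hWY2' : W' ≤ WY + ρ * D := by
    have h1 : D * (ρ + 1 - 1) = ρ * D := by
      rw [Nat.add_sub_cancel, mul_comm]
    rw [← h1]
    exact hWY2
  obtain ⟨k, hk1, hk2⟩ : ∃ k, s + 2 ≤ 2 * k ∧ 2 * k ≤ s + 3 := ⟨(s + 3) / 2, by omega, by omega⟩
  have hWYlow : L * (s + 1 + s) ≤ WY := by
    have h1 : 24 * (s + 2) ^ 2 ≤ WY := by omega
    rw [hL]
    nlinarith
  obtain ⟨M, hM1, hM2, hM3, hM4⟩ := exists_ports_circ seg g' k (by omega) (by
    intro i
    have h1 := hbal2 i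
    by_contra hcon
    push Not at hcon
    have h2 : L * (segW seg g' i + s) < L * (s + 1 + s) :=
      Nat.mul_lt_mul_of_pos_left (by omega) (by omega)
    omega)
  set R := WY + (D + L * h) * ρ with hR
  set w := s + R / L with hw
  have hLw : L * w ≤ L * s + R := by
    rw [hw, mul_add]
    exact Nat.add_le_add_left (Nat.mul_div_le R L) _
  have hseg : ∀ i, segW seg g' i ≤ w := by
    intro i
    have h1 : L * segW seg g' i ≤ L * s + WY + (D + L * h) * ρ := hbal1 i
    rw [hw, ← Nat.mul_add_div (by omega : L > 0), Nat.le_div_iff_mul_le (by omega), mul_comm]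
    rw [hR]
    omega
  obtain ⟨H, hH1, hH2, hH3⟩ := exists_nice hg's hseg M hM1 hM2 (by
    have h1 : ∑ b, eB b = WB + cB * 2 := by
      rw [sum_congr rfl fun v _ => hge v, sum_add_distrib, sum_const, card_univ, smul_eq_mul]
    rw [Nat.even_iff] at hev ⊢
    omega) (by
    have h1 : ∑ v, deg M v ≤ 10 * (s + 2) * (s + 1) :=
      hM4.trans (Nat.mul_le_mul_left _ (by omega))
    have h2 : (D + L * h) * ρ ≤ 11 * (ρ * D) := by
      have h4 : D + L * h ≤ 11 * D := by
        have : L * h ≤ 10 * ((s + 3) * h) := by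
          rw [hL]
          nlinarith
        omega
      calc (D + L * h) * ρ ≤ 11 * D * ρ := Nat.mul_le_mul_right _ h4
        _ = 11 * (ρ * D) := by ring
    have h4 : 10 * (s + 2) * w ≤ 10 * (s + 2) * s + WY + 11 * (ρ * D) := by
      have h5 : 10 * (s + 2) * w ≤ 10 * (s + 2) * s + (WY + (D + L * h) * ρ) := hLw
      omega
    have h9 : (s + 1) * w ≤ (s + 2) * w := Nat.mul_le_mul_right w (by omega)
    nlinarith)
  set G₀ := ring seg pos ⊔ H with hG₀
  obtain ⟨P, hP⟩ : ∃ P : B → A → Prop, ∀ b a, P b a ↔ ∃ p, ι ⟨a, p⟩ = b :=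
    ⟨_, fun _ _ => Iff.rfl⟩
  have hdeg₀ : ∀ b, deg G₀ b = g' b + 2 := fun b => by
    rw [hG₀, deg_ring_sup hC (by omega) hH2, hH3]
  have hPb : ∀ b, #{a | P b a} = #{x | ι x = b} := by
    intro b
    symm
    refine card_bij (fun x _ => x.1) ?_ ?_ ?_
    · intro x hx
      simp only [mem_filter, mem_univ, true_and] at hx ⊢
      exact (hP _ _).2 ⟨x.2, hx⟩
    · intro x hx y hy _
      simp only [mem_filter, mem_univ, true_and] at hx hy
      exact hι (hx.trans hy.symm)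
    · intro a ha
      simp only [mem_filter, mem_univ, true_and] at ha
      obtain ⟨p, hp⟩ := (hP _ _).1 ha
      exact ⟨⟨a, p⟩, by simpa using hp, rfl⟩
  have hPa : ∀ a, #{b | P b a} = eA a := by
    intro a
    have : (univ.filter fun b => P b a) = univ.image fun p : Fin (eA a) => ι ⟨a, p⟩ := by
      ext b
      simp only [mem_filter, mem_univ, true_and, mem_image, hP]
    rw [this, card_image_of_injective, card_univ, Fintype.card_fin]
    intro p q hpq
    have := hι hpq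
    simpa using this
  set G := hubG G₀ P with hG
  have hdegl : ∀ b, deg G (Sum.inl b) = eB b := fun b => by
    rw [hG, deg_hub_inl, hdeg₀, hPb, hge b, ← hg' b]
    omega
  have hdegr : ∀ a, deg G (Sum.inr a) = eA a := fun a => by
    rw [hG, deg_hub_inr, hPa]
  obtain ⟨hlk, T, hT1, hT2⟩ := exists_tails hC (by omega) hH2
  refine ⟨G, hdegl, hdegr, ?_⟩
  refine good_of_tails_circ (L := L) (s + 2) k hk1 (fun x => ∃ a, x = Sum.inr a)
    (fun i => (sg seg i).map Function.Embedding.inl) ?_ (fun i => lk_inl (hlk i)) ?_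
    (fun u y => match u, y with
      | Sum.inl b, Sum.inl c => (T b c).map Function.Embedding.inl
      | Sum.inl _, Sum.inr a => {Sum.inr a}
      | Sum.inr _, _ => ∅) ?_ ?_ ?_ ?_ ?_
  · intro i j hij
    rw [Finset.disjoint_left]
    intro x hx hx'
    simp only [mem_map, sg, mem_filter, mem_univ, true_and] at hx hx'
    obtain ⟨b, hb, rfl⟩ := hx
    obtain ⟨c, hc', hcb⟩ := hx'
    have : c = b := by simpa using hcb
    rw [this] at hc'
    exact hij (hb.symm.trans hc')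
  · intro i j p hp1 hpk hij
    rcases Nat.lt_or_ge 1 p with hp | hp
    · obtain ⟨a, b, ha, hb, hab⟩ := hM3 i j p hp hpk hij
      refine ⟨Sum.inl a, ?_, Sum.inl b, ?_, hubG_inl_inl.2 (Or.inr (hH1 hab))⟩
      · simpa [sg] using ha
      · simpa [sg] using hb
    · obtain ⟨a, b, ha, hb, hab⟩ := ring_step hC (by omega) i
      refine ⟨Sum.inl a, ?_, Sum.inl b, ?_, hubG_inl_inl.2 (Or.inl hab)⟩
      · simpa [sg] using ha
      · have h1 : p = 1 := by omega
        rw [h1, Nat.cast_one] at hij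
        rw [hij]
        simpa [sg] using hb
  · rintro (b | a) (c | a') hu hadj
    · obtain ⟨h1, h2, h4, i, h5⟩ := hT1 b c (hubG_inl_inl.1 hadj)
      refine ⟨?_, ?_, lk_inl h4, Or.inl ⟨i, ?_⟩⟩
      · simpa using h1
      · simpa using h2
      · exact map_subset_map.2 h5
    · refine ⟨by simp, by simp, ?_, Or.inr ⟨Sum.inr a', by simp, a', rfl⟩⟩
      intro X hX _
      obtain ⟨x, hx, hxX⟩ := hX
      simp only [mem_singleton] at hx
      subst hx
      simpa using hxX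
    · exact absurd ⟨a, rfl⟩ hu
    · exact absurd ⟨a, rfl⟩ hu
  · rintro (b | a) (c | a') (c' | a'') hu hy hz hyz
    · have := hT2 b c c' (hubG_inl_inl.1 hy) (hubG_inl_inl.1 hz) (by
        rintro rfl
        exact hyz rfl)
      exact (Finset.disjoint_map _).2 this
    · simp
    · simp
    · simpa using fun h => hyz (by rw [h])
    · exact absurd ⟨a, rfl⟩ hu
    · exact absurd ⟨a, rfl⟩ hu
    · exact absurd ⟨a, rfl⟩ hu
    · exact absurd ⟨a, rfl⟩ hu
  · rintro (b | a) hu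
    · rw [hdegl]
      exact ht b
    · exact absurd ⟨a, rfl⟩ hu
  · rintro _ ⟨a, rfl⟩
    refine (segs_of_ports (L := L) (t := s + 2) (e := eA a) (by have := hA a; omega)
      (by omega)).trans (card_le_card ?_)
    intro i hi
    simp only [mem_filter, mem_univ, true_and] at hi ⊢
    obtain ⟨p, hp, hpi⟩ := hi
    refine ⟨Sum.inl (ι ⟨a, ⟨p, hp⟩⟩), ?_, hubG_inr_inl.2 ((hP _ _).2 ⟨⟨p, hp⟩, rfl⟩)⟩
    simp only [mem_map, sg, mem_filter, mem_univ, true_and]
    exact ⟨_, by rw [hιs]; exact hpi, rfl⟩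
  · rintro _ _ ⟨a, rfl⟩ ⟨a', rfl⟩ hne'
    rw [hdegr, hdegr]
    refine perf_of_arcs (fun p => (univ.filter fun b => ∃ z, ι z = b ∧ (z.2 : ℕ) = p).map
      Function.Embedding.inl) ?_ ?_ ?_ ?_ ?_
    · intro p q hpq
      rw [Finset.disjoint_map, Finset.disjoint_left]
      intro b hb hb'
      simp only [mem_filter, mem_univ, true_and] at hb hb'
      obtain ⟨z, rfl, hz⟩ := hb
      obtain ⟨z', hz', hz''⟩ := hb'
      have := hι hz'
      subst this
      exact hpq (Fin.ext (hz.symm.trans hz''))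
    · intro p
      refine lk_inl (lk_convex hC (G := G₀) le_sup_left (i := ((p : ℕ) : ZMod L)) ?_ ?_)
      · intro v hv
        simp only [mem_filter, mem_univ, true_and] at hv
        obtain ⟨z, rfl, hz⟩ := hv
        rw [hιs, hz]
      · intro u hu v hv x hx h1 h2
        simp only [mem_filter, mem_univ, true_and] at hu hv ⊢
        obtain ⟨z, rfl, hz⟩ := hu
        obtain ⟨z', rfl, hz'⟩ := hv
        obtain ⟨z'', h4, h5⟩ := hconv z z' (hz.trans hz'.symm) x (by rw [hx, hιs, hz]) h1 h2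
        exact ⟨z'', h4, h5.trans hz⟩
    · intro p
      simp
    · intro p
      have hp : (p : ℕ) < eA a := lt_of_lt_of_le p.2 (min_le_left _ _)
      refine ⟨Sum.inl (ι ⟨a, ⟨p, hp⟩⟩), ?_, hubG_inr_inl.2 ((hP _ _).2 ⟨⟨p, hp⟩, rfl⟩)⟩
      simp only [mem_map, mem_filter, mem_univ, true_and]
      exact ⟨_, ⟨⟨a, ⟨p, hp⟩⟩, rfl, rfl⟩, rfl⟩
    · intro p
      have hp : (p : ℕ) < eA a' := lt_of_lt_of_le p.2 (min_le_right _ _)
      refine ⟨Sum.inl (ι ⟨a', ⟨p, hp⟩⟩), ?_, hubG_inl_inr.2 ((hP _ _).2 ⟨⟨p, hp⟩, rfl⟩)⟩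
      simp only [mem_map, mem_filter, mem_univ, true_and]
      exact ⟨_, ⟨⟨a', ⟨p, hp⟩⟩, rfl, rfl⟩, rfl⟩

end Pool.Agent.AvgConn
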