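import Pool.Agent.Work.MP_88992e_co.SqDefs

/-!
# Embedding a good graph into a larger vertex set
-/

namespace Pool.Agent.AvgConn

open Finset
open scoped Classical

universe u

private lemma mg_deg_mem {W V : Type u} (f : W ↪ V) (H : SimpleGraph W) (w : W) :
    deg (H.map f) (f w) = deg H w := by
  rw [deg, deg]
  have h : (H.map f).neighborSet (f w) = f '' H.neighborSet w := by
    ext y
    rw [SimpleGraph.mem_neighborSet, SimpleGraph.map_adj]
    constructor
    · rintro ⟨a, b, hab, ha, rfl⟩
      exact ⟨b, by rw [SimpleGraph.mem_neighborSet, ← f.injective ha]; exact hab, rfl⟩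
    · rintro ⟨b, hb, rfl⟩
      exact ⟨w, b, hb, rfl, rfl⟩
  rw [h, Set.ncard_image_of_injective _ f.injective]

private lemma mg_deg_not_mem {W V : Type u} (f : W ↪ V) (H : SimpleGraph W) {v : V}
    (hv : ∀ w, f w ≠ v) : deg (H.map f) v = 0 := by
  rw [deg]
  have h : (H.map f).neighborSet v = ∅ := by
    ext y
    rw [SimpleGraph.mem_neighborSet, SimpleGraph.map_adj]
    constructor
    · rintro ⟨a, b, -, ha, -⟩
      exact (hv a ha).elim
    · intro h; exact h.elim
  rw [h, Set.ncard_empty]

/-- a good graph stays good after adding isolated vertices -/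
theorem good_map {V : Type u} [Fintype V] {W : Type u} [Fintype W] (f : W ↪ V)
    (H : SimpleGraph W) (h : Good H (deg H)) : Good (H.map f) (deg (H.map f)) := by
  intro u v huv
  by_cases hu : ∃ a, f a = u
  · by_cases hv : ∃ b, f b = v
    · obtain ⟨a, rfl⟩ := hu
      obtain ⟨b, rfl⟩ := hv
      rw [mg_deg_mem, mg_deg_mem]
      intro A ha hb hcond
      have hab : a ≠ b := fun hab => huv (by rw [hab])
      let B : Finset W := {w | f w ∈ A}
      have hB : ∀ w, w ∈ B ↔ f w ∈ A := fun w => by simp [B]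
      have h1 := h a b hab B ((hB a).2 ha) (fun hb' => hb ((hB b).1 hb')) (by
        intro x hx hxb
        have h2 : (H.map f).Adj (f x) (f b) := (SimpleGraph.map_adj f H _ _).2
          ⟨x, b, hxb, rfl, rfl⟩
        exact f.injective (hcond _ ((hB x).1 hx) h2))
      refine h1.trans ?_
      refine Finset.card_le_card_of_injOn f ?_ f.injective.injOn
      intro w hw
      rw [Finset.mem_coe, mem_nb] at hw ⊢
      obtain ⟨h3, c, hc, hcw⟩ := hw
      refine ⟨fun h4 => h3 ((hB w).2 h4), f c, (hB c).1 hc, ?_⟩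
      exact (SimpleGraph.map_adj f H _ _).2 ⟨c, w, hcw, rfl, rfl⟩
    · rw [mg_deg_not_mem f H (fun w hw => hv ⟨w, hw⟩), Nat.min_zero]
      exact perf_zero _ _ _
  · rw [mg_deg_not_mem f H (fun w hw => hu ⟨w, hw⟩), Nat.zero_min]
    exact perf_zero _ _ _

end Pool.Agent.AvgConn
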