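import Pool.Agent.Work.MP_88992e_co.Fin1
import Pool.Agent.Work.MP_88992e_co.Hub3
import Pool.Agent.Work.MP_88992e_co.MapGood

/-!
# The value for sequences with hubs
-/

namespace Pool.Agent.AvgConn

open Finset
open scoped Classical

theorem hf_deg_mem {W V : Type} (f : W ↪ V) (H : SimpleGraph W) (w : W) :
    deg (H.map f) (f w) = deg H w := by
  rw [deg, deg]
  have h : (H.map f).neighborSet (f w) = f '' H.neighborSet w := by
    ext y
    rw [SimpleGraph.mem_neighborSet, SimpleGraph.map_adj]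
    constructor
    · rintro ⟨a, b, hab, h1, rfl⟩
      have : a = w := f.injective h1
      subst this
      exact ⟨b, hab, rfl⟩
    · rintro ⟨b, hb, rfl⟩
      exact ⟨w, b, hb, rfl, rfl⟩
  rw [h, Set.ncard_image_of_injective _ f.injective]

theorem hf_deg_not_mem {W V : Type} (f : W ↪ V) (H : SimpleGraph W) {v : V}
    (hv : ∀ w, f w ≠ v) : deg (H.map f) v = 0 := by
  rw [deg]
  have h : (H.map f).neighborSet v = ∅ := by
    ext y
    rw [SimpleGraph.mem_neighborSet, SimpleGraph.map_adj]
    simp only [Set.mem_empty_iff_false, iff_false]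
    rintro ⟨a, b, _, h1, _⟩
    exact hv a h1
  rw [h, Set.ncard_empty]

theorem exists_perfect_hub {V : Type} [Fintype V] (e : V → ℕ) (t r : ℕ) (hr : 3 ≤ r)
    (hrt : r ≤ t) (h3 : ∀ v, e v ≠ 0 → 3 ≤ e v) (hev : Even (∑ v, e v))
    (hH : ∑ v with t < e v, e v ≤ #{v | e v ≠ 0 ∧ e v ≤ r})
    (hbig : 24 * t ^ 2 + (8 * r - 22) * ∑ v with t < e v, e v ≤ ∑ v, (e v - 2)) :
    ∃ G : SimpleGraph V, (∀ v, deg G v = e v) ∧ Good G (deg G) := by
  let f : {v // e v ≠ 0 ∧ e v ≤ t} ⊕ {v // t < e v} ↪ V :=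
    ⟨Sum.elim Subtype.val Subtype.val, by
      rintro (a | a) (b | b) hab
      · exact congrArg Sum.inl (Subtype.ext hab)
      · have h1 : (a : V) = b := hab
        have := a.2.2
        have := b.2
        rw [h1] at *
        omega
      · have h1 : (a : V) = b := hab
        have := a.2
        have := b.2.2
        rw [h1] at *
        omega
      · exact congrArg Sum.inr (Subtype.ext hab)⟩
  have hsplit : ∀ F : V → ℕ, (∀ v, e v = 0 → F v = 0) →
      ∑ v, F v = ∑ v : {v // e v ≠ 0 ∧ e v ≤ t}, F v + ∑ v : {v // t < e v}, F v := by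
    intro F hF
    have h1 : ∑ v : {v // e v ≠ 0 ∧ e v ≤ t}, F v = ∑ v with e v ≠ 0 ∧ e v ≤ t, F v := by
      rw [← sum_subtype_eq_sum_filter, subtype_univ]
    have h2 : ∑ v : {v // t < e v}, F v = ∑ v with t < e v, F v := by
      rw [← sum_subtype_eq_sum_filter, subtype_univ]
    rw [h1, h2, sum_filter, sum_filter, ← sum_add_distrib]
    refine sum_congr rfl fun v _ => ?_
    by_cases ha : e v = 0
    · rw [hF v ha]
      simp
    · by_cases hb : e v ≤ t
      · rw [if_pos ⟨ha, hb⟩, if_neg (by omega), add_zero]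
      · rw [if_neg (by tauto), if_pos (by omega), zero_add]
  have hcard : #{v | e v ≠ 0 ∧ e v ≤ r} = #{v : {v // e v ≠ 0 ∧ e v ≤ t} | e v ≤ r} := by
    symm
    refine card_bij (fun v _ => v.1) ?_ ?_ ?_
    · intro v hv
      simp only [mem_filter, mem_univ, true_and] at hv ⊢
      exact ⟨v.2.1, hv⟩
    · intro v _ w _ hvw
      exact Subtype.ext hvw
    · intro v hv
      simp only [mem_filter, mem_univ, true_and] at hv
      exact ⟨⟨v, hv.1, hv.2.trans hrt⟩, by simpa using hv.2, rfl⟩
  have hhub : ∑ v with t < e v, e v = ∑ v : {v // t < e v}, e v := by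
    rw [← sum_subtype_eq_sum_filter, subtype_univ]
  rw [hhub, hsplit (fun v => e v - 2) fun v hv => by simp [hv]] at hbig
  rw [hhub, hcard] at hH
  obtain ⟨G, hG1, hG2, hG3⟩ := exists_hub (fun v : {v // e v ≠ 0 ∧ e v ≤ t} => e v)
    (fun v : {v // t < e v} => e v) t r hr hrt (fun v => h3 v v.2.1) (fun v => v.2.2)
    (fun v => v.2) (by rwa [← hsplit e fun v hv => hv]) hH hbig
  refine ⟨G.map f, ?_, good_map f G hG3⟩
  intro v
  by_cases h1 : e v = 0
  · rw [h1]
    refine hf_deg_not_mem f G ?_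
    rintro (w | w) hw
    · have h2 : (w : V) = v := hw
      exact w.2.1 (by rw [h2]; exact h1)
    · have h2 : (w : V) = v := hw
      have := w.2
      rw [h2] at this
      omega
  · by_cases h2 : e v ≤ t
    · have := hf_deg_mem f G (Sum.inl ⟨v, h1, h2⟩)
      rw [hG1] at this
      exact this
    · have := hf_deg_mem f G (Sum.inr ⟨v, by omega⟩)
      rw [hG2] at this
      exact this

end Pool.Agent.AvgConn
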