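import Pool.Agent.Work.MP_88992e_co.Defs

/-!
# Upper bounds for `kappa`: symmetry, unreachable pairs, the 2-core
-/

set_option linter.unusedSectionVars false

namespace Pool.Agent.AvgConn

open Finset
open scoped Classical

variable {V : Type*} [Fintype V]

theorem kappa_le_of_forall {G : SimpleGraph V} {u v : V} {B : ℕ}
    (h : ∀ F : Finset (G.Path u v), IntDisj F → #F ≤ B) : kappa G u v ≤ B := by
  refine csSup_le ⟨0, ∅, rfl, fun P hP => absurd hP (Finset.notMem_empty P)⟩ ?_
  rintro k ⟨F, rfl, hF⟩
  exact h F hF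

theorem kappa_comm_aux (G : SimpleGraph V) (u v : V) (k : ℕ)
    (h : ∃ F : Finset (G.Path u v), F.card = k ∧ IntDisj F) :
    ∃ F : Finset (G.Path v u), F.card = k ∧ IntDisj F := by
  obtain ⟨F, rfl, hF⟩ := h
  have hinj : Function.Injective (fun P : G.Path u v => P.reverse) := by
    intro P Q hPQ
    have h1 : (P : G.Walk u v).reverse = (Q : G.Walk u v).reverse := congrArg Subtype.val hPQ
    have h2 := congrArg SimpleGraph.Walk.reverse h1
    rw [SimpleGraph.Walk.reverse_reverse, SimpleGraph.Walk.reverse_reverse] at h2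
    exact Subtype.ext h2
  refine ⟨F.image (fun P => P.reverse), Finset.card_image_of_injective _ hinj, ?_⟩
  intro P hP Q hQ hne x hx hx'
  obtain ⟨P', hP', rfl⟩ := Finset.mem_image.1 hP
  obtain ⟨Q', hQ', rfl⟩ := Finset.mem_image.1 hQ
  have h1 : x ∈ (P' : G.Walk u v).support := by
    have : x ∈ (P' : G.Walk u v).reverse.support := hx
    rwa [SimpleGraph.Walk.support_reverse, List.mem_reverse] at this
  have h2 : x ∈ (Q' : G.Walk u v).support := by
    have : x ∈ (Q' : G.Walk u v).reverse.support := hx'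
    rwa [SimpleGraph.Walk.support_reverse, List.mem_reverse] at this
  exact (hF P' hP' Q' hQ' (fun h => hne (by rw [h])) x h1 h2).symm

theorem kappa_comm (G : SimpleGraph V) (u v : V) : kappa G u v = kappa G v u := by
  unfold kappa
  congr 1
  ext k
  exact ⟨kappa_comm_aux G u v k, kappa_comm_aux G v u k⟩

theorem kappa_not_reachable {G : SimpleGraph V} {u v : V} (h : ¬ G.Reachable u v) :
    kappa G u v = 0 := by
  refine Nat.le_zero.1 (kappa_le_of_forall fun F _ => ?_)
  rw [Nat.le_zero, Finset.card_eq_zero, Finset.eq_empty_iff_forall_notMem]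
  intro P _
  exact h ⟨(P : G.Walk u v)⟩

/-- every vertex of `S` has two neighbours in `S` -/
def MinTwo (G : SimpleGraph V) (S : Finset V) : Prop := ∀ v ∈ S, 2 ≤ #{w ∈ S | G.Adj v w}

/-- the 2-core -/
noncomputable def core (G : SimpleGraph V) : Finset V :=
  (Finset.univ.filter (fun S : Finset V => MinTwo G S)).biUnion id

theorem subset_core {G : SimpleGraph V} {S : Finset V} (h : MinTwo G S) : S ⊆ core G := by
  intro x hx
  exact Finset.mem_biUnion.2 ⟨S, Finset.mem_filter.2 ⟨Finset.mem_univ _, h⟩, hx⟩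

theorem minTwo_core (G : SimpleGraph V) : MinTwo G (core G) := by
  intro v hv
  obtain ⟨S, hS, hvS⟩ := Finset.mem_biUnion.1 hv
  have hS' := (Finset.mem_filter.1 hS).2
  refine (hS' v hvS).trans (Finset.card_le_card ?_)
  intro w hw
  rw [Finset.mem_filter] at hw ⊢
  exact ⟨subset_core hS' hw.1, hw.2⟩

/-- the inner vertices of a path have two neighbours on the path -/
theorem inner_two {G : SimpleGraph V} {u v : V} (P : G.Path u v) {x : V}
    (hx : x ∈ (P : G.Walk u v).support) (hxu : x ≠ u) (hxv : x ≠ v) :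
    ∃ a b, a ≠ b ∧ a ∈ (P : G.Walk u v).support ∧ b ∈ (P : G.Walk u v).support ∧
      G.Adj x a ∧ G.Adj x b := by
  obtain ⟨i, hi, hil⟩ := SimpleGraph.Walk.mem_support_iff_exists_getVert.1 hx
  have hi0 : i ≠ 0 := by
    rintro rfl
    rw [SimpleGraph.Walk.getVert_zero] at hi
    exact hxu hi.symm
  have hil' : i ≠ (P : G.Walk u v).length := by
    rintro rfl
    rw [SimpleGraph.Walk.getVert_length] at hi
    exact hxv hi.symm
  obtain ⟨j, rfl⟩ := Nat.exists_eq_succ_of_ne_zero hi0
  have h1 : G.Adj ((P : G.Walk u v).getVert j) ((P : G.Walk u v).getVert (j + 1)) :=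
    SimpleGraph.Walk.adj_getVert_succ _ (by omega)
  have h2 : G.Adj ((P : G.Walk u v).getVert (j + 1)) ((P : G.Walk u v).getVert (j + 1 + 1)) :=
    SimpleGraph.Walk.adj_getVert_succ _ (by omega)
  have hinj := P.2.getVert_injOn
  refine ⟨(P : G.Walk u v).getVert j, (P : G.Walk u v).getVert (j + 1 + 1), ?_,
    SimpleGraph.Walk.getVert_mem_support _ _, SimpleGraph.Walk.getVert_mem_support _ _, ?_, ?_⟩
  · intro h
    have := hinj (show j ∈ {i | i ≤ (P : G.Walk u v).length} by simp; omega)
      (show j + 1 + 1 ∈ {i | i ≤ (P : G.Walk u v).length} by simp; omega) h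
    omega
  · rw [← hi]; exact h1.symm
  · rw [← hi]; exact h2

theorem snd_adj {G : SimpleGraph V} {u v : V} (huv : u ≠ v) (P : G.Path u v) :
    G.Adj u ((P : G.Walk u v).getVert 1) := by
  have h0 : 0 < (P : G.Walk u v).length := by
    rcases Nat.eq_zero_or_pos (P : G.Walk u v).length with h | h
    · exact absurd (SimpleGraph.Walk.eq_of_length_eq_zero h) huv
    · exact h
  have h1 := SimpleGraph.Walk.adj_getVert_succ (P : G.Walk u v) h0
  rwa [SimpleGraph.Walk.getVert_zero] at h1

/-- a path whose second vertex is the end has length one -/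
theorem length_of_snd_eq {G : SimpleGraph V} {u v : V} (huv : u ≠ v) (P : G.Path u v)
    (h : (P : G.Walk u v).getVert 1 = v) : (P : G.Walk u v).length = 1 := by
  have h0 : 0 < (P : G.Walk u v).length := by
    rcases Nat.eq_zero_or_pos (P : G.Walk u v).length with h | h
    · exact absurd (SimpleGraph.Walk.eq_of_length_eq_zero h) huv
    · exact h
  have hl : (P : G.Walk u v).getVert (P : G.Walk u v).length = v :=
    SimpleGraph.Walk.getVert_length _
  exact (P.2.getVert_injOn (show 1 ∈ {i | i ≤ (P : G.Walk u v).length} by simp; omega)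
    (show (P : G.Walk u v).length ∈ {i | i ≤ (P : G.Walk u v).length} by simp)
    (h.trans hl.symm)).symm

theorem path_eq_of_length_one {G : SimpleGraph V} {u v : V} (P Q : G.Path u v)
    (hP : (P : G.Walk u v).length = 1) (hQ : (Q : G.Walk u v).length = 1) : P = Q := by
  apply Subtype.ext
  apply SimpleGraph.Walk.ext_getVert_le_length (by rw [hP, hQ])
  intro k hk
  have hk' : k = 0 ∨ k = 1 := by omega
  rcases hk' with rfl | rfl
  · rw [SimpleGraph.Walk.getVert_zero, SimpleGraph.Walk.getVert_zero]
  · have h1 : (P : G.Walk u v).getVert 1 = v := by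
      rw [← hP]; exact SimpleGraph.Walk.getVert_length _
    have h2 : (Q : G.Walk u v).getVert 1 = v := by
      rw [← hQ]; exact SimpleGraph.Walk.getVert_length _
    rw [h1, h2]

/-- the second vertices of internally disjoint paths are distinct -/
theorem snd_ne {G : SimpleGraph V} {u v : V} (huv : u ≠ v) {F : Finset (G.Path u v)}
    (hF : IntDisj F) {P Q : G.Path u v} (hP : P ∈ F) (hQ : Q ∈ F) (hne : P ≠ Q) :
    (P : G.Walk u v).getVert 1 ≠ (Q : G.Walk u v).getVert 1 := by
  intro h
  have h1 := hF P hP Q hQ hne _ (SimpleGraph.Walk.getVert_mem_support _ 1)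
    (by rw [h]; exact SimpleGraph.Walk.getVert_mem_support _ 1)
  rcases h1 with h1 | h1
  · exact (snd_adj huv P).ne h1.symm
  · exact hne (path_eq_of_length_one P Q (length_of_snd_eq huv P h1)
      (length_of_snd_eq huv Q (h ▸ h1)))

/-- a path between two vertices of the core stays in the core -/
theorem support_subset_core {G : SimpleGraph V} {u v : V} (hu : u ∈ core G) (hv : v ∈ core G)
    (P : G.Path u v) : ∀ x ∈ (P : G.Walk u v).support, x ∈ core G := by
  set S : Finset V := core G ∪ (P : G.Walk u v).support.toFinset with hS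
  have hST : MinTwo G S := by
    intro x hx
    by_cases hxC : x ∈ core G
    · refine (minTwo_core G x hxC).trans (Finset.card_le_card ?_)
      intro w hw
      rw [Finset.mem_filter] at hw ⊢
      exact ⟨Finset.mem_union_left _ hw.1, hw.2⟩
    · have hxP : x ∈ (P : G.Walk u v).support := by
        rcases Finset.mem_union.1 hx with h | h
        · exact absurd h hxC
        · exact List.mem_toFinset.1 h
      obtain ⟨a, b, hab, ha, hb, h1, h2⟩ := inner_two P hxP (fun h => hxC (h ▸ hu))
        (fun h => hxC (h ▸ hv))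
      refine Finset.one_lt_card.2 ⟨a, ?_, b, ?_, hab⟩
      · exact Finset.mem_filter.2 ⟨Finset.mem_union_right _ (List.mem_toFinset.2 ha), h1⟩
      · exact Finset.mem_filter.2 ⟨Finset.mem_union_right _ (List.mem_toFinset.2 hb), h2⟩
  intro x hx
  exact subset_core hST (Finset.mem_union_right _ (List.mem_toFinset.2 hx))

/-- the ends of two internally disjoint paths are in the core -/
theorem mem_core_of_two {G : SimpleGraph V} {u v : V} (huv : u ≠ v) {F : Finset (G.Path u v)}
    (hF : IntDisj F) {P Q : G.Path u v} (hP : P ∈ F) (hQ : Q ∈ F) (hne : P ≠ Q) :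
    u ∈ core G := by
  set S : Finset V := (P : G.Walk u v).support.toFinset ∪ (Q : G.Walk u v).support.toFinset
    with hS
  have hmP : ∀ x, x ∈ (P : G.Walk u v).support → x ∈ S := fun x hx =>
    Finset.mem_union_left _ (List.mem_toFinset.2 hx)
  have hmQ : ∀ x, x ∈ (Q : G.Walk u v).support → x ∈ S := fun x hx =>
    Finset.mem_union_right _ (List.mem_toFinset.2 hx)
  have hu2 : 2 ≤ #{w ∈ S | G.Adj u w} := by
    refine Finset.one_lt_card.2 ⟨(P : G.Walk u v).getVert 1, ?_, (Q : G.Walk u v).getVert 1, ?_,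
      snd_ne huv hF hP hQ hne⟩
    · exact Finset.mem_filter.2 ⟨hmP _ (SimpleGraph.Walk.getVert_mem_support _ _), snd_adj huv P⟩
    · exact Finset.mem_filter.2 ⟨hmQ _ (SimpleGraph.Walk.getVert_mem_support _ _), snd_adj huv Q⟩
  -- the other end, by reversing
  have hv2 : 2 ≤ #{w ∈ S | G.Adj v w} := by
    set F' : Finset (G.Path v u) := {P.reverse, Q.reverse} with hF'
    have hne' : P.reverse ≠ Q.reverse := by
      intro h
      have h1 : (P : G.Walk u v).reverse = (Q : G.Walk u v).reverse := congrArg Subtype.val h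
      have h2 := congrArg SimpleGraph.Walk.reverse h1
      rw [SimpleGraph.Walk.reverse_reverse, SimpleGraph.Walk.reverse_reverse] at h2
      exact hne (Subtype.ext h2)
    have hrevP : ∀ x, x ∈ ((P.reverse : G.Path v u) : G.Walk v u).support ↔
        x ∈ (P : G.Walk u v).support := by
      intro x
      show x ∈ (P : G.Walk u v).reverse.support ↔ _
      rw [SimpleGraph.Walk.support_reverse, List.mem_reverse]
    have hrevQ : ∀ x, x ∈ ((Q.reverse : G.Path v u) : G.Walk v u).support ↔
        x ∈ (Q : G.Walk u v).support := by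
      intro x
      show x ∈ (Q : G.Walk u v).reverse.support ↔ _
      rw [SimpleGraph.Walk.support_reverse, List.mem_reverse]
    have hdis : IntDisj F' := by
      intro A hA B hB hAB x hx hx'
      have key : ∀ x, x ∈ (P : G.Walk u v).support → x ∈ (Q : G.Walk u v).support →
          x = v ∨ x = u := fun x h1 h2 => (hF P hP Q hQ hne x h1 h2).symm
      rw [hF', Finset.mem_insert, Finset.mem_singleton] at hA hB
      rcases hA with rfl | rfl <;> rcases hB with rfl | rfl
      · exact absurd rfl hAB
      · exact key x ((hrevP x).1 hx) ((hrevQ x).1 hx')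
      · exact key x ((hrevP x).1 hx') ((hrevQ x).1 hx)
      · exact absurd rfl hAB
    have hPF : P.reverse ∈ F' := Finset.mem_insert_self _ _
    have hQF : Q.reverse ∈ F' := Finset.mem_insert_of_mem (Finset.mem_singleton_self _)
    refine Finset.one_lt_card.2 ⟨((P.reverse : G.Path v u) : G.Walk v u).getVert 1, ?_,
      ((Q.reverse : G.Path v u) : G.Walk v u).getVert 1, ?_, snd_ne huv.symm hdis hPF hQF hne'⟩
    · exact Finset.mem_filter.2 ⟨hmP _ ((hrevP _).1 (SimpleGraph.Walk.getVert_mem_support _ _)),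
        snd_adj huv.symm _⟩
    · exact Finset.mem_filter.2 ⟨hmQ _ ((hrevQ _).1 (SimpleGraph.Walk.getVert_mem_support _ _)),
        snd_adj huv.symm _⟩
  have hST : MinTwo G S := by
    intro x hx
    by_cases hxu : x = u
    · rw [hxu]; exact hu2
    by_cases hxv : x = v
    · rw [hxv]; exact hv2
    rcases Finset.mem_union.1 hx with h | h
    · obtain ⟨a, b, hab, ha, hb, h1, h2⟩ := inner_two P (List.mem_toFinset.1 h) hxu hxv
      exact Finset.one_lt_card.2 ⟨a, Finset.mem_filter.2 ⟨hmP _ ha, h1⟩, b,
        Finset.mem_filter.2 ⟨hmP _ hb, h2⟩, hab⟩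
    · obtain ⟨a, b, hab, ha, hb, h1, h2⟩ := inner_two Q (List.mem_toFinset.1 h) hxu hxv
      exact Finset.one_lt_card.2 ⟨a, Finset.mem_filter.2 ⟨hmQ _ ha, h1⟩, b,
        Finset.mem_filter.2 ⟨hmQ _ hb, h2⟩, hab⟩
  exact subset_core hST (hmP _ (SimpleGraph.Walk.start_mem_support _))

/-- the 2-core -/
theorem exists_core (G : SimpleGraph V) : ∃ C : Finset V,
    (∀ v ∈ C, 2 ≤ #{w ∈ C | G.Adj v w}) ∧
    (∀ u v, u ≠ v → u ∉ C → kappa G u v ≤ 1) ∧
    (∀ u ∈ C, ∀ v ∈ C, u ≠ v → kappa G u v ≤ #{w ∈ C | G.Adj u w}) := by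
  refine ⟨core G, minTwo_core G, ?_, ?_⟩
  · intro u v huv hu
    refine kappa_le_of_forall fun F hF => ?_
    by_contra hcon
    obtain ⟨P, hP, Q, hQ, hne⟩ := Finset.one_lt_card.1 (not_le.1 hcon)
    exact hu (mem_core_of_two huv hF hP hQ hne)
  · intro u hu v hv huv
    refine kappa_le_of_forall fun F hF => ?_
    refine Finset.card_le_card_of_injOn (fun P => (P : G.Walk u v).getVert 1) ?_ ?_
    · intro P hP
      refine Finset.mem_coe.2 (Finset.mem_filter.2 ⟨?_, snd_adj huv P⟩)
      exact support_subset_core hu hv P _ (SimpleGraph.Walk.getVert_mem_support _ _)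
    · intro P hP Q hQ h
      by_contra hne
      exact snd_ne huv hF hP hQ hne h

end Pool.Agent.AvgConn
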