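import Pool.Agent.Work.MP_88992e_co.SqDefs

/-!
# The lightest elements
-/

namespace Pool.Agent.AvgConn

open Finset
open scoped Classical

universe u

/-- the k lightest elements -/
theorem exists_lightest {B : Type u} [Fintype B] (g : B → ℕ) (k : ℕ) (hk : k ≤ Fintype.card B) :
    ∃ X : Finset B, #X = k ∧ ∀ x ∈ X, ∀ y, y ∉ X → g x ≤ g y := by
  induction k with
  | zero => exact ⟨∅, card_empty, by simp⟩
  | succ k ih =>
    obtain ⟨X, hX, hmin⟩ := ih (by omega)
    have hne : (univ \ X).Nonempty := by
      rw [← card_pos, card_sdiff_of_subset (subset_univ X), card_univ, hX]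
      omega
    obtain ⟨x0, hx0, hx0min⟩ := exists_min_image (univ \ X) g hne
    have hx0X : x0 ∉ X := (mem_sdiff.1 hx0).2
    refine ⟨insert x0 X, by rw [card_insert_of_notMem hx0X, hX], ?_⟩
    intro x hx y hy
    rw [mem_insert, not_or] at hy
    rcases mem_insert.1 hx with rfl | hx
    · exact hx0min y (mem_sdiff.2 ⟨mem_univ _, hy.2⟩)
    · exact hmin x hx y hy.2

end Pool.Agent.AvgConn
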