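import Pool.Agent.Work.MP_88992e_co.Bal
import Pool.Agent.Work.MP_88992e_co.Low
import Pool.Agent.Work.MP_88992e_co.Rank
import Pool.Agent.Work.MP_88992e_co.Cntp

/-!
# The layout of the ports and of the other vertices on the cycle of segments
-/

namespace Pool.Agent.AvgConn

open Finset
open scoped Classical

universe u

private lemma lay_key {h p q i j : ℕ} (hi : i < h) (hj : j < h) (he : p * h + i = q * h + j) :
    p = q ∧ i = j := by
  have h0 : 0 < h := lt_of_le_of_lt (Nat.zero_le _) hi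
  have h1 : (p * h + i) / h = p := by
    rw [Nat.add_comm, Nat.add_mul_div_right _ _ h0, Nat.div_eq_of_lt hi, Nat.zero_add]
  have h2 : (q * h + j) / h = q := by
    rw [Nat.add_comm, Nat.add_mul_div_right _ _ h0, Nat.div_eq_of_lt hj, Nat.zero_add]
  have h3 : p = q := by rw [← h1, ← h2, he]
  subst h3
  exact ⟨rfl, by omega⟩

private lemma lay_mid {h p q i j k : ℕ} (hi : i < h) (hj : j < h) (hk : k < h)
    (h1 : p * h + i ≤ q * h + j) (h2 : q * h + j ≤ p * h + k) : q = p := by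
  have h0 : 0 < h := lt_of_le_of_lt (Nat.zero_le _) hi
  have e1 : (p * h + i) / h = p := by
    rw [Nat.add_comm, Nat.add_mul_div_right _ _ h0, Nat.div_eq_of_lt hi, Nat.zero_add]
  have e2 : (q * h + j) / h = q := by
    rw [Nat.add_comm, Nat.add_mul_div_right _ _ h0, Nat.div_eq_of_lt hj, Nat.zero_add]
  have e3 : (p * h + k) / h = p := by
    rw [Nat.add_comm, Nat.add_mul_div_right _ _ h0, Nat.div_eq_of_lt hk, Nat.zero_add]
  have a1 := Nat.div_le_div_right (c := h) h1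
  have a2 := Nat.div_le_div_right (c := h) h2
  rw [e1, e2] at a1
  rw [e2, e3] at a2
  omega

theorem layout {B A : Type} [Fintype B] [Fintype A] {L : ℕ} [NeZero L] (g : B → ℕ) (e : A → ℕ)
    (s : ℕ) (hg : ∀ b, g b ≤ s) (hg1 : ∀ b, 1 ≤ g b) (hc : ∑ a, e a + L ≤ Fintype.card B) :
    ∃ (ι : (Σ a : A, Fin (e a)) → B) (seg : B → ZMod L) (pos : B → ℕ) (g' : B → ℕ) (γ WY : ℕ),
      Function.Injective ι ∧ Coord seg pos ∧
      (∀ b, g' b + #{x | ι x = b} = g b) ∧
      (∀ x, seg (ι x) = ((x.2 : ℕ) : ZMod L)) ∧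
      (∀ x y, (x.2 : ℕ) = (y.2 : ℕ) → ∀ w, seg w = seg (ι x) → pos (ι x) ≤ pos w →
        pos w ≤ pos (ι y) → ∃ z, ι z = w ∧ (z.2 : ℕ) = (x.2 : ℕ)) ∧
      γ * (Fintype.card B - ∑ a, e a) ≤ WY ∧
      WY ≤ ∑ b, g' b ∧ ∑ b, g' b ≤ WY + (∑ a, e a) * (γ - 1) ∧
      (∀ i, L * segW seg g' i ≤ L * s + WY + (∑ a, e a + L * Fintype.card A) * (γ - 1)) ∧
      ∀ i, WY ≤ L * (segW seg g' i + s) := by
  have hL : 0 < L := Nat.pos_of_ne_zero (NeZero.ne L)
  obtain ⟨X, hXc, hXg⟩ := exists_lightest g (∑ a, e a) (by omega)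
  have hcP : Fintype.card (Σ a : A, Fin (e a)) = ∑ a, e a := by
    rw [Fintype.card_sigma]
    exact Finset.sum_congr rfl fun a _ => Fintype.card_fin _
  have hcX : Fintype.card {b // b ∈ X} = ∑ a, e a := by
    rw [Fintype.card_coe, hXc]
  obtain ⟨φ⟩ : Nonempty ((Σ a : A, Fin (e a)) ≃ {b // b ∈ X}) :=
    Fintype.card_eq.1 (hcP.trans hcX.symm)
  have hcY : Fintype.card {b // b ∉ X} = Fintype.card B - ∑ a, e a := by
    rw [Fintype.card_subtype_compl, hcX]
  obtain ⟨segY, posY, hcoord, hbal⟩ :=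
    balance (V := {b // b ∉ X}) (L := L) (fun b => g b.1) s (by rw [hcY]; omega) (fun b => hg b.1)
  obtain ⟨h, hh⟩ : ∃ h, Fintype.card A = h := ⟨_, rfl⟩
  let idx : A ≃ Fin h := Fintype.equivFinOfCardEq hh
  let ι : (Σ a : A, Fin (e a)) → B := fun x => (φ x).1
  have hιX : ∀ x, ι x ∈ X := fun x => (φ x).2
  have hιs : ∀ b, b ∈ X → ∃ x, ι x = b := fun b hb =>
    ⟨φ.symm ⟨b, hb⟩, by simp [ι]⟩
  have hιi : Function.Injective ι := fun x y hxy => φ.injective (Subtype.ext hxy)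
  let seg : B → ZMod L := fun b =>
    if hb : b ∈ X then (((φ.symm ⟨b, hb⟩).2 : ℕ) : ZMod L) else segY ⟨b, hb⟩
  let key : B → ℕ := fun b =>
    if hb : b ∈ X then ((φ.symm ⟨b, hb⟩).2 : ℕ) * h + (idx (φ.symm ⟨b, hb⟩).1 : ℕ)
    else (∑ a, e a) * h + posY ⟨b, hb⟩
  have hφι : ∀ x (hx : ι x ∈ X), φ.symm ⟨ι x, hx⟩ = x := fun x hx =>
    (Equiv.symm_apply_eq φ).2 (Subtype.ext rfl)
  have hsegι : ∀ x, seg (ι x) = ((x.2 : ℕ) : ZMod L) := fun x => by
    have h1 : seg (ι x) = (((φ.symm ⟨ι x, hιX x⟩).2 : ℕ) : ZMod L) := dif_pos (hιX x)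
    rw [h1, hφι]
  have hkeyι : ∀ x, key (ι x) = (x.2 : ℕ) * h + (idx x.1 : ℕ) := fun x => by
    have h1 : key (ι x) = ((φ.symm ⟨ι x, hιX x⟩).2 : ℕ) * h +
      (idx (φ.symm ⟨ι x, hιX x⟩).1 : ℕ) := dif_pos (hιX x)
    rw [h1, hφι]
  have hsegY : ∀ b (hb : b ∉ X), seg b = segY ⟨b, hb⟩ := fun b hb => dif_neg hb
  have hkeyY : ∀ b (hb : b ∉ X), key b = (∑ a, e a) * h + posY ⟨b, hb⟩ := fun b hb => dif_neg hb
  have hkeylt : ∀ x, key (ι x) < (∑ a, e a) * h := fun x => by
    rw [hkeyι]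
    have h1 : (x.2 : ℕ) + 1 ≤ ∑ a, e a :=
      le_trans x.2.2 (Finset.single_le_sum (f := e) (fun a _ => Nat.zero_le _) (mem_univ x.1))
    have h2 : ((x.2 : ℕ) + 1) * h ≤ (∑ a, e a) * h := Nat.mul_le_mul_right _ h1
    have h3 := (idx x.1).2
    rw [Nat.add_mul, Nat.one_mul] at h2
    omega
  have hkinj : ∀ u v, seg u = seg v → key u = key v → u = v := by
    intro u v hs hk
    by_cases hu : u ∈ X
    · obtain ⟨x, rfl⟩ := hιs u hu
      by_cases hv : v ∈ X
      · obtain ⟨y, rfl⟩ := hιs v hv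
        rw [hkeyι, hkeyι] at hk
        obtain ⟨h1, h2⟩ := lay_key (idx x.1).2 (idx y.1).2 hk
        have h3 : x.1 = y.1 := idx.injective (Fin.ext h2)
        obtain ⟨a, p⟩ := x
        obtain ⟨b, q⟩ := y
        obtain rfl : a = b := h3
        obtain rfl : p = q := Fin.ext h1
        rfl
      · exfalso
        have h1 := hkeylt x
        rw [hk, hkeyY v hv] at h1
        omega
    · by_cases hv : v ∈ X
      · obtain ⟨y, rfl⟩ := hιs v hv
        exfalso
        have h1 := hkeylt y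
        rw [← hk, hkeyY u hu] at h1
        omega
      · rw [hkeyY u hu, hkeyY v hv] at hk
        rw [hsegY u hu, hsegY v hv] at hs
        exact congrArg Subtype.val (hcoord.inj _ _ hs (by omega))
  have hne : ∀ i, ∃ v, seg v = i := fun i => by
    obtain ⟨v, hv, -⟩ := hcoord.zero i
    exact ⟨v.1, by rw [hsegY v.1 v.2]; exact hv⟩
  obtain ⟨pos, hpos, hposk⟩ := exists_pos seg key hkinj hne
  -- the lightest vertex of the rest
  have hYne : (univ : Finset {b // b ∉ X}).Nonempty := by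
    rw [← Finset.card_pos, Finset.card_univ, hcY]
    omega
  obtain ⟨y0, -, hy0⟩ := (univ : Finset {b // b ∉ X}).exists_min_image (fun b => g b.1) hYne
  let g' : B → ℕ := fun b => if b ∈ X then g b - 1 else g b
  have hg'X : ∀ b, b ∈ X → g' b = g b - 1 := fun b hb => if_pos hb
  have hg'Y : ∀ b, b ∉ X → g' b = g b := fun b hb => if_neg hb
  have hXle : ∀ b, b ∈ X → g' b ≤ g y0.1 - 1 := fun b hb => by
    rw [hg'X b hb]
    exact Nat.sub_le_sub_right (hXg b hb y0.1 y0.2) 1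
  -- splitting sums over the two parts
  have hsplit : ∀ f : B → ℕ, ∑ b, f b = ∑ b ∈ X, f b + ∑ y : {b // b ∉ X}, f y.1 := by
    intro f
    have h1 : ∑ y : {b // b ∉ X}, f y.1 = ∑ b ∈ univ.filter (fun b => b ∉ X), f b :=
      (Finset.sum_subtype (p := fun b => b ∉ X) _ (fun b => by simp) f).symm
    have h2 : ∑ b ∈ X, f b = ∑ b ∈ univ.filter (fun b => b ∈ X), f b := by
      congr 1
      ext b
      simp
    rw [h1, h2, Finset.sum_filter_add_sum_filter_not]
  have hsumg' : ∑ b, g' b = ∑ b ∈ X, g' b + ∑ y : {b // b ∉ X}, g y.1 := by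
    rw [hsplit g']
    congr 1
    exact Finset.sum_congr rfl fun y _ => hg'Y y.1 y.2
  have hsegW : ∀ i, segW seg g' i = ∑ b ∈ X.filter (fun b => seg b = i), g' b +
      segW segY (fun b => g b.1) i := by
    intro i
    have h1 : segW seg g' i = ∑ b, if seg b = i then g' b else 0 := by
      rw [← Finset.sum_filter]
      rfl
    have h2 : segW segY (fun b => g b.1) i = ∑ y : {b // b ∉ X}, if segY y = i then g y.1 else 0 := by
      rw [← Finset.sum_filter]
      rfl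
    rw [h1, h2, hsplit, Finset.sum_filter]
    congr 1
    refine Finset.sum_congr rfl fun y _ => ?_
    rw [hsegY y.1 y.2, hg'Y y.1 y.2]
  refine ⟨ι, seg, pos, g', g y0.1, ∑ y : {b // b ∉ X}, g y.1, hιi, hpos, ?_, hsegι, ?_, ?_, ?_, ?_,
    ?_, ?_⟩
  · intro b
    by_cases hb : b ∈ X
    · obtain ⟨x, rfl⟩ := hιs b hb
      have h1 : (univ.filter fun y => ι y = ι x) = {x} := by
        ext y
        simp only [mem_filter, mem_univ, true_and, mem_singleton]
        exact ⟨fun hy => hιi hy, fun hy => by rw [hy]⟩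
      rw [h1, card_singleton, hg'X _ hb]
      have := hg1 (ι x)
      omega
    · have h1 : (univ.filter fun y => ι y = b) = ∅ := by
        refine Finset.filter_eq_empty_iff.2 fun y _ hy => hb ?_
        rw [← hy]
        exact hιX y
      rw [h1, card_empty, hg'Y _ hb, Nat.add_zero]
  · intro x y hxy w hw h1 h2
    have hsy : seg w = seg (ι y) := by rw [hw, hsegι, hsegι, hxy]
    have k1 : key (ι x) ≤ key w := (hposk _ _ hw.symm).1 h1
    have k2 : key w ≤ key (ι y) := (hposk _ _ hsy).1 h2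
    have hwX : w ∈ X := by
      by_contra hwX
      have := hkeylt y
      rw [hkeyY w hwX] at k2
      omega
    obtain ⟨z, rfl⟩ := hιs w hwX
    refine ⟨z, rfl, ?_⟩
    rw [hkeyι, hkeyι] at k1 k2
    rw [← hxy] at k2
    exact lay_mid (idx x.1).2 (idx z.1).2 (idx y.1).2 k1 k2
  · rw [← hcY, Nat.mul_comm, ← Finset.card_univ, ← smul_eq_mul, ← Finset.sum_const]
    exact Finset.sum_le_sum fun y _ => hy0 y (mem_univ y)
  · rw [hsumg']
    exact Nat.le_add_left _ _
  · rw [hsumg', Nat.add_comm]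
    refine Nat.add_le_add_left ?_ _
    calc ∑ b ∈ X, g' b ≤ ∑ b ∈ X, (g y0.1 - 1) := Finset.sum_le_sum fun b hb => hXle b hb
      _ = (∑ a, e a) * (g y0.1 - 1) := by rw [Finset.sum_const, smul_eq_mul, hXc]
  · intro i
    rw [hsegW i, Nat.mul_add]
    have h1 := (hbal i).1
    have h2 : ∑ b ∈ X.filter (fun b => seg b = i), g' b ≤
        #{x : (Σ a : A, Fin (e a)) | ((x.2 : ℕ) : ZMod L) = i} * (g y0.1 - 1) := by
      have h3 : #(X.filter (fun b => seg b = i)) ≤
          #{x : (Σ a : A, Fin (e a)) | ((x.2 : ℕ) : ZMod L) = i} := by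
        refine Finset.card_le_card_of_surjOn ι fun b hb => ?_
        rw [Finset.mem_coe, mem_filter] at hb
        obtain ⟨x, rfl⟩ := hιs b hb.1
        refine ⟨x, ?_, rfl⟩
        rw [Finset.mem_coe, mem_filter]
        exact ⟨mem_univ _, by rw [← hb.2, hsegι]⟩
      calc ∑ b ∈ X.filter (fun b => seg b = i), g' b
          ≤ ∑ b ∈ X.filter (fun b => seg b = i), (g y0.1 - 1) :=
            Finset.sum_le_sum fun b hb => hXle b (mem_filter.1 hb).1
        _ = #(X.filter (fun b => seg b = i)) * (g y0.1 - 1) := by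
            rw [Finset.sum_const, smul_eq_mul]
        _ ≤ _ := Nat.mul_le_mul_right _ h3
    have h4 := ports_in_segment e (L := L) i
    have h5 : L * ∑ b ∈ X.filter (fun b => seg b = i), g' b ≤
        (∑ a, e a + L * Fintype.card A) * (g y0.1 - 1) :=
      calc _ ≤ L * (#{x : (Σ a : A, Fin (e a)) | ((x.2 : ℕ) : ZMod L) = i} * (g y0.1 - 1)) :=
            Nat.mul_le_mul_left _ h2
        _ = L * #{x : (Σ a : A, Fin (e a)) | ((x.2 : ℕ) : ZMod L) = i} * (g y0.1 - 1) := by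
            rw [Nat.mul_assoc]
        _ ≤ _ := Nat.mul_le_mul_right _ h4
    omega
  · intro i
    refine le_trans (hbal i).2 (Nat.mul_le_mul_left _ ?_)
    rw [hsegW i]
    omega

end Pool.Agent.AvgConn
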