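import Pool.Agent.Work.MP_88992e_co.Basic

/-!
# Attaching leaves
-/

namespace Pool.Agent.AvgConn

open Finset
open scoped Classical

variable {V : Type*} [Fintype V]

/-- attach the vertices `l ∈ L` to `p l` -/
def addLeaves (H : SimpleGraph V) (L : Finset V) (p : V → V) : SimpleGraph V :=
  H ⊔ SimpleGraph.fromEdgeSet {s | ∃ l ∈ L, s = s(l, p l)}

section

variable {H : SimpleGraph V} {L : Finset V} {p : V → V}

omit [Fintype V] in
lemma addLeaves_adj {a b : V} : (addLeaves H L p).Adj a b ↔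
    H.Adj a b ∨ ((∃ l ∈ L, s(a, b) = s(l, p l)) ∧ a ≠ b) := by
  unfold addLeaves
  rw [SimpleGraph.sup_adj, SimpleGraph.fromEdgeSet_adj]
  rfl

omit [Fintype V] in
lemma addLeaves_adj_leaf (hiso : ∀ l ∈ L, ∀ w, ¬ H.Adj l w) (hp : ∀ l ∈ L, p l ∉ L) {l b : V}
    (hl : l ∈ L) : (addLeaves H L p).Adj l b ↔ b = p l := by
  rw [addLeaves_adj]
  constructor
  · rintro (h | ⟨⟨l', hl', h⟩, _⟩)
    · exact absurd h (hiso l hl b)
    · rw [Sym2.eq_iff] at h
      rcases h with ⟨h1, h2⟩ | ⟨h1, _⟩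
      · rw [h2, h1]
      · exact absurd (h1 ▸ hl) (hp l' hl')
  · rintro rfl
    exact Or.inr ⟨⟨l, hl, rfl⟩, fun h => hp l hl (h ▸ hl)⟩

omit [Fintype V] in
lemma addLeaves_adj_old (hp : ∀ l ∈ L, p l ∉ L) {a b : V} (ha : a ∉ L) :
    (addLeaves H L p).Adj a b ↔ H.Adj a b ∨ (b ∈ L ∧ p b = a) := by
  rw [addLeaves_adj]
  constructor
  · rintro (h | ⟨⟨l', hl', h⟩, _⟩)
    · exact Or.inl h
    · rw [Sym2.eq_iff] at h
      rcases h with ⟨h1, _⟩ | ⟨h1, h2⟩
      · exact absurd (h1 ▸ hl') ha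
      · exact Or.inr ⟨h2 ▸ hl', by rw [h2, h1]⟩
  · rintro (h | ⟨h1, h2⟩)
    · exact Or.inl h
    · refine Or.inr ⟨⟨b, h1, ?_⟩, fun h => ha (h ▸ h1)⟩
      rw [← h2]
      exact Sym2.eq_swap

lemma deg_addLeaves_leaf (hiso : ∀ l ∈ L, ∀ w, ¬ H.Adj l w) (hp : ∀ l ∈ L, p l ∉ L) {l : V}
    (hl : l ∈ L) : deg (addLeaves H L p) l = 1 := by
  rw [deg_eq, card_eq_one]
  refine ⟨p l, ?_⟩
  ext b
  simp [addLeaves_adj_leaf hiso hp hl]

lemma deg_addLeaves_old (hiso : ∀ l ∈ L, ∀ w, ¬ H.Adj l w) (hp : ∀ l ∈ L, p l ∉ L) {v : V}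
    (hv : v ∉ L) : deg (addLeaves H L p) v = deg H v + #{l ∈ L | p l = v} := by
  rw [deg_eq, deg_eq, ← card_union_of_disjoint]
  · congr 1
    ext b
    simp only [mem_filter, mem_univ, true_and, mem_union]
    exact addLeaves_adj_old hp hv
  · rw [Finset.disjoint_left]
    intro b hb hb'
    simp only [mem_filter, mem_univ, true_and] at hb hb'
    exact hiso b hb'.1 v hb.symm

end

/-- one leaf -/
theorem good_leaf {G : SimpleGraph V} {e : V → ℕ} (hG : Good G e) {l p : V}
    (hl : ∀ w, ¬ G.Adj l w) (hpl : l ≠ p) (hp : 1 ≤ e p) {H : SimpleGraph V}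
    (hH : ∀ a b, H.Adj a b ↔ G.Adj a b ∨ (s(a, b) = s(l, p) ∧ a ≠ b)) {e' : V → ℕ}
    (he' : ∀ v, v ≠ l → e' v = e v) (hel : e' l = 1) : Good H e' := by
  have hle : G ≤ H := fun a b h => (hH a b).2 (Or.inl h)
  have hlp : H.Adj l p := (hH l p).2 (Or.inr ⟨rfl, hpl⟩)
  have key : ∀ v, v ≠ l → Perf H l v (min 1 (e v)) := by
    intro v hv A hlA hvA hcond
    rcases Nat.eq_zero_or_pos (e v) with h0 | h0
    · rw [h0]
      exact Nat.zero_le _
    · rw [min_eq_left h0]
      by_cases hpA : p ∈ A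
      · have hvp : p ≠ v := by
          rintro rfl
          exact hvA hpA
        have h1 := hG p v hvp (A.erase l) (mem_erase.2 ⟨hpl.symm, hpA⟩)
          (fun h => hvA (mem_of_mem_erase h)) (by
            intro a ha hav
            exact absurd (hcond a (mem_of_mem_erase ha) (hle hav)) (mem_erase.1 ha).1)
        have h2 : 1 ≤ min (e p) (e v) := le_min hp h0
        refine (h2.trans h1).trans (card_le_card ?_)
        intro y hy
        obtain ⟨h3, a, ha, h4⟩ := mem_nb.1 hy
        refine mem_nb.2 ⟨fun h5 => h3 (mem_erase.2 ⟨?_, h5⟩), a, mem_of_mem_erase ha, hle h4⟩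
        rintro rfl
        exact hl a h4.symm
      · exact card_pos.2 ⟨p, mem_nb.2 ⟨hpA, l, hlA, hlp⟩⟩
  intro u v huv
  by_cases hu : u = l
  · subst hu
    rw [hel, he' v huv.symm]
    exact key v huv.symm
  · by_cases hv : v = l
    · subst hv
      rw [hel, he' u hu, min_comm]
      exact (key u hu).symm (Ne.symm hu)
    · rw [he' u hu, he' v hv]
      exact (hG u v huv).mono_graph hle

/-- all leaves -/
theorem good_addLeaves {H : SimpleGraph V} {L : Finset V} {p : V → V} {e : V → ℕ}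
    (hG : Good H e) (hiso : ∀ l ∈ L, ∀ w, ¬ H.Adj l w) (hp : ∀ l ∈ L, p l ∉ L)
    (hpe : ∀ l ∈ L, 1 ≤ e (p l)) :
    Good (addLeaves H L p) (fun v => if v ∈ L then 1 else e v) := by
  induction L using Finset.induction_on with
  | empty =>
    have h1 : addLeaves H ∅ p = H := by
      ext a b
      rw [addLeaves_adj]
      simp
    rw [h1]
    simpa using hG
  | insert l L hl ih =>
    have hp' : ∀ l' ∈ L, p l' ∉ L := fun l' h1 h2 =>
      hp l' (mem_insert_of_mem h1) (mem_insert_of_mem h2)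
    have ih' := ih (fun l' h1 => hiso l' (mem_insert_of_mem h1)) hp'
      (fun l' h1 => hpe l' (mem_insert_of_mem h1))
    have hpl : l ≠ p l := by
      intro h
      exact hp l (mem_insert_self _ _) (h ▸ mem_insert_self _ _)
    refine good_leaf ih' (l := l) (p := p l) ?_ hpl ?_ ?_ ?_ ?_
    · intro w hw
      rw [addLeaves_adj_old hp' hl] at hw
      rcases hw with h | ⟨h1, h2⟩
      · exact hiso l (mem_insert_self _ _) w h
      · exact hp w (mem_insert_of_mem h1) (h2 ▸ mem_insert_self _ _)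
    · have h1 : p l ∉ L := fun h => hp l (mem_insert_self _ _) (mem_insert_of_mem h)
      simp only [if_neg h1]
      exact hpe l (mem_insert_self _ _)
    · intro a b
      rw [addLeaves_adj, addLeaves_adj]
      constructor
      · rintro (h | ⟨⟨l', hl', h⟩, hab⟩)
        · exact Or.inl (Or.inl h)
        · rcases mem_insert.1 hl' with h1 | h1
          · subst h1
            exact Or.inr ⟨h, hab⟩
          · exact Or.inl (Or.inr ⟨⟨l', h1, h⟩, hab⟩)
      · rintro ((h | ⟨⟨l', hl', h⟩, hab⟩) | ⟨h, hab⟩)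
        · exact Or.inl h
        · exact Or.inr ⟨⟨l', mem_insert_of_mem hl', h⟩, hab⟩
        · exact Or.inr ⟨⟨l, mem_insert_self _ _, h⟩, hab⟩
    · intro v hv
      simp only [mem_insert, hv, false_or]
    · simp

omit [Fintype V] in
/-- distributing the leaves -/
theorem exists_parents {I L : Finset V} {f : V → ℕ} (h : ∑ v ∈ I, f v = #L) :
    ∃ p : V → V, (∀ l ∈ L, p l ∈ I) ∧ ∀ v ∈ I, #{l ∈ L | p l = v} = f v := by
  induction I using Finset.induction_on generalizing L with
  | empty =>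
    rw [sum_empty] at h
    refine ⟨id, ?_, by simp⟩
    rw [card_eq_zero.1 h.symm]
    simp
  | insert i I hi ih =>
    rw [sum_insert hi] at h
    obtain ⟨M, hM, hMc⟩ := exists_subset_card_eq (s := L) (n := f i) (by omega)
    have hc : #(L \ M) = #L - #M := card_sdiff_of_subset hM
    obtain ⟨p, hp1, hp2⟩ := ih (L := L \ M) (by omega)
    refine ⟨fun l => if l ∈ M then i else p l, ?_, ?_⟩
    · intro l hl
      by_cases h1 : l ∈ M
      · simp [h1]
      · simp only [h1, if_false]
        exact mem_insert_of_mem (hp1 l (mem_sdiff.2 ⟨hl, h1⟩))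
    · intro v hv
      rcases mem_insert.1 hv with rfl | hv
      · rw [← hMc]
        congr 1
        ext l
        simp only [mem_filter]
        constructor
        · rintro ⟨h1, h2⟩
          by_contra h3
          simp only [h3, if_false] at h2
          exact hi (h2 ▸ hp1 l (mem_sdiff.2 ⟨h1, h3⟩))
        · intro h1
          exact ⟨hM h1, by simp [h1]⟩
      · rw [← hp2 v hv]
        congr 1
        ext l
        simp only [mem_filter, mem_sdiff]
        have hiv : i ≠ v := by
          rintro rfl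
          exact hi hv
        by_cases h1 : l ∈ M
        · simp [h1, hiv]
        · simp [h1]

end Pool.Agent.AvgConn
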