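import Pool.Agent.Work.MP_88992e_co.SqDefs

/-!
# Ports: one edge between any two far segments
-/

namespace Pool.Agent.AvgConn

open Finset
open scoped Classical

universe u

variable {V : Type u} [Fintype V] {L : ℕ} [NeZero L]

/-- a choice of the ports -/
lemma exists_port (seg : V → ZMod L) (g : V → ℕ) (hW : ∀ i, L ≤ segW seg g i) :
    ∃ port : ZMod L → ZMod L → V, (∀ i j, seg (port i j) = i) ∧
      ∀ i v, #{j | port i j = v} ≤ g v := by
  have key : ∀ i : ZMod L, ∃ p : ZMod L → V, (∀ j, seg (p j) = i) ∧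
      ∀ v, #{j | p j = v} ≤ g v := by
    intro i
    have hS : Fintype.card (ZMod L) ≤
        Fintype.card (Σ v : {v // v ∈ sg seg i}, Fin (g v.1)) := by
      rw [ZMod.card, Fintype.card_sigma]
      refine (hW i).trans (le_of_eq ?_)
      unfold segW
      rw [← Finset.sum_coe_sort]
      simp
    obtain ⟨e⟩ := Function.Embedding.nonempty_of_card_le hS
    refine ⟨fun j => (e j).1.1, ?_, ?_⟩
    · intro j
      have := (e j).1.2
      unfold sg at this
      exact (Finset.mem_filter.1 this).2
    · intro v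
      have : #{j | (e j).1.1 = v} ≤ #(range (g v)) := by
        refine Finset.card_le_card_of_injOn (fun j => ((e j).2 : ℕ)) ?_ ?_
        · intro j hj
          have hj' : (e j).1.1 = v := by simpa using hj
          have h2 : ((e j).2 : ℕ) < g v := lt_of_lt_of_eq (e j).2.2 (congrArg g hj')
          simpa using h2
        · intro j hj j' hj' hjj
          have hj1 : (e j).1.1 = v := by simpa using hj
          have hj2 : (e j').1.1 = v := by simpa using hj'
          apply e.injective
          have h1 : (e j).1 = (e j').1 := Subtype.ext (hj1.trans hj2.symm)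
          have h3 : ((e j).2 : ℕ) = ((e j').2 : ℕ) := hjj
          refine Sigma.ext h1 ?_
          rw [Fin.heq_ext_iff (by rw [h1])]
          exact h3
      simpa using this
  choose port h1 h2 using key
  exact ⟨port, h1, h2⟩

theorem exists_ports (seg : V → ZMod L) (g : V → ℕ) (hW : ∀ i, L ≤ segW seg g i) :
    ∃ M : SimpleGraph V, Nice seg M ∧ (∀ v, deg M v ≤ g v) ∧
      (∀ i j : ZMod L, far i j → ∃ u v, seg u = i ∧ seg v = j ∧ M.Adj u v) ∧
      ∑ v, deg M v ≤ L * L := by
  obtain ⟨port, hs, hc⟩ := exists_port seg g hW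
  let M : SimpleGraph V :=
    { Adj := fun u v => far (seg u) (seg v) ∧ port (seg u) (seg v) = u ∧
        port (seg v) (seg u) = v
      symm := ⟨fun u v h => ⟨⟨h.1.1.symm, h.1.2.2, h.1.2.1⟩, h.2.2, h.2.1⟩⟩
      loopless := ⟨fun u h => h.1.1 rfl⟩ }
  have hM : ∀ u v, M.Adj u v ↔ far (seg u) (seg v) ∧ port (seg u) (seg v) = u ∧
        port (seg v) (seg u) = v := fun _ _ => Iff.rfl
  refine ⟨M, ⟨fun u w h => ((hM _ _).1 h).1, ?_⟩, ?_, ?_, ?_⟩
  · intro u w w' h h' hww
    rw [hM] at h h'
    rw [← h.2.2, ← h'.2.2, hww]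
  · intro v
    rw [deg_eq]
    refine le_trans ?_ (hc (seg v) v)
    refine Finset.card_le_card_of_injOn seg ?_ ?_
    · intro w hw
      have hw' : M.Adj v w := by simpa using hw
      rw [hM] at hw'
      simpa using hw'.2.1
    · intro w hw w' hw' hww
      have h1 : M.Adj v w := by simpa using hw
      have h2 : M.Adj v w' := by simpa using hw'
      rw [hM] at h1 h2
      rw [← h1.2.2, ← h2.2.2, hww]
  · intro i j hij
    refine ⟨port i j, port j i, hs _ _, hs _ _, ?_⟩
    rw [hM, hs, hs]
    exact ⟨hij, rfl, rfl⟩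
  · have h1 : ∑ v, deg M v = #{q : V × V | M.Adj q.1 q.2} := by
      rw [Finset.card_eq_sum_card_fiberwise (f := Prod.fst) (t := univ)
        (fun x _ => mem_univ _)]
      refine sum_congr rfl fun v _ => ?_
      rw [deg_eq]
      refine Finset.card_bij (fun w _ => (v, w)) ?_ ?_ ?_
      · intro w hw
        simpa using hw
      · intro w _ w' _ h
        exact (Prod.ext_iff.1 h).2
      · rintro ⟨a, b⟩ hab
        simp only [mem_filter, mem_univ, true_and] at hab
        obtain ⟨h2, h3⟩ := hab
        subst h3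
        exact ⟨b, by simpa using h2, rfl⟩
    rw [h1]
    have h2 : L * L = #(univ : Finset (ZMod L × ZMod L)) := by
      rw [Finset.card_univ, Fintype.card_prod, ZMod.card]
    rw [h2]
    refine Finset.card_le_card_of_injOn (fun q => (seg q.1, seg q.2)) ?_ ?_
    · intro q _
      simp
    · intro q hq q' hq' h
      have h3 : M.Adj q.1 q.2 := by simpa using hq
      have h4 : M.Adj q'.1 q'.2 := by simpa using hq'
      rw [hM] at h3 h4
      obtain ⟨h5, h6⟩ := Prod.ext_iff.1 h
      dsimp only at h5 h6
      refine Prod.ext ?_ ?_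
      · rw [← h3.2.1, ← h4.2.1, h5, h6]
      · rw [← h3.2.2, ← h4.2.2, h5, h6]

end Pool.Agent.AvgConn
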