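import Pool.Agent.Work.MP_88992e_co.SqDefs

/-!
# Ports, second form: one edge between any two segments at cyclic distance `2..k`
-/

namespace Pool.Agent.AvgConn

open Finset
open scoped Classical

universe u

variable {V : Type u} [Fintype V] {L : ℕ} [NeZero L]

/-- the cyclic distance of `i` and `j` is one of `2..k` -/
def cycd (k : ℕ) (i j : ZMod L) : Prop :=
  ∃ p : ℕ, 2 ≤ p ∧ p ≤ k ∧ (j = i + (p : ZMod L) ∨ i = j + (p : ZMod L))

omit [NeZero L] in
lemma cycd_symm {k : ℕ} {i j : ZMod L} (h : cycd k i j) : cycd k j i := by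
  obtain ⟨p, h1, h2, h3⟩ := h
  exact ⟨p, h1, h2, h3.symm⟩

omit [NeZero L] in
lemma natCast_ne_zero_of_lt_L {p : ℕ} (h0 : 0 < p) (hp : p < L) : (p : ZMod L) ≠ 0 := by
  intro h
  rw [ZMod.natCast_eq_zero_iff] at h
  exact absurd (Nat.le_of_dvd h0 h) (by omega)

omit [NeZero L] in
lemma far_of_cycd {k : ℕ} (hL : 2 * k + 2 ≤ L) {i j : ZMod L} (h : cycd k i j) : far i j := by
  obtain ⟨p, h1, h2, h3⟩ := h
  have hp : (p : ZMod L) ≠ 0 := natCast_ne_zero_of_lt_L (by omega) (by omega)
  have hp1 : ((p + 1 : ℕ) : ZMod L) ≠ 0 := natCast_ne_zero_of_lt_L (by omega) (by omega)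
  have hp2 : ((p - 1 : ℕ) : ZMod L) ≠ 0 := natCast_ne_zero_of_lt_L (by omega) (by omega)
  rw [Nat.cast_sub (by omega)] at hp2
  push_cast at hp1 hp2
  rcases h3 with h3 | h3
  · subst h3
    refine ⟨fun h => hp ?_, fun h => hp2 ?_, fun h => hp1 ?_⟩
    · linear_combination h
    · linear_combination h
    · linear_combination -h
  · subst h3
    refine ⟨fun h => hp ?_, fun h => hp1 ?_, fun h => hp2 ?_⟩
    · linear_combination -h
    · linear_combination -h
    · linear_combination h

lemma card_cycd_le (k : ℕ) (i : ZMod L) : #{j | cycd k i j} ≤ 2 * (k - 1) := by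
  have h1 : ({j | cycd k i j} : Finset (ZMod L)) ⊆
      (Icc 2 k).image (fun p : ℕ => i + (p : ZMod L)) ∪
      (Icc 2 k).image (fun p : ℕ => i - (p : ZMod L)) := by
    intro j hj
    have hj' : cycd k i j := by simpa using hj
    obtain ⟨p, h1, h2, h3⟩ := hj'
    rw [mem_union, mem_image, mem_image]
    rcases h3 with h3 | h3
    · exact Or.inl ⟨p, mem_Icc.2 ⟨h1, h2⟩, h3.symm⟩
    · refine Or.inr ⟨p, mem_Icc.2 ⟨h1, h2⟩, ?_⟩
      rw [h3]
      ring
  refine (card_le_card h1).trans ((card_union_le _ _).trans ?_)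
  have h2 := card_image_le (s := Icc 2 k) (f := fun p : ℕ => i + (p : ZMod L))
  have h3 := card_image_le (s := Icc 2 k) (f := fun p : ℕ => i - (p : ZMod L))
  rw [Nat.card_Icc] at h2 h3
  omega

omit [NeZero L] in
/-- a choice of the ports -/
lemma exists_port2 [Nonempty V] (seg : V → ZMod L) (g : V → ℕ) (N : ZMod L → Finset (ZMod L))
    (hW : ∀ i, #(N i) ≤ segW seg g i) :
    ∃ port : ZMod L → ZMod L → V, (∀ i, ∀ j ∈ N i, seg (port i j) = i) ∧
      ∀ i v, #{j ∈ N i | port i j = v} ≤ g v := by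
  have key : ∀ i : ZMod L, ∃ p : ZMod L → V, (∀ j ∈ N i, seg (p j) = i) ∧
      ∀ v, #{j ∈ N i | p j = v} ≤ g v := by
    intro i
    have hS : Fintype.card {j // j ∈ N i} ≤
        Fintype.card (Σ v : {v // v ∈ sg seg i}, Fin (g v.1)) := by
      rw [Fintype.card_coe, Fintype.card_sigma]
      refine (hW i).trans (le_of_eq ?_)
      unfold segW
      rw [← Finset.sum_coe_sort]
      simp
    obtain ⟨e⟩ := Function.Embedding.nonempty_of_card_le hS
    have hp : ∀ j (hj : j ∈ N i), (if h : j ∈ N i then (e ⟨j, h⟩).1.1 else Classical.arbitrary V)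
        = (e ⟨j, hj⟩).1.1 := fun j hj => dif_pos hj
    refine ⟨fun j => if h : j ∈ N i then (e ⟨j, h⟩).1.1 else Classical.arbitrary V, ?_, ?_⟩
    · intro j hj
      dsimp only
      rw [hp j hj]
      have := (e ⟨j, hj⟩).1.2
      unfold sg at this
      exact (Finset.mem_filter.1 this).2
    · intro v
      have h0 : #{j ∈ N i | (if h : j ∈ N i then (e ⟨j, h⟩).1.1 else Classical.arbitrary V) = v}
          ≤ #(range (g v)) := by
        refine Finset.card_le_card_of_injOn
          (fun j => if h : j ∈ N i then ((e ⟨j, h⟩).2 : ℕ) else 0) ?_ ?_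
        · intro j hj
          rw [mem_coe, mem_filter] at hj
          obtain ⟨hj1, hj2⟩ := hj
          rw [hp j hj1] at hj2
          have h2 : ((e ⟨j, hj1⟩).2 : ℕ) < g v :=
            lt_of_lt_of_eq (e ⟨j, hj1⟩).2.2 (congrArg g hj2)
          dsimp only
          rw [dif_pos hj1]
          simpa using h2
        · intro j hj j' hj' hjj
          rw [mem_coe, mem_filter] at hj hj'
          obtain ⟨hj1, hj2⟩ := hj
          obtain ⟨hj1', hj2'⟩ := hj'
          rw [hp j hj1] at hj2
          rw [hp j' hj1'] at hj2'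
          dsimp only at hjj
          rw [dif_pos hj1, dif_pos hj1'] at hjj
          have h1 : (e ⟨j, hj1⟩).1 = (e ⟨j', hj1'⟩).1 := Subtype.ext (hj2.trans hj2'.symm)
          have h4 : e ⟨j, hj1⟩ = e ⟨j', hj1'⟩ := by
            refine Sigma.ext h1 ?_
            rw [Fin.heq_ext_iff (by rw [h1])]
            exact hjj
          exact congrArg Subtype.val (e.injective h4)
      simpa using h0
  choose port h1 h2 using key
  exact ⟨port, h1, h2⟩

theorem exists_ports_circ {V : Type u} [Fintype V] {L : ℕ} [NeZero L] (seg : V → ZMod L)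
    (g : V → ℕ) (k : ℕ) (hL : 2 * k + 2 ≤ L) (hW : ∀ i, 2 * (k - 1) ≤ segW seg g i) :
    ∃ M : SimpleGraph V, Nice seg M ∧ (∀ v, deg M v ≤ g v) ∧
      (∀ (i j : ZMod L) (p : ℕ), 2 ≤ p → p ≤ k → j = i + (p : ZMod L) →
        ∃ u v, seg u = i ∧ seg v = j ∧ M.Adj u v) ∧
      ∑ v, deg M v ≤ L * (2 * (k - 1)) := by
  by_cases hV : Nonempty V
  swap
  · have hV' : IsEmpty V := not_nonempty_iff.1 hV
    have h0 := hW 0
    have h1 : segW seg g 0 = 0 := by
      unfold segW
      exact sum_eq_zero fun v _ => (hV'.false v).elim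
    refine ⟨⊥, ⟨fun u => (hV'.false u).elim, fun u => (hV'.false u).elim⟩,
      fun v => (hV'.false v).elim, ?_, ?_⟩
    · intro i j p hp hpk _
      omega
    · rw [sum_eq_zero fun v _ => (hV'.false v).elim]
      exact Nat.zero_le _
  obtain ⟨port, hs, hc⟩ := exists_port2 seg g (fun i => {j | cycd k i j})
    (fun i => (card_cycd_le k i).trans (hW i))
  let M : SimpleGraph V :=
    { Adj := fun u v => cycd k (seg u) (seg v) ∧ port (seg u) (seg v) = u ∧
        port (seg v) (seg u) = v
      symm := ⟨fun u v h => ⟨cycd_symm h.1, h.2.2, h.2.1⟩⟩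
      loopless := ⟨fun u h => (far_of_cycd hL h.1).1 rfl⟩ }
  have hM : ∀ u v, M.Adj u v ↔ cycd k (seg u) (seg v) ∧ port (seg u) (seg v) = u ∧
        port (seg v) (seg u) = v := fun _ _ => Iff.rfl
  refine ⟨M, ⟨fun u w h => far_of_cycd hL ((hM _ _).1 h).1, ?_⟩, ?_, ?_, ?_⟩
  · intro u w w' h h' hww
    rw [hM] at h h'
    rw [← h.2.2, ← h'.2.2, hww]
  · intro v
    rw [deg_eq]
    refine le_trans ?_ (hc (seg v) v)
    refine Finset.card_le_card_of_injOn seg ?_ ?_
    · intro w hw
      have hw' : M.Adj v w := by simpa using hw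
      rw [hM] at hw'
      rw [mem_coe, mem_filter, mem_filter]
      exact ⟨⟨mem_univ _, hw'.1⟩, hw'.2.1⟩
    · intro w hw w' hw' hww
      have h1 : M.Adj v w := by simpa using hw
      have h2 : M.Adj v w' := by simpa using hw'
      rw [hM] at h1 h2
      rw [← h1.2.2, ← h2.2.2, hww]
  · intro i j p hp hpk hij
    have h1 : cycd k i j := ⟨p, hp, hpk, Or.inl hij⟩
    have hsi : seg (port i j) = i := hs i j (by simpa using h1)
    have hsj : seg (port j i) = j := hs j i (by simpa using cycd_symm h1)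
    refine ⟨port i j, port j i, hsi, hsj, ?_⟩
    rw [hM, hsi, hsj]
    exact ⟨h1, rfl, rfl⟩
  · have h1 : ∑ v, deg M v = #{q : V × V | M.Adj q.1 q.2} := by
      rw [Finset.card_eq_sum_card_fiberwise (f := Prod.fst) (t := univ)
        (fun x _ => mem_univ _)]
      refine sum_congr rfl fun v _ => ?_
      rw [deg_eq]
      refine Finset.card_bij (fun w _ => (v, w)) ?_ ?_ ?_
      · intro w hw
        simpa using hw
      · intro w _ w' _ h
        exact (Prod.ext_iff.1 h).2
      · rintro ⟨a, b⟩ hab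
        simp only [mem_filter, mem_univ, true_and] at hab
        obtain ⟨h2, h3⟩ := hab
        subst h3
        exact ⟨b, by simpa using h2, rfl⟩
    rw [h1]
    have h2 : #{q : ZMod L × ZMod L | cycd k q.1 q.2} ≤ L * (2 * (k - 1)) := by
      rw [Finset.card_eq_sum_card_fiberwise (f := Prod.fst) (t := univ)
        (fun x _ => mem_univ _)]
      have h3 : ∀ i : ZMod L, #{q ∈ ({q : ZMod L × ZMod L | cycd k q.1 q.2} :
          Finset (ZMod L × ZMod L)) | q.1 = i} ≤ 2 * (k - 1) := by
        intro i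
        refine le_trans ?_ (card_cycd_le k i)
        refine Finset.card_le_card_of_injOn Prod.snd ?_ ?_
        · rintro ⟨a, b⟩ hab
          rw [mem_coe, mem_filter, mem_filter] at hab
          obtain ⟨⟨_, h4⟩, h5⟩ := hab
          dsimp only at h4 h5
          subst h5
          simpa using h4
        · rintro ⟨a, b⟩ hab ⟨a', b'⟩ hab' h
          rw [mem_coe, mem_filter] at hab hab'
          exact Prod.ext (hab.2.trans hab'.2.symm) h
      refine (sum_le_sum fun i _ => h3 i).trans ?_
      rw [sum_const, Finset.card_univ, ZMod.card, smul_eq_mul]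
    refine le_trans ?_ h2
    refine Finset.card_le_card_of_injOn (fun q => (seg q.1, seg q.2)) ?_ ?_
    · intro q hq
      have h3 : M.Adj q.1 q.2 := by simpa using hq
      rw [hM] at h3
      rw [mem_coe, mem_filter]
      exact ⟨mem_univ _, h3.1⟩
    · intro q hq q' hq' h
      have h3 : M.Adj q.1 q.2 := by simpa using hq
      have h4 : M.Adj q'.1 q'.2 := by simpa using hq'
      rw [hM] at h3 h4
      obtain ⟨h5, h6⟩ := Prod.ext_iff.1 h
      dsimp only at h5 h6
      refine Prod.ext ?_ ?_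
      · rw [← h3.2.1, ← h4.2.1, h5, h6]
      · rw [← h3.2.2, ← h4.2.2, h5, h6]

end Pool.Agent.AvgConn
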