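import Pool.Agent.Work.MP_88992e_co.Basic

/-!
# Robust graphs: sparse on small sets, large boundaries on large sets
-/

namespace Pool.Agent.AvgConn

open Finset
open scoped Classical

variable {V : Type*} [Fintype V]

/-- the non-isolated vertices -/
noncomputable def supp (G : SimpleGraph V) : Finset V := {v | deg G v ≠ 0}

/-- robust graphs -/
structure Rob (G : SimpleGraph V) (t lam K : ℕ) : Prop where
  le : ∀ v, deg G v ≤ t
  sparse : ∀ X : Finset V, X.Nonempty → #X ≤ K → ew G X X + 2 ≤ 2 * #X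
  cut : ∀ X : Finset V, X ⊆ supp G → lam ≤ #X → lam ≤ #(supp G \ X) → lam ≤ ew G X Xᶜ
  def_le : ∑ v ∈ supp G, (3 - deg G v) ≤ 2

end Pool.Agent.AvgConn
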