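import Pool.Agent.Work.MP_88992e_co.Basic

/-!
# Segments on a cycle: definitions
-/

namespace Pool.Agent.AvgConn

open Finset
open scoped Classical

universe u

/-- the segments `i` and `j` are neither equal nor neighbours -/
def far {L : ℕ} (i j : ZMod L) : Prop := j ≠ i ∧ j ≠ i + 1 ∧ i ≠ j + 1

section

variable {V : Type u} {L : ℕ}

/-- edges join far segments, the neighbours of a vertex lie in different segments -/
def Nice (seg : V → ZMod L) (H : SimpleGraph V) : Prop :=
  (∀ u w, H.Adj u w → far (seg u) (seg w)) ∧
  ∀ u w w', H.Adj u w → H.Adj u w' → seg w = seg w' → w = w'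

/-- every vertex has a segment and a position in it, positions start at `0` without gaps -/
structure Coord (seg : V → ZMod L) (pos : V → ℕ) : Prop where
  inj : ∀ u v, seg u = seg v → pos u = pos v → u = v
  down : ∀ v p, pos v = p + 1 → ∃ w, seg w = seg v ∧ pos w = p
  zero : ∀ i, ∃ v, seg v = i ∧ pos v = 0

/-- `v` is the successor of `u` in the cyclic order -/
def nxt (seg : V → ZMod L) (pos : V → ℕ) (u v : V) : Prop :=
  (seg v = seg u ∧ pos v = pos u + 1) ∨
  (seg v = seg u + 1 ∧ pos v = 0 ∧ ∀ w, seg w = seg u → pos w ≤ pos u)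

/-- the cycle through all vertices, segment after segment -/
def ring (seg : V → ZMod L) (pos : V → ℕ) : SimpleGraph V := SimpleGraph.fromRel (nxt seg pos)

variable [Fintype V]

/-- the vertices of the segment `i` -/
noncomputable def sg (seg : V → ZMod L) (i : ZMod L) : Finset V := {v | seg v = i}

/-- the total weight of the segment `i` -/
noncomputable def segW (seg : V → ZMod L) (g : V → ℕ) (i : ZMod L) : ℕ := ∑ v ∈ sg seg i, g v

/-- the vertices that cannot be joined to `x` -/
noncomputable def bad (seg : V → ZMod L) (H : SimpleGraph V) (x : V) : Finset V :=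
  {a | ¬ far (seg x) (seg a) ∨ (∃ w, H.Adj x w ∧ seg w = seg a) ∨ ∃ w, H.Adj a w ∧ seg w = seg x}

/-- a set that lies on one side of every cut it does not meet -/
def Lk (G : SimpleGraph V) (T : Finset V) : Prop :=
  ∀ A : Finset V, (∃ x ∈ T, x ∈ A) → (∀ x ∈ T, x ∉ nb G A) → T ⊆ A

end

end Pool.Agent.AvgConn
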