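import Pool.Agent.Work.MP_88992e_co.SqDefs
import Pool.Agent.Work.MP_88992e_co.Base3

/-!
# Adding an edge and swapping an edge in a nice graph
-/

namespace Pool.Agent.AvgConn

open Finset
open scoped Classical

universe u

variable {V : Type u} [Fintype V] {L : ℕ} [NeZero L]

omit [NeZero L] in
lemma swp_far_comm {i j : ZMod L} (h : far i j) : far j i :=
  ⟨h.1.symm, h.2.2, h.2.1⟩

omit [NeZero L] in
lemma swp_mem_bad {seg : V → ZMod L} {H : SimpleGraph V} {x a : V} :
    a ∈ bad seg H x ↔ (¬ far (seg x) (seg a) ∨ (∃ w, H.Adj x w ∧ seg w = seg a) ∨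
      ∃ w, H.Adj a w ∧ seg w = seg x) := by
  simp [bad]

omit [NeZero L] in
theorem bad_comm {seg : V → ZMod L} {H : SimpleGraph V} {x y : V} (h : y ∈ bad seg H x) :
    x ∈ bad seg H y := by
  rw [swp_mem_bad] at h ⊢
  rcases h with h | h | h
  · exact Or.inl fun h1 => h (swp_far_comm h1)
  · exact Or.inr (Or.inr h)
  · exact Or.inr (Or.inl h)

omit [NeZero L] in
lemma swp_not_bad {seg : V → ZMod L} {H : SimpleGraph V} {x y : V} (h : y ∉ bad seg H x) :
    far (seg x) (seg y) ∧ (∀ w, H.Adj x w → seg w ≠ seg y) ∧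
      (∀ w, H.Adj y w → seg w ≠ seg x) := by
  rw [swp_mem_bad] at h
  push Not at h
  exact ⟨h.1, h.2.1, h.2.2⟩

omit [NeZero L] in
lemma swp_nice_addE {seg : V → ZMod L} {H : SimpleGraph V} (hH : Nice seg H) {x y : V}
    (hxy : y ∉ bad seg H x) : Nice seg (addE H x y) := by
  obtain ⟨h1, h2, h3⟩ := swp_not_bad hxy
  constructor
  · intro u w h
    rw [addE_adj] at h
    rcases h with h | ⟨h, _⟩
    · exact hH.1 u w h
    · rw [Sym2.eq_iff] at h
      rcases h with ⟨rfl, rfl⟩ | ⟨rfl, rfl⟩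
      · exact h1
      · exact swp_far_comm h1
  · intro u w w' hw hw' hs
    rw [addE_adj] at hw hw'
    rcases hw with hw | ⟨hw, _⟩
    · rcases hw' with hw' | ⟨hw', _⟩
      · exact hH.2 u w w' hw hw' hs
      · rw [Sym2.eq_iff] at hw'
        rcases hw' with ⟨rfl, rfl⟩ | ⟨rfl, rfl⟩
        · exact absurd hs (h2 w hw)
        · exact absurd hs (h3 w hw)
    · rw [Sym2.eq_iff] at hw
      rcases hw' with hw' | ⟨hw', _⟩
      · rcases hw with ⟨rfl, rfl⟩ | ⟨rfl, rfl⟩
        · exact absurd hs.symm (h2 w' hw')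
        · exact absurd hs.symm (h3 w' hw')
      · rw [Sym2.eq_iff] at hw'
        rcases hw with ⟨rfl, rfl⟩ | ⟨rfl, rfl⟩
        · rcases hw' with ⟨_, rfl⟩ | ⟨h4, h5⟩
          · rfl
          · rw [h5, ← h4]
        · rcases hw' with ⟨h4, h5⟩ | ⟨_, rfl⟩
          · rw [h5, ← h4]
          · rfl

lemma swp_deg_addE {H : SimpleGraph V} {x y : V} (hxy : x ≠ y) (h : ¬ H.Adj x y) (v : V) :
    deg (addE H x y) v = deg H v + (if v = x then 1 else 0) + (if v = y then 1 else 0) := by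
  by_cases h1 : v = x
  · subst h1
    rw [deg_addE_left hxy h, if_pos rfl, if_neg hxy]
  · by_cases h2 : v = y
    · subst h2
      rw [deg_addE_right hxy h, if_neg h1, if_pos rfl]
    · rw [deg_addE_other h1 h2, if_neg h1, if_neg h2, add_zero, add_zero]

omit [NeZero L] in
lemma swp_ne {seg : V → ZMod L} {H : SimpleGraph V} {x y : V} (hxy : y ∉ bad seg H x) :
    x ≠ y ∧ ¬ H.Adj x y := by
  obtain ⟨h1, h2, h3⟩ := swp_not_bad hxy
  refine ⟨fun h => ?_, fun h => h2 y h rfl⟩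
  subst h
  exact h1.1 rfl

omit [NeZero L] in
theorem Nice.add {seg : V → ZMod L} {H : SimpleGraph V} (hH : Nice seg H) {x y : V}
    (hxy : y ∉ bad seg H x) :
    ∃ H' : SimpleGraph V, Nice seg H' ∧ H ≤ H' ∧
      ∀ v, deg H' v = deg H v + (if v = x then 1 else 0) + (if v = y then 1 else 0) :=
  ⟨addE H x y, swp_nice_addE hH hxy, le_addE H x y,
    swp_deg_addE (swp_ne hxy).1 (swp_ne hxy).2⟩

omit [NeZero L] in
lemma swp_bad_mono {seg : V → ZMod L} {H H1 : SimpleGraph V} (h : H1 ≤ H) {x y : V}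
    (hy : y ∉ bad seg H x) : y ∉ bad seg H1 x := by
  intro h1
  apply hy
  rw [swp_mem_bad] at h1 ⊢
  rcases h1 with h1 | ⟨w, h1, h2⟩ | ⟨w, h1, h2⟩
  · exact Or.inl h1
  · exact Or.inr (Or.inl ⟨w, h h1, h2⟩)
  · exact Or.inr (Or.inr ⟨w, h h1, h2⟩)

omit [NeZero L] in
theorem Nice.swap {seg : V → ZMod L} {H : SimpleGraph V} (hH : Nice seg H) {x y a b : V}
    (hab : H.Adj a b) (hxy : y ∈ bad seg H x) (ha : a ∉ bad seg H x) (hb : b ∉ bad seg H y) :
    ∃ H' : SimpleGraph V, Nice seg H' ∧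
      (∀ p q, H.Adj p q → s(p, q) ≠ s(a, b) → H'.Adj p q) ∧
      ∀ v, deg H' v = deg H v + (if v = x then 1 else 0) + (if v = y then 1 else 0) := by
  set H1 := H.deleteEdges {s(a, b)} with hH1
  have hle : H1 ≤ H := SimpleGraph.deleteEdges_le _
  have hadj : ∀ p q, H.Adj p q → s(p, q) ≠ s(a, b) → H1.Adj p q := by
    intro p q hp hq
    rw [hH1, SimpleGraph.deleteEdges_adj]
    exact ⟨hp, by simpa using hq⟩
  have hnab : ¬ H1.Adj a b := by
    rw [hH1, SimpleGraph.deleteEdges_adj]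
    simp
  have hHadd : H = addE H1 a b := by
    ext p q
    rw [addE_adj]
    constructor
    · intro h
      by_cases hs : s(p, q) = s(a, b)
      · exact Or.inr ⟨hs, h.ne⟩
      · exact Or.inl (hadj p q h hs)
    · rintro (h | ⟨h, _⟩)
      · exact hle h
      · rw [Sym2.eq_iff] at h
        rcases h with ⟨rfl, rfl⟩ | ⟨rfl, rfl⟩
        · exact hab
        · exact hab.symm
  have hdeg : ∀ v, deg H v = deg H1 v + (if v = a then 1 else 0) + (if v = b then 1 else 0) := by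
    intro v
    conv_lhs => rw [hHadd]
    exact swp_deg_addE hab.ne hnab v
  have hN1 : Nice seg H1 :=
    ⟨fun u w h => hH.1 u w (hle h), fun u w w' h h' hs => hH.2 u w w' (hle h) (hle h') hs⟩
  have ha1 : a ∉ bad seg H1 x := swp_bad_mono hle ha
  have hN2 := swp_nice_addE hN1 ha1
  have hfar : seg b ≠ seg a := (hH.1 a b hab).1
  have hb1 : b ∉ bad seg H1 y := swp_bad_mono hle hb
  have hb2 : b ∉ bad seg (addE H1 x a) y := by
    obtain ⟨h1, h2, h3⟩ := swp_not_bad hb1
    intro h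
    rw [swp_mem_bad] at h
    rcases h with h | ⟨w, h, hw⟩ | ⟨w, h, hw⟩
    · exact h h1
    · rw [addE_adj] at h
      rcases h with h | ⟨h, _⟩
      · exact h2 w h hw
      · rw [Sym2.eq_iff] at h
        rcases h with ⟨rfl, rfl⟩ | ⟨rfl, rfl⟩
        · exact hfar hw.symm
        · exact ha hxy
    · rw [addE_adj] at h
      rcases h with h | ⟨h, _⟩
      · exact h3 w h hw
      · rw [Sym2.eq_iff] at h
        rcases h with ⟨rfl, rfl⟩ | ⟨rfl, rfl⟩
        · exact hb (bad_comm hxy)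
        · exact hfar rfl
  refine ⟨addE (addE H1 x a) y b, swp_nice_addE hN2 hb2, ?_, ?_⟩
  · intro p q hp hq
    exact le_addE _ _ _ (le_addE _ _ _ (hadj p q hp hq))
  · intro v
    rw [swp_deg_addE (swp_ne hb2).1 (swp_ne hb2).2, swp_deg_addE (swp_ne ha1).1 (swp_ne ha1).2,
      hdeg v]
    ring

end Pool.Agent.AvgConn
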